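import Mathlib
import Pool.Agent.Y822.Cnt

/-! Correlations of centred rough divisor sums below the level one half. -/

set_option autoImplicit false

namespace Pool.Agent.Y822

open Finset

/-- centred divisor indicator -/
noncomputable def cen (d m : ℕ) : ℝ := (if d ∣ m then 1 else 0) - 1 / (d : ℝ)

/-- coefficients supported on squarefree numbers without prime factors `≤ y` -/
structure Co (y : ℕ) (c : ℕ → ℝ) : Prop where
  bd : ∀ d, |c d| ≤ 3 ^ d.primeFactors.card
  supp : ∀ d, c d ≠ 0 → Squarefree d ∧ Ro y d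

/-- centred divisor sum on the rough numbers -/
noncomputable def GF (y D : ℕ) (c : ℕ → ℝ) (m : ℕ) : ℝ := ro y m * ∑ d ∈ Icc 1 D, c d * cen d m

/-- primes in `(y, D]` -/
def PP (y D : ℕ) : Finset ℕ := (Ioc y D).filter Nat.Prime

/-- majorant of the coefficient sums -/
noncomputable def EE (y D : ℕ) : ℝ := ∏ p ∈ PP y D, (1 + 3 / (p : ℝ))

lemma mem_PP {y D p : ℕ} : p ∈ PP y D ↔ (y < p ∧ p ≤ D) ∧ p.Prime := by
  unfold PP; rw [mem_filter, mem_Ioc]

lemma EE_pos (y D : ℕ) : 0 < EE y D := by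
  unfold EE
  exact prod_pos fun p _ => by positivity

lemma one_le_EE (y D : ℕ) : 1 ≤ EE y D := by
  unfold EE
  calc (1 : ℝ) = ∏ _p ∈ PP y D, (1 : ℝ) := by rw [prod_const_one]
    _ ≤ ∏ p ∈ PP y D, (1 + 3 / (p : ℝ)) := by
        refine prod_le_prod (fun _ _ => zero_le_one) fun p _ => ?_
        have : 0 ≤ 3 / (p : ℝ) := by positivity
        linarith

/-- the relevant moduli -/
noncomputable def SD (y D : ℕ) : Finset ℕ := by
  classical
  exact (Icc 1 D).filter (fun d => Squarefree d ∧ Ro y d)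

lemma mem_SD {y D d : ℕ} : d ∈ SD y D ↔ (1 ≤ d ∧ d ≤ D) ∧ Squarefree d ∧ Ro y d := by
  classical
  unfold SD; rw [mem_filter, mem_Icc]

lemma pf_sub {y D d : ℕ} (h : d ∈ SD y D) : d.primeFactors ⊆ PP y D := by
  intro p hp
  rw [mem_SD] at h
  have hpp := Nat.prime_of_mem_primeFactors hp
  have hpd := Nat.dvd_of_mem_primeFactors hp
  rw [mem_PP]
  refine ⟨⟨?_, (Nat.le_of_dvd h.1.1 hpd).trans h.1.2⟩, hpp⟩
  by_contra hle
  push Not at hle
  exact h.2.2 p hpp hle hpd

lemma prod_pf {y D d : ℕ} (h : d ∈ SD y D) : ∏ p ∈ d.primeFactors, p = d :=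
  Nat.prod_primeFactors_of_squarefree (mem_SD.1 h).2.1

/-- sum of `3^ω(d)/d` over squarefree rough `d` -/
lemma sum_div_le (y D : ℕ) : ∑ d ∈ SD y D, (3 : ℝ) ^ d.primeFactors.card / d ≤ EE y D := by
  classical
  have h1 : ∀ d ∈ SD y D, (3 : ℝ) ^ d.primeFactors.card / d = ∏ p ∈ d.primeFactors, (3 / (p : ℝ)) := by
    intro d hd
    rw [prod_div_distrib, prod_const]
    congr 1
    conv_lhs => rw [← prod_pf hd]
    push_cast
    rfl
  rw [sum_congr rfl h1]
  unfold EE
  rw [prod_one_add]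
  have hinj : Set.InjOn Nat.primeFactors (SD y D : Set ℕ) := by
    intro d hd d' hd' h
    rw [← prod_pf (mem_coe.1 hd), ← prod_pf (mem_coe.1 hd'), h]
  rw [← sum_image (f := fun T : Finset ℕ => ∏ p ∈ T, (3 / (p : ℝ))) hinj]
  refine sum_le_sum_of_subset_of_nonneg ?_ (fun T _ _ => prod_nonneg fun p _ => by positivity)
  intro T hT
  rw [mem_image] at hT
  obtain ⟨d, hd, rfl⟩ := hT
  exact mem_powerset.2 (pf_sub hd)

/-- the same with a prime condition -/
lemma sum_div_le' (y D p : ℕ) (hp : p.Prime) :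
    ∑ d ∈ (SD y D).filter (fun d => p ∣ d), (3 : ℝ) ^ d.primeFactors.card / d ≤ 3 / p * EE y D := by
  classical
  have h1 : ∀ d ∈ (SD y D).filter (fun d => p ∣ d), (3 : ℝ) ^ d.primeFactors.card / d =
      3 / p * ((3 : ℝ) ^ (d / p).primeFactors.card / ((d / p : ℕ) : ℝ)) := by
    intro d hd
    rw [mem_filter, mem_SD] at hd
    obtain ⟨⟨hd1, hsq, hro⟩, hpd⟩ := hd
    obtain ⟨e, rfl⟩ := hpd
    have he0 : e ≠ 0 := by
      rintro rfl
      simp at hsq
    have hcop : Nat.Coprime p e := by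
      rw [Nat.Prime.coprime_iff_not_dvd hp]
      rintro ⟨t, rfl⟩
      have := hsq p ⟨t, by ring⟩
      exact hp.one_lt.ne' (Nat.isUnit_iff.1 this)
    rw [Nat.mul_div_cancel_left e hp.pos, Nat.Coprime.primeFactors_mul hcop,
      card_union_of_disjoint hcop.disjoint_primeFactors, hp.primeFactors, card_singleton, pow_add,
      pow_one]
    have hp0 : (p : ℝ) ≠ 0 := by exact_mod_cast hp.ne_zero
    have he0' : (e : ℝ) ≠ 0 := by exact_mod_cast he0
    push_cast
    field_simp
  rw [sum_congr rfl h1, ← mul_sum]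
  refine mul_le_mul_of_nonneg_left ?_ (by positivity)
  refine le_trans ?_ (sum_div_le y D)
  have hinj : Set.InjOn (fun d => d / p) (((SD y D).filter (fun d => p ∣ d) : Finset ℕ) : Set ℕ) := by
    intro d hd d' hd' h
    rw [mem_coe, mem_filter] at hd hd'
    have h' : d / p = d' / p := h
    rw [← Nat.div_mul_cancel hd.2, ← Nat.div_mul_cancel hd'.2, h']
  rw [← sum_image (f := fun d : ℕ => (3 : ℝ) ^ d.primeFactors.card / (d : ℝ)) hinj]
  refine sum_le_sum_of_subset_of_nonneg ?_ (fun T _ _ => by positivity)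
  intro e he
  rw [mem_image] at he
  obtain ⟨d, hd, rfl⟩ := he
  rw [mem_filter, mem_SD] at hd
  obtain ⟨⟨⟨hd1, hd2⟩, hsq, hro⟩, hpd⟩ := hd
  rw [mem_SD]
  have hdd : d / p ∣ d := Nat.div_dvd_of_dvd hpd
  refine ⟨⟨Nat.div_pos (Nat.le_of_dvd hd1 hpd) hp.pos, (Nat.div_le_self d p).trans hd2⟩,
    hsq.squarefree_of_dvd hdd, fun r hr hry hrd => hro r hr hry (hrd.trans hdd)⟩

/-- pointwise divisor bound -/
lemma card_big_le (y m : ℕ) (hy : 2 ≤ y) (hm : 1 ≤ m) :
    (m.primeFactors.filter (fun p => y < p)).card ≤ Nat.log y m := by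
  refine Nat.le_log_of_pow_le (by omega) ?_
  calc y ^ (m.primeFactors.filter (fun p => y < p)).card
      = ∏ _p ∈ m.primeFactors.filter (fun p => y < p), y := by rw [prod_const]
    _ ≤ ∏ p ∈ m.primeFactors.filter (fun p => y < p), p :=
        prod_le_prod' fun p hp => (mem_filter.1 hp).2.le
    _ ≤ ∏ p ∈ m.primeFactors, p := by
        refine prod_le_prod_of_subset_of_one_le' (filter_subset _ _) ?_
        intro p hp _
        exact (Nat.prime_of_mem_primeFactors hp).one_lt.le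
    _ ≤ m := Nat.le_of_dvd hm (Nat.prod_primeFactors_dvd m)

lemma sum_dvd_le (y D m M : ℕ) (hy : 2 ≤ y) (hm : 1 ≤ m) (hM : m ≤ M) :
    ∑ d ∈ (SD y D).filter (fun d => d ∣ m), (3 : ℝ) ^ d.primeFactors.card ≤ 4 ^ Nat.log y M := by
  classical
  set Q := m.primeFactors.filter (fun p => y < p) with hQ
  have hinj : Set.InjOn Nat.primeFactors
      (((SD y D).filter (fun d => d ∣ m) : Finset ℕ) : Set ℕ) := by
    intro d hd d' hd' h
    rw [mem_coe, mem_filter] at hd hd'
    rw [← prod_pf hd.1, ← prod_pf hd'.1, h]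
  rw [← sum_image (f := fun T : Finset ℕ => (3 : ℝ) ^ T.card) hinj]
  calc ∑ T ∈ ((SD y D).filter (fun d => d ∣ m)).image Nat.primeFactors, (3 : ℝ) ^ T.card
      ≤ ∑ T ∈ Q.powerset, (3 : ℝ) ^ T.card := by
        refine sum_le_sum_of_subset_of_nonneg ?_ (fun T _ _ => by positivity)
        intro T hT
        rw [mem_image] at hT
        obtain ⟨d, hd, rfl⟩ := hT
        rw [mem_filter] at hd
        rw [mem_powerset]
        intro p hp
        have := pf_sub hd.1 hp
        rw [mem_PP] at this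
        rw [hQ, mem_filter]
        refine ⟨?_, this.1.1⟩
        exact Nat.mem_primeFactors.2 ⟨this.2, (Nat.dvd_of_mem_primeFactors hp).trans hd.2, by omega⟩
    _ = 4 ^ Q.card := by
        have := Finset.sum_pow_mul_eq_add_pow (3 : ℝ) 1 Q
        simp only [one_pow, mul_one] at this
        rw [this]
        norm_num
    _ ≤ 4 ^ Nat.log y M := by
        refine pow_le_pow_right₀ (by norm_num) ?_
        exact (card_big_le y m hy hm).trans (Nat.log_mono_right hM)

/-- absolute version of the centred indicator -/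
noncomputable def acen (d m : ℕ) : ℝ := (if d ∣ m then 1 else 0) + 1 / (d : ℝ)

lemma acen_nonneg (d m : ℕ) : 0 ≤ acen d m := by
  unfold acen
  split_ifs <;> positivity

lemma abs_cen_le (d m : ℕ) : |cen d m| ≤ acen d m := by
  unfold cen acen
  have : 0 ≤ 1 / (d : ℝ) := by positivity
  split_ifs
  · rw [abs_le]; constructor <;> linarith
  · rw [abs_le]; constructor <;> linarith

section
variable {y D : ℕ} {c : ℕ → ℝ}

lemma sum_SD (hc : Co y c) (f : ℕ → ℝ) :
    ∑ d ∈ Icc 1 D, c d * f d = ∑ d ∈ SD y D, c d * f d := by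
  classical
  unfold SD
  rw [sum_filter]
  refine sum_congr rfl fun d _ => ?_
  by_cases h : c d = 0
  · simp [h]
  · rw [if_pos (hc.supp d h)]

lemma sum_c_div (hc : Co y c) : ∑ d ∈ SD y D, |c d| / d ≤ EE y D := by
  refine le_trans (sum_le_sum fun d _ => ?_) (sum_div_le y D)
  exact div_le_div_of_nonneg_right (hc.bd d) (Nat.cast_nonneg d)

lemma sum_c_abs (hc : Co y c) : ∑ d ∈ SD y D, |c d| ≤ D * EE y D := by
  have h : ∀ d ∈ SD y D, |c d| ≤ D * (|c d| / d) := by
    intro d hd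
    have hd' := (mem_SD.1 hd).1
    have h1 : (0 : ℝ) < d := by exact_mod_cast hd'.1
    have h2 : (d : ℝ) ≤ D := by exact_mod_cast hd'.2
    rw [mul_div_assoc', le_div_iff₀ h1, mul_comm]
    exact mul_le_mul_of_nonneg_right h2 (abs_nonneg _)
  calc ∑ d ∈ SD y D, |c d| ≤ ∑ d ∈ SD y D, D * (|c d| / d) := sum_le_sum h
    _ = D * ∑ d ∈ SD y D, |c d| / d := by rw [mul_sum]
    _ ≤ D * EE y D := mul_le_mul_of_nonneg_left (sum_c_div hc) (Nat.cast_nonneg _)

/-- pointwise bound for divisor sums -/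
lemma abs_ds_le (hc : Co y c) (hy : 2 ≤ y) {m M : ℕ} (hm : 1 ≤ m) (hM : m ≤ M) :
    ∑ d ∈ SD y D, |c d| * (if d ∣ m then 1 else 0) ≤ 4 ^ Nat.log y M := by
  classical
  have : ∀ d ∈ SD y D, |c d| * (if d ∣ m then 1 else 0) ≤
      if d ∣ m then (3 : ℝ) ^ d.primeFactors.card else 0 := by
    intro d _
    split_ifs
    · rw [mul_one]; exact hc.bd d
    · simp
  refine (sum_le_sum this).trans ?_
  rw [← sum_filter]
  exact sum_dvd_le y D m M hy hm hM

lemma abs_GF_le (hc : Co y c) (hy : 2 ≤ y) {m M : ℕ} (hm : 1 ≤ m) (hM : m ≤ M) :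
    |GF y D c m| ≤ 4 ^ Nat.log y M + EE y D := by
  unfold GF
  rw [abs_mul, abs_of_nonneg (ro_nonneg y m), sum_SD hc]
  calc ro y m * |∑ d ∈ SD y D, c d * cen d m|
      ≤ 1 * |∑ d ∈ SD y D, c d * cen d m| :=
        mul_le_mul_of_nonneg_right (ro_le_one y m) (abs_nonneg _)
    _ = |∑ d ∈ SD y D, c d * cen d m| := one_mul _
    _ ≤ ∑ d ∈ SD y D, |c d * cen d m| := abs_sum_le_sum_abs _ _
    _ ≤ ∑ d ∈ SD y D, (|c d| * (if d ∣ m then 1 else 0) + |c d| / d) := by
        refine sum_le_sum fun d _ => ?_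
        rw [abs_mul]
        calc |c d| * |cen d m| ≤ |c d| * acen d m :=
              mul_le_mul_of_nonneg_left (abs_cen_le d m) (abs_nonneg _)
          _ = _ := by unfold acen; ring
    _ ≤ _ := by
        rw [sum_add_distrib]
        exact add_le_add (abs_ds_le hc hy hm hM) (sum_c_div hc)

/-- diagonal -/
lemma diag_le (hc : Co y c) (hy : 2 ≤ y) (N a : ℕ) (ha : a ≤ N) :
    ∑ n ∈ Icc 1 N, GF y D c (n + a) ^ 2 ≤ N * (4 ^ Nat.log y (2 * N) + EE y D) ^ 2 := by
  calc ∑ n ∈ Icc 1 N, GF y D c (n + a) ^ 2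
      ≤ ∑ _n ∈ Icc 1 N, ((4 : ℝ) ^ Nat.log y (2 * N) + EE y D) ^ 2 := by
        refine sum_le_sum fun n hn => ?_
        rw [mem_Icc] at hn
        rw [← sq_abs]
        exact pow_le_pow_left₀ (abs_nonneg _) (abs_GF_le hc hy (by omega) (by omega)) 2
    _ = _ := by rw [sum_const, Nat.card_Icc, nsmul_eq_mul]; simp

/-- truncated local majorant -/
noncomputable def Tp (y D : ℕ) (c : ℕ → ℝ) (p m : ℕ) : ℝ :=
  ∑ d ∈ SD y D, |c d| * (if p ∣ d then acen d m else 0)

lemma Tp_nonneg (p m : ℕ) : 0 ≤ Tp y D c p m := by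
  refine sum_nonneg fun d _ => mul_nonneg (abs_nonneg _) ?_
  split_ifs
  · exact acen_nonneg d m
  · exact le_rfl

lemma Tp_le (hc : Co y c) (hy : 2 ≤ y) {p m M : ℕ} (hp : p.Prime) (hm : 1 ≤ m) (hM : m ≤ M) :
    Tp y D c p m ≤ (4 ^ Nat.log y M + 3 * EE y D) * acen p m := by
  classical
  have h1 : Tp y D c p m ≤ (if p ∣ m then 1 else 0) * (4 : ℝ) ^ Nat.log y M + 3 / p * EE y D := by
    unfold Tp
    have h : ∀ d ∈ SD y D, |c d| * (if p ∣ d then acen d m else 0) ≤
        (if p ∣ m then 1 else 0) * (|c d| * (if d ∣ m then 1 else 0)) +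
          (if p ∣ d then (3 : ℝ) ^ d.primeFactors.card / d else 0) := by
      intro d _
      by_cases hpd : p ∣ d
      · rw [if_pos hpd, if_pos hpd]
        unfold acen
        have h3 : |c d| * (1 / (d : ℝ)) ≤ (3 : ℝ) ^ d.primeFactors.card / d := by
          rw [mul_one_div]
          exact div_le_div_of_nonneg_right (hc.bd d) (Nat.cast_nonneg d)
        by_cases hdm : d ∣ m
        · rw [if_pos hdm, if_pos (hpd.trans hdm)]
          rw [mul_add]
          linarith
        · rw [if_neg hdm]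
          rw [mul_add]
          simp only [mul_zero, zero_add]
          exact h3
      · rw [if_neg hpd, if_neg hpd]
        have : 0 ≤ |c d| * (if d ∣ m then (1 : ℝ) else 0) := by
          refine mul_nonneg (abs_nonneg _) ?_
          split_ifs <;> norm_num
        split_ifs <;> simp
    refine (sum_le_sum h).trans ?_
    rw [sum_add_distrib, ← mul_sum, ← sum_filter]
    refine add_le_add ?_ (sum_div_le' y D p hp)
    refine mul_le_mul_of_nonneg_left (abs_ds_le hc hy hm hM) ?_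
    split_ifs <;> norm_num
  refine h1.trans ?_
  unfold acen
  have hE := (EE_pos y D).le
  have h4 : (0 : ℝ) ≤ 4 ^ Nat.log y M := by positivity
  have hp0 : (0 : ℝ) ≤ 1 / (p : ℝ) := by positivity
  have e : (3 : ℝ) / p * EE y D = 3 * EE y D * (1 / p) := by ring
  rw [e]
  split_ifs
  · nlinarith [mul_nonneg h4 hp0]
  · nlinarith [mul_nonneg h4 hp0]

end

/-- multiples of `p` in a shifted interval -/
lemma card_mult_le (N a p : ℕ) (hp : 1 ≤ p) :
    ∑ n ∈ Icc 1 N, (if p ∣ n + a then (1 : ℝ) else 0) ≤ N / p + 1 := by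
  rw [← sum_filter, sum_const, nsmul_eq_mul, mul_one]
  have h1 : ((Icc 1 N).filter (fun n => p ∣ n + a)).card ≤ N / p + 1 := by
    have h2 : ((Icc 1 N).filter (fun n => p ∣ n + a)).card ≤
        ((Ioc a (N + a)).filter (fun m => p ∣ m)).card := by
      refine card_le_card_of_injOn (fun n => n + a) ?_ ?_
      · intro n hn
        rw [mem_coe, mem_filter, mem_Icc] at hn
        rw [mem_coe, mem_filter, mem_Ioc]
        dsimp only
        exact ⟨⟨by omega, by omega⟩, hn.2⟩
      · intro n _ n' _ h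
        have h' : n + a = n' + a := h
        omega
    refine h2.trans ?_
    have h3 : (Ioc a (N + a)).filter (fun m => p ∣ m) ⊆
        (Ioc (a / p) ((N + a) / p)).image (fun t => p * t) := by
      intro m hm
      rw [mem_filter, mem_Ioc] at hm
      obtain ⟨⟨hm1, hm2⟩, t, rfl⟩ := hm
      rw [mem_image]
      refine ⟨t, ?_, rfl⟩
      rw [mem_Ioc]
      refine ⟨?_, ?_⟩
      · rw [Nat.div_lt_iff_lt_mul (by omega), mul_comm]; exact hm1
      · rw [Nat.le_div_iff_mul_le (by omega), mul_comm]; exact hm2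
    refine (card_le_card h3).trans (card_image_le.trans ?_)
    rw [Nat.card_Ioc]
    have h4 : (N + a) / p ≤ N / p + a / p + 1 := by
      have hN := Nat.lt_div_mul_add (a := N) (b := p) (by omega)
      have ha := Nat.lt_div_mul_add (a := a) (b := p) (by omega)
      rw [← Nat.lt_succ_iff, Nat.div_lt_iff_lt_mul (by omega)]
      have : (N / p + a / p + 1).succ * p = (N / p * p + p) + (a / p * p + p) := by
        rw [Nat.succ_eq_add_one]; ring
      omega
    rw [Nat.sub_le_iff_le_add]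
    calc (N + a) / p ≤ N / p + a / p + 1 := h4
      _ = N / p + 1 + a / p := by ring
  calc (((Icc 1 N).filter (fun n => p ∣ n + a)).card : ℝ) ≤ ((N / p + 1 : ℕ) : ℝ) := by
        exact_mod_cast h1
    _ ≤ N / p + 1 := by
        push_cast
        have := Nat.cast_div_le (α := ℝ) (m := N) (n := p)
        linarith

end Pool.Agent.Y822
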