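import Mathlib
import Pool.Agent.H387R2.U2
import Pool.Agent.H373R2.T7.SingLow
import Pool.Agent.H373R2.T7.SysMain
import Pool.Agent.Y822.Corr

/-! The Hardy-Littlewood constant: tail, lower bound, local densities. -/

set_option autoImplicit false

namespace Pool.Agent.Y822

open Finset Filter
open Pool.Agent.H373R2.T7 (pz Vz mem_pz local_low rhoA)
open Pool.Agent.H387R2.Uni (nuT Adm locT CT CT_hasProd)

lemma nuT_le_card (T : Finset ℕ) (p : ℕ) : nuT T p ≤ T.card := card_image_le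

lemma nuT_le_self (T : Finset ℕ) (p : ℕ) (hp : 0 < p) : nuT T p ≤ p := by
  unfold nuT
  calc (T.image (· % p)).card ≤ (range p).card := by
        refine card_le_card fun x hx => ?_
        rw [mem_image] at hx
        obtain ⟨t, _, rfl⟩ := hx
        exact mem_range.2 (Nat.mod_lt _ hp)
    _ = p := card_range p

lemma locT_nonneg' (T : Finset ℕ) {p : ℕ} (hp : 2 ≤ p) : 0 ≤ locT T p := by
  unfold locT
  have hp0 : (0 : ℝ) < p := by exact_mod_cast (by omega : 0 < p)
  have h1 : (nuT T p : ℝ) / p ≤ 1 := by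
    rw [div_le_one hp0]
    exact_mod_cast nuT_le_self T p (by omega)
  have h2 : (1 : ℝ) / p ≤ 1 := by
    rw [div_le_one hp0]
    exact_mod_cast (by omega : 1 ≤ p)
  exact div_nonneg (by linarith) (pow_nonneg (by linarith) _)

lemma locT_ge' (T : Finset ℕ) {p : ℕ} (hp : 2 ≤ p) (hTp : T.card ≤ p) :
    1 - (T.card : ℝ) ^ 2 * (1 / (p : ℝ) ^ 2) ≤ locT T p := by
  unfold locT
  set r := T.card with hr
  have hp0 : (0:ℝ) < p := by exact_mod_cast (by omega : 0 < p)
  have hp2 : (2:ℝ) ≤ p := by exact_mod_cast hp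
  set x : ℝ := 1 / p with hx
  have hx0 : 0 < x := by positivity
  have hx1 : x ≤ 1 / 2 := one_div_le_one_div_of_le (by norm_num) hp2
  have hrx : (r:ℝ) * x ≤ 1 := by
    rw [hx, mul_one_div, div_le_one hp0]
    exact_mod_cast hTp
  have h1 : (1 - x) ^ r * (1 + r * x) ≤ 1 := by
    have h2 : 1 + (r:ℝ) * x ≤ (1 + x) ^ r := one_add_mul_le_pow (by linarith) r
    calc (1 - x) ^ r * (1 + r * x) ≤ (1 - x) ^ r * (1 + x) ^ r :=
          mul_le_mul_of_nonneg_left h2 (pow_nonneg (by linarith) _)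
      _ = ((1 - x) * (1 + x)) ^ r := by rw [mul_pow]
      _ ≤ 1 := pow_le_one₀ (mul_nonneg (by linarith) (by linarith)) (by nlinarith)
  have h2 : 0 < (1 - x) ^ r := pow_pos (by linarith) _
  rw [le_div_iff₀ h2]
  have h3 : (nuT T p : ℝ) / p ≤ r * x := by
    rw [hx, mul_one_div]
    apply div_le_div_of_nonneg_right _ hp0.le
    exact_mod_cast nuT_le_card T p
  have h4 : 1 - (r:ℝ) ^ 2 * (1 / (p : ℝ) ^ 2) = (1 - r * x) * (1 + r * x) := by
    rw [hx]; field_simp; ring
  rw [h4]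
  calc (1 - r * x) * (1 + r * x) * (1 - x) ^ r = (1 - r * x) * ((1 - x) ^ r * (1 + r * x)) := by ring
    _ ≤ (1 - r * x) * 1 := mul_le_mul_of_nonneg_left h1 (by linarith)
    _ ≤ 1 - (nuT T p : ℝ) / p := by linarith

lemma one_sub_sum_le_prod {ι : Type*} (S : Finset ι) (f : ι → ℝ) (h0 : ∀ i ∈ S, 0 ≤ f i)
    (h1 : ∀ i ∈ S, f i ≤ 1) : 1 - ∑ i ∈ S, f i ≤ ∏ i ∈ S, (1 - f i) := by
  classical
  induction S using Finset.induction_on with
  | empty => simp
  | insert a S ha ih =>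
    rw [sum_insert ha, prod_insert ha]
    have ih' := ih (fun i hi => h0 i (mem_insert_of_mem hi)) fun i hi => h1 i (mem_insert_of_mem hi)
    have a0 := h0 a (mem_insert_self _ _)
    have a1 := h1 a (mem_insert_self _ _)
    have hs : 0 ≤ ∑ i ∈ S, f i := sum_nonneg fun i hi => h0 i (mem_insert_of_mem hi)
    have : (1 - f a) * (1 - ∑ i ∈ S, f i) ≤ (1 - f a) * ∏ i ∈ S, (1 - f i) :=
      mul_le_mul_of_nonneg_left ih' (by linarith)
    nlinarith

/-- truncated constant -/
noncomputable def PT (T : Finset ℕ) (y : ℕ) : ℝ := ∏ p ∈ pz y, locT T p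

lemma PT_nonneg (T : Finset ℕ) (y : ℕ) : 0 ≤ PT T y :=
  prod_nonneg fun _ hp => locT_nonneg' T (mem_pz.1 hp).2.two_le

/-- primes as naturals -/
def tN (p : Nat.Primes) : ℕ := (p : ℕ)

lemma tN_inj : Function.Injective tN := fun _ _ h => Nat.Primes.coe_nat_injective h

/-- the primes up to `y` as a finite set of primes -/
noncomputable def pzP (y : ℕ) : Finset Nat.Primes := by
  classical exact (pz y).attach.image (fun p => (⟨p.1, (mem_pz.1 p.2).2⟩ : Nat.Primes))

lemma mem_pzP {y : ℕ} {p : Nat.Primes} : p ∈ pzP y ↔ (p : ℕ) ≤ y := by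
  classical
  unfold pzP
  rw [mem_image]
  constructor
  · rintro ⟨a, _, rfl⟩
    exact (mem_pz.1 a.2).1
  · intro h
    exact ⟨⟨p.1, mem_pz.2 ⟨h, p.2⟩⟩, mem_attach _ _, rfl⟩

lemma prod_pzP (y : ℕ) (f : ℕ → ℝ) : ∏ p ∈ pzP y, f (p : ℕ) = ∏ p ∈ pz y, f p := by
  classical
  unfold pzP
  rw [prod_image]
  · rw [← prod_attach (pz y)]
  · intro a _ b _ hab
    have h9 : (a : ℕ) = b := congrArg (fun p : Nat.Primes => (p : ℕ)) hab
    exact Subtype.ext h9

/-- the tail of the product is almost at least one -/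
theorem CT_tail (T : Finset ℕ) (y : ℕ) (hy : 1 ≤ y) (hTy : T.card ^ 2 ≤ y) :
    (1 - (T.card : ℝ) ^ 2 / y) * PT T y ≤ CT T := by
  classical
  have hprod := CT_hasProd T
  rw [HasProd] at hprod
  have hy0 : (0:ℝ) < y := by exact_mod_cast hy
  refine ge_of_tendsto hprod ?_
  filter_upwards [eventually_ge_atTop (pzP y)] with F hF
  have hF' : pzP y ⊆ F := hF
  rw [← prod_sdiff hF', prod_pzP y (fun p => locT T p)]
  refine mul_le_mul_of_nonneg_right ?_ (PT_nonneg T y)
  have hbig : ∀ p ∈ F \ pzP y, y < (p : ℕ) := by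
    intro p hp
    rw [Finset.mem_sdiff, mem_pzP] at hp
    omega
  have hr : ∀ p ∈ F \ pzP y, T.card ≤ (p : ℕ) := by
    intro p hp
    have := hbig p hp
    have : T.card ≤ T.card ^ 2 := Nat.le_self_pow (by norm_num) _
    omega
  have h0 : ∀ p ∈ F \ pzP y, 0 ≤ (T.card : ℝ) ^ 2 * (1 / ((p : ℕ) : ℝ) ^ 2) := fun p _ => by
    positivity
  have h1 : ∀ p ∈ F \ pzP y, (T.card : ℝ) ^ 2 * (1 / ((p : ℕ) : ℝ) ^ 2) ≤ 1 := fun p hp => by
    have h3 : (T.card : ℝ) ≤ ((p : ℕ) : ℝ) := by exact_mod_cast hr p hp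
    have h4 : (0:ℝ) < ((p : ℕ) : ℝ) := by exact_mod_cast p.2.pos
    rw [mul_one_div, div_le_one (by positivity)]
    exact pow_le_pow_left₀ (Nat.cast_nonneg _) h3 2
  have hsum : ∑ p ∈ F \ pzP y, (T.card : ℝ) ^ 2 * (1 / ((p : ℕ) : ℝ) ^ 2) ≤ (T.card : ℝ) ^ 2 / y := by
    rw [← mul_sum]
    have h3 := inv_sq_gt hy ((F \ pzP y).image tN) (by
      intro p hp
      rw [mem_image] at hp
      obtain ⟨p', hp', rfl⟩ := hp
      exact hbig p' hp')
    rw [sum_image (fun a _ b _ hab => tN_inj hab)] at h3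
    calc (T.card : ℝ) ^ 2 * ∑ p ∈ F \ pzP y, (1 / ((p : ℕ) : ℝ) ^ 2) ≤ (T.card : ℝ) ^ 2 * (1 / y) :=
          mul_le_mul_of_nonneg_left h3 (by positivity)
      _ = _ := by ring
  have h2 := one_sub_sum_le_prod (F \ pzP y)
    (fun p => (T.card : ℝ) ^ 2 * (1 / ((p : ℕ) : ℝ) ^ 2)) h0 h1
  have h3 : ∏ p ∈ F \ pzP y, (1 - (T.card : ℝ) ^ 2 * (1 / ((p : ℕ) : ℝ) ^ 2)) ≤
      ∏ p ∈ F \ pzP y, locT T p := by
    apply Finset.prod_le_prod
    · intro p hp
      linarith [h1 p hp]
    · intro p hp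
      exact locT_ge' T p.2.two_le (hr p hp)
  linarith

/-- lower bound for the truncated and the full constant of admissible sets -/
theorem PT_low (k : ℕ) : ∃ c : ℝ, 0 < c ∧ ∀ T : Finset ℕ, T.card = k + 1 → Adm T →
    (∀ y, c ≤ PT T y) ∧ c ≤ CT T := by
  refine ⟨(1 / (3 * ((k + 1 : ℕ) : ℝ))) ^ (3 * (k + 1)) * Real.exp (-(2 * ((k + 1 : ℕ) : ℝ) ^ 2)) / 2,
    by positivity, fun T hT hA => ?_⟩
  have h : ∀ y, (1 / (3 * ((k + 1 : ℕ) : ℝ))) ^ (3 * (k + 1)) *
      Real.exp (-(2 * ((k + 1 : ℕ) : ℝ) ^ 2)) ≤ PT T y := by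
    intro y
    have h1 := local_low (k + 1) (by omega) (nuT T) y (fun p _ => hT ▸ nuT_le_card T p)
      (fun p hp => hA p (mem_pz.1 hp).2)
    unfold PT locT
    rw [hT]
    exact h1
  have hpos : 0 < (1 / (3 * ((k + 1 : ℕ) : ℝ))) ^ (3 * (k + 1)) *
      Real.exp (-(2 * ((k + 1 : ℕ) : ℝ) ^ 2)) := by positivity
  refine ⟨fun y => by linarith [h y], ?_⟩
  obtain ⟨y, hy⟩ : ∃ y, y = 2 * (k + 1) ^ 2 := ⟨_, rfl⟩
  have h2 := CT_tail T y (by rw [hy]; exact Nat.succ_le_of_lt (by positivity)) (by rw [hy, hT]; omega)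
  have hyr : (y : ℝ) = 2 * ((k : ℝ) + 1) ^ 2 := by rw [hy]; push_cast; ring
  have h3 : (T.card : ℝ) ^ 2 / y = 1 / 2 := by
    rw [hyr, hT]; push_cast; field_simp
  rw [h3] at h2
  linarith [h y]

/-- number of nonzero forbidden classes -/
lemma rho_eq (T : Finset ℕ) (hT : T.Nonempty) (p : ℕ) (hp : p.Prime) :
    rhoA (fun p n => ∃ s ∈ T.erase (sInf (T : Set ℕ)), p ∣ n + (s - sInf (T : Set ℕ))) p + 1 =
      nuT T p := by
  classical
  set m := sInf (T : Set ℕ) with hm
  have hmT : m ∈ T := by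
    have := Nat.sInf_mem (s := (T : Set ℕ)) (by exact_mod_cast hT)
    exact_mod_cast this
  have hmle : ∀ t ∈ T, m ≤ t := fun t ht => Nat.sInf_le (by exact_mod_cast ht)
  have hp0 := hp.pos
  set R := (range p).filter (fun r => ∃ s ∈ T, p ∣ r + (s - m)) with hR
  have h1 : R.card = nuT T p := by
    have himg : R = (T.image (· % p)).image (fun c => (m + (p - c)) % p) := by
      ext r
      rw [hR, mem_filter, mem_range, mem_image]
      constructor
      · rintro ⟨hr, s, hs, hd⟩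
        refine ⟨s % p, mem_image.2 ⟨s, hs, rfl⟩, ?_⟩
        have e1 : r + s ≡ m [MOD p] := by
          have h1 : r + (s - m) + m ≡ 0 + m [MOD p] :=
            Nat.ModEq.add_right m ((Nat.modEq_zero_iff_dvd).2 hd)
          have h2 : r + (s - m) + m = r + s := by have := hmle s hs; omega
          rw [h2, zero_add] at h1
          exact h1
        have e2 : (m + (p - s % p)) % p + s ≡ m [MOD p] := by
          have h1 : (m + (p - s % p)) % p + s ≡ m + (p - s % p) + s % p [MOD p] :=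
            Nat.ModEq.add (Nat.mod_modEq _ _) (Nat.mod_modEq _ _).symm
          have h2 : m + (p - s % p) + s % p = m + p := by
            have := Nat.mod_lt s hp0
            omega
          rw [h2] at h1
          exact h1.trans (by simp [Nat.ModEq])
        have e3 : (m + (p - s % p)) % p ≡ r [MOD p] :=
          Nat.ModEq.add_right_cancel' s (e2.trans e1.symm)
        exact Nat.ModEq.eq_of_lt_of_lt e3 (Nat.mod_lt _ hp0) hr
      · rintro ⟨c, hc, rfl⟩
        rw [mem_image] at hc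
        obtain ⟨s, hs, rfl⟩ := hc
        refine ⟨Nat.mod_lt _ hp0, s, hs, ?_⟩
        have h1 : (m + (p - s % p)) % p + (s - m) + m ≡ 0 + m [MOD p] := by
          have h2 : (m + (p - s % p)) % p + (s - m) + m = (m + (p - s % p)) % p + s := by
            have := hmle s hs; omega
          rw [h2, zero_add]
          have h3 : (m + (p - s % p)) % p + s ≡ m + (p - s % p) + s % p [MOD p] :=
            Nat.ModEq.add (Nat.mod_modEq _ _) (Nat.mod_modEq _ _).symm
          have h4 : m + (p - s % p) + s % p = m + p := by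
            have := Nat.mod_lt s hp0
            omega
          rw [h4] at h3
          exact h3.trans (by simp [Nat.ModEq])
        exact (Nat.modEq_zero_iff_dvd).1 (Nat.ModEq.add_right_cancel' m h1)
    rw [himg, card_image_of_injOn]
    · rfl
    · intro c hc c' hc' h
      rw [mem_coe, mem_image] at hc hc'
      obtain ⟨s, _, rfl⟩ := hc
      obtain ⟨s', _, rfl⟩ := hc'
      have h' : m + (p - s % p) ≡ m + (p - s' % p) [MOD p] := h
      have h2 : p - s % p ≡ p - s' % p [MOD p] := Nat.ModEq.add_left_cancel' m h'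
      have l1 := Nat.mod_lt s hp0
      have l2 := Nat.mod_lt s' hp0
      have h3 : (p - s % p) + (s % p + s' % p) ≡ (p - s' % p) + (s % p + s' % p) [MOD p] :=
        Nat.ModEq.add_right _ h2
      have e1 : (p - s % p) + (s % p + s' % p) = p + s' % p := by omega
      have e2 : (p - s' % p) + (s % p + s' % p) = p + s % p := by omega
      rw [e1, e2] at h3
      have h4 : s' % p ≡ s % p [MOD p] := Nat.ModEq.add_left_cancel' p h3
      exact (Nat.ModEq.eq_of_lt_of_lt h4 l2 l1).symm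
  have h0R : 0 ∈ R := by
    rw [hR, mem_filter, mem_range]
    exact ⟨hp0, m, hmT, by simp⟩
  have h2 : (range p).filter (fun r => ¬ p ∣ r ∧ ∃ s ∈ T.erase m, p ∣ r + (s - m)) = R.erase 0 := by
    ext r
    rw [mem_filter, mem_erase, hR, mem_filter, mem_range]
    constructor
    · rintro ⟨hr, hnd, s, hs, hd⟩
      refine ⟨?_, hr, s, mem_of_mem_erase hs, hd⟩
      rintro rfl
      exact hnd (dvd_zero p)
    · rintro ⟨hr0, hr, s, hs, hd⟩
      have hnd : ¬ p ∣ r := fun h => by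
        have := Nat.le_of_dvd (Nat.pos_of_ne_zero hr0) h
        omega
      refine ⟨hr, hnd, s, mem_erase.2 ⟨?_, hs⟩, hd⟩
      rintro rfl
      rw [Nat.sub_self, add_zero] at hd
      exact hnd hd
  unfold rhoA
  have h3 : ((range p).filter (fun r => ¬ p ∣ r ∧ ∃ s ∈ T.erase m, p ∣ r + (s - m))).card + 1 =
      R.card := by
    rw [h2]
    exact card_erase_add_one h0R
  rw [← h1, ← h3]
  congr 1
  exact congrArg card (filter_congr_decidable _ _ _)

end Pool.Agent.Y822
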