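import Mathlib
import Pool.Agent.Y822.CTt
import Pool.Agent.Helper256.KM.Mertens

/-! Upper bound for the tail of the Hardy-Littlewood constant; Mertens' product. -/

set_option autoImplicit false

namespace Pool.Agent.Y822

open Finset Filter
open Pool.Agent.H373R2.T7 (pz Vz mem_pz local_low rhoA)
open Pool.Agent.H387R2.Uni (nuT Adm locT CT CT_hasProd)

lemma one_sub_ge_exp {t : ℝ} (h0 : 0 ≤ t) (h1 : t ≤ 1 / 2) : Real.exp (-(2 * t)) ≤ 1 - t := by
  have h2 := Real.add_one_le_exp (2 * t)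
  have h3 := Real.exp_pos (2 * t)
  rw [Real.exp_neg, inv_le_iff_one_le_mul₀ h3]
  nlinarith

lemma locT_le_exp (T : Finset ℕ) {p : ℕ} (hp : 2 ≤ p) : locT T p ≤ Real.exp (2 * T.card / p) := by
  unfold locT
  have hp0 : (0 : ℝ) < p := by exact_mod_cast (by omega : 0 < p)
  have hp2 : (2 : ℝ) ≤ p := by exact_mod_cast hp
  have h1 : (1 : ℝ) / p ≤ 1 / 2 := one_div_le_one_div_of_le (by norm_num) hp2
  have h2 := one_sub_ge_exp (by positivity : 0 ≤ 1 / (p : ℝ)) h1
  have h3 : Real.exp (-(2 * T.card / p)) ≤ (1 - 1 / (p : ℝ)) ^ T.card := by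
    calc Real.exp (-(2 * T.card / p)) = Real.exp (-(2 * (1 / (p : ℝ)))) ^ T.card := by
          rw [← Real.exp_nat_mul]
          congr 1
          ring
      _ ≤ _ := pow_le_pow_left₀ (Real.exp_pos _).le h2 _
  have h4 : 0 < (1 - 1 / (p : ℝ)) ^ T.card := lt_of_lt_of_le (Real.exp_pos _) h3
  rw [div_le_iff₀ h4]
  have h5 : 0 ≤ (nuT T p : ℝ) / p := by positivity
  calc 1 - (nuT T p : ℝ) / p ≤ 1 := by linarith
    _ = Real.exp (2 * T.card / p) * Real.exp (-(2 * T.card / p)) := by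
        rw [← Real.exp_add, add_neg_cancel, Real.exp_zero]
    _ ≤ _ := mul_le_mul_of_nonneg_left h3 (Real.exp_pos _).le

lemma locT_le_one (T : Finset ℕ) {p : ℕ} (hp : 2 ≤ p) (h : nuT T p = T.card) : locT T p ≤ 1 := by
  unfold locT
  have hp0 : (0 : ℝ) < p := by exact_mod_cast (by omega : 0 < p)
  have hp2 : (2 : ℝ) ≤ p := by exact_mod_cast hp
  have h1 : (1 : ℝ) / p ≤ 1 / 2 := one_div_le_one_div_of_le (by norm_num) hp2
  have h4 : 0 < (1 - 1 / (p : ℝ)) ^ T.card := pow_pos (by linarith) _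
  rw [div_le_one h4, h]
  have h5 := one_add_mul_le_pow (a := -(1 / (p : ℝ))) (by linarith) T.card
  calc 1 - (T.card : ℝ) / p = 1 + T.card * (-(1 / (p : ℝ))) := by ring
    _ ≤ _ := h5
    _ = _ := by rw [← sub_eq_add_neg]

lemma bad_pair (T : Finset ℕ) {p : ℕ} (h : nuT T p ≠ T.card) : ∃ t ∈ T, ∃ t' ∈ T, t < t' ∧ p ∣ t' - t := by
  classical
  by_contra hn
  push Not at hn
  apply h
  unfold nuT
  rw [card_image_iff]
  intro t ht t' ht' he
  have he' : t % p = t' % p := he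
  by_contra hne
  rcases Nat.lt_or_gt_of_ne hne with hlt | hlt
  · exact hn t ht t' ht' hlt ((Nat.modEq_iff_dvd' hlt.le).1 he')
  · exact hn t' ht' t ht hlt ((Nat.modEq_iff_dvd' hlt.le).1 he'.symm)

/-- the tail of the product is not much larger than one -/
theorem CT_up (T : Finset ℕ) (M y : ℕ) (hT : ∀ t ∈ T, t ≤ M) (hy : 2 ≤ y) :
    CT T ≤ Real.exp (2 * (T.card : ℝ) ^ 3 * Nat.log y M / y) * PT T y := by
  classical
  have hprod := CT_hasProd T
  rw [HasProd] at hprod
  have hy0 : (0 : ℝ) < y := by exact_mod_cast (by omega : 0 < y)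
  refine le_of_tendsto hprod ?_
  filter_upwards [eventually_ge_atTop (pzP y)] with F hF
  have hF' : pzP y ⊆ F := hF
  rw [← prod_sdiff hF', prod_pzP y (fun p => locT T p)]
  refine mul_le_mul_of_nonneg_right ?_ (PT_nonneg T y)
  have hbig : ∀ p ∈ F \ pzP y, y < (p : ℕ) := by
    intro p hp
    rw [Finset.mem_sdiff, mem_pzP] at hp
    omega
  -- the bad primes
  set Bd := (F \ pzP y).filter (fun p : Nat.Primes => nuT T (p : ℕ) ≠ T.card) with hBd
  have hcard : (Bd.card : ℝ) ≤ (T.card : ℝ) ^ 2 * Nat.log y M := by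
    have h1 : Bd.image tN ⊆ (T ×ˢ T).biUnion (fun x => (x.2 - x.1).primeFactors.filter (fun p => y < p)) := by
      intro p hp
      rw [mem_image] at hp
      obtain ⟨q, hq, rfl⟩ := hp
      rw [hBd, mem_filter] at hq
      obtain ⟨t, ht, t', ht', hlt, hd⟩ := bad_pair T hq.2
      rw [mem_biUnion]
      refine ⟨(t, t'), mem_product.2 ⟨ht, ht'⟩, ?_⟩
      rw [mem_filter]
      exact ⟨Nat.mem_primeFactors.2 ⟨q.2, hd, by omega⟩, hbig q hq.1⟩
    have h2 : ∀ x ∈ T ×ˢ T, ((x.2 - x.1).primeFactors.filter (fun p => y < p)).card ≤ Nat.log y M := by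
      intro x hx
      rw [mem_product] at hx
      rcases Nat.eq_zero_or_pos (x.2 - x.1) with h0 | h0
      · rw [h0]; simp
      · refine (card_big_le y _ hy h0).trans (Nat.log_mono_right ?_)
        exact (Nat.sub_le _ _).trans (hT _ hx.2)
    have h3 : Bd.card ≤ T.card ^ 2 * Nat.log y M := by
      calc Bd.card = (Bd.image tN).card := (card_image_of_injective _ tN_inj).symm
        _ ≤ _ := card_le_card h1
        _ ≤ ∑ x ∈ T ×ˢ T, ((x.2 - x.1).primeFactors.filter (fun p => y < p)).card := card_biUnion_le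
        _ ≤ ∑ _x ∈ T ×ˢ T, Nat.log y M := sum_le_sum h2
        _ = T.card ^ 2 * Nat.log y M := by
            rw [sum_const, card_product, smul_eq_mul, sq]
    exact_mod_cast h3
  calc ∏ p ∈ F \ pzP y, locT T p ≤ ∏ p ∈ F \ pzP y, Real.exp (if nuT T (p : ℕ) ≠ T.card then
        2 * T.card / y else 0) := by
        refine prod_le_prod (fun p _ => locT_nonneg' T p.2.two_le) fun p hp => ?_
        split_ifs with h
        · refine (locT_le_exp T p.2.two_le).trans ?_
          apply Real.exp_le_exp.2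
          apply div_le_div_of_nonneg_left (by positivity) hy0
          exact_mod_cast (hbig p hp).le
        · rw [Real.exp_zero]
          push Not at h
          exact locT_le_one T p.2.two_le h
    _ = Real.exp (Bd.card * (2 * T.card / y)) := by
        rw [← Real.exp_sum, ← sum_filter, sum_const, nsmul_eq_mul]
    _ ≤ _ := by
        apply Real.exp_le_exp.2
        have h1 : (0 : ℝ) ≤ 2 * T.card / y := by positivity
        calc (Bd.card : ℝ) * (2 * T.card / y) ≤ (T.card : ℝ) ^ 2 * Nat.log y M * (2 * T.card / y) :=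
              mul_le_mul_of_nonneg_right hcard h1
          _ = _ := by ring

/-- Mertens' product, lower bound -/
theorem Vz_sharp : ∃ c : ℝ, 0 < c ∧ ∀ z : ℕ, 3 ≤ z → c / Real.log z ≤ Vz z := by
  classical
  obtain ⟨C, hC⟩ := Pool.Agent.Helper256.KM.mertens_inv
  refine ⟨Real.exp (-(C + 1)), Real.exp_pos _, fun z hz => ?_⟩
  have h1 := (abs_le.1 (hC z hz)).2
  have hz3 : (3 : ℝ) ≤ z := by exact_mod_cast hz
  have hlog : 1 < Real.log z := by
    rw [Real.lt_log_iff_exp_lt (by linarith)]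
    have := Real.exp_one_lt_d9
    linarith
  have hpz : pz z = (Icc 1 z).filter Nat.Prime := by
    ext p
    rw [mem_pz, mem_filter, mem_Icc]
    constructor
    · rintro ⟨h2, h3⟩
      exact ⟨⟨h3.one_lt.le, h2⟩, h3⟩
    · rintro ⟨h2, h3⟩
      exact ⟨h2.2, h3⟩
  have h2 : ∑ p ∈ pz z, 1 / (p : ℝ) ^ 2 ≤ 1 := by
    have := inv_sq_gt (y := 1) le_rfl (pz z) (fun p hp => (mem_pz.1 hp).2.one_lt)
    simpa using this
  have h3 : ∀ t : ℝ, 0 ≤ t → t ≤ 1 / 2 → Real.exp (-(t + t ^ 2)) ≤ 1 - t := by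
    intro t ht0 ht1
    have k2 := Real.add_one_le_exp (t + t ^ 2)
    have k3 := Real.exp_pos (t + t ^ 2)
    rw [Real.exp_neg, inv_le_iff_one_le_mul₀ k3]
    have k5 : 1 + t + t ^ 2 + (t + t ^ 2) ^ 2 / 2 ≤ Real.exp (t + t ^ 2) := by
      have := Real.quadratic_le_exp_of_nonneg (by positivity : 0 ≤ t + t ^ 2)
      linarith
    have k6 : 1 ≤ (1 - t) * (1 + t + t ^ 2 + (t + t ^ 2) ^ 2 / 2) := by
      have e : (1 - t) * (1 + t + t ^ 2 + (t + t ^ 2) ^ 2 / 2) = 1 + t ^ 2 * (1 / 2 - t / 2 - t ^ 2 / 2 - t ^ 3 / 2) := by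
        ring
      rw [e]
      have h5 : t ^ 2 ≤ 1 / 4 := by nlinarith
      have h6 : t ^ 3 ≤ 1 / 8 := by
        calc t ^ 3 ≤ (1 / 2) ^ 3 := pow_le_pow_left₀ ht0 ht1 3
          _ = 1 / 8 := by norm_num
      have h7 : 0 ≤ t ^ 2 * (1 / 2 - t / 2 - t ^ 2 / 2 - t ^ 3 / 2) := by
        apply mul_nonneg (sq_nonneg _)
        linarith
      linarith
    calc (1 : ℝ) ≤ (1 - t) * (1 + t + t ^ 2 + (t + t ^ 2) ^ 2 / 2) := k6
      _ ≤ (1 - t) * Real.exp (t + t ^ 2) := mul_le_mul_of_nonneg_left k5 (by linarith)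
  calc Real.exp (-(C + 1)) / Real.log z = Real.exp (-(C + 1) - Real.log (Real.log z)) := by
        rw [Real.exp_sub, Real.exp_log (by linarith)]
    _ ≤ Real.exp (∑ p ∈ pz z, -(1 / (p : ℝ) + (1 / (p : ℝ)) ^ 2)) := by
        apply Real.exp_le_exp.2
        rw [sum_neg_distrib, sum_add_distrib]
        simp only [one_div_pow]
        rw [← hpz] at h1
        linarith
    _ = ∏ p ∈ pz z, Real.exp (-(1 / (p : ℝ) + (1 / (p : ℝ)) ^ 2)) := Real.exp_sum _ _
    _ ≤ Vz z := by
        unfold Vz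
        refine prod_le_prod (fun p _ => (Real.exp_pos _).le) fun p hp => ?_
        have hp2 : (2 : ℝ) ≤ p := by exact_mod_cast (mem_pz.1 hp).2.two_le
        exact h3 _ (by positivity) (one_div_le_one_div_of_le (by norm_num) hp2)

end Pool.Agent.Y822
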