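import Mathlib
import Pool.Agent.Y822.Corr

/-! Duality: for all but few shifts a bounded function has level of distribution one half; passing
from shifts to sets. -/

set_option autoImplicit false

namespace Pool.Agent.Y822

open Finset

/-- if the functions `G a` are almost orthogonal, few of them correlate with `f` -/
theorem dual {N : ℕ} (hN : 1 ≤ N) {G : ℕ → ℕ → ℝ} {DG OG η : ℝ} (hη : 0 < η) (hDG : 0 ≤ DG)
    (hOG0 : 0 ≤ OG) (S : Finset ℕ) (f : ℕ → ℝ)
    (hf : ∀ n ∈ Icc 1 N, |f n| ≤ 1)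
    (hdiag : ∀ a ∈ S, ∑ n ∈ Icc 1 N, G a n ^ 2 ≤ DG)
    (hoff : ∀ a ∈ S, ∀ a' ∈ S, a ≠ a' → |∑ n ∈ Icc 1 N, G a n * G a' n| ≤ OG)
    (hbig : ∀ a ∈ S, η * N < |∑ n ∈ Icc 1 N, f n * G a n|) (hOG : OG ≤ η ^ 2 * N / 2) :
    (S.card : ℝ) ≤ 2 * DG / (η ^ 2 * N) := by
  classical
  have hN0 : (0 : ℝ) < N := by exact_mod_cast hN
  rcases S.eq_empty_or_nonempty with rfl | hne
  · rw [card_empty, Nat.cast_zero]; positivity
  set X : ℕ → ℝ := fun a => ∑ n ∈ Icc 1 N, f n * G a n with hX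
  set s : ℕ → ℝ := fun a => if 0 ≤ X a then 1 else -1 with hs
  have hsX : ∀ a, s a * X a = |X a| := by
    intro a
    rw [hs]
    simp only
    split_ifs with h
    · rw [one_mul, abs_of_nonneg h]
    · rw [abs_of_neg (not_le.1 h)]; ring
  have hsabs : ∀ a, |s a| = 1 := by
    intro a
    rw [hs]
    simp only
    split_ifs <;> norm_num
  have hssq : ∀ a, s a * s a = 1 := by
    intro a
    rw [hs]
    simp only
    split_ifs <;> norm_num
  set H : ℕ → ℝ := fun n => ∑ a ∈ S, s a * G a n with hH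
  have e1 : ∑ a ∈ S, |X a| = ∑ n ∈ Icc 1 N, f n * H n := by
    rw [← sum_congr rfl fun a _ => hsX a]
    rw [hX, hH]
    simp only [mul_sum]
    rw [sum_comm]
    refine sum_congr rfl fun n _ => sum_congr rfl fun a _ => ?_
    ring
  have e2 : (∑ n ∈ Icc 1 N, f n * H n) ^ 2 ≤ N * ∑ n ∈ Icc 1 N, H n ^ 2 := by
    refine (sum_mul_sq_le_sq_mul_sq _ _ _).trans ?_
    refine mul_le_mul_of_nonneg_right ?_ (sum_nonneg fun n _ => sq_nonneg _)
    calc ∑ n ∈ Icc 1 N, f n ^ 2 ≤ ∑ _n ∈ Icc 1 N, (1 : ℝ) := by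
          refine sum_le_sum fun n hn => ?_
          rw [← sq_abs]
          exact pow_le_one₀ (abs_nonneg _) (hf n hn)
      _ = N := by simp
  have e3 : ∑ n ∈ Icc 1 N, H n ^ 2 =
      ∑ a ∈ S, ∑ a' ∈ S, (s a * s a') * ∑ n ∈ Icc 1 N, G a n * G a' n := by
    have : ∀ n ∈ Icc 1 N, H n ^ 2 = ∑ a ∈ S, ∑ a' ∈ S, (s a * s a') * (G a n * G a' n) := by
      intro n _
      rw [hH]
      simp only
      rw [sq, sum_mul_sum]
      refine sum_congr rfl fun a _ => sum_congr rfl fun a' _ => ?_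
      ring
    rw [sum_congr rfl this, sum_comm]
    refine sum_congr rfl fun a _ => ?_
    rw [sum_comm]
    refine sum_congr rfl fun a' _ => ?_
    rw [mul_sum]
  have e4 : ∑ n ∈ Icc 1 N, H n ^ 2 ≤ S.card * DG + S.card ^ 2 * OG := by
    rw [e3]
    calc _ ≤ ∑ a ∈ S, ∑ a' ∈ S, ((if a = a' then DG else 0) + OG) := by
          refine sum_le_sum fun a ha => sum_le_sum fun a' ha' => ?_
          by_cases h : a = a'
          · subst h
            rw [hssq, one_mul, if_pos rfl]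
            have := hdiag a ha
            simp only [← sq]
            linarith
          · rw [if_neg h, zero_add]
            calc _ ≤ |s a * s a' * ∑ n ∈ Icc 1 N, G a n * G a' n| := le_abs_self _
              _ = |∑ n ∈ Icc 1 N, G a n * G a' n| := by
                  rw [abs_mul, abs_mul, hsabs, hsabs, one_mul, one_mul]
              _ ≤ OG := hoff a ha a' ha' h
      _ = S.card * DG + S.card ^ 2 * OG := by
          simp only [sum_add_distrib, sum_const, nsmul_eq_mul]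
          rw [sum_congr rfl fun a ha => by rw [sum_ite_eq, if_pos ha], sum_const, nsmul_eq_mul]
          ring
  have hc : (0 : ℝ) < S.card := by exact_mod_cast card_pos.2 hne
  have e5 : (S.card : ℝ) * (η * N) ≤ ∑ a ∈ S, |X a| := by
    rw [← nsmul_eq_mul]
    exact card_nsmul_le_sum _ _ _ fun a ha => (hbig a ha).le
  have e6 : ((S.card : ℝ) * (η * N)) ^ 2 ≤ N * (S.card * DG + S.card ^ 2 * OG) := by
    calc ((S.card : ℝ) * (η * N)) ^ 2 ≤ (∑ a ∈ S, |X a|) ^ 2 :=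
          pow_le_pow_left₀ (by positivity) e5 2
      _ ≤ N * ∑ n ∈ Icc 1 N, H n ^ 2 := by rw [e1]; exact e2
      _ ≤ _ := mul_le_mul_of_nonneg_left e4 hN0.le
  have e7 : (S.card : ℝ) * (η ^ 2 * N) ≤ DG + S.card * OG := by
    have h1 : (N : ℝ) * S.card * (S.card * (η ^ 2 * N)) ≤ N * S.card * (DG + S.card * OG) := by
      nlinarith [e6]
    exact le_of_mul_le_mul_left h1 (by positivity)
  have e8 : (S.card : ℝ) * OG ≤ S.card * (η ^ 2 * N / 2) := mul_le_mul_of_nonneg_left hOG hc.le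
  rw [le_div_iff₀ (by positivity)]
  linarith

/-- the total discrepancy of `f` along the shift `h`, over the rough moduli up to `D` -/
noncomputable def LD (y D N : ℕ) (f : ℕ → ℝ) (h : ℕ) : ℝ :=
  ∑ d ∈ SD y D, (3 : ℝ) ^ d.primeFactors.card *
    |∑ n ∈ Icc 1 N, f n * (ro y (n + h) * cen d (n + h))|

lemma LD_nonneg (y D N : ℕ) (f : ℕ → ℝ) (h : ℕ) : 0 ≤ LD y D N f h :=
  sum_nonneg fun _ _ => mul_nonneg (by positivity) (abs_nonneg _)

/-- any admissible divisor sum is controlled by the total discrepancy -/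
lemma sum_GF_le {y D N : ℕ} {f : ℕ → ℝ} {h : ℕ} {c : ℕ → ℝ} (hc : Co y c) :
    |∑ n ∈ Icc 1 N, f n * GF y D c (n + h)| ≤ LD y D N f h := by
  have e : ∑ n ∈ Icc 1 N, f n * GF y D c (n + h) =
      ∑ d ∈ SD y D, c d * ∑ n ∈ Icc 1 N, f n * (ro y (n + h) * cen d (n + h)) := by
    simp only [mul_sum]
    rw [sum_comm]
    refine sum_congr rfl fun n _ => ?_
    unfold GF
    rw [sum_SD hc, mul_sum, mul_sum]
    refine sum_congr rfl fun d _ => ?_
    ring
  rw [e]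
  refine (abs_sum_le_sum_abs _ _).trans ?_
  unfold LD
  refine sum_le_sum fun d _ => ?_
  rw [abs_mul]
  exact mul_le_mul_of_nonneg_right (hc.bd d) (abs_nonneg _)

/-- extremal coefficients -/
lemma exists_coeff (y D N : ℕ) (f : ℕ → ℝ) (h : ℕ) : ∃ c : ℕ → ℝ, Co y c ∧
    ∑ n ∈ Icc 1 N, f n * GF y D c (n + h) = LD y D N f h := by
  classical
  set c : ℕ → ℝ := fun d => if d ∈ SD y D then (3 : ℝ) ^ d.primeFactors.card *
    (if 0 ≤ ∑ n ∈ Icc 1 N, f n * (ro y (n + h) * cen d (n + h)) then 1 else -1) else 0 with hcd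
  have hc : Co y c := by
    constructor
    · intro d
      rw [hcd]
      simp only
      split_ifs
      · rw [mul_one, abs_of_nonneg (by positivity)]
      · rw [mul_neg_one, abs_neg, abs_of_nonneg (by positivity)]
      · rw [abs_zero]; positivity
    · intro d hd
      rw [hcd] at hd
      simp only at hd
      by_cases h : d ∈ SD y D
      · exact (mem_SD.1 h).2
      · rw [if_neg h] at hd
        exact absurd rfl hd
  refine ⟨c, hc, ?_⟩
  have e : ∑ n ∈ Icc 1 N, f n * GF y D c (n + h) =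
      ∑ d ∈ SD y D, c d * ∑ n ∈ Icc 1 N, f n * (ro y (n + h) * cen d (n + h)) := by
    simp only [mul_sum]
    rw [sum_comm]
    refine sum_congr rfl fun n _ => ?_
    unfold GF
    rw [sum_SD hc, mul_sum, mul_sum]
    refine sum_congr rfl fun d _ => ?_
    ring
  rw [e]
  unfold LD
  refine sum_congr rfl fun d hd => ?_
  rw [hcd]
  simp only [if_pos hd]
  split_ifs with h1
  · rw [mul_one, abs_of_nonneg h1]
  · rw [abs_of_neg (not_le.1 h1)]; ring

/-- few shifts have large total discrepancy -/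
theorem few_shifts {y D N : ℕ} (hN : 1 ≤ N) {DG OG η : ℝ} (hη : 0 < η) (hDG : 0 ≤ DG)
    (hOG0 : 0 ≤ OG)
    (hdiag : ∀ c : ℕ → ℝ, Co y c → ∀ a ≤ N, ∑ n ∈ Icc 1 N, GF y D c (n + a) ^ 2 ≤ DG)
    (hoff : ∀ c c' : ℕ → ℝ, Co y c → Co y c' → ∀ a ≤ N, ∀ a' ≤ N, a ≠ a' →
      |∑ n ∈ Icc 1 N, GF y D c (n + a) * GF y D c' (n + a')| ≤ OG)
    (hOG : OG ≤ η ^ 2 * N / 2) (f : ℕ → ℝ) (hf : ∀ n ∈ Icc 1 N, |f n| ≤ 1) (S : Finset ℕ)
    (hS : ∀ a ∈ S, a ≤ N ∧ η * N < LD y D N f a) :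
    (S.card : ℝ) ≤ 2 * DG / (η ^ 2 * N) := by
  choose c hc hcf using exists_coeff y D N f
  refine dual (G := fun a n => GF y D (c a) (n + a)) hN hη hDG hOG0 S f hf ?_ ?_ ?_ hOG
  · intro a ha
    exact hdiag (c a) (hc a) a (hS a ha).1
  · intro a ha a' ha' hne
    exact hoff (c a) (c a') (hc a) (hc a') a (hS a ha).1 a' (hS a' ha').1 hne
  · intro a ha
    rw [hcf a, abs_of_nonneg (LD_nonneg _ _ _ _ _)]
    exact (hS a ha).2

/-- the mixed weight: `e` at the origin, `g` at the shifts in `S1`, `r` at the other shifts of `H` -/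
noncomputable def WH (e g r : ℕ → ℝ) (H S1 : Finset ℕ) (n : ℕ) : ℝ :=
  e n * ((∏ s ∈ S1, g (n + s)) * ∏ s ∈ H \ S1, r (n + s))

/-- the set `H` is good for `Z` when `Z` is small at all the mixed weights with one element of `H`
removed, at the shift by this element -/
def Good (e g r : ℕ → ℝ) (Z : (ℕ → ℝ) → ℕ → ℝ) (x : ℝ) (H : Finset ℕ) : Prop :=
  ∀ t ∈ H, ∀ S1 ⊆ H.erase t, Z (WH e g r (H.erase t) S1) t ≤ x

lemma WH_bd {e g r : ℕ → ℝ} (he : ∀ n, 0 ≤ e n ∧ e n ≤ 1) (hg : ∀ n, 0 ≤ g n ∧ g n ≤ 1)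
    (hr : ∀ n, 0 ≤ r n ∧ r n ≤ 1) (H S1 : Finset ℕ) (n : ℕ) :
    0 ≤ WH e g r H S1 n ∧ WH e g r H S1 n ≤ 1 := by
  unfold WH
  have h1 : 0 ≤ ∏ s ∈ S1, g (n + s) := prod_nonneg fun s _ => (hg _).1
  have h2 : ∏ s ∈ S1, g (n + s) ≤ 1 := prod_le_one (fun s _ => (hg _).1) fun s _ => (hg _).2
  have h3 : 0 ≤ ∏ s ∈ H \ S1, r (n + s) := prod_nonneg fun s _ => (hr _).1
  have h4 : ∏ s ∈ H \ S1, r (n + s) ≤ 1 := prod_le_one (fun s _ => (hr _).1) fun s _ => (hr _).2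
  exact ⟨mul_nonneg (he n).1 (mul_nonneg h1 h3), mul_le_one₀ (he n).2 (mul_nonneg h1 h3)
    (mul_le_one₀ h2 h3 h4)⟩

/-- few sets are not good -/
theorem few_bad {N : ℕ} {e g r : ℕ → ℝ} {Z : (ℕ → ℝ) → ℕ → ℝ} {x K : ℝ} (hK : 0 ≤ K)
    (he : ∀ n, 0 ≤ e n ∧ e n ≤ 1) (hg : ∀ n, 0 ≤ g n ∧ g n ≤ 1)
    (hr : ∀ n, 0 ≤ r n ∧ r n ≤ 1)
    (hfew : ∀ f : ℕ → ℝ, (∀ n, |f n| ≤ 1) → ∀ S : Finset ℕ, (∀ a ∈ S, a ≤ N ∧ x < Z f a) →
      (S.card : ℝ) ≤ K)
    (k : ℕ) (A : Finset ℕ) (hA : ∀ a ∈ A, a ≤ N) (Bad : Finset (Finset ℕ))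
    (hBad : ∀ H ∈ Bad, H ∈ A.powersetCard (k + 1) ∧ ¬ Good e g r Z x H) :
    (Bad.card : ℝ) ≤ (A.card.choose k : ℝ) * (2 ^ k * K) := by
  classical
  -- bad last coordinates
  set BS1 : Finset ℕ → Finset ℕ → Finset ℕ := fun S S1 => (range (N + 1)).filter (fun t =>
    x < Z (WH e g r S S1) t) with hBS1
  have h1 : Bad ⊆ (A.powersetCard k).biUnion (fun S =>
      (S.powerset.biUnion (BS1 S)).image (fun t => insert t S)) := by
    intro H hH
    obtain ⟨hHA, hHG⟩ := hBad H hH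
    rw [mem_powersetCard] at hHA
    unfold Good at hHG
    push Not at hHG
    obtain ⟨t, ht, S1, hS1, hlt⟩ := hHG
    rw [mem_biUnion]
    refine ⟨H.erase t, ?_, ?_⟩
    · rw [mem_powersetCard]
      refine ⟨(erase_subset _ _).trans hHA.1, ?_⟩
      rw [card_erase_of_mem ht, hHA.2]
      omega
    · rw [mem_image]
      refine ⟨t, ?_, insert_erase ht⟩
      rw [mem_biUnion]
      refine ⟨S1, mem_powerset.2 hS1, ?_⟩
      rw [hBS1, mem_filter, mem_range]
      exact ⟨Nat.lt_succ_of_le (hA t (hHA.1 ht)), hlt⟩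
  have h2 : ∀ S ∈ A.powersetCard k,
      (((S.powerset.biUnion (BS1 S)).image (fun t => insert t S)).card : ℝ) ≤ 2 ^ k * K := by
    intro S hS
    rw [mem_powersetCard] at hS
    have h5 : ∀ S1 ∈ S.powerset, ((BS1 S S1).card : ℝ) ≤ K := by
      intro S1 _
      refine hfew (WH e g r S S1) ?_ (BS1 S S1) ?_
      · intro n
        obtain ⟨w1, w2⟩ := WH_bd he hg hr S S1 n
        rw [abs_of_nonneg w1]
        exact w2
      · intro a ha
        rw [hBS1, mem_filter, mem_range] at ha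
        exact ⟨by omega, ha.2⟩
    calc (((S.powerset.biUnion (BS1 S)).image (fun t => insert t S)).card : ℝ)
        ≤ ((S.powerset.biUnion (BS1 S)).card : ℝ) := by exact_mod_cast card_image_le
      _ ≤ ((∑ S1 ∈ S.powerset, (BS1 S S1).card : ℕ) : ℝ) := by
          exact_mod_cast card_biUnion_le
      _ = ∑ S1 ∈ S.powerset, ((BS1 S S1).card : ℝ) := by push_cast; rfl
      _ ≤ ∑ _S1 ∈ S.powerset, K := sum_le_sum h5
      _ = 2 ^ k * K := by
          rw [sum_const, nsmul_eq_mul, card_powerset, hS.2]; push_cast; rfl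
  calc (Bad.card : ℝ)
      ≤ (((A.powersetCard k).biUnion (fun S =>
        (S.powerset.biUnion (BS1 S)).image (fun t => insert t S))).card : ℝ) := by
        exact_mod_cast card_le_card h1
    _ ≤ ((∑ S ∈ A.powersetCard k, ((S.powerset.biUnion (BS1 S)).image
          (fun t => insert t S)).card : ℕ) : ℝ) := by
        exact_mod_cast card_biUnion_le
    _ = ∑ S ∈ A.powersetCard k, (((S.powerset.biUnion (BS1 S)).image
          (fun t => insert t S)).card : ℝ) := by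
        push_cast; rfl
    _ ≤ ∑ _S ∈ A.powersetCard k, (2 ^ k * K) := sum_le_sum h2
    _ = _ := by rw [sum_const, nsmul_eq_mul, card_powersetCard]

/-- one step -/
lemma WH_insert {e g r : ℕ → ℝ} {H S1 : Finset ℕ} {t : ℕ} (ht : t ∈ H) (htS : t ∉ S1) (n : ℕ) :
    WH e g r H (insert t S1) n = WH e g r (H.erase t) S1 n * g (n + t) ∧
    WH e g r H S1 n = WH e g r (H.erase t) S1 n * r (n + t) := by
  unfold WH
  rw [prod_insert htS]
  have h1 : H \ insert t S1 = (H.erase t) \ S1 := by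
    ext s
    simp only [mem_sdiff, mem_erase, mem_insert, not_or]
    tauto
  have h2 : H \ S1 = insert t ((H.erase t) \ S1) := by
    ext s
    simp only [mem_sdiff, mem_erase, mem_insert]
    constructor
    · rintro ⟨h1, h3⟩
      by_cases hs : s = t
      · exact Or.inl hs
      · exact Or.inr ⟨⟨hs, h1⟩, h3⟩
    · rintro (rfl | ⟨⟨h2, h3⟩, h4⟩)
      · exact ⟨ht, htS⟩
      · exact ⟨h3, h4⟩
  have h3 : t ∉ (H.erase t) \ S1 := by
    simp
  constructor
  · rw [h1]; ring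
  · rw [h2, prod_insert h3]; ring

/-- upper bound by replacing the shifts one at a time -/
theorem step_upper {e g r : ℕ → ℝ} {Z : (ℕ → ℝ) → ℕ → ℝ} {N : ℕ} {x u : ℝ} (hx : 0 ≤ x)
    (hu : 0 ≤ u) (hu1 : u ≤ 1) {H : Finset ℕ}
    (he : ∀ n, 0 ≤ e n ∧ e n ≤ 1) (hg : ∀ n, 0 ≤ g n ∧ g n ≤ 1) (hr : ∀ n, 0 ≤ r n ∧ r n ≤ 1)
    (hZ : ∀ f : ℕ → ℝ, (∀ n, 0 ≤ f n ∧ f n ≤ 1) → ∀ h : ℕ, Z f h ≤ x →
      ∑ n ∈ Icc 1 N, f n * g (n + h) ≤ u * ∑ n ∈ Icc 1 N, f n * r (n + h) + x)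
    (hgood : Good e g r Z x H) :
    ∀ S1 ⊆ H, ∑ n ∈ Icc 1 N, WH e g r H S1 n ≤
      u ^ S1.card * ∑ n ∈ Icc 1 N, WH e g r H ∅ n + S1.card * x := by
  classical
  intro S1
  induction S1 using Finset.induction_on with
  | empty => intro _; simp
  | insert t S1 htS ih =>
    intro hS
    have htH : t ∈ H := hS (mem_insert_self _ _)
    have hS1 : S1 ⊆ H := (subset_insert _ _).trans hS
    have ih' := ih hS1
    have hsub : S1 ⊆ H.erase t := fun s hs => mem_erase.2 ⟨fun h => htS (h ▸ hs), hS1 hs⟩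
    have hgd := hgood t htH S1 hsub
    have h1 := hZ (WH e g r (H.erase t) S1) (WH_bd he hg hr _ _) t hgd
    have h2 : ∑ n ∈ Icc 1 N, WH e g r H (insert t S1) n =
        ∑ n ∈ Icc 1 N, WH e g r (H.erase t) S1 n * g (n + t) :=
      sum_congr rfl fun n _ => (WH_insert htH htS n).1
    have h3 : ∑ n ∈ Icc 1 N, WH e g r H S1 n =
        ∑ n ∈ Icc 1 N, WH e g r (H.erase t) S1 n * r (n + t) :=
      sum_congr rfl fun n _ => (WH_insert htH htS n).2
    rw [h2]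
    rw [h3] at ih'
    rw [card_insert_of_notMem htS]
    have h4 := mul_le_mul_of_nonneg_left ih' hu
    have h5 : u * (S1.card * x) ≤ S1.card * x := by
      have : 0 ≤ (S1.card : ℝ) * x := by positivity
      nlinarith
    push_cast
    rw [pow_succ]
    nlinarith

/-- lower bound by replacing the shifts one at a time -/
theorem step_lower {e g r : ℕ → ℝ} {Z : (ℕ → ℝ) → ℕ → ℝ} {N : ℕ} {x u : ℝ} (hx : 0 ≤ x)
    (hu : 0 ≤ u) (hu1 : u ≤ 1) {H : Finset ℕ}
    (he : ∀ n, 0 ≤ e n ∧ e n ≤ 1) (hg : ∀ n, 0 ≤ g n ∧ g n ≤ 1) (hr : ∀ n, 0 ≤ r n ∧ r n ≤ 1)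
    (hZ : ∀ f : ℕ → ℝ, (∀ n, 0 ≤ f n ∧ f n ≤ 1) → ∀ h : ℕ, Z f h ≤ x →
      u * ∑ n ∈ Icc 1 N, f n * r (n + h) - x ≤ ∑ n ∈ Icc 1 N, f n * g (n + h))
    (hgood : Good e g r Z x H) :
    ∀ S1 ⊆ H, u ^ S1.card * ∑ n ∈ Icc 1 N, WH e g r H ∅ n - S1.card * x ≤
      ∑ n ∈ Icc 1 N, WH e g r H S1 n := by
  classical
  intro S1
  induction S1 using Finset.induction_on with
  | empty => intro _; simp
  | insert t S1 htS ih =>
    intro hS
    have htH : t ∈ H := hS (mem_insert_self _ _)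
    have hS1 : S1 ⊆ H := (subset_insert _ _).trans hS
    have ih' := ih hS1
    have hsub : S1 ⊆ H.erase t := fun s hs => mem_erase.2 ⟨fun h => htS (h ▸ hs), hS1 hs⟩
    have hgd := hgood t htH S1 hsub
    have h1 := hZ (WH e g r (H.erase t) S1) (WH_bd he hg hr _ _) t hgd
    have h2 : ∑ n ∈ Icc 1 N, WH e g r H (insert t S1) n =
        ∑ n ∈ Icc 1 N, WH e g r (H.erase t) S1 n * g (n + t) :=
      sum_congr rfl fun n _ => (WH_insert htH htS n).1
    have h3 : ∑ n ∈ Icc 1 N, WH e g r H S1 n =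
        ∑ n ∈ Icc 1 N, WH e g r (H.erase t) S1 n * r (n + t) :=
      sum_congr rfl fun n _ => (WH_insert htH htS n).2
    rw [h2]
    rw [h3] at ih'
    rw [card_insert_of_notMem htS]
    have h4 := mul_le_mul_of_nonneg_left ih' hu
    have h5 : u * (S1.card * x) ≤ S1.card * x := by
      have : 0 ≤ (S1.card : ℝ) * x := by positivity
      nlinarith
    push_cast
    rw [pow_succ]
    nlinarith

end Pool.Agent.Y822
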