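import Mathlib
import Pool.Agent.Y822.CTt
import Pool.Agent.Y822.Dual
import Pool.Agent.Y822.Par
import Pool.Agent.H373R2.T7.FundC

/-! The number of primes with rough shifts. -/

set_option autoImplicit false

namespace Pool.Agent.Y822

open Finset Filter
open Pool.Agent.H373R2.T7 (pz Vz mem_pz rhoA PerA lam_fund)
open Pool.Agent.H387R2.Uni (nuT Adm locT CT)

open Classical in
/-- indicator of the primes -/
noncomputable def eP (n : ℕ) : ℝ := if n.Prime then 1 else 0

lemma eP_bd (n : ℕ) : 0 ≤ eP n ∧ eP n ≤ 1 := by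
  unfold eP; split_ifs <;> norm_num

lemma ro_bd (y n : ℕ) : 0 ≤ ro y n ∧ ro y n ≤ 1 := ⟨ro_nonneg y n, ro_le_one y n⟩

/-- forbidden classes of a set of shifts -/
def QT (H : Finset ℕ) (p n : ℕ) : Prop := ∃ s ∈ H, p ∣ n + s

lemma ro_iff (H : Finset ℕ) (y n : ℕ) :
    (∀ s ∈ H, Ro y (n + s)) ↔ ∀ p ∈ pz y, ¬ QT H p n := by
  constructor
  · rintro h p hp ⟨s, hs, hd⟩
    exact h s hs p (mem_pz.1 hp).2 (mem_pz.1 hp).1 hd
  · intro h s hs p hp hpy hd
    exact h p (mem_pz.2 ⟨hpy, hp⟩) ⟨s, hs, hd⟩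

/-- all the shifts are rough -/
def BT (H : Finset ℕ) (y n : ℕ) : Prop := ∀ p ∈ pz y, ¬ QT H p n

open Classical in
/-- the mixed weight with all shifts treated by `r = g = ro y` -/
lemma WH_rough (g : ℕ → ℝ) (H : Finset ℕ) (y N : ℕ) :
    ∑ n ∈ Icc 1 N, WH eP g (ro y) H ∅ n =
      (((Icc 1 N).filter (fun n => n.Prime ∧ BT H y n)).card : ℝ) := by
  have h : ∀ n ∈ Icc 1 N, WH eP g (ro y) H ∅ n =
      if (n.Prime ∧ BT H y n) then (1 : ℝ) else 0 := by
    intro n _
    unfold WH eP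
    rw [prod_empty, one_mul, sdiff_empty]
    by_cases h1 : n.Prime
    · rw [if_pos h1, one_mul]
      by_cases h2 : BT H y n
      · rw [if_pos ⟨h1, h2⟩]
        refine prod_eq_one fun s hs => ?_
        unfold ro
        rw [if_pos ((ro_iff H y n).2 h2 s hs)]
      · rw [if_neg (fun h => h2 h.2)]
        have h3 : ¬ ∀ s ∈ H, Ro y (n + s) := fun h => h2 ((ro_iff H y n).1 h)
        push Not at h3
        obtain ⟨s, hs, hns⟩ := h3
        refine prod_eq_zero hs ?_
        unfold ro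
        rw [if_neg hns]
    · rw [if_neg h1, if_neg (fun h => h1 h.1), zero_mul]
  rw [sum_congr rfl h, ← sum_filter, sum_const, nsmul_eq_mul, mul_one]

open Classical in
/-- from von Mangoldt weights to primes, lower bound -/
lemma count_low (B : ℕ → Prop) (N : ℕ) (hN : 1 ≤ N) :
    ∑ n ∈ (Icc 1 N).filter B, ArithmeticFunction.vonMangoldt n - 2 * Real.sqrt N * Real.log N ≤
      Real.log N * (((Icc 1 N).filter (fun n => n.Prime ∧ B n)).card : ℝ) := by
  have h1 := Chebyshev.abs_psi_sub_theta_le_sqrt_mul_log (x := (N : ℝ)) (by exact_mod_cast hN)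
  have e0 : ∀ f : ℕ → ℝ, f 0 = 0 → ∑ n ∈ Icc 0 N, f n = ∑ n ∈ Icc 1 N, f n := by
    intro f hf
    have : Icc 0 N = insert 0 (Icc 1 N) := by
      ext n
      rw [mem_insert, mem_Icc, mem_Icc]
      omega
    rw [this, sum_insert (by simp), hf, zero_add]
  have e1 : Chebyshev.psi N = ∑ n ∈ Icc 1 N, ArithmeticFunction.vonMangoldt n := by
    rw [Chebyshev.psi_eq_sum_Icc, Nat.floor_natCast]
    exact e0 _ (by simp)
  have e2 : Chebyshev.theta N = ∑ n ∈ Icc 1 N, (if n.Prime then Real.log n else 0) := by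
    rw [Chebyshev.theta_eq_sum_Icc, Nat.floor_natCast, sum_filter]
    exact e0 _ (by simp)
  have h2 : ∑ n ∈ (Icc 1 N).filter B, (ArithmeticFunction.vonMangoldt n -
      (if n.Prime then Real.log n else 0)) ≤ 2 * Real.sqrt N * Real.log N := by
    refine le_trans ?_ ((le_abs_self _).trans h1)
    rw [e1, e2, ← sum_sub_distrib]
    refine sum_le_sum_of_subset_of_nonneg (filter_subset _ _) fun n _ _ => ?_
    split_ifs with h
    · rw [ArithmeticFunction.vonMangoldt_apply_prime h, sub_self]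
    · rw [sub_zero]; exact ArithmeticFunction.vonMangoldt_nonneg
  rw [sum_sub_distrib] at h2
  have h3 : ∑ n ∈ (Icc 1 N).filter B, (if n.Prime then Real.log n else 0) ≤
      Real.log N * (((Icc 1 N).filter (fun n => n.Prime ∧ B n)).card : ℝ) := by
    rw [← sum_filter, filter_filter]
    calc ∑ n ∈ (Icc 1 N).filter (fun a => B a ∧ a.Prime), Real.log n
        ≤ ∑ _n ∈ (Icc 1 N).filter (fun a => B a ∧ a.Prime), Real.log N := by
          refine sum_le_sum fun n hn => ?_
          rw [mem_filter, mem_Icc] at hn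
          exact Real.log_le_log (by exact_mod_cast hn.1.1) (by exact_mod_cast hn.1.2)
      _ = _ := by
          rw [sum_const, nsmul_eq_mul, mul_comm]
          congr 3
          ext n
          rw [mem_filter, mem_filter]
          tauto
  linarith

open Classical in
/-- from von Mangoldt weights to primes, upper bound -/
lemma count_up (B : ℕ → Prop) (N : ℕ) (x : ℝ) (hx : 1 ≤ x) :
    Real.log x * (((Icc 1 N).filter (fun n => n.Prime ∧ B n)).card : ℝ) ≤
      ∑ n ∈ (Icc 1 N).filter B, ArithmeticFunction.vonMangoldt n + Real.log x * x := by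
  have hlx : 0 ≤ Real.log x := Real.log_nonneg hx
  have h1 : (((Icc 1 N).filter (fun n => n.Prime ∧ B n)).card : ℝ) ≤
      (((Icc 1 N).filter (fun n => (n.Prime ∧ B n) ∧ x < n)).card : ℝ) + x := by
    have h2 : ((Icc 1 N).filter (fun n => n.Prime ∧ B n)) ⊆
        ((Icc 1 N).filter (fun n => (n.Prime ∧ B n) ∧ x < n)) ∪ Icc 1 ⌊x⌋₊ := by
      intro n hn
      rw [mem_filter] at hn
      rw [mem_union, mem_filter]
      by_cases h : x < n
      · exact Or.inl ⟨hn.1, hn.2, h⟩
      · refine Or.inr (mem_Icc.2 ⟨(mem_Icc.1 hn.1).1, ?_⟩)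
        exact Nat.le_floor (not_lt.1 h)
    have h3 := (card_le_card h2).trans (card_union_le _ _)
    rw [Nat.card_Icc, Nat.add_sub_cancel] at h3
    calc (((Icc 1 N).filter (fun n => n.Prime ∧ B n)).card : ℝ) ≤
          ((((Icc 1 N).filter (fun n => (n.Prime ∧ B n) ∧ x < n)).card + ⌊x⌋₊ : ℕ) : ℝ) := by
            exact_mod_cast h3
      _ ≤ _ := by
          push_cast
          have := Nat.floor_le (by linarith : 0 ≤ x)
          linarith
  have h4 : Real.log x * (((Icc 1 N).filter (fun n => (n.Prime ∧ B n) ∧ x < n)).card : ℝ) ≤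
      ∑ n ∈ (Icc 1 N).filter B, ArithmeticFunction.vonMangoldt n := by
    calc Real.log x * (((Icc 1 N).filter (fun n => (n.Prime ∧ B n) ∧ x < n)).card : ℝ)
        = ∑ _n ∈ (Icc 1 N).filter (fun n => (n.Prime ∧ B n) ∧ x < n), Real.log x := by
          rw [sum_const, nsmul_eq_mul, mul_comm]
      _ ≤ ∑ n ∈ (Icc 1 N).filter (fun n => (n.Prime ∧ B n) ∧ x < n),
            ArithmeticFunction.vonMangoldt n := by
          refine sum_le_sum fun n hn => ?_
          rw [mem_filter] at hn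
          rw [ArithmeticFunction.vonMangoldt_apply_prime hn.2.1.1]
          exact Real.log_le_log (by linarith) hn.2.2.le
      _ ≤ _ := by
          refine sum_le_sum_of_subset_of_nonneg ?_ fun n _ _ => ArithmeticFunction.vonMangoldt_nonneg
          intro n hn
          rw [mem_filter] at hn ⊢
          exact ⟨hn.1, hn.2.1.2⟩
  have h5 := mul_le_mul_of_nonneg_left h1 hlx
  rw [mul_add] at h5
  linarith

/-- the pattern of a set of shifts -/
def pat (H : Finset ℕ) : Finset ℕ := insert 0 H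

lemma sInf_pat (H : Finset ℕ) : sInf ((pat H : Finset ℕ) : Set ℕ) = 0 := by
  apply Nat.sInf_eq_zero.2
  left
  unfold pat
  simp

lemma erase_pat {H : Finset ℕ} (h0 : 0 ∉ H) : (pat H).erase 0 = H := by
  unfold pat
  exact erase_insert h0

lemma card_pat {H : Finset ℕ} (h0 : 0 ∉ H) : (pat H).card = H.card + 1 := by
  unfold pat
  exact card_insert_of_notMem h0

lemma rho_pat {H : Finset ℕ} (h0 : 0 ∉ H) (p : ℕ) (hp : p.Prime) :
    rhoA (QT H) p + 1 = nuT (pat H) p := by
  have h := rho_eq (pat H) ⟨0, by unfold pat; simp⟩ p hp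
  rw [sInf_pat, erase_pat h0] at h
  simp only [Nat.sub_zero] at h
  exact h

lemma perA_QT {H : Finset ℕ} (h0 : 0 ∉ H) (k : ℕ) (hH : H.card = k) : PerA (QT H) (k + 1) := by
  constructor
  · intro p n
    unfold QT
    constructor
    · rintro ⟨s, hs, hd⟩
      refine ⟨s, hs, ?_⟩
      have : n % p + s ≡ n + s [MOD p] := Nat.ModEq.add_right _ (Nat.mod_modEq n p)
      exact (Nat.modEq_zero_iff_dvd).1 (this.trans ((Nat.modEq_zero_iff_dvd).2 hd))
    · rintro ⟨s, hs, hd⟩
      refine ⟨s, hs, ?_⟩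
      have : n % p + s ≡ n + s [MOD p] := Nat.ModEq.add_right _ (Nat.mod_modEq n p)
      exact (Nat.modEq_zero_iff_dvd).1 (this.symm.trans ((Nat.modEq_zero_iff_dvd).2 hd))
  · intro p hp
    have h1 := rho_pat h0 p hp
    have h2 := nuT_le_card (pat H) p
    rw [card_pat h0, hH] at h2
    omega

lemma prod_rho {H : Finset ℕ} (h0 : 0 ∉ H) (k : ℕ) (hH : H.card = k) (y : ℕ) :
    ∏ p ∈ pz y, (1 - (rhoA (QT H) p : ℝ) / (p - 1 : ℝ)) = PT (pat H) y * Vz y ^ k := by
  unfold PT Vz
  rw [← prod_pow, ← prod_mul_distrib]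
  refine prod_congr rfl fun p hp => ?_
  have hpp := (mem_pz.1 hp).2
  have h1 := rho_pat h0 p hpp
  have h2 : (rhoA (QT H) p : ℝ) = (nuT (pat H) p : ℝ) - 1 := by
    rw [← h1]; push_cast; ring
  have hp2 : (2 : ℝ) ≤ p := by exact_mod_cast hpp.two_le
  have hp0 : (p : ℝ) ≠ 0 := by positivity
  have hp1 : (p : ℝ) - 1 ≠ 0 := by
    have : 0 < (p : ℝ) - 1 := by linarith
    exact this.ne'
  have hq : 1 - 1 / (p : ℝ) = ((p : ℝ) - 1) / p := by field_simp
  unfold locT
  rw [h2, card_pat h0, hH, hq, pow_succ]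
  have h3 : ((p : ℝ) - 1) / p ≠ 0 := div_ne_zero hp1 hp0
  have h4 : (((p : ℝ) - 1) / p) ^ k ≠ 0 := pow_ne_zero _ h3
  field_simp
  ring

/-- **primes with rough shifts** -/
theorem main0 (κ : ℝ) (hκ : 0 < κ) (hκ1 : κ ≤ 1) (k U : ℕ) (ε : ℝ) (hε : 0 < ε) (hε1 : ε ≤ 1) :
    ∀ᶠ N : ℕ in atTop, ∀ g : ℕ → ℝ, ∀ H : Finset ℕ, 0 ∉ H → H.card = k →
      |∑ n ∈ Icc 1 N, WH eP g (ro (yN κ N)) H ∅ n -
        N / Real.log N * (PT (pat H) (yN κ N) * Vz (yN κ N) ^ k)| ≤
      ε * (N / Real.log N * (PT (pat H) (yN κ N) * Vz (yN κ N) ^ k)) + N / Real.log N ^ U := by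
  classical
  obtain ⟨K, hK, hfund⟩ := lam_fund (k + 1) (by omega) (ε / 4) (by positivity)
  obtain ⟨x0, hx0⟩ := hfund (U + 1)
  have e1 := ev_logN (ev_log_pow 1 ((U + 1) * 8 / ε))
  have e2 := ev_logN (eventually_ge_atTop (8 : ℝ))
  have e3 := ev_logN (ev_pow_exp (U + 1) (1 / 2) 8 (by norm_num))
  have e4 := ev_logN (ev_pow_exp (U + 1) 1 1 (by norm_num))
  filter_upwards [yN_facts κ hκ hκ1 x0 K, e1, e2, e3, e4, eventually_ge_atTop 3] with N hyf h1 h2 h3 h4
    hN g H h0 hH
  obtain ⟨y1, y2, y3, y4, y5⟩ := hyf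
  set y := yN κ N with hy
  set L := Real.log N with hL
  have hL0 : 0 < L := by linarith
  have hN0 : (0 : ℝ) < N := by positivity
  have hNe : (N : ℝ) = Real.exp L := by rw [hL, Real.exp_log hN0]
  rw [pow_one] at h1
  rw [WH_rough]
  have hmain := hx0 N y y5 y4 (QT H) (perA_QT h0 k hH) N le_rfl
  rw [prod_rho h0 k hH y] at hmain
  set P := PT (pat H) y * Vz y ^ k with hP
  have hP0 : 0 ≤ P := by
    rw [hP]
    refine mul_nonneg (PT_nonneg (pat H) y) (pow_nonneg ?_ k)
    unfold Vz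
    refine prod_nonneg fun p hp => ?_
    have : (1 : ℝ) ≤ p := by exact_mod_cast (mem_pz.1 hp).2.one_lt.le
    rw [sub_nonneg, div_le_one (by linarith)]
    exact this
  obtain ⟨S, hS⟩ : ∃ S, S = ∑ n ∈ (Icc 1 N).filter (BT H y),
    ArithmeticFunction.vonMangoldt n := ⟨_, rfl⟩
  obtain ⟨C, hC⟩ : ∃ C, C = (((Icc 1 N).filter (fun n => n.Prime ∧ BT H y n)).card : ℝ) := ⟨_, rfl⟩
  have hmain' : |S - N * P| ≤ ε / 4 * (N * P) + N / L ^ (U + 1) := by
    rw [hS]
    refine le_trans (le_of_eq ?_) hmain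
    congr 2
    refine sum_congr ?_ fun _ _ => rfl
    ext n
    rw [mem_filter, mem_filter]
    exact Iff.rfl
  have hlow := count_low (BT H y) N (by omega)
  have hlow' : S - 2 * Real.sqrt N * L ≤ L * C := by
    rw [hS, hC]
    exact hlow
  have hC0 : 0 ≤ C := by rw [hC]; exact Nat.cast_nonneg _
  have hNP : 0 ≤ N / L * P := by positivity
  have hm := abs_le.1 hmain'
  -- logarithm of `N / L^(U+1)`
  set x := (N : ℝ) / L ^ (U + 1) with hx
  have hLU : 0 < L ^ (U + 1) := by positivity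
  have hx1 : 1 ≤ x := by
    rw [hx, le_div_iff₀ hLU, one_mul, hNe]
    have := h4
    rwa [one_mul, one_mul] at this
  have hxN : x ≤ N := div_le_self hN0.le (one_le_pow₀ (by linarith))
  have hlx : Real.log x = L - (U + 1) * Real.log L := by
    rw [hx, Real.log_div hN0.ne' hLU.ne', Real.log_pow]
    push_cast
    rfl
  have hlx2 : (1 - ε / 8) * L ≤ Real.log x := by
    rw [hlx]
    have : (U + 1) * Real.log L ≤ ε / 8 * L := by
      have h5 : (U + 1) * 8 / ε * Real.log L * (ε / 8) ≤ L * (ε / 8) :=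
        mul_le_mul_of_nonneg_right h1 (by positivity)
      have h6 : (U + 1) * 8 / ε * Real.log L * (ε / 8) = (U + 1) * Real.log L := by field_simp
      rw [h6] at h5
      linarith
    nlinarith
  have hup := count_up (BT H y) N x hx1
  have hup' : Real.log x * C ≤ S + Real.log x * x := by
    rw [hS, hC]
    exact hup
  have hlx0 : 0 < Real.log x := lt_of_lt_of_le (by nlinarith) hlx2
  -- error terms
  have hxL : N / L ^ (U + 1) = N / L ^ U / L := by
    rw [pow_succ]
    field_simp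
  set R := (N : ℝ) / L ^ U with hR
  have hR0 : 0 ≤ R := by positivity
  have hxR : x = R / L := hxL
  have hRL : R / L ≤ R / 8 := div_le_div_of_nonneg_left hR0 (by norm_num) h2
  have hsq : 2 * Real.sqrt N ≤ R / L / 4 := by
    have h5 : Real.sqrt N = Real.exp (L / 2) := by
      rw [hNe, Real.exp_half]
    have h6 : (N : ℝ) = Real.exp (L / 2) * Real.exp (L / 2) := by
      rw [← Real.exp_add, hNe]; congr 1; ring
    rw [← hxL, h5, le_div_iff₀ (by norm_num), le_div_iff₀ hLU]
    have h7 : 8 * L ^ (U + 1) ≤ Real.exp (L / 2) := by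
      have : (1 : ℝ) / 2 * L = L / 2 := by ring
      rw [← this]; exact h3
    calc 2 * Real.exp (L / 2) * 4 * L ^ (U + 1) = Real.exp (L / 2) * (8 * L ^ (U + 1)) := by ring
      _ ≤ Real.exp (L / 2) * Real.exp (L / 2) := mul_le_mul_of_nonneg_left h7 (Real.exp_pos _).le
      _ = N := h6.symm
  have hNPL : N * P = L * (N / L * P) := by field_simp
  rw [hxR, hNPL] at hm
  rw [← hC]
  set Q := N / L * P with hQ
  have hdiv : ∀ a b : ℝ, L * a ≤ L * b → a ≤ b := fun a b h => le_of_mul_le_mul_left h hL0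
  rw [abs_le]
  constructor
  · -- lower bound
    apply hdiv
    have h5 : L * (R / L) = R := by field_simp
    nlinarith [hm.1]
  · -- upper bound
    have h6 : (1 - ε / 8) * L * C ≤ S + Real.log x * x := by
      refine le_trans ?_ hup'
      exact mul_le_mul_of_nonneg_right hlx2 hC0
    have hlxL : Real.log x ≤ L := by
      rw [hlx]
      have : 0 ≤ (U + 1) * Real.log L := by
        have := Real.log_nonneg (by linarith : (1 : ℝ) ≤ L)
        positivity
      linarith
    have h7 : Real.log x * x ≤ L * (R / L) := by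
      rw [← hxR]
      exact mul_le_mul_of_nonneg_right hlxL (by linarith)
    have h8 : (1 - ε / 8) * L * C ≤ L * ((1 + ε / 4) * Q + (R / L) / L + R / L) := by
      have e9 : L * ((R / L) / L) = R / L := by field_simp
      nlinarith [hm.2]
    have h9 : (1 - ε / 8) * C ≤ (1 + ε / 4) * Q + (R / L) / L + R / L := by
      apply hdiv
      linarith
    have h10 : (R / L) / L ≤ R / 64 := by
      have : (R / L) / L ≤ (R / 8) / 8 :=
        div_le_div₀ (by positivity) hRL (by norm_num) h2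
      linarith
    have h11 : (1 - ε / 8) * C ≤ (1 + ε / 4) * Q + R / 4 := by linarith
    have h12 : (1 + ε / 4) * Q + R / 4 ≤ (1 - ε / 8) * ((1 + ε) * Q + R) := by
      nlinarith [mul_nonneg hε.le hNP, mul_nonneg hε.le hR0]
    have h13 : C ≤ (1 + ε) * Q + R := le_of_mul_le_mul_left (h11.trans h12) (by linarith)
    linarith

end Pool.Agent.Y822
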