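import Mathlib
import Pool.Agent.Y822.Dual
import Pool.Agent.H20R2.EN.FLem

/-! The fundamental lemma between the sifting parameter and a small power, for the classes of a modulus. -/

set_option autoImplicit false

namespace Pool.Agent.Y822

open Finset

/-- the discrepancy -/
noncomputable def rr (y N : ℕ) (f : ℕ → ℝ) (t d : ℕ) : ℝ :=
  ∑ n ∈ Icc 1 N, f n * (ro y (n + t) * cen d (n + t))

/-- no element of `P` divides `m` -/
noncomputable def rin (P : Finset ℕ) (m : ℕ) : ℝ := by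
  classical
  exact if ∀ p ∈ P, ¬ p ∣ m then 1 else 0

/-- the total mass -/
noncomputable def W0 (y N : ℕ) (f : ℕ → ℝ) (t : ℕ) : ℝ := ∑ n ∈ Icc 1 N, f n * ro y (n + t)

/-- the mass of the sifted multiples of `e` -/
noncomputable def Aw (y N : ℕ) (P : Finset ℕ) (f : ℕ → ℝ) (t e : ℕ) : ℝ :=
  ∑ n ∈ Icc 1 N, (f n * ro y (n + t) * rin P (n + t)) * (if e ∣ n + t then 1 else 0)

/-- product of `1 - 1/p` -/
noncomputable def VP (P : Finset ℕ) : ℝ := ∏ p ∈ P, (1 - 1 / (p : ℝ))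

lemma rin_nonneg (P : Finset ℕ) (m : ℕ) : 0 ≤ rin P m := by
  unfold rin; split_ifs <;> norm_num

lemma rin_le_one (P : Finset ℕ) (m : ℕ) : rin P m ≤ 1 := by
  unfold rin; split_ifs <;> norm_num

lemma rin_eq (P : Finset ℕ) (m : ℕ) (h : rin P m ≠ 0) : ∀ p ∈ P, ¬ p ∣ m := by
  unfold rin at h
  by_contra h2
  rw [if_neg h2] at h
  exact h rfl

lemma dvd_iff_prod (e m : ℕ) (T : Finset ℕ) (hT : ∀ p ∈ T, p.Prime) (hTe : ∀ p ∈ T, ¬ p ∣ e) :
    (e ∣ m ∧ ∀ p ∈ T, p ∣ m) ↔ e * ∏ p ∈ T, p ∣ m := by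
  constructor
  · rintro ⟨h1, h2⟩
    refine Nat.Coprime.mul_dvd_of_dvd_of_dvd ?_ h1
      (Finset.prod_primes_dvd m (fun p hp => (hT p hp).prime) h2)
    exact Nat.Coprime.prod_right fun p hp => ((hT p hp).coprime_iff_not_dvd.2 (hTe p hp)).symm
  · intro h
    refine ⟨(Dvd.intro _ rfl).trans h, fun p hp => ?_⟩
    exact ((Finset.dvd_prod_of_mem (fun p => p) hp).trans (Dvd.intro_left e rfl)).trans h

theorem inner : ∃ C0 : ℕ, 1 ≤ C0 ∧ ∀ (b J y N : ℕ) (P : Finset ℕ), C0 ≤ b → C0 ≤ y →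
    (∀ p ∈ P, p.Prime ∧ y < p ∧ p ≤ 2 ^ 2 ^ J) → ∀ f : ℕ → ℝ, (∀ n, 0 ≤ f n) → ∀ t e : ℕ, 1 ≤ e →
    (∀ p ∈ P, ¬ p ∣ e) →
    |Aw y N P f t e - W0 y N f t * VP P * (1 / (e : ℝ))| ≤
      (1 / 2) ^ b * (W0 y N f t * VP P * (1 / (e : ℝ))) + ((J : ℝ) + 2) *
        ∑ T ∈ P.powerset.filter (fun T : Finset ℕ => ∏ p ∈ T, p ≤ (2 ^ 2 ^ J) ^ (C0 * b)),
          |rr y N f t (e * ∏ p ∈ T, p)| := by
  classical
  obtain ⟨C0, hC0, H⟩ := Pool.Agent.H20R2.fLem 1
  refine ⟨C0, hC0, ?_⟩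
  intro b J y N P hb hy hP f hf t e he hPe
  have he0 : (e : ℝ) ≠ 0 := by positivity
  have hW : 0 ≤ W0 y N f t := sum_nonneg fun n _ => mul_nonneg (hf n) (ro_nonneg _ _)
  have key := H b J y P (fun p => 1 / (p : ℝ)) hb hy hP (fun p hp => by
    have hp2 : (2 : ℝ) ≤ p := by exact_mod_cast (hP p hp).1.two_le
    refine ⟨by positivity, ?_⟩
    push_cast
    exact one_div_le_one_div_of_le (by linarith) (by linarith))
    ((Icc 1 N).filter (fun n => e ∣ n + t)) (fun n => f n * ro y (n + t)) (fun p n => p ∣ n + t)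
    (W0 y N f t / e) (fun T => |rr y N f t (e * ∏ p ∈ T, p)|)
    (fun n _ => mul_nonneg (hf n) (ro_nonneg _ _)) (by positivity) (fun T hT _ => ?_)
  · have e1 : ∏ p ∈ P, (1 - 1 / (p : ℝ)) = VP P := rfl
    have e2 : W0 y N f t / e * VP P = W0 y N f t * VP P * (1 / (e : ℝ)) := by ring
    rw [e1, e2] at key
    have e3 : ∑ m ∈ ((Icc 1 N).filter (fun n => e ∣ n + t)).filter (fun m => ∀ p ∈ P, ¬ p ∣ m + t),
        f m * ro y (m + t) = Aw y N P f t e := by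
      unfold Aw rin
      rw [filter_filter, sum_filter]
      refine sum_congr rfl fun n _ => ?_
      by_cases h1 : e ∣ n + t <;> by_cases h2 : ∀ p ∈ P, ¬ p ∣ n + t <;> simp [h1, h2]
    rw [← e3]
    convert key
  · have hTp : ∀ p ∈ T, p.Prime := fun p hp => (hP p (hT hp)).1
    have hTe : ∀ p ∈ T, ¬ p ∣ e := fun p hp => hPe p (hT hp)
    apply le_of_eq
    congr 1
    unfold rr
    have h1 : ∑ m ∈ ((Icc 1 N).filter (fun n => e ∣ n + t)).filter (fun m => ∀ p ∈ T, p ∣ m + t),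
        f m * ro y (m + t) = ∑ n ∈ Icc 1 N, f n * ro y (n + t) * (if e * ∏ p ∈ T, p ∣ n + t then 1 else 0) := by
      rw [filter_filter, sum_filter]
      refine sum_congr rfl fun n _ => ?_
      have := dvd_iff_prod e (n + t) T hTp hTe
      by_cases h1 : e * ∏ p ∈ T, p ∣ n + t
      · rw [if_pos h1, if_pos (this.2 h1), mul_one]
      · rw [if_neg h1, if_neg (fun h => h1 (this.1 h)), mul_zero]
    have h3 : ∀ (x y z : ℝ), x = y → x - z = y - z := fun x y z h => by rw [h]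
    refine (h3 _ _ _ (Eq.trans ?_ h1)).trans ?_
    · congr 1
      congr!
    unfold W0
    have h2 : ∏ p ∈ T, (1 / (p : ℝ)) = 1 / ((∏ p ∈ T, p : ℕ) : ℝ) := by
      push_cast
      rw [prod_div_distrib, prod_const_one]
    rw [h2, sum_div, sum_mul, ← sum_sub_distrib]
    refine sum_congr rfl fun n _ => ?_
    unfold cen
    push_cast
    rw [← one_div_mul_one_div]
    ring

end Pool.Agent.Y822
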