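import Mathlib
import Pool.Agent.Y822.Lin
import Pool.Agent.Y822.Inn
import Pool.Agent.W23.DC.Fin5

/-! From rough numbers to numbers with at most two prime factors. -/

set_option autoImplicit false

namespace Pool.Agent.Y822.Stp

open Finset
open Pool.Agent.W23
open Pool.Agent.W23.DC (tt pr facR mem_pr Wf ind)
open Pool.Agent.Y822.Lin
open Pool.Agent.W41 (JJ JJ_lt JJ_le)

/-- the primes `p > y` below `N ^ ε₁` -/
noncomputable def Pin (N y : ℕ) (ε₁ : ℝ) : Finset ℕ := by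
  classical
  exact (Ioc y N).filter (fun p => p.Prime ∧ tt N p < ε₁)

lemma mem_Pin {N y : ℕ} {ε₁ : ℝ} {p : ℕ} : p ∈ Pin N y ε₁ ↔ (y < p ∧ p ≤ N) ∧ p.Prime ∧ tt N p < ε₁ := by
  unfold Pin
  rw [mem_filter, mem_Ioc]

open Classical in
/-- at most two prime factors, all at least `N ^ (1/7)` -/
noncomputable def g2 (N m : ℕ) : ℝ :=
  if m ≠ 0 ∧ m.primeFactorsList.length ≤ 2 ∧ ∀ q ∈ m.primeFactors, (N : ℝ) ^ (1 / 7 : ℝ) ≤ q then 1 else 0

open Classical in
/-- divisible by the square of a large prime -/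
noncomputable def bq (N m : ℕ) : ℝ :=
  if ∃ q : ℕ, q.Prime ∧ (N : ℝ) ^ (1 / 7 : ℝ) ≤ q ∧ q ^ 2 ∣ m then 1 else 0

lemma g2_bd (N m : ℕ) : 0 ≤ g2 N m ∧ g2 N m ≤ 1 := by
  unfold g2; split_ifs <;> norm_num

lemma FF_le {N : ℕ} {ε₁ : ℝ} {d : ℕ} (hN : 2 ≤ N) (h : d ∈ FF N ε₁) : 1 ≤ d ∧ (d : ℝ) ≤ (N : ℝ) ^ (111 / 200 : ℝ) := by
  classical
  have h1 := (mem_FF.1 h).1
  rw [facR, mem_filter, Pool.Agent.H442R2.BX.roughs, mem_filter, mem_Icc] at h1
  refine ⟨h1.1.1.1, ?_⟩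
  calc (d : ℝ) ≤ (⌊(N : ℝ) ^ (111 / 200 : ℝ)⌋₊ : ℝ) := by exact_mod_cast h1.1.1.2
    _ ≤ _ := Nat.floor_le (by positivity)

lemma tt_le {N : ℕ} (hN : 2 ≤ N) {p : ℕ} (hp : 0 < p) {u : ℝ} (h : (p : ℝ) ≤ (N : ℝ) ^ u) : tt N p ≤ u := by
  have hL : 0 < Real.log N := Real.log_pos (by exact_mod_cast (by omega : 1 < N))
  have hN0 : (0 : ℝ) < N := by exact_mod_cast (by omega : 0 < N)
  unfold tt
  rw [div_le_iff₀ hL, ← Real.log_rpow hN0]
  exact Real.log_le_log (by exact_mod_cast hp) h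

lemma sum_inv_FF (ε₁ : ℝ) (hε : 0 < ε₁) (hε1 : ε₁ ≤ 1) : ∃ N₀ : ℕ, ∀ N : ℕ, N₀ ≤ N →
    ∑ d ∈ insert 1 (FF N ε₁), 1 / (d : ℝ) ≤ Real.exp 1 / ε₁ := by
  classical
  obtain ⟨N₀, H⟩ := Pool.Agent.W378.DC.MP ε₁ 1 hε one_pos
  refine ⟨max N₀ 2, fun N hN => ?_⟩
  have hN2 : 2 ≤ N := (le_max_right _ _).trans hN
  have h1 := (abs_le.1 (H N ((le_max_left _ _).trans hN) ε₁ 1 le_rfl hε1 le_rfl)).2
  have hN1 : (1 : ℝ) ≤ N := by exact_mod_cast (by omega : 1 ≤ N)
  have hpf : ∀ d ∈ insert 1 (FF N ε₁), Squarefree d ∧ d.primeFactors ⊆ pr N ε₁ 1 := by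
    intro d hd
    rw [mem_insert] at hd
    rcases hd with rfl | hd
    · exact ⟨squarefree_one, by simp⟩
    · obtain ⟨h2, h3⟩ := FF_le hN2 hd
      obtain ⟨_, h4, h5⟩ := mem_FF.1 hd
      refine ⟨h4, fun p hp => ?_⟩
      have hpp := Nat.prime_of_mem_primeFactors hp
      have hpd : p ≤ d := Nat.le_of_dvd h2 (Nat.dvd_of_mem_primeFactors hp)
      have hpr : (p : ℝ) ≤ (N : ℝ) ^ (111 / 200 : ℝ) := le_trans (by exact_mod_cast hpd) h3
      have h6 : tt N p ≤ 111 / 200 := tt_le hN2 hpp.pos hpr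
      rw [mem_pr]
      refine ⟨⟨hpp.pos, ?_⟩, hpp, h5 p hp, by linarith⟩
      have h7 : (p : ℝ) ≤ N := by
        calc (p : ℝ) ≤ (N : ℝ) ^ (111 / 200 : ℝ) := hpr
          _ ≤ (N : ℝ) ^ (1 : ℝ) := Real.rpow_le_rpow_of_exponent_le hN1 (by norm_num)
          _ = N := Real.rpow_one _
      exact_mod_cast h7
  have h2 : ∑ d ∈ insert 1 (FF N ε₁), 1 / (d : ℝ) ≤ ∏ p ∈ pr N ε₁ 1, (1 + 1 / (p : ℝ)) := by
    rw [prod_one_add]
    have hinj : Set.InjOn Nat.primeFactors ((insert 1 (FF N ε₁) : Finset ℕ) : Set ℕ) := by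
      intro d hd d' hd' h
      have e1 := Nat.prod_primeFactors_of_squarefree (hpf d (mem_coe.1 hd)).1
      have e2 := Nat.prod_primeFactors_of_squarefree (hpf d' (mem_coe.1 hd')).1
      rw [← e1, ← e2, h]
    have h3 : ∀ d ∈ insert 1 (FF N ε₁), 1 / (d : ℝ) = ∏ p ∈ d.primeFactors, (1 / (p : ℝ)) := by
      intro d hd
      rw [prod_div_distrib, prod_const_one]
      congr 1
      conv_lhs => rw [← Nat.prod_primeFactors_of_squarefree (hpf d hd).1]
      push_cast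
      rfl
    rw [sum_congr rfl h3, ← sum_image (f := fun T : Finset ℕ => ∏ p ∈ T, (1 / (p : ℝ))) hinj]
    refine sum_le_sum_of_subset_of_nonneg ?_ (fun T _ _ => prod_nonneg fun p _ => by positivity)
    intro T hT
    rw [mem_image] at hT
    obtain ⟨d, hd, rfl⟩ := hT
    exact mem_powerset.2 (hpf d hd).2
  have h3 : ∏ p ∈ pr N ε₁ 1, (1 + 1 / (p : ℝ)) ≤ Real.exp (∑ p ∈ pr N ε₁ 1, 1 / ((p : ℝ) - 1)) := by
    rw [Real.exp_sum]
    refine prod_le_prod (fun p _ => by positivity) fun p hp => ?_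
    have h4 := one_div_le_g (mem_pr.1 hp).2.1
    have h5 := Real.add_one_le_exp (1 / ((p : ℝ) - 1))
    linarith
  have h4 : Real.exp (∑ p ∈ pr N ε₁ 1, 1 / ((p : ℝ) - 1)) ≤ Real.exp 1 / ε₁ := by
    have h5 : ∑ p ∈ pr N ε₁ 1, 1 / ((p : ℝ) - 1) ≤ 1 + Real.log (1 / ε₁) := by linarith
    calc _ ≤ Real.exp (1 + Real.log (1 / ε₁)) := Real.exp_le_exp.2 h5
      _ = Real.exp 1 / ε₁ := by
          rw [Real.exp_add, Real.exp_log (by positivity)]
          ring
  exact h2.trans (h3.trans h4)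

/-- from positive weight to an almost prime -/
theorem ptw : ∃ N₀ : ℕ, ∀ N : ℕ, N₀ ≤ N → ∀ (ε₁ : ℝ) (y : ℕ) (f : ℕ → ℝ) (t n : ℕ), ε₁ ≤ 1 →
    (∀ n, 0 ≤ f n ∧ f n ≤ 1) → t ≤ N → 1 ≤ n → n ≤ N →
    (f n * ro y (n + t) * rin (Pin N y ε₁) (n + t)) * Wf N ε₁ (n + t) ≤ f n * g2 N (n + t) + bq N (n + t) := by
  classical
  obtain ⟨N₀, hN₀⟩ := DC.struct
  refine ⟨max N₀ 2, ?_⟩
  intro N hN ε₁ y f t n hε hf ht hn1 hnN
  have hN2 : 2 ≤ N := (le_max_right _ _).trans hN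
  have hN1 : (1 : ℝ) ≤ N := by exact_mod_cast (by omega : 1 ≤ N)
  have hg := g2_bd N (n + t)
  have hf1 := hf n
  have hi0 : (0 : ℝ) ≤ bq N (n + t) := by
    unfold bq
    split_ifs <;> norm_num
  have hw0 : 0 ≤ f n * ro y (n + t) * rin (Pin N y ε₁) (n + t) :=
    mul_nonneg (mul_nonneg hf1.1 (ro_nonneg _ _)) (rin_nonneg _ _)
  have hwf : f n * ro y (n + t) * rin (Pin N y ε₁) (n + t) ≤ f n := by
    calc f n * ro y (n + t) * rin (Pin N y ε₁) (n + t) ≤ f n * 1 * 1 := by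
          apply mul_le_mul _ (rin_le_one _ _) (rin_nonneg _ _) (by linarith)
          exact mul_le_mul_of_nonneg_left (ro_le_one _ _) hf1.1
      _ = f n := by ring
  rcases le_or_gt (Wf N ε₁ (n + t)) 0 with hW | hW
  · have h1 : (f n * ro y (n + t) * rin (Pin N y ε₁) (n + t)) * Wf N ε₁ (n + t) ≤ 0 :=
      mul_nonpos_of_nonneg_of_nonpos hw0 hW
    have h2 : 0 ≤ f n * g2 N (n + t) := mul_nonneg hf1.1 hg.1
    linarith
  · have hW1 : Wf N ε₁ (n + t) ≤ 1 := DC.Wf_le_one _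
    have hlhs : (f n * ro y (n + t) * rin (Pin N y ε₁) (n + t)) * Wf N ε₁ (n + t) ≤ f n := by
      calc _ ≤ f n * 1 := mul_le_mul hwf hW1 hW.le hf1.1
        _ = f n := mul_one _
    by_cases hq : ∃ q : ℕ, q.Prime ∧ (N : ℝ) ^ (1 / 7 : ℝ) ≤ q ∧ q ^ 2 ∣ n + t
    · have hbq : bq N (n + t) = 1 := if_pos hq
      have h2 : 0 ≤ f n * g2 N (n + t) := mul_nonneg hf1.1 hg.1
      linarith
    · have hbq : bq N (n + t) = 0 := if_neg hq
      rw [hbq, add_zero]
      by_cases hz : f n * ro y (n + t) * rin (Pin N y ε₁) (n + t) = 0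
      · rw [hz, zero_mul]
        exact mul_nonneg hf1.1 hg.1
      · have hro : ro y (n + t) ≠ 0 := fun h => hz (by rw [h]; ring)
        have hri : rin (Pin N y ε₁) (n + t) ≠ 0 := fun h => hz (by rw [h]; ring)
        have hRo : Ro y (n + t) := by
          unfold ro at hro
          by_contra h
          rw [if_neg h] at hro
          exact hro rfl
        have hRi := rin_eq _ _ hri
        obtain ⟨m, s, hms, hm, hs2, hs3⟩ := hN₀ N ((le_max_left _ _).trans hN) ε₁ (n + t) (by omega)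
          (by omega) hW (fun q hq1 hq2 hq3 => hq ⟨q, hq1, hq2, hq3⟩)
        have hm1 : m = 1 := by
          by_contra hne
          obtain ⟨l, hl, hlm⟩ := Nat.exists_prime_and_dvd hne
          have h1 := hm l hl hlm
          have hln : l ∣ n + t := hms ▸ (hlm.mul_right s)
          have h2 : l ≤ N := by
            have h3 : (N : ℝ) ^ ε₁ ≤ N := by
              calc (N : ℝ) ^ ε₁ ≤ (N : ℝ) ^ (1 : ℝ) := Real.rpow_le_rpow_of_exponent_le hN1 hε
                _ = N := Real.rpow_one _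
            exact_mod_cast h1.le.trans h3
          rcases Nat.lt_or_ge y l with h3 | h3
          · exact hRi l (mem_Pin.2 ⟨⟨h3, h2⟩, hl, (DC.tt_lt_iff hN2 hl.pos _).2 h1⟩) hln
          · exact hRo l hl h3 hln
        have hg1 : g2 N (n + t) = 1 := by
          unfold g2
          rw [if_pos]
          rw [hm1, one_mul] at hms
          rw [hms]
          exact ⟨by omega, hs2, hs3⟩
        rw [hg1, mul_one]
        exact hlhs

lemma squares' {N : ℕ} (hN : 2 ≤ N) (t : ℕ) (ht : t ≤ N) :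
    ∑ n ∈ Icc 1 N, bq N (n + t) ≤ 12 * (N : ℝ) ^ (6 / 7 : ℝ) := by
  classical
  unfold bq
  have h := DC.squares hN (Icc 1 N) (fun p hp => (mem_Icc.1 hp).2) (-(t : ℤ)) (by
    rw [abs_neg, Nat.abs_cast]
    exact_mod_cast ht)
  refine le_trans (le_of_eq ?_) h
  rw [← sum_filter, sum_const, nsmul_eq_mul, mul_one]
  congr 1
  apply congrArg
  refine filter_congr fun n hn => ?_
  have hn1 := (mem_Icc.1 hn).1
  have e : (-(t : ℤ) - (n : ℤ)).natAbs = n + t := by omega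
  rw [e]
  constructor
  · intro h
    exact ⟨by omega, h⟩
  · intro h
    exact h.2

/-- **one shift** -/
theorem step : ∃ c₀ : ℝ, 0 < c₀ ∧ ∃ C0 : ℕ, 1 ≤ C0 ∧ ∀ δ' : ℝ, 0 < δ' → ∃ ε₁ : ℝ, 0 < ε₁ ∧ ε₁ ≤ 1 / 25 ∧
    ε₁ ≤ δ' ∧ ∃ N₀ : ℕ, ∀ N : ℕ, N₀ ≤ N → ∀ y : ℕ, C0 ≤ y → ∀ f : ℕ → ℝ, (∀ n, 0 ≤ f n ∧ f n ≤ 1) →
    ∀ t ≤ N, c₀ * ε₁ * (W0 y N f t * VP (Pin N y ε₁)) - 3 * (Real.log N + 3) *
      (∑ d ∈ insert 1 (FF N ε₁), ∑ T ∈ (Pin N y ε₁).powerset.filter
        (fun T : Finset ℕ => ((∏ p ∈ T, p : ℕ) : ℝ) ≤ (N : ℝ) ^ δ'), |rr y N f t (d * ∏ p ∈ T, p)|) -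
      12 * (N : ℝ) ^ (6 / 7 : ℝ) ≤ ∑ n ∈ Icc 1 N, f n * g2 N (n + t) := by
  classical
  obtain ⟨c₀, hc₀, H1⟩ := lowW
  obtain ⟨C0, hC0, H2⟩ := inner
  refine ⟨c₀ / 2, by positivity, C0, hC0, ?_⟩
  intro δ' hδ'
  have hC0r : (1 : ℝ) ≤ C0 := by exact_mod_cast hC0
  -- the choice of `b`
  have ht1 : Filter.Tendsto (fun n : ℕ => (n : ℝ) ^ 2 * (1 / 2 : ℝ) ^ n) Filter.atTop (nhds 0) :=
    tendsto_pow_const_mul_const_pow_of_abs_lt_one 2 (by rw [abs_of_pos] <;> norm_num)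
  have hK : (0 : ℝ) < c₀ * (δ' / (2 * C0)) ^ 2 / (6 * Real.exp 1) := by positivity
  obtain ⟨b, hb1, hb2, hb3⟩ := ((ht1.eventually_le_const hK).and
    ((Filter.eventually_ge_atTop C0).and ((tendsto_natCast_atTop_atTop (R := ℝ)).eventually_ge_atTop
      (max 1 (25 * δ'))))).exists
  have hb4 : (1 : ℝ) ≤ b := (le_max_left _ _).trans hb3
  have hb5 : 25 * δ' ≤ b := (le_max_right _ _).trans hb3
  obtain ⟨ε₁, hε₁⟩ : ∃ ε₁ : ℝ, ε₁ = δ' / (2 * C0 * b) := ⟨_, rfl⟩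
  have hε0 : 0 < ε₁ := by rw [hε₁]; positivity
  have hε25 : ε₁ ≤ 1 / 25 := by
    rw [hε₁, div_le_div_iff₀ (by positivity) (by norm_num)]
    nlinarith
  have hεδ : ε₁ ≤ δ' := by
    rw [hε₁]
    apply div_le_self hδ'.le
    nlinarith
  have hlev : 2 * ε₁ * (C0 * b) = δ' := by rw [hε₁]; field_simp
  have hbε : (1 / 2 : ℝ) ^ b * (Real.exp 1 / ε₁) * 3 ≤ c₀ * ε₁ / 2 := by
    have h1 : δ' / (2 * C0) = ε₁ * b := by rw [hε₁]; field_simp
    rw [h1] at hb1
    have h2 : (1 / 2 : ℝ) ^ b ≤ c₀ * ε₁ ^ 2 / (6 * Real.exp 1) := by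
      have h3 : (b : ℝ) ^ 2 * (1 / 2 : ℝ) ^ b ≤ b ^ 2 * (c₀ * ε₁ ^ 2 / (6 * Real.exp 1)) := by
        refine hb1.trans (le_of_eq ?_)
        ring
      exact le_of_mul_le_mul_left h3 (by positivity)
    calc (1 / 2 : ℝ) ^ b * (Real.exp 1 / ε₁) * 3 ≤ c₀ * ε₁ ^ 2 / (6 * Real.exp 1) * (Real.exp 1 / ε₁) * 3 := by
          gcongr
      _ = c₀ * ε₁ / 2 := by
          field_simp
          ring
  refine ⟨ε₁, hε0, hε25, hεδ, ?_⟩
  obtain ⟨N₁, hN₁⟩ := H1 ε₁ hε0 hε25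
  obtain ⟨N₂, hN₂⟩ := sum_inv_FF ε₁ hε0 (by linarith)
  obtain ⟨N₃, hN₃⟩ := ptw
  refine ⟨max (max N₁ N₂) (max N₃ 3), ?_⟩
  intro N hN y hy f hf t ht
  have hNN₁ : N₁ ≤ N := ((le_max_left _ _).trans (le_max_left _ _)).trans hN
  have hNN₂ : N₂ ≤ N := ((le_max_right _ _).trans (le_max_left _ _)).trans hN
  have hNN₃ : N₃ ≤ N := ((le_max_left _ _).trans (le_max_right _ _)).trans hN
  have hN3 : 3 ≤ N := ((le_max_right _ _).trans (le_max_right _ _)).trans hN
  have hN2 : 2 ≤ N := by omega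
  have hN1 : (1 : ℝ) ≤ N := by exact_mod_cast (by omega : 1 ≤ N)
  have hN0 : (0 : ℝ) < N := by linarith
  set P := Pin N y ε₁ with hP
  set Z := ⌊(N : ℝ) ^ ε₁⌋₊ with hZ
  have hZr : (Z : ℝ) ≤ (N : ℝ) ^ ε₁ := Nat.floor_le (by positivity)
  set Z' := max Z 2 with hZ'
  obtain ⟨J, hJ⟩ : ∃ J : ℕ, J = JJ Z' := ⟨_, rfl⟩
  have hW0 : 0 ≤ W0 y N f t := sum_nonneg fun n _ => mul_nonneg (hf n).1 (ro_nonneg _ _)
  have hVP : 0 ≤ VP P := by
    refine prod_nonneg fun p hp => ?_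
    have hp2 : (2 : ℝ) ≤ p := by exact_mod_cast (mem_Pin.1 hp).2.1.two_le
    rw [sub_nonneg, div_le_one (by linarith)]
    linarith
  have hX : 0 ≤ W0 y N f t * VP P := mul_nonneg hW0 hVP
  have hPlt : ∀ p ∈ P, (p : ℝ) < (N : ℝ) ^ ε₁ := fun p hp =>
    (DC.tt_lt_iff hN2 (mem_Pin.1 hp).2.1.pos _).1 (mem_Pin.1 hp).2.2
  have hPJ : ∀ p ∈ P, p.Prime ∧ y < p ∧ p ≤ 2 ^ 2 ^ J := by
    intro p hp
    refine ⟨(mem_Pin.1 hp).2.1, (mem_Pin.1 hp).1.1, ?_⟩
    have h1 : p ≤ Z := Nat.le_floor (hPlt p hp).le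
    rw [hJ]
    exact (h1.trans (le_max_left _ _)).trans (JJ_lt Z').le
  -- the level, if `P` is nonempty
  have hpow : P.Nonempty → (((2 ^ 2 ^ J) ^ (C0 * b) : ℕ) : ℝ) ≤ (N : ℝ) ^ δ' := by
    rintro ⟨p, hp⟩
    have h1 : p ≤ Z := Nat.le_floor (hPlt p hp).le
    have h2 : 2 ≤ Z := (mem_Pin.1 hp).2.1.two_le.trans h1
    have h3 : Z' = Z := max_eq_left h2
    have h4 : (((2 ^ 2 ^ J : ℕ)) : ℝ) ≤ ((N : ℝ) ^ ε₁) ^ 2 := by
      have h5 : 2 ^ 2 ^ J ≤ Z ^ 2 := by
        rw [hJ, h3]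
        exact JJ_le Z h2
      calc (((2 ^ 2 ^ J : ℕ)) : ℝ) ≤ ((Z ^ 2 : ℕ) : ℝ) := by exact_mod_cast h5
        _ = (Z : ℝ) ^ 2 := by push_cast; rfl
        _ ≤ _ := pow_le_pow_left₀ (Nat.cast_nonneg _) hZr 2
    calc (((2 ^ 2 ^ J) ^ (C0 * b) : ℕ) : ℝ) = (((2 ^ 2 ^ J : ℕ)) : ℝ) ^ (C0 * b) := by push_cast; rfl
      _ ≤ (((N : ℝ) ^ ε₁) ^ 2) ^ (C0 * b) := pow_le_pow_left₀ (Nat.cast_nonneg _) h4 _
      _ = (N : ℝ) ^ δ' := by
          rw [← pow_mul, ← Real.rpow_natCast, ← Real.rpow_mul hN0.le]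
          congr 1
          push_cast
          linarith [hlev]
  have hone : (1 : ℝ) ≤ (N : ℝ) ^ δ' := Real.one_le_rpow hN1 hδ'.le
  have hJL : ((J : ℝ) + 2) ≤ Real.log N + 3 ∨ P = ∅ := by
    rcases P.eq_empty_or_nonempty with h | ⟨p, hp⟩
    · exact Or.inr h
    · left
      have h1 : p ≤ Z := Nat.le_floor (hPlt p hp).le
      have h2 : 2 ≤ Z := (mem_Pin.1 hp).2.1.two_le.trans h1
      have h3 : Z' = Z := max_eq_left h2
      have h5 : 2 ^ 2 ^ J ≤ Z ^ 2 := by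
        rw [hJ, h3]
        exact JJ_le Z h2
      have h6 : (((2 ^ 2 ^ J : ℕ)) : ℝ) ≤ N := by
        calc (((2 ^ 2 ^ J : ℕ)) : ℝ) ≤ ((Z ^ 2 : ℕ) : ℝ) := by exact_mod_cast h5
          _ = (Z : ℝ) ^ 2 := by push_cast; rfl
          _ ≤ ((N : ℝ) ^ ε₁) ^ 2 := pow_le_pow_left₀ (Nat.cast_nonneg _) hZr 2
          _ = (N : ℝ) ^ (ε₁ * 2) := by rw [← Real.rpow_natCast, ← Real.rpow_mul hN0.le]; norm_num
          _ ≤ (N : ℝ) ^ (1 : ℝ) := Real.rpow_le_rpow_of_exponent_le hN1 (by linarith)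
          _ = N := Real.rpow_one _
      have h7 : J ≤ 2 ^ J := Nat.lt_two_pow_self.le
      have h8 : ((2 : ℝ) ^ (J : ℝ)) ≤ N := by
        rw [Real.rpow_natCast]
        refine le_trans ?_ h6
        push_cast
        exact pow_le_pow_right₀ (by norm_num) h7
      have h9 : (2 : ℝ) ^ ((2 ^ J : ℕ) : ℝ) ≤ N := by
        rw [Real.rpow_natCast]
        exact_mod_cast h6
      have h10 : ((2 ^ J : ℕ) : ℝ) * Real.log 2 ≤ Real.log N := by
        rw [← Real.log_rpow (by norm_num)]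
        exact Real.log_le_log (by positivity) h9
      have h11 : (J : ℝ) ≤ ((2 ^ J : ℕ) : ℝ) / 2 + 1 := by
        have : 2 * J ≤ 2 ^ J + 2 := by
          clear * -
          induction J with
          | zero => norm_num
          | succ J ih =>
            rcases Nat.lt_or_ge J 2 with h | h
            · interval_cases J <;> norm_num
            · have : 2 ≤ 2 ^ J := by
                calc 2 = 2 ^ 1 := by norm_num
                  _ ≤ 2 ^ J := Nat.pow_le_pow_right (by norm_num) (by omega)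
              rw [pow_succ]
              omega
        have h12 : (2 : ℝ) * J ≤ ((2 ^ J : ℕ) : ℝ) + 2 := by exact_mod_cast this
        linarith
      have h12 := Real.log_two_gt_d9
      have h13 : (0 : ℝ) ≤ ((2 ^ J : ℕ) : ℝ) := Nat.cast_nonneg _
      nlinarith
  -- the two bounds
  have key1 := hN₁ N hNN₁ (Icc 1 N) (fun n => f n * ro y (n + t) * rin P (n + t)) (fun n => n + t)
    (W0 y N f t * VP P)
    (fun n _ => mul_nonneg (mul_nonneg (hf n).1 (ro_nonneg _ _)) (rin_nonneg _ _)) hX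
  set S2 := ∑ d ∈ insert 1 (FF N ε₁), ∑ T ∈ P.powerset.filter
        (fun T : Finset ℕ => ((∏ p ∈ T, p : ℕ) : ℝ) ≤ (N : ℝ) ^ δ'), |rr y N f t (d * ∏ p ∈ T, p)| with hS2
  have hS20 : 0 ≤ S2 := sum_nonneg fun d _ => sum_nonneg fun T _ => abs_nonneg _
  have hlogN : 0 ≤ Real.log N := Real.log_nonneg hN1
  have key2 : ∑ d ∈ insert 1 (FF N ε₁), |(∑ n ∈ Icc 1 N, (f n * ro y (n + t) * rin P (n + t)) * ind (n + t) d) -
      W0 y N f t * VP P * (1 / (d : ℝ))| ≤
      (1 / 2) ^ b * (W0 y N f t * VP P) * (Real.exp 1 / ε₁) + (Real.log N + 3) * S2 := by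
    have h1 : ∀ d ∈ insert 1 (FF N ε₁), |(∑ n ∈ Icc 1 N, (f n * ro y (n + t) * rin P (n + t)) * ind (n + t) d) -
      W0 y N f t * VP P * (1 / (d : ℝ))| ≤ (1 / 2) ^ b * (W0 y N f t * VP P) * (1 / (d : ℝ)) +
      (Real.log N + 3) * ∑ T ∈ P.powerset.filter
        (fun T : Finset ℕ => ((∏ p ∈ T, p : ℕ) : ℝ) ≤ (N : ℝ) ^ δ'), |rr y N f t (d * ∏ p ∈ T, p)| := by
      intro d hd
      have hd1 : 1 ≤ d := by
        rw [mem_insert] at hd
        rcases hd with rfl | hd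
        · exact le_rfl
        · exact (FF_le hN2 hd).1
      have hPd : ∀ p ∈ P, ¬ p ∣ d := by
        intro p hp hpd
        have hpp := (mem_Pin.1 hp).2.1
        rw [mem_insert] at hd
        rcases hd with rfl | hd
        · exact hpp.one_lt.ne' (Nat.dvd_one.1 hpd)
        · have h2 := (mem_FF.1 hd).2.2 p (Nat.mem_primeFactors.2 ⟨hpp, hpd, by omega⟩)
          have h3 := (mem_Pin.1 hp).2.2
          linarith
      have h2 := H2 b J y N P hb2 hy hPJ f (fun n => (hf n).1) t d hd1 hPd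
      have h3 : Aw y N P f t d = ∑ n ∈ Icc 1 N, (f n * ro y (n + t) * rin P (n + t)) * ind (n + t) d := rfl
      rw [h3] at h2
      refine h2.trans ?_
      have h4 : (1 / 2 : ℝ) ^ b * (W0 y N f t * VP P * (1 / (d : ℝ))) =
        (1 / 2) ^ b * (W0 y N f t * VP P) * (1 / (d : ℝ)) := by ring
      rw [h4]
      have h5 : ((J : ℝ) + 2) * ∑ T ∈ P.powerset.filter (fun T : Finset ℕ => ∏ p ∈ T, p ≤ (2 ^ 2 ^ J) ^ (C0 * b)),
          |rr y N f t (d * ∏ p ∈ T, p)| ≤ (Real.log N + 3) * ∑ T ∈ P.powerset.filter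
        (fun T : Finset ℕ => ((∏ p ∈ T, p : ℕ) : ℝ) ≤ (N : ℝ) ^ δ'), |rr y N f t (d * ∏ p ∈ T, p)| := by
        rcases P.eq_empty_or_nonempty with hPe | hPn
        · have h8 : rr y N f t d = 0 ∨ d ≠ 1 := by
            rcases eq_or_ne d 1 with h | h
            · left
              rw [h]
              unfold rr cen
              apply sum_eq_zero
              intro n _
              simp
            · exact Or.inr h
          -- `J = JJ 2`-independent crude bound is not available; use the direct count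
          have h9 : ((J : ℝ) + 2) ≤ Real.log N + 3 ∨ ¬ ((J : ℝ) + 2 ≤ Real.log N + 3) := em _
          rcases h9 with h9 | h9
          · apply mul_le_mul h9 _ (sum_nonneg fun T _ => abs_nonneg _) (by linarith)
            rw [hPe]
            simp only [powerset_empty]
            apply sum_le_sum_of_subset_of_nonneg
            · intro T hT
              rw [mem_filter, mem_singleton] at hT ⊢
              rw [hT.1]
              simp
              exact hone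
            · intro T _ _
              exact abs_nonneg _
          · exfalso
            apply h9
            -- `Z' ≤ N`, so the same bound for `J`
            have hZN : Z' ≤ N := by
              apply max_le _ hN2
              have h3 : (N : ℝ) ^ ε₁ ≤ N := by
                calc (N : ℝ) ^ ε₁ ≤ (N : ℝ) ^ (1 : ℝ) := Real.rpow_le_rpow_of_exponent_le hN1 (by linarith)
                  _ = N := Real.rpow_one _
              exact_mod_cast hZr.trans h3
            have g1 : Nat.log 2 Z' ≤ Nat.log 2 N := Nat.log_mono_right hZN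
            have g2 : (Nat.log 2 N : ℝ) ≤ Real.logb 2 N := Real.natLog_le_logb _ _
            have g3 : (J : ℝ) = (Nat.log 2 (Nat.log 2 Z') : ℝ) + 1 := by
              rw [hJ]; unfold JJ; push_cast; rfl
            have g4 : 2 * Nat.log 2 (Nat.log 2 Z') ≤ Nat.log 2 Z' := by
              set L := Nat.log 2 Z' with hL
              have hL1 : 1 ≤ L := by
                rw [hL]
                exact Nat.log_pos (by norm_num) (le_max_right _ _)
              have h5 : 2 ^ Nat.log 2 L ≤ L := Nat.pow_log_le_self 2 (by omega)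
              have h6 : ∀ k : ℕ, 2 * k ≤ 2 ^ k := by
                intro k
                induction k with
                | zero => norm_num
                | succ k ih =>
                  rcases Nat.eq_zero_or_pos k with rfl | hk
                  · norm_num
                  · have : 2 ≤ 2 ^ k := by
                      calc 2 = 2 ^ 1 := by norm_num
                        _ ≤ 2 ^ k := Nat.pow_le_pow_right (by norm_num) hk
                    rw [pow_succ]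
                    omega
              exact (h6 _).trans h5
            have g5 : 2 * (Nat.log 2 (Nat.log 2 Z') : ℝ) ≤ Nat.log 2 N := by
              exact_mod_cast g4.trans g1
            have g6 : Real.logb 2 N = Real.log N / Real.log 2 := rfl
            have g7 := Real.log_two_gt_d9
            have g8 : Real.log N / Real.log 2 ≤ 2 * Real.log N := by
              rw [div_le_iff₀ (by linarith)]
              nlinarith
            rw [g3]
            linarith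
        · have h6 : ((J : ℝ) + 2) ≤ Real.log N + 3 := by
            rcases hJL with h | h
            · exact h
            · rw [h] at hPn
              exact absurd hPn (by simp)
          apply mul_le_mul h6 _ (sum_nonneg fun T _ => abs_nonneg _) (by linarith)
          apply sum_le_sum_of_subset_of_nonneg
          · intro T hT
            rw [mem_filter] at hT ⊢
            refine ⟨hT.1, le_trans ?_ (hpow hPn)⟩
            exact_mod_cast hT.2
          · intro T _ _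
            exact abs_nonneg _
      linarith
    refine (sum_le_sum h1).trans ?_
    rw [sum_add_distrib, ← mul_sum, ← mul_sum]
    have h2 := hN₂ N hNN₂
    have h3 : 0 ≤ (1 / 2 : ℝ) ^ b * (W0 y N f t * VP P) := by positivity
    have h4 := mul_le_mul_of_nonneg_left h2 h3
    linarith
  have key3 : ∑ n ∈ Icc 1 N, (f n * ro y (n + t) * rin P (n + t)) * Wf N ε₁ (n + t) ≤
      ∑ n ∈ Icc 1 N, f n * g2 N (n + t) + 12 * (N : ℝ) ^ (6 / 7 : ℝ) := by
    have h1 := squares' hN2 t ht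
    have h2 : ∑ n ∈ Icc 1 N, (f n * ro y (n + t) * rin P (n + t)) * Wf N ε₁ (n + t) ≤
      ∑ n ∈ Icc 1 N, (f n * g2 N (n + t) + bq N (n + t)) := by
      refine sum_le_sum fun n hn => ?_
      rw [mem_Icc] at hn
      exact hN₃ N hNN₃ ε₁ y f t n (by linarith) hf ht hn.1 hn.2
    rw [sum_add_distrib] at h2
    linarith
  have h5 : 3 * ((1 / 2) ^ b * (W0 y N f t * VP P) * (Real.exp 1 / ε₁)) ≤ c₀ * ε₁ / 2 * (W0 y N f t * VP P) := by
    have := mul_le_mul_of_nonneg_right hbε hX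
    linarith
  linarith

end Pool.Agent.Y822.Stp
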