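import Mathlib
import Pool.Agent.H20R2.EN.FLem

/-! Periodic functions on the integers, and the fundamental lemma with signed weights. -/

set_option autoImplicit false

namespace Pool.Agent.Y822.Per

open Finset

/-- `Φ` depends on the class modulo `Q` only -/
def PerF (Q : ℕ) (Φ : ℤ → ℝ) : Prop := ∀ n : ℤ, Φ n = Φ (n % (Q : ℤ))

lemma PerF.mul {Q Q' : ℕ} {Φ Ψ : ℤ → ℝ} (hΦ : PerF Q Φ) (hΨ : PerF Q' Ψ) :
    PerF (Q * Q') (fun n => Φ n * Ψ n) := by
  intro n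
  have h1 : ∀ (q : ℕ) (F : ℤ → ℝ), PerF q F → ∀ r : ℕ, q ∣ r → F n = F (n % (r : ℤ)) := by
    intro q F hF r hr
    rw [hF n, hF (n % (r : ℤ))]
    congr 1
    exact (Int.emod_emod_of_dvd n (Int.natCast_dvd_natCast.2 hr)).symm
  simp only
  rw [h1 Q Φ hΦ (Q * Q') (Dvd.intro _ rfl), h1 Q' Ψ hΨ (Q * Q') (Dvd.intro_left _ rfl)]

lemma PerF.of_dvd {Q R : ℕ} {Φ : ℤ → ℝ} (hΦ : PerF Q Φ) (h : Q ∣ R) : PerF R Φ := by
  intro n
  rw [hΦ n, hΦ (n % (R : ℤ))]
  congr 1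
  exact (Int.emod_emod_of_dvd n (Int.natCast_dvd_natCast.2 h)).symm

/-- decomposition into residue classes -/
theorem per_sum {Q : ℕ} (hQ : 1 ≤ Q) {Φ : ℤ → ℝ} (hΦ : PerF Q Φ) (s : Finset ℤ) (h : ℤ → ℝ) :
    ∑ n ∈ s, Φ n * h n =
      ∑ b ∈ range Q, Φ b * ∑ n ∈ s, (if (Q : ℤ) ∣ n - (b : ℤ) then h n else 0) := by
  simp only [mul_sum]
  rw [sum_comm]
  refine sum_congr rfl fun n _ => ?_
  have hQ0 : (0 : ℤ) < Q := by exact_mod_cast hQ
  have h0 := Int.emod_nonneg n hQ0.ne'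
  have h1 := Int.emod_lt_of_pos n hQ0
  obtain ⟨r, hr⟩ : ∃ r : ℕ, n % (Q : ℤ) = r := ⟨(n % (Q : ℤ)).toNat, (Int.toNat_of_nonneg h0).symm⟩
  have hrQ : r ∈ range Q := by
    rw [mem_range]
    rw [hr] at h1
    exact_mod_cast h1
  rw [sum_eq_single_of_mem r hrQ]
  · have h2 : (Q : ℤ) ∣ n - (r : ℤ) := by
      rw [← hr]
      exact Int.dvd_self_sub_emod
    rw [if_pos h2, hΦ n, hr]
  · intro b hb hne
    have h2 : ¬ (Q : ℤ) ∣ n - (b : ℤ) := by
      intro h3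
      apply hne
      have h4 : (b : ℤ) % Q = n % Q := (Int.emod_emod_of_dvd _ (dvd_refl _) ▸ (Int.emod_eq_emod_iff_emod_sub_eq_zero.2
        (Int.emod_eq_zero_of_dvd h3)).symm)
      rw [mem_range] at hb
      rw [Int.emod_eq_of_lt (by positivity) (by exact_mod_cast hb), hr] at h4
      exact_mod_cast h4
    rw [if_neg h2, mul_zero]

/-- Chinese remainder theorem for sums -/
theorem crt_sum {Q p : ℕ} (hQ : 1 ≤ Q) (hp : 1 ≤ p) (hcop : Nat.Coprime Q p) (F G : ℕ → ℝ) :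
    ∑ b ∈ range (Q * p), F (b % Q) * G (b % p) = (∑ x ∈ range Q, F x) * ∑ x ∈ range p, G x := by
  rw [sum_mul_sum, ← sum_product' (range Q) (range p) (fun x y => F x * G y)]
  refine sum_bij (fun b _ => (b % Q, b % p)) ?_ ?_ ?_ ?_
  · intro b _
    rw [mem_product, mem_range, mem_range]
    exact ⟨Nat.mod_lt _ hQ, Nat.mod_lt _ hp⟩
  · intro b hb b' hb' h
    rw [mem_range] at hb hb'
    rw [Prod.mk.injEq] at h
    have h1 : b ≡ b' [MOD Q * p] := (Nat.modEq_and_modEq_iff_modEq_mul hcop).1 ⟨h.1, h.2⟩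
    exact Nat.ModEq.eq_of_lt_of_lt h1 hb hb'
  · rintro ⟨x, y⟩ hxy
    rw [mem_product, mem_range, mem_range] at hxy
    obtain ⟨k, hk1, hk2⟩ := Nat.chineseRemainder hcop x y
    refine ⟨k % (Q * p), mem_range.2 (Nat.mod_lt _ (Nat.mul_pos hQ hp)), ?_⟩
    have e1 : k % (Q * p) % Q = x := by
      rw [Nat.mod_mul_right_mod]
      exact Nat.mod_eq_of_modEq hk1 hxy.1
    have e2 : k % (Q * p) % p = y := by
      rw [Nat.mod_mul_left_mod]
      exact Nat.mod_eq_of_modEq hk2 hxy.2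
    rw [e1, e2]
  · intro b _
    rfl

theorem per_mul {Q p : ℕ} (hQ : 1 ≤ Q) (hp : 1 ≤ p) (hcop : Nat.Coprime Q p) {Φ Ψ : ℤ → ℝ}
    (hΦ : PerF Q Φ) (hΨ : PerF p Ψ) :
    ∑ b ∈ range (Q * p), Φ b * Ψ b = (∑ x ∈ range Q, Φ x) * ∑ x ∈ range p, Ψ x := by
  rw [← crt_sum hQ hp hcop (fun x => Φ x) (fun x => Ψ x)]
  refine sum_congr rfl fun b _ => ?_
  rw [hΦ b, hΨ b]
  push_cast
  rfl

/-- several primes -/
theorem per_prod {Q : ℕ} (hQ : 1 ≤ Q) {Φ : ℤ → ℝ} (hΦ : PerF Q Φ) (h : ℕ → ℤ → ℝ) (T : Finset ℕ)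
    (hT : ∀ p ∈ T, p.Prime ∧ ¬ p ∣ Q ∧ PerF p (h p)) :
    PerF (Q * ∏ p ∈ T, p) (fun n => Φ n * ∏ p ∈ T, h p n) ∧
    ∑ b ∈ range (Q * ∏ p ∈ T, p), Φ b * ∏ p ∈ T, h p b =
      (∑ x ∈ range Q, Φ x) * ∏ p ∈ T, ∑ x ∈ range p, h p x := by
  classical
  induction T using Finset.induction_on with
  | empty =>
    simp only [prod_empty, mul_one]
    exact ⟨hΦ, trivial⟩
  | insert p T hpT ih =>
    obtain ⟨ih1, ih2⟩ := ih fun q hq => hT q (mem_insert_of_mem hq)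
    obtain ⟨hp, hpQ, hper⟩ := hT p (mem_insert_self _ _)
    rw [prod_insert hpT, prod_insert hpT]
    have e1 : Q * (p * ∏ x ∈ T, x) = (Q * ∏ x ∈ T, x) * p := by ring
    have e2 : ∀ n : ℤ, Φ n * ∏ q ∈ insert p T, h q n = (Φ n * ∏ q ∈ T, h q n) * h p n := by
      intro n
      rw [prod_insert hpT]
      ring
    have hQT : 1 ≤ Q * ∏ x ∈ T, x := by
      refine Nat.mul_pos hQ (Finset.prod_pos fun q hq => ?_)
      exact (hT q (mem_insert_of_mem hq)).1.pos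
    have hcop : Nat.Coprime (Q * ∏ x ∈ T, x) p := by
      refine (Nat.Coprime.symm ?_)
      rw [hp.coprime_iff_not_dvd]
      intro hd
      rcases hp.dvd_mul.1 hd with h1 | h1
      · exact hpQ h1
      · obtain ⟨q, hq, hpq⟩ := (hp.prime.dvd_finsetProd_iff _).1 h1
        have := (Nat.prime_dvd_prime_iff_eq hp (hT q (mem_insert_of_mem hq)).1).1 hpq
        exact hpT (this ▸ hq)
    rw [e1]
    constructor
    · have := PerF.mul ih1 hper
      intro n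
      simp only [e2]
      exact this n
    · simp only [e2]
      rw [per_mul hQT hp.pos hcop ih1 hper, ih2]
      ring

/-- the fundamental lemma for the product of a nonnegative weight and a bounded function -/
theorem fl_signed : ∃ C0 : ℕ, 3 ≤ C0 ∧ ∀ (b J z0 : ℕ) (P : Finset ℕ) (g : ℕ → ℝ), C0 ≤ b → C0 ≤ z0 →
    (∀ p ∈ P, p.Prime ∧ z0 < p ∧ p ≤ 2 ^ 2 ^ J) → (∀ p ∈ P, 0 ≤ g p ∧ g p ≤ 2 / (p : ℝ)) →
    ∀ (s : Finset ℤ) (w S : ℤ → ℝ) (hit : ℕ → ℤ → Prop) (A B E E' : ℝ) (Y : ℕ),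
    (∀ n ∈ s, 0 ≤ w n) → 0 ≤ A → 0 ≤ B → 0 ≤ E → 0 ≤ E' → (2 ^ 2 ^ J) ^ (C0 * b) ≤ Y →
    (∀ n ∈ s, w n ≠ 0 → |S n| ≤ B) →
    (∀ T ⊆ P, ∏ p ∈ T, p ≤ Y →
      |∑ n ∈ s, w n * (∏ p ∈ T, (by classical exact if hit p n then (1 : ℝ) else 0)) - A * ∏ p ∈ T, g p| ≤ E ∧
      |∑ n ∈ s, w n * (∏ p ∈ T, (by classical exact if hit p n then (1 : ℝ) else 0)) * S n| ≤ E') →
    |∑ n ∈ s, w n * (∏ p ∈ P, (by classical exact if hit p n then (0 : ℝ) else 1)) * S n| ≤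
      (1 / 2) ^ b * (B * A) + ((J : ℝ) + 2) * (Y * (B * E + E')) := by
  classical
  obtain ⟨C0, hC0, H⟩ := Pool.Agent.H20R2.fLem 2
  refine ⟨max C0 3, le_max_right _ _, ?_⟩
  intro b J z0 P g hb hz hP hg s w S hit A B E E' Y hw hA hB hE hE' hY hS hyp
  have hbC : C0 ≤ b := (le_max_left _ _).trans hb
  have hzC : C0 ≤ z0 := (le_max_left _ _).trans hz
  have hY' : (2 ^ 2 ^ J) ^ (C0 * b) ≤ Y := by
    refine le_trans (Nat.pow_le_pow_right (by positivity) ?_) hY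
    exact Nat.mul_le_mul_right b (le_max_left _ _)
  have hg' : ∀ p ∈ P, 0 ≤ g p ∧ g p ≤ ((2 : ℕ) : ℝ) / ((p : ℝ) - 1) := by
    intro p hp
    have hp2 : (2 : ℝ) ≤ p := by exact_mod_cast (hP p hp).1.two_le
    refine ⟨(hg p hp).1, (hg p hp).2.trans ?_⟩
    push_cast
    exact div_le_div_of_nonneg_left (by norm_num) (by linarith) (by linarith)
  have hg1 : ∀ p ∈ P, 0 ≤ 1 - g p ∧ 1 - g p ≤ 1 := by
    intro p hp
    have hp3 : (3 : ℝ) ≤ p := by
      have h1 := (hP p hp).2.1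
      have h2 : 3 ≤ z0 := (le_max_right _ _).trans hz
      exact_mod_cast (by omega : 3 ≤ p)
    obtain ⟨h1, h2⟩ := hg p hp
    have h3 : 2 / (p : ℝ) ≤ 1 := by rw [div_le_one (by linarith)]; linarith
    constructor <;> linarith
  have hV0 : 0 ≤ ∏ p ∈ P, (1 - g p) := prod_nonneg fun p hp => (hg1 p hp).1
  have hV1 : ∏ p ∈ P, (1 - g p) ≤ 1 := prod_le_one (fun p hp => (hg1 p hp).1) fun p hp => (hg1 p hp).2
  set e := Equiv.intEquivNat with he
  -- the conclusion of the lemma for a weight `W`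
  have main : ∀ (W : ℤ → ℝ) (A' E₁ : ℝ), (∀ n ∈ s, 0 ≤ W n) → 0 ≤ A' → 0 ≤ E₁ →
      (∀ T ⊆ P, ∏ p ∈ T, p ≤ Y →
      |∑ n ∈ s, W n * (∏ p ∈ T, (if hit p n then (1 : ℝ) else 0)) - A' * ∏ p ∈ T, g p| ≤ E₁) →
      |∑ n ∈ s, W n * (∏ p ∈ P, (if hit p n then (0 : ℝ) else 1)) - A' * ∏ p ∈ P, (1 - g p)| ≤
        (1 / 2) ^ b * (A' * ∏ p ∈ P, (1 - g p)) + ((J : ℝ) + 2) * (Y * E₁) := by
    intro W A' E₁ hW hA' hE₁ hyp'
    have hconv : ∀ (q : ℤ → Prop), ∑ m ∈ (s.map e.toEmbedding).filter (fun m => q (e.symm m)), W (e.symm m) =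
        ∑ n ∈ s, W n * (if q n then 1 else 0) := by
      intro q
      rw [sum_filter, sum_map]
      refine sum_congr rfl fun n _ => ?_
      simp only [Equiv.coe_toEmbedding, Equiv.symm_apply_apply]
      split_ifs <;> ring
    have key := H b J z0 P g hbC hzC hP hg' (s.map e.toEmbedding) (fun m => W (e.symm m))
      (fun p m => hit p (e.symm m)) A' (fun _ => E₁) (fun m hm => by
        rw [mem_map] at hm
        obtain ⟨n, hn, rfl⟩ := hm
        simp only [Equiv.coe_toEmbedding, Equiv.symm_apply_apply]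
        exact hW n hn) hA' (fun T hT hTY => by
        have h1 := hyp' T hT (hTY.trans hY')
        refine le_trans (le_of_eq ?_) h1
        congr 2
        refine Eq.trans ?_ ((hconv (fun n => ∀ p ∈ T, hit p n)).trans ?_)
        · congr!
        · refine sum_congr rfl fun n _ => ?_
          congr 1
          rw [prod_ite_zero]
          simp)
    have e1 : ∑ n ∈ s, W n * (∏ p ∈ P, (if hit p n then (0 : ℝ) else 1)) =
        ∑ m ∈ (s.map e.toEmbedding).filter (fun m => ∀ p ∈ P, ¬ hit p (e.symm m)), W (e.symm m) := by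
      refine Eq.trans ?_ (Eq.trans (hconv (fun n => ∀ p ∈ P, ¬ hit p n)).symm ?_)
      · refine sum_congr rfl fun n _ => ?_
        congr 1
        have : ∀ p, (if hit p n then (0 : ℝ) else 1) = (if ¬ hit p n then 1 else 0) := by
          intro p
          by_cases h : hit p n <;> simp [h]
        simp only [this]
        rw [prod_ite_zero]
        simp
      · congr!
    rw [e1]
    refine le_trans (le_of_eq ?_) (key.trans ?_)
    · congr!
    · have h2 : ∑ T ∈ P.powerset.filter (fun T : Finset ℕ => ∏ p ∈ T, p ≤ (2 ^ 2 ^ J) ^ (C0 * b)), E₁ ≤ Y * E₁ := by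
        rw [sum_const, nsmul_eq_mul]
        refine mul_le_mul_of_nonneg_right ?_ hE₁
        have hinj : Set.InjOn (fun T : Finset ℕ => ∏ p ∈ T, p)
            ((P.powerset.filter (fun T : Finset ℕ => ∏ p ∈ T, p ≤ (2 ^ 2 ^ J) ^ (C0 * b)) : Finset (Finset ℕ)) :
              Set (Finset ℕ)) := by
          intro T hT T' hT' h
          rw [mem_coe, mem_filter, mem_powerset] at hT hT'
          simp only at h
          rw [← Nat.primeFactors_prod (fun p hp => (hP p (hT.1 hp)).1),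
            ← Nat.primeFactors_prod (fun p hp => (hP p (hT'.1 hp)).1), h]
        have h3 : (P.powerset.filter (fun T : Finset ℕ => ∏ p ∈ T, p ≤ (2 ^ 2 ^ J) ^ (C0 * b))).card ≤
            (Icc 1 Y).card := by
          refine card_le_card_of_injOn (fun T : Finset ℕ => ∏ p ∈ T, p) ?_ hinj
          intro T hT
          rw [mem_coe, mem_filter, mem_powerset] at hT
          rw [mem_coe, mem_Icc]
          exact ⟨Finset.prod_pos fun p hp => (hP p (hT.1 hp)).1.pos, hT.2.trans hY'⟩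
        rw [Nat.card_Icc, Nat.add_sub_cancel] at h3
        exact_mod_cast h3
      have h3 : (0 : ℝ) ≤ (J : ℝ) + 2 := by positivity
      have h4 := mul_le_mul_of_nonneg_left h2 h3
      linarith
  have hpm : ∀ (σ : ℝ), (σ = 1 ∨ σ = -1) →
      |∑ n ∈ s, (w n * (B + σ * S n)) * (∏ p ∈ P, (if hit p n then (0 : ℝ) else 1)) -
        (B * A) * ∏ p ∈ P, (1 - g p)| ≤
        (1 / 2) ^ b * ((B * A) * ∏ p ∈ P, (1 - g p)) + ((J : ℝ) + 2) * (Y * (B * E + E')) := by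
    intro σ hσ
    have hσ1 : |σ| = 1 := by rcases hσ with rfl | rfl <;> simp
    refine main (fun n => w n * (B + σ * S n)) (B * A) (B * E + E') ?_ (mul_nonneg hB hA) (by positivity) ?_
    · intro n hn
      by_cases h0 : w n = 0
      · rw [h0, zero_mul]
      · refine mul_nonneg (hw n hn) ?_
        have h1 := abs_le.1 (hS n hn h0)
        rcases hσ with rfl | rfl <;> linarith [h1.1, h1.2]
    · intro T hT hTY
      obtain ⟨h1, h2⟩ := hyp T hT hTY
      have e1 : ∑ n ∈ s, (w n * (B + σ * S n)) * (∏ p ∈ T, (if hit p n then (1 : ℝ) else 0)) -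
          (B * A) * ∏ p ∈ T, g p =
          B * (∑ n ∈ s, w n * (∏ p ∈ T, (if hit p n then (1 : ℝ) else 0)) - A * ∏ p ∈ T, g p) +
          σ * ∑ n ∈ s, w n * (∏ p ∈ T, (if hit p n then (1 : ℝ) else 0)) * S n := by
        rw [mul_sub, mul_sum, mul_sum]
        have : ∑ n ∈ s, (w n * (B + σ * S n)) * (∏ p ∈ T, (if hit p n then (1 : ℝ) else 0)) =
          ∑ n ∈ s, B * (w n * ∏ p ∈ T, (if hit p n then (1 : ℝ) else 0)) +
          ∑ n ∈ s, σ * (w n * (∏ p ∈ T, (if hit p n then (1 : ℝ) else 0)) * S n) := by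
          rw [← sum_add_distrib]
          refine sum_congr rfl fun n _ => ?_
          ring
        rw [this]
        ring
      rw [e1]
      refine (abs_add_le _ _).trans ?_
      rw [abs_mul, abs_mul, abs_of_nonneg hB, hσ1, one_mul]
      exact add_le_add (mul_le_mul_of_nonneg_left h1 hB) h2
  have h1 := hpm 1 (Or.inl rfl)
  have h2 := hpm (-1) (Or.inr rfl)
  have e : ∑ n ∈ s, w n * (∏ p ∈ P, (if hit p n then (0 : ℝ) else 1)) * S n =
      ((∑ n ∈ s, (w n * (B + 1 * S n)) * (∏ p ∈ P, (if hit p n then (0 : ℝ) else 1)) -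
        (B * A) * ∏ p ∈ P, (1 - g p)) -
      (∑ n ∈ s, (w n * (B + -1 * S n)) * (∏ p ∈ P, (if hit p n then (0 : ℝ) else 1)) -
        (B * A) * ∏ p ∈ P, (1 - g p))) / 2 := by
    rw [sub_sub_sub_cancel_right, ← sum_sub_distrib, sum_div]
    refine sum_congr rfl fun n _ => ?_
    ring
  rw [e, abs_div]
  have h3 := abs_sub (∑ n ∈ s, (w n * (B + 1 * S n)) * (∏ p ∈ P, (if hit p n then (0 : ℝ) else 1)) -
        (B * A) * ∏ p ∈ P, (1 - g p)) (∑ n ∈ s, (w n * (B + -1 * S n)) * (∏ p ∈ P, (if hit p n then (0 : ℝ) else 1)) -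
        (B * A) * ∏ p ∈ P, (1 - g p))
  have h4 : (1 / 2 : ℝ) ^ b * ((B * A) * ∏ p ∈ P, (1 - g p)) ≤ (1 / 2) ^ b * (B * A) := by
    apply mul_le_mul_of_nonneg_left _ (by positivity)
    exact mul_le_of_le_one_right (mul_nonneg hB hA) hV1
  rw [show |(2 : ℝ)| = 2 by norm_num, div_le_iff₀ (by norm_num)]
  linarith

end Pool.Agent.Y822.Per
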