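import Mathlib
import Pool.Agent.Y822.Par
import Pool.Agent.W462.PL.COSP
import Pool.Agent.W23.PL.Cou
import Pool.Agent.W23.DC.All

/-! The theorem on correlations of rough divisor sums above the level one half, in a window. -/

set_option autoImplicit false

namespace Pool.Agent.Y822.Win

open Finset Filter
open Pool.Agent.H442R2
open Pool.Agent.H442R2.KF (Wt)

/-- the window -/
noncomputable def Iw (N : ℕ) : Finset ℤ := Icc (-((N : ℤ) ^ 2)) ((N : ℤ) ^ 2)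

theorem TTC_thm : Pool.Agent.W23.PL.St_TTC :=
  Pool.Agent.W462.PL.TTC (Pool.Agent.W23.PL.COU BX.CO_thm Pool.Agent.W23.DC.COF_thm) BX.RC BX.GS

lemma Wt_pos (N : ℕ) (n : ℤ) : 0 < Wt N n := Real.exp_pos _

lemma Wt_le_one (N : ℕ) (n : ℤ) : Wt N n ≤ 1 := by
  unfold Wt
  rw [Real.exp_le_one_iff]
  have := Real.pi_pos
  have h2 : 0 ≤ ((n : ℝ) / N) ^ 2 := sq_nonneg _
  nlinarith

lemma sum_Wt_le (N : ℕ) (hN : 1 ≤ N) : ∑' n : ℤ, Wt N n ≤ 4 * ((N : ℝ) + 1) := by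
  have h := (BX.GS N hN).2 1 0 le_rfl
  simpa using h

/-- outside the window the weight is tiny -/
lemma Wt_out {N : ℕ} (hN : 1 ≤ N) {n : ℤ} (hn : n ∉ Iw N) :
    Wt (2 * N) n ≤ Real.exp (-((N : ℝ) ^ 2 / 2)) * Wt (4 * N) n := by
  have hN0 : (0 : ℝ) < N := by exact_mod_cast hN
  have h1 : (N : ℝ) ^ 2 ≤ |(n : ℝ)| := by
    unfold Iw at hn
    rw [mem_Icc, not_and_or, not_le, not_le] at hn
    rcases hn with h | h
    · have : ((n : ℤ) : ℝ) < -((N : ℝ) ^ 2) := by exact_mod_cast h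
      rw [le_abs]
      right; linarith
    · have : (N : ℝ) ^ 2 < ((n : ℤ) : ℝ) := by exact_mod_cast h
      rw [le_abs]
      left; linarith
  unfold Wt
  rw [← Real.exp_add]
  apply Real.exp_le_exp.2
  push_cast
  have h2 : ((N : ℝ) ^ 2) ^ 2 ≤ (n : ℝ) ^ 2 := by
    rw [← sq_abs (n : ℝ)]
    exact pow_le_pow_left₀ (by positivity) h1 2
  have e1 : ((n : ℝ) / (2 * N)) ^ 2 = (n : ℝ) ^ 2 / (4 * N ^ 2) := by
    rw [div_pow]; ring
  have e2 : ((n : ℝ) / (4 * N)) ^ 2 = (n : ℝ) ^ 2 / (16 * N ^ 2) := by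
    rw [div_pow]; ring
  rw [e1, e2]
  set v := (n : ℝ) ^ 2 / (16 * (N : ℝ) ^ 2) with hv
  have e3 : (n : ℝ) ^ 2 / (4 * (N : ℝ) ^ 2) = 4 * v := by
    rw [hv]; field_simp; ring
  have e4 : (N : ℝ) ^ 2 / 16 ≤ v := by
    rw [hv, div_le_div_iff₀ (by norm_num) (by positivity)]
    nlinarith
  rw [e3]
  have hpi := Real.pi_gt_three
  have hv0 : 0 ≤ v := by rw [hv]; positivity
  nlinarith

lemma tail : ∃ N₀ : ℕ, ∀ N : ℕ, N₀ ≤ N → ∀ (φ : ℤ → ℝ) (B : ℝ), (∀ n, |φ n| ≤ B) →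
    |∑' n : ℤ, Wt (2 * N) n * φ n - ∑ n ∈ Iw N, Wt (2 * N) n * φ n| ≤ B / (N : ℝ) ^ 5 := by
  have h1 := (tendsto_natCast_atTop_atTop (R := ℝ)).eventually (ev_pow_exp 6 (1 / 2) 20 (by norm_num))
  obtain ⟨N₀, hN₀⟩ := eventually_atTop.1 (h1.and (eventually_ge_atTop 1))
  refine ⟨N₀, fun N hN φ B hφ => ?_⟩
  obtain ⟨h2, hN1⟩ := hN₀ N hN
  have hN0 : (0 : ℝ) < N := by exact_mod_cast hN1
  have hN1r : (1 : ℝ) ≤ N := by exact_mod_cast hN1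
  have hB : 0 ≤ B := (abs_nonneg _).trans (hφ 0)
  have hs1 : Summable (fun n : ℤ => Wt (2 * N) n * φ n) := by
    refine Summable.of_norm_bounded ((KF.TaskS.summable_Wt (2 * N) (by omega)).mul_right B) fun n => ?_
    rw [Real.norm_eq_abs, abs_mul, abs_of_pos (Wt_pos _ n)]
    exact mul_le_mul_of_nonneg_left (hφ n) (Wt_pos _ n).le
  have hs2 : HasSum (fun n : ℤ => if n ∈ Iw N then Wt (2 * N) n * φ n else 0)
      (∑ n ∈ Iw N, Wt (2 * N) n * φ n) := by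
    have h : HasSum (fun n : ℤ => if n ∈ Iw N then Wt (2 * N) n * φ n else 0)
        (∑ n ∈ Iw N, if n ∈ Iw N then Wt (2 * N) n * φ n else 0) :=
      hasSum_sum_of_ne_finset_zero (fun n hn => if_neg hn)
    rwa [sum_congr rfl (fun n hn => if_pos hn)] at h
  have hs3 := hs1.hasSum.sub hs2
  rw [← hs3.tsum_eq]
  have hs4 := ((KF.TaskS.summable_Wt (4 * N) (by omega)).hasSum.mul_left (Real.exp (-((N : ℝ) ^ 2 / 2)))).mul_right B
  have h3 : ‖∑' n : ℤ, (Wt (2 * N) n * φ n - if n ∈ Iw N then Wt (2 * N) n * φ n else 0)‖ ≤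
      Real.exp (-((N : ℝ) ^ 2 / 2)) * (∑' n : ℤ, Wt (4 * N) n) * B := by
    refine tsum_of_norm_bounded hs4 fun n => ?_
    split_ifs with h
    · rw [sub_self, norm_zero]
      have := (Wt_pos (4 * N) n).le
      positivity
    · rw [sub_zero, Real.norm_eq_abs, abs_mul, abs_of_pos (Wt_pos _ n)]
      exact mul_le_mul (Wt_out hN1 h) (hφ n) (abs_nonneg _) (by have := (Wt_pos (4 * N) n).le; positivity)
  rw [Real.norm_eq_abs] at h3
  refine h3.trans ?_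
  have h4 := sum_Wt_le (4 * N) (by omega)
  push_cast at h4
  have h5 : ∑' n : ℤ, Wt (4 * N) n ≤ 20 * N := by linarith
  have h6 : Real.exp (-((N : ℝ) ^ 2 / 2)) * (20 * N) ≤ 1 / (N : ℝ) ^ 5 := by
    rw [Real.exp_neg, inv_mul_eq_div, div_le_div_iff₀ (Real.exp_pos _) (by positivity), one_mul]
    calc 20 * (N : ℝ) * N ^ 5 = 20 * (N : ℝ) ^ 6 := by ring
      _ ≤ Real.exp (1 / 2 * N) := h2
      _ ≤ Real.exp ((N : ℝ) ^ 2 / 2) := by
          apply Real.exp_le_exp.2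
          nlinarith
  calc Real.exp (-((N : ℝ) ^ 2 / 2)) * (∑' n : ℤ, Wt (4 * N) n) * B
      ≤ Real.exp (-((N : ℝ) ^ 2 / 2)) * (20 * N) * B := by gcongr
    _ ≤ 1 / (N : ℝ) ^ 5 * B := mul_le_mul_of_nonneg_right h6 hB
    _ = B / (N : ℝ) ^ 5 := by ring

/-- counting in one class -/
lemma f1w : ∃ N₀ : ℕ, ∀ N : ℕ, N₀ ≤ N → ∀ q : ℕ, 1 ≤ q → (q : ℝ) * Real.log ((2 * N : ℕ) : ℝ) ≤ ((2 * N : ℕ) : ℝ) →
    ∀ b : ℤ, |∑ n ∈ Iw N, (if (q : ℤ) ∣ n - b then Wt (2 * N) n else 0) - 2 * (N : ℝ) / q| ≤ 1 := by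
  obtain ⟨N₀, hN₀⟩ := Pool.Agent.W347.PL.pois0
  obtain ⟨N₁, hN₁⟩ := tail
  refine ⟨max (max N₀ N₁) 3, fun N hN q hq hql b => ?_⟩
  have hNN₀ : N₀ ≤ 2 * N := by
    have := ((le_max_left _ _).trans (le_max_left _ _)).trans hN
    omega
  have hNN₁ : N₁ ≤ N := ((le_max_right _ _).trans (le_max_left _ _)).trans hN
  have hN3 : 3 ≤ N := (le_max_right _ _).trans hN
  have hN3r : (3 : ℝ) ≤ N := by exact_mod_cast hN3
  have hM : (1 : ℝ) ≤ ((2 * N : ℕ) : ℝ) := by push_cast; linarith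
  have hlog : 1 ≤ Real.log ((2 * N : ℕ) : ℝ) := by
    rw [Real.le_log_iff_exp_le (by linarith)]
    have := Real.exp_one_lt_d9
    push_cast
    linarith
  have hq3 : (q : ℝ) ≤ ((2 * N : ℕ) : ℝ) ^ 3 := by
    have h1 : (q : ℝ) ≤ ((2 * N : ℕ) : ℝ) := by
      have hq0 : (0 : ℝ) ≤ q := Nat.cast_nonneg _
      nlinarith
    calc (q : ℝ) ≤ ((2 * N : ℕ) : ℝ) ^ 1 := by rw [pow_one]; exact h1
      _ ≤ _ := pow_le_pow_right₀ hM (by norm_num)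
  have h1 := hN₀ (2 * N) hNN₀ q hq hq3 hql b
  have h2 := hN₁ N hNN₁ (fun n => if (q : ℤ) ∣ n - b then 1 else 0) 1 (fun n => by split_ifs <;> simp)
  have e : ∀ n : ℤ, Wt (2 * N) n * (if (q : ℤ) ∣ n - b then (1 : ℝ) else 0) =
      (if (q : ℤ) ∣ n - b then Wt (2 * N) n else 0) := by
    intro n
    split_ifs <;> ring
  simp only [e] at h2
  have h3 : 1 / ((2 * N : ℕ) : ℝ) ^ 5 ≤ 1 / 2 := by
    apply one_div_le_one_div_of_le (by norm_num)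
    calc (2 : ℝ) ≤ ((2 * N : ℕ) : ℝ) ^ 1 := by rw [pow_one]; push_cast; linarith
      _ ≤ _ := pow_le_pow_right₀ hM (by norm_num)
  have h4 : 1 / (N : ℝ) ^ 5 ≤ 1 / 2 := by
    apply one_div_le_one_div_of_le (by norm_num)
    calc (2 : ℝ) ≤ (N : ℝ) ^ 1 := by rw [pow_one]; linarith
      _ ≤ _ := pow_le_pow_right₀ (by linarith) (by norm_num)
  have h5 : ((2 * N : ℕ) : ℝ) / q = 2 * (N : ℝ) / q := by push_cast; ring
  rw [h5] at h1
  rw [abs_le] at h1 h2 ⊢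
  constructor <;> linarith [h1.1, h1.2, h2.1, h2.2]

/-- the coprime part of the product of two divisor sums -/
noncomputable def Sc (D0 X : ℕ) (c c' : ℕ → ℝ) (a a' : ℕ) (n : ℤ) : ℝ :=
  ∑ e ∈ Ioc D0 X, ∑ e' ∈ (Ioc D0 X).filter (fun e' => Nat.Coprime e e'),
    c e * c' e' * (BX.dl e (n - (-(a : ℤ))) * BX.dl e' (n - (-(a' : ℤ))))

/-- **TTC in the window** -/
theorem ttcw (θ δ : ℝ) (hθ : 0 < θ) (hθ2 : θ < 5 / 9) (hδ : 0 < δ) : ∃ ε₀ η : ℝ, 0 < ε₀ ∧ 0 < η ∧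
    ∀ ε : ℝ, 0 < ε → ∃ C : ℝ, 0 < C ∧ ∃ N₀ : ℕ, ∀ N : ℕ, N₀ ≤ N →
    ∀ (q D0 X : ℕ), 1 ≤ q → Odd q → Squarefree q → (q : ℝ) ≤ ((2 * N : ℕ) : ℝ) ^ ε₀ →
    (X : ℝ) ≤ ((2 * N : ℕ) : ℝ) ^ θ → 1 ≤ D0 → (X : ℝ) ≤ ((2 * N : ℕ) : ℝ) ^ ε₀ * D0 →
    ∀ (b : ℤ) (a a' : ℕ), |(b : ℝ)| ≤ q → a ≤ N → a' ≤ N → a ≠ a' →
    ∀ c c' : ℕ → ℝ, BX.CofO q c → BX.CofO q c' → BX.CofR (((2 * N : ℕ) : ℝ) ^ ε) X c →
    BX.CofR (((2 * N : ℕ) : ℝ) ^ ε) X c' → Pool.Agent.W23.PL.Fc (2 * N) θ δ c c' →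
    |∑ n ∈ Iw N, (if (q : ℤ) ∣ n - b then Wt (2 * N) n else 0) * Sc D0 X c c' a a' n| ≤
      C * (N : ℝ) ^ (1 - η) := by
  obtain ⟨ε₀, η, hε₀, hη, H⟩ := TTC_thm θ δ hθ hθ2 hδ
  refine ⟨ε₀, min η (1 / 2), hε₀, lt_min hη (by norm_num), ?_⟩
  intro ε hε
  obtain ⟨C, hC, H⟩ := H ε hε
  obtain ⟨N₁, hN₁⟩ := tail
  refine ⟨2 * C + 1, by positivity, max N₁ 16, ?_⟩
  intro N hN q D0 X hq1 hqo hqs hqN hX hD0 hXD b a a' hb ha ha' haa c c' hc1 hc1' hc2 hc2' hF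
  have hNN₁ : N₁ ≤ N := (le_max_left _ _).trans hN
  have hN16 : 16 ≤ N := (le_max_right _ _).trans hN
  have hN16r : (16 : ℝ) ≤ N := by exact_mod_cast hN16
  have hN0 : (0 : ℝ) < N := by linarith
  have hsq : ((2 * N : ℕ) : ℝ) ^ (1 / 2 : ℝ) ≤ N := by
    rw [← Real.sqrt_eq_rpow, Real.sqrt_le_left hN0.le]
    push_cast
    nlinarith
  have hab : ∀ x : ℕ, x ≤ N → |((-(x : ℤ) : ℤ) : ℝ)| ≤ ((2 * N : ℕ) : ℝ) - ((2 * N : ℕ) : ℝ) ^ (1 / 2 : ℝ) := by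
    intro x hx
    have hxr : (x : ℝ) ≤ N := by exact_mod_cast hx
    push_cast at hsq ⊢
    rw [abs_neg, abs_of_nonneg (Nat.cast_nonneg x)]
    linarith
  have h1 := H (2 * N) q D0 X (by omega) hq1 hqo hqs hqN hX hD0 hXD b (-(a : ℤ)) (-(a' : ℤ)) hb
    (hab a ha) (hab a' ha') (by omega) c c' hc1 hc1' hc2 hc2' hF
  -- X is at most N
  have hM1 : (1 : ℝ) ≤ ((2 * N : ℕ) : ℝ) := by push_cast; linarith
  have hXN : (X : ℝ) ≤ 2 * N := by
    calc (X : ℝ) ≤ ((2 * N : ℕ) : ℝ) ^ θ := hX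
      _ ≤ ((2 * N : ℕ) : ℝ) ^ (1 : ℝ) := Real.rpow_le_rpow_of_exponent_le hM1 (by linarith)
      _ = 2 * N := by rw [Real.rpow_one]; push_cast; rfl
  have hswap : ∑ n ∈ Iw N, (if (q : ℤ) ∣ n - b then Wt (2 * N) n else 0) * Sc D0 X c c' a a' n =
      ∑ e ∈ Ioc D0 X, ∑ e' ∈ (Ioc D0 X).filter (fun e' => Nat.Coprime e e'), c e * c' e' *
        ∑ n ∈ Iw N, (if (q : ℤ) ∣ n - b then Wt (2 * N) n else 0) *
          (BX.dl e (n - (-(a : ℤ))) * BX.dl e' (n - (-(a' : ℤ)))) := by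
    unfold Sc
    simp only [mul_sum]
    rw [sum_comm]
    refine sum_congr rfl fun e _ => ?_
    rw [sum_comm]
    refine sum_congr rfl fun e' _ => sum_congr rfl fun n _ => ?_
    ring
  rw [hswap]
  have hdiff : |(∑ e ∈ Ioc D0 X, ∑ e' ∈ (Ioc D0 X).filter (fun e' => Nat.Coprime e e'), c e * c' e' *
        ∑ n ∈ Iw N, (if (q : ℤ) ∣ n - b then Wt (2 * N) n else 0) *
          (BX.dl e (n - (-(a : ℤ))) * BX.dl e' (n - (-(a' : ℤ))))) -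
      ∑ e ∈ Ioc D0 X, ∑ e' ∈ (Ioc D0 X).filter (fun e' => Nat.Coprime e e'), c e * c' e' *
        ∑' n : ℤ, (if (q : ℤ) ∣ n - b then Wt (2 * N) n else 0) *
          (BX.dl e (n - (-(a : ℤ))) * BX.dl e' (n - (-(a' : ℤ))))| ≤ 1 := by
    rw [← sum_sub_distrib]
    have hcardI : ((Ioc D0 X).card : ℝ) ≤ 2 * N := by
      rw [Nat.card_Ioc]
      refine le_trans ?_ hXN
      exact_mod_cast Nat.sub_le _ _
    have hterm : ∀ e e' : ℕ, |c e * c' e' * ∑ n ∈ Iw N, (if (q : ℤ) ∣ n - b then Wt (2 * N) n else 0) *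
          (BX.dl e (n - (-(a : ℤ))) * BX.dl e' (n - (-(a' : ℤ)))) - c e * c' e' *
        ∑' n : ℤ, (if (q : ℤ) ∣ n - b then Wt (2 * N) n else 0) *
          (BX.dl e (n - (-(a : ℤ))) * BX.dl e' (n - (-(a' : ℤ))))| ≤ 4 / (N : ℝ) ^ 5 := by
      intro e e'
      rw [← mul_sub, abs_mul]
      have h2 := hN₁ N hNN₁ (fun n => (if (q : ℤ) ∣ n - b then 1 else 0) *
          (BX.dl e (n - (-(a : ℤ))) * BX.dl e' (n - (-(a' : ℤ))))) 4 (fun n => by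
        have k1 := BX.TaskEX.dl_abs e (n - (-(a : ℤ)))
        have k2 := BX.TaskEX.dl_abs e' (n - (-(a' : ℤ)))
        rw [abs_mul, abs_mul]
        calc |if (q : ℤ) ∣ n - b then (1 : ℝ) else 0| * (|BX.dl e (n - (-(a : ℤ)))| * |BX.dl e' (n - (-(a' : ℤ)))|)
            ≤ 1 * (2 * 2) := by
              apply mul_le_mul _ (mul_le_mul k1 k2 (abs_nonneg _) (by norm_num))
                (mul_nonneg (abs_nonneg _) (abs_nonneg _)) zero_le_one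
              split_ifs <;> simp
          _ = 4 := by norm_num)
      have e1 : ∀ n : ℤ, Wt (2 * N) n * ((if (q : ℤ) ∣ n - b then 1 else 0) *
          (BX.dl e (n - (-(a : ℤ))) * BX.dl e' (n - (-(a' : ℤ))))) =
          (if (q : ℤ) ∣ n - b then Wt (2 * N) n else 0) *
          (BX.dl e (n - (-(a : ℤ))) * BX.dl e' (n - (-(a' : ℤ)))) := by
        intro n
        split_ifs <;> ring
      simp only [e1] at h2
      rw [abs_sub_comm] at h2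
      have h3 : |c e * c' e'| ≤ 1 := by
        rw [abs_mul]
        exact mul_le_one₀ (hc1.bd e) (abs_nonneg _) (hc1'.bd e')
      calc _ ≤ 1 * (4 / (N : ℝ) ^ 5) := mul_le_mul h3 h2 (abs_nonneg _) zero_le_one
        _ = _ := one_mul _
    calc _ ≤ ∑ e ∈ Ioc D0 X, ∑ e' ∈ (Ioc D0 X).filter (fun e' => Nat.Coprime e e'), 4 / (N : ℝ) ^ 5 := by
          refine (abs_sum_le_sum_abs _ _).trans (sum_le_sum fun e _ => ?_)
          rw [← sum_sub_distrib]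
          exact (abs_sum_le_sum_abs _ _).trans (sum_le_sum fun e' _ => hterm e e')
      _ ≤ ∑ e ∈ Ioc D0 X, 2 * N * (4 / (N : ℝ) ^ 5) := by
          refine sum_le_sum fun e _ => ?_
          rw [sum_const, nsmul_eq_mul]
          apply mul_le_mul_of_nonneg_right _ (by positivity)
          refine le_trans ?_ hcardI
          exact_mod_cast card_filter_le _ _
      _ ≤ 2 * N * (2 * N * (4 / (N : ℝ) ^ 5)) := by
          rw [sum_const, nsmul_eq_mul]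
          exact mul_le_mul_of_nonneg_right hcardI (by positivity)
      _ = 16 / (N : ℝ) ^ 3 := by field_simp; ring
      _ ≤ 1 := by
          rw [div_le_one (by positivity)]
          nlinarith [pow_le_pow_left₀ (by norm_num : (0 : ℝ) ≤ 16) hN16r 3]
  have h2 := abs_sub_abs_le_abs_sub (∑ e ∈ Ioc D0 X, ∑ e' ∈ (Ioc D0 X).filter (fun e' => Nat.Coprime e e'), c e * c' e' *
        ∑ n ∈ Iw N, (if (q : ℤ) ∣ n - b then Wt (2 * N) n else 0) *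
          (BX.dl e (n - (-(a : ℤ))) * BX.dl e' (n - (-(a' : ℤ)))))
      (∑ e ∈ Ioc D0 X, ∑ e' ∈ (Ioc D0 X).filter (fun e' => Nat.Coprime e e'), c e * c' e' *
        ∑' n : ℤ, (if (q : ℤ) ∣ n - b then Wt (2 * N) n else 0) *
          (BX.dl e (n - (-(a : ℤ))) * BX.dl e' (n - (-(a' : ℤ)))))
  have h3 : ((2 * N : ℕ) : ℝ) ^ (1 - η) ≤ 2 * (N : ℝ) ^ (1 - min η (1 / 2)) := by
    calc ((2 * N : ℕ) : ℝ) ^ (1 - η) ≤ ((2 * N : ℕ) : ℝ) ^ (1 - min η (1 / 2)) :=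
          Real.rpow_le_rpow_of_exponent_le hM1 (by linarith [min_le_left η (1 / 2)])
      _ = 2 ^ (1 - min η (1 / 2)) * (N : ℝ) ^ (1 - min η (1 / 2)) := by
          push_cast
          rw [Real.mul_rpow (by norm_num) hN0.le]
      _ ≤ 2 * (N : ℝ) ^ (1 - min η (1 / 2)) := by
          apply mul_le_mul_of_nonneg_right _ (by positivity)
          calc (2 : ℝ) ^ (1 - min η (1 / 2)) ≤ (2 : ℝ) ^ (1 : ℝ) :=
                Real.rpow_le_rpow_of_exponent_le (by norm_num) (by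
                  have : 0 < min η (1 / 2) := lt_min hη (by norm_num)
                  linarith)
            _ = 2 := Real.rpow_one _
  have h4 : (1 : ℝ) ≤ (N : ℝ) ^ (1 - min η (1 / 2)) :=
    Real.one_le_rpow (by linarith) (by linarith [min_le_right η (1 / 2)])
  have h5 := mul_le_mul_of_nonneg_left h3 hC.le
  linarith

end Pool.Agent.Y822.Win
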