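import Mathlib
import Pool.Agent.Y822.Per
import Pool.Agent.Y822.Win

/-! The correlation of the coprime parts, with a sieve factor. -/

set_option autoImplicit false

namespace Pool.Agent.Y822.Cop

open Finset Filter
open Pool.Agent.H442R2
open Pool.Agent.H442R2.KF (Wt)
open Pool.Agent.Y822.Per Pool.Agent.Y822.Win

/-- no odd prime up to `y` divides the integer `m` -/
noncomputable def rz (y : ℕ) (m : ℤ) : ℝ := by
  classical
  exact if ∀ p : ℕ, p.Prime → p ≠ 2 → p ≤ y → ¬ (p : ℤ) ∣ m then 1 else 0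

/-- indicator of divisibility -/
noncomputable def i1 (d : ℕ) (m : ℤ) : ℝ := if (d : ℤ) ∣ m then 1 else 0

/-- one of the two shifts is a multiple of `p` -/
def hit (a a' p : ℕ) (n : ℤ) : Prop := (p : ℤ) ∣ n + a ∨ (p : ℤ) ∣ n + a'

/-- indicator of a hit -/
noncomputable def h1 (a a' p : ℕ) (n : ℤ) : ℝ := by
  classical
  exact if hit a a' p n then (1 : ℝ) else 0

/-- indicator of no hit -/
noncomputable def h0 (a a' p : ℕ) (n : ℤ) : ℝ := by
  classical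
  exact if hit a a' p n then (0 : ℝ) else 1

/-- odd primes in `(u, v]` -/
def PO (u v : ℕ) : Finset ℕ := (Ioc u v).filter (fun p => p.Prime ∧ p ≠ 2)

lemma mem_PO {u v p : ℕ} : p ∈ PO u v ↔ (u < p ∧ p ≤ v) ∧ p.Prime ∧ p ≠ 2 := by
  unfold PO; rw [mem_filter, mem_Ioc]

lemma rz_nonneg (y : ℕ) (m : ℤ) : 0 ≤ rz y m := by
  unfold rz; split_ifs <;> norm_num

lemma rz_le_one (y : ℕ) (m : ℤ) : rz y m ≤ 1 := by
  unfold rz; split_ifs <;> norm_num

lemma i1_nonneg (d : ℕ) (m : ℤ) : 0 ≤ i1 d m := by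
  unfold i1; split_ifs <;> norm_num

lemma i1_le_one (d : ℕ) (m : ℤ) : i1 d m ≤ 1 := by
  unfold i1; split_ifs <;> norm_num

lemma h1_nonneg (a a' p : ℕ) (n : ℤ) : 0 ≤ h1 a a' p n := by
  unfold h1; split_ifs <;> norm_num

lemma h1_le_one (a a' p : ℕ) (n : ℤ) : h1 a a' p n ≤ 1 := by
  unfold h1; split_ifs <;> norm_num

lemma h0_nonneg (a a' p : ℕ) (n : ℤ) : 0 ≤ h0 a a' p n := by
  unfold h0; split_ifs <;> norm_num

lemma h0_le_one (a a' p : ℕ) (n : ℤ) : h0 a a' p n ≤ 1 := by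
  unfold h0; split_ifs <;> norm_num

lemma rz_zero {y : ℕ} (hy : 3 ≤ y) : rz y 0 = 0 := by
  unfold rz
  rw [if_neg]
  intro h
  exact h 3 (by norm_num) (by norm_num) hy (dvd_zero _)

lemma rz_mul (y a a' : ℕ) (n : ℤ) : rz y (n + a) * rz y (n + a') = ∏ p ∈ PO 0 y, h0 a a' p n := by
  classical
  by_cases h : ∀ p ∈ PO 0 y, ¬ hit a a' p n
  · have e1 : rz y (n + a) = 1 := by
      unfold rz
      rw [if_pos]
      intro p hp hp2 hpy hd
      exact h p (mem_PO.2 ⟨⟨hp.pos, hpy⟩, hp, hp2⟩) (Or.inl hd)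
    have e2 : rz y (n + a') = 1 := by
      unfold rz
      rw [if_pos]
      intro p hp hp2 hpy hd
      exact h p (mem_PO.2 ⟨⟨hp.pos, hpy⟩, hp, hp2⟩) (Or.inr hd)
    rw [e1, e2, prod_eq_one, one_mul]
    intro p hp
    unfold h0
    rw [if_neg (h p hp)]
  · push Not at h
    obtain ⟨p, hp, hh⟩ := h
    rw [prod_eq_zero hp (by unfold h0; rw [if_pos hh])]
    rw [mem_PO] at hp
    rcases hh with hh | hh
    · have : rz y (n + a) = 0 := by
        unfold rz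
        rw [if_neg]
        intro h
        exact h p hp.2.1 hp.2.2 hp.1.2 hh
      rw [this, zero_mul]
    · have : rz y (n + a') = 0 := by
        unfold rz
        rw [if_neg]
        intro h
        exact h p hp.2.1 hp.2.2 hp.1.2 hh
      rw [this, mul_zero]

lemma PO_split {u v w : ℕ} (h1 : u ≤ v) (h2 : v ≤ w) (f : ℕ → ℝ) :
    ∏ p ∈ PO u w, f p = (∏ p ∈ PO u v, f p) * ∏ p ∈ PO v w, f p := by
  rw [← prod_union]
  · congr 1
    ext p
    rw [mem_union, mem_PO, mem_PO, mem_PO]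
    constructor
    · rintro ⟨h3, h4⟩
      by_cases h5 : p ≤ v
      · exact Or.inl ⟨⟨h3.1, h5⟩, h4⟩
      · exact Or.inr ⟨⟨by omega, h3.2⟩, h4⟩
    · rintro (⟨h3, h4⟩ | ⟨h3, h4⟩)
      · exact ⟨⟨h3.1, by omega⟩, h4⟩
      · exact ⟨⟨by omega, h3.2⟩, h4⟩
  · rw [disjoint_left]
    intro p hp hp'
    rw [mem_PO] at hp hp'
    omega

lemma dvd_mod {d Q : ℕ} (h : d ∣ Q) (n : ℤ) (a : ℕ) : (d : ℤ) ∣ n + a ↔ (d : ℤ) ∣ n % (Q : ℤ) + a := by
  have h1 : (d : ℤ) ∣ (Q : ℤ) * (n / Q) := (Int.natCast_dvd_natCast.2 h).mul_right _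
  have h2 : n + a = (n % (Q : ℤ) + a) + (Q : ℤ) * (n / Q) := by
    have := Int.emod_add_mul_ediv n (Q : ℤ)
    linarith
  rw [h2, dvd_add_left h1]

lemma per_i1 {d Q : ℕ} (h : d ∣ Q) (a : ℕ) : PerF Q (fun n => i1 d (n + a)) := by
  intro n
  simp only [i1]
  by_cases h1 : (d : ℤ) ∣ n + a
  · rw [if_pos h1, if_pos ((dvd_mod h n a).1 h1)]
  · rw [if_neg h1, if_neg (fun h2 => h1 ((dvd_mod h n a).2 h2))]

lemma hit_mod (a a' p : ℕ) (n : ℤ) : hit a a' p n ↔ hit a a' p (n % (p : ℤ)) := by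
  unfold hit
  rw [dvd_mod (dvd_refl p) n a, dvd_mod (dvd_refl p) n a']

lemma per_h1 (a a' p : ℕ) : PerF p (h1 a a' p) := by
  classical
  intro n
  unfold h1
  by_cases h : hit a a' p n
  · rw [if_pos h, if_pos ((hit_mod a a' p n).1 h)]
  · rw [if_neg h, if_neg (fun h2 => h ((hit_mod a a' p n).2 h2))]

lemma per_h0 (a a' p : ℕ) : PerF p (h0 a a' p) := by
  classical
  intro n
  unfold h0
  by_cases h : hit a a' p n
  · rw [if_pos h, if_pos ((hit_mod a a' p n).1 h)]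
  · rw [if_neg h, if_neg (fun h2 => h ((hit_mod a a' p n).2 h2))]

lemma sum_h1 (a a' p : ℕ) : ∑ x ∈ range p, h1 a a' p (x : ℤ) = fb a a' p := by
  classical
  unfold fb
  rw [card_filter]
  push_cast
  refine sum_congr rfl fun x _ => ?_
  unfold h1 hit
  have e1 : ∀ b : ℕ, (p : ℤ) ∣ (x : ℤ) + b ↔ p ∣ x + b := by
    intro b
    rw [← Int.natCast_dvd_natCast]
    push_cast
    rfl
  simp only [e1]

/-- product of the small odd primes -/
def KK (C0 : ℕ) : ℕ := ∏ p ∈ PO 0 C0, p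

lemma KK_pos (C0 : ℕ) : 1 ≤ KK C0 :=
  Finset.prod_pos fun p hp => (mem_PO.1 hp).2.1.pos

/-- the initial weight -/
noncomputable def Ph (C0 d d' a a' : ℕ) (n : ℤ) : ℝ :=
  (∏ p ∈ PO 0 C0, h0 a a' p n) * (i1 d (n + a) * i1 d' (n + a'))

lemma prod01 {ι : Type*} (s : Finset ι) (f : ι → ℝ) (hf : ∀ i, 0 ≤ f i ∧ f i ≤ 1) :
    0 ≤ ∏ i ∈ s, f i ∧ ∏ i ∈ s, f i ≤ 1 :=
  ⟨prod_nonneg fun i _ => (hf i).1, prod_le_one (fun i _ => (hf i).1) fun i _ => (hf i).2⟩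

lemma Ph01 (C0 d d' a a' : ℕ) (n : ℤ) : 0 ≤ Ph C0 d d' a a' n ∧ Ph C0 d d' a a' n ≤ 1 := by
  obtain ⟨p1, p2⟩ := prod01 (PO 0 C0) (fun p => h0 a a' p n) fun p => ⟨h0_nonneg _ _ _ _, h0_le_one _ _ _ _⟩
  have q1 := i1_nonneg d (n + a)
  have q2 := i1_le_one d (n + a)
  have q3 := i1_nonneg d' (n + a')
  have q4 := i1_le_one d' (n + a')
  unfold Ph
  exact ⟨mul_nonneg p1 (mul_nonneg q1 q3), mul_le_one₀ p2 (mul_nonneg q1 q3) (mul_le_one₀ q2 q3 q4)⟩

lemma per_Ph (C0 d d' a a' : ℕ) : PerF (KK C0 * Nat.lcm d d') (Ph C0 d d' a a') := by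
  have h1 : PerF (KK C0) (fun n => ∏ p ∈ PO 0 C0, h0 a a' p n) := by
    have h := (per_prod (Q := 1) le_rfl (Φ := fun _ => (1 : ℝ)) (fun _ => rfl) (h0 a a') (PO 0 C0)
      (fun p hp => ⟨(mem_PO.1 hp).2.1, fun hd => (mem_PO.1 hp).2.1.one_lt.ne' (Nat.dvd_one.1 hd),
        per_h0 a a' p⟩)).1
    simp only [one_mul] at h
    exact h
  have h2 : PerF (Nat.lcm d d') (fun n => i1 d (n + a) * i1 d' (n + a')) := by
    intro n
    have e1 := per_i1 (Nat.dvd_lcm_left d d') a n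
    have e2 := per_i1 (Nat.dvd_lcm_right d d') a' n
    simp only at e1 e2 ⊢
    rw [e1, e2]
  exact PerF.mul h1 h2

/-- the number of classes -/
lemma sum_Ph (C0 d d' a a' : ℕ) (hd : 1 ≤ d) (hd' : 1 ≤ d') :
    ∑ x ∈ range (KK C0 * Nat.lcm d d'), Ph C0 d d' a a' (x : ℤ) ≤ KK C0 := by
  classical
  set l := Nat.lcm d d' with hl
  have hl0 : 0 < l := Nat.lcm_pos hd hd'
  have h1 : ∀ x ∈ range (KK C0 * l), Ph C0 d d' a a' (x : ℤ) ≤
      if (d ∣ x + a ∧ d' ∣ x + a') then 1 else 0 := by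
    intro x _
    obtain ⟨p1, p2⟩ := prod01 (PO 0 C0) (fun p => h0 a a' p (x : ℤ))
      fun p => ⟨h0_nonneg _ _ _ _, h0_le_one _ _ _ _⟩
    have e1 : ∀ (d b : ℕ), ((d : ℤ) ∣ (x : ℤ) + b ↔ d ∣ x + b) := by
      intro d b
      rw [← Int.natCast_dvd_natCast]
      push_cast
      rfl
    unfold Ph i1
    simp only [e1]
    by_cases h2 : d ∣ x + a
    · by_cases h3 : d' ∣ x + a'
      · rw [if_pos h2, if_pos h3, if_pos ⟨h2, h3⟩]
        linarith
      · rw [if_neg h3, mul_zero, mul_zero]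
        split_ifs <;> norm_num
    · rw [if_neg h2, zero_mul, mul_zero]
      split_ifs <;> norm_num
  refine (sum_le_sum h1).trans ?_
  rw [← sum_filter, sum_const, nsmul_eq_mul, mul_one]
  have h2 : ((range (KK C0 * l)).filter (fun x => d ∣ x + a ∧ d' ∣ x + a')).card ≤ (range (KK C0)).card := by
    refine card_le_card_of_injOn (fun x => x / l) ?_ ?_
    · intro x hx
      rw [mem_coe, mem_filter, mem_range] at hx
      rw [mem_coe, mem_range]
      exact (Nat.div_lt_iff_lt_mul hl0).2 hx.1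
    · intro x hx x' hx' hq
      rw [mem_coe, mem_filter, mem_range] at hx hx'
      have hq' : x / l = x' / l := hq
      have m1 : x + a ≡ x' + a [MOD d] :=
        ((Nat.modEq_zero_iff_dvd).2 hx.2.1).trans ((Nat.modEq_zero_iff_dvd).2 hx'.2.1).symm
      have m2 : x + a' ≡ x' + a' [MOD d'] :=
        ((Nat.modEq_zero_iff_dvd).2 hx.2.2).trans ((Nat.modEq_zero_iff_dvd).2 hx'.2.2).symm
      have m3 : x ≡ x' [MOD d] := Nat.ModEq.add_right_cancel' a m1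
      have m4 : x ≡ x' [MOD d'] := Nat.ModEq.add_right_cancel' a' m2
      have m5 : x ≡ x' [MOD l] := by
        rw [Nat.modEq_iff_dvd] at m3 m4 ⊢
        rw [hl]
        have := Int.coe_lcm_dvd m3 m4
        rwa [Int.lcm_natCast_natCast] at this
      have e1 := Nat.div_add_mod x l
      have e2 := Nat.div_add_mod x' l
      have m6 : x % l = x' % l := m5
      rw [← e1, ← e2, hq', m6]
  rw [card_range] at h2
  exact_mod_cast h2

lemma prime_dvd_prod {T : Finset ℕ} (hT : ∀ q ∈ T, q.Prime) {p : ℕ} (hp : p.Prime) (h : p ∣ ∏ q ∈ T, q) :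
    p ∈ T := by
  obtain ⟨q, hq, hpq⟩ := (hp.prime.dvd_finsetProd_iff _).1 h
  rwa [(Nat.prime_dvd_prime_iff_eq hp (hT q hq)).1 hpq]

lemma sqf_prod {T : Finset ℕ} (hT : ∀ q ∈ T, q.Prime) : Squarefree (∏ q ∈ T, q) := by
  classical
  induction T using Finset.induction_on with
  | empty => simp
  | insert p T hp ih =>
    rw [prod_insert hp]
    have h1 := ih fun q hq => hT q (mem_insert_of_mem hq)
    have h2 := hT p (mem_insert_self _ _)
    rw [Nat.squarefree_mul]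
    · exact ⟨h2.prime.squarefree, h1⟩
    · rw [h2.coprime_iff_not_dvd]
      intro hd
      exact hp (prime_dvd_prod (fun q hq => hT q (mem_insert_of_mem hq)) h2 hd)

/-- **the correlation of the coprime parts** -/
theorem cop : ∃ C0 : ℕ, 3 ≤ C0 ∧ ∀ θ δ : ℝ, 0 < θ → θ < 5 / 9 → 0 < δ → ∃ ε₀ η : ℝ, 0 < ε₀ ∧ 0 < η ∧
    ∀ ε : ℝ, 0 < ε → ∃ C : ℝ, 0 < C ∧ ∃ N₀ : ℕ, ∀ N : ℕ, N₀ ≤ N →
    ∀ (b J Y y : ℕ), C0 ≤ b → C0 ≤ y → y ≤ 2 ^ 2 ^ J → (2 ^ 2 ^ J) ^ (C0 * b) ≤ Y →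
    ∀ d d' : ℕ, Squarefree d → Squarefree d' → (∀ p : ℕ, p.Prime → p ∣ d → y < p) →
    (∀ p : ℕ, p.Prime → p ∣ d' → y < p) →
    ((KK C0 * (d * d') * Y : ℕ) : ℝ) ≤ ((2 * N : ℕ) : ℝ) ^ ε₀ →
    ((KK C0 * (d * d') * Y : ℕ) : ℝ) * Real.log ((2 * N : ℕ) : ℝ) ≤ ((2 * N : ℕ) : ℝ) →
    ∀ D0 X : ℕ, (X : ℝ) ≤ ((2 * N : ℕ) : ℝ) ^ θ → 1 ≤ D0 → (X : ℝ) ≤ ((2 * N : ℕ) : ℝ) ^ ε₀ * D0 →
    ∀ (a a' : ℕ), a ≤ N → a' ≤ N → a ≠ a' →
    ∀ c c' : ℕ → ℝ, (∀ e, |c e| ≤ 1) → (∀ e, |c' e| ≤ 1) →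
    (∀ e, c e ≠ 0 → ∀ p : ℕ, p.Prime → p ∣ e → y < p ∧ ¬ p ∣ d ∧ ¬ p ∣ d') →
    (∀ e, c' e ≠ 0 → ∀ p : ℕ, p.Prime → p ∣ e → y < p ∧ ¬ p ∣ d ∧ ¬ p ∣ d') →
    BX.CofR (((2 * N : ℕ) : ℝ) ^ ε) X c → BX.CofR (((2 * N : ℕ) : ℝ) ^ ε) X c' →
    Pool.Agent.W23.PL.Fc (2 * N) θ δ c c' → ∀ B : ℝ, 0 ≤ B →
    (∀ n ∈ Iw N, n + a ≠ 0 → n + a' ≠ 0 → |Sc D0 X c c' a a' n| ≤ B) →
    |∑ n ∈ Iw N, Wt (2 * N) n * ((rz y (n + a) * rz y (n + a')) * (i1 d (n + a) * i1 d' (n + a')) *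
      Sc D0 X c c' a a' n)| ≤
      (1 / 2) ^ b * (B * (2 * N / (Nat.lcm d d' : ℝ))) +
      ((J : ℝ) + 2) * (Y * ((KK C0 * (d * d') * Y : ℕ) * (B + C * (N : ℝ) ^ (1 - η)))) := by
  classical
  obtain ⟨C0, hC03, FL⟩ := fl_signed
  obtain ⟨N₁, hf1⟩ := f1w
  refine ⟨C0, hC03, fun θ δ hθ hθ2 hδ => ?_⟩
  obtain ⟨ε₀, η, hε₀, hη, TW⟩ := ttcw θ δ hθ hθ2 hδ
  refine ⟨ε₀, η, hε₀, hη, fun ε hε => ?_⟩
  obtain ⟨C, hC, N₂, TW⟩ := TW ε hε
  refine ⟨C, hC, max (max N₁ N₂) 1, ?_⟩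
  intro N hN b J Y y hb hy hyJ hJY d d' hd hd' hdy hdy' hQ1 hQ2 D0 X hX hD0 hXD a a' ha ha' haa c c' hc hc'
    hcs hcs' hcR hcR' hF B hB hSc
  have hNN₁ : N₁ ≤ N := ((le_max_left _ _).trans (le_max_left _ _)).trans hN
  have hNN₂ : N₂ ≤ N := ((le_max_right _ _).trans (le_max_left _ _)).trans hN
  have hN1 : 1 ≤ N := (le_max_right _ _).trans hN
  have hd1 : 1 ≤ d := Nat.one_le_iff_ne_zero.2 hd.ne_zero
  have hd1' : 1 ≤ d' := Nat.one_le_iff_ne_zero.2 hd'.ne_zero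
  set l := Nat.lcm d d' with hl
  have hl0 : 0 < l := Nat.lcm_pos hd1 hd1'
  have hlle : l ≤ d * d' := Nat.le_of_dvd (Nat.mul_pos hd1 hd1') (Nat.lcm_dvd (Dvd.intro _ rfl) (Dvd.intro_left _ rfl))
  set Q0 := KK C0 * l with hQ0
  have hK1 := KK_pos C0
  have hQ01 : 1 ≤ Q0 := Nat.mul_pos hK1 hl0
  set P := PO C0 y with hP
  have hPp : ∀ p ∈ P, p.Prime := fun p hp => (mem_PO.1 hp).2.1
  have hly : ∀ p : ℕ, p.Prime → p ∣ l → y < p := by
    intro p hp hpl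
    have : p ∣ d * d' := hpl.trans (Nat.lcm_dvd (Dvd.intro _ rfl) (Dvd.intro_left _ rfl))
    rcases hp.dvd_mul.1 this with h | h
    · exact hdy p hp h
    · exact hdy' p hp h
  have hPn : ∀ p ∈ P, ¬ p ∣ Q0 := by
    intro p hp hd0
    have hpp := hPp p hp
    have hp1 := (mem_PO.1 hp).1
    rcases hpp.dvd_mul.1 hd0 with h | h
    · have := prime_dvd_prod (fun q hq => (mem_PO.1 hq).2.1) hpp h
      have := (mem_PO.1 this).1
      omega
    · have := hly p hpp h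
      omega
  -- facts on the moduli
  have hmod : ∀ T ⊆ P, ∏ p ∈ T, p ≤ Y → 1 ≤ Q0 * ∏ p ∈ T, p ∧ Odd (Q0 * ∏ p ∈ T, p) ∧
      Squarefree (Q0 * ∏ p ∈ T, p) ∧ Q0 * ∏ p ∈ T, p ≤ KK C0 * (d * d') * Y ∧
      (∀ e : ℕ, (∀ p : ℕ, p.Prime → p ∣ e → y < p ∧ ¬ p ∣ d ∧ ¬ p ∣ d') →
        Nat.Coprime e (2 * (Q0 * ∏ p ∈ T, p))) := by
    intro T hT hTY
    have hTp : ∀ p ∈ T, p.Prime := fun p hp => hPp p (hT hp)
    have hT1 : 1 ≤ ∏ p ∈ T, p := Finset.prod_pos fun p hp => (hTp p hp).pos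
    refine ⟨Nat.mul_pos hQ01 hT1, ?_, ?_, ?_, ?_⟩
    · rw [Nat.odd_mul, Nat.odd_mul]
      refine ⟨⟨?_, ?_⟩, ?_⟩
      · rw [← Nat.not_even_iff_odd, even_iff_two_dvd]
        intro h
        exact (mem_PO.1 (prime_dvd_prod (fun q hq => (mem_PO.1 hq).2.1) Nat.prime_two h)).2.2 rfl
      · rw [← Nat.not_even_iff_odd, even_iff_two_dvd]
        intro h
        have := hly 2 Nat.prime_two h
        omega
      · rw [← Nat.not_even_iff_odd, even_iff_two_dvd]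
        intro h
        exact (mem_PO.1 (hT (prime_dvd_prod hTp Nat.prime_two h))).2.2 rfl
    · have s1 : Squarefree Q0 := by
        rw [hQ0, Nat.squarefree_mul]
        · exact ⟨sqf_prod fun q hq => (mem_PO.1 hq).2.1, Pool.Agent.W366.DC.sqf_lcm hd hd'⟩
        · refine Nat.Coprime.symm (Nat.Coprime.symm (Nat.coprime_of_dvd ?_))
          intro p hp h1 h2
          have h3 := (mem_PO.1 (prime_dvd_prod (fun q hq => (mem_PO.1 hq).2.1) hp h1)).1
          have h4 := hly p hp h2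
          omega
      rw [Nat.squarefree_mul]
      · exact ⟨s1, sqf_prod hTp⟩
      · refine Nat.coprime_of_dvd ?_
        intro p hp h1 h2
        exact hPn p (hT (prime_dvd_prod hTp hp h2)) h1
    · exact Nat.mul_le_mul (Nat.mul_le_mul_left _ hlle) hTY
    · intro e he
      refine Nat.coprime_of_dvd ?_
      intro p hp h1 h2
      obtain ⟨e1, e2, e3⟩ := he p hp h1
      rcases hp.dvd_mul.1 h2 with h | h
      · have := Nat.le_of_dvd (by norm_num) h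
        omega
      rcases hp.dvd_mul.1 h with h | h
      · rcases hp.dvd_mul.1 h with h | h
        · have h3 := (mem_PO.1 (prime_dvd_prod (fun q hq => (mem_PO.1 hq).2.1) hp h)).1
          omega
        · have : p ∣ d * d' := h.trans (Nat.lcm_dvd (Dvd.intro _ rfl) (Dvd.intro_left _ rfl))
          rcases hp.dvd_mul.1 this with h | h
          · exact e2 h
          · exact e3 h
      · have h3 := (mem_PO.1 (hT (prime_dvd_prod hTp hp h))).1
        omega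
  set Qm : ℕ := KK C0 * (d * d') * Y with hQm
  set A : ℝ := 2 * N * (∑ x ∈ range Q0, Ph C0 d d' a a' (x : ℤ)) / Q0 with hA
  have hsum0 : 0 ≤ ∑ x ∈ range Q0, Ph C0 d d' a a' (x : ℤ) := sum_nonneg fun x _ => (Ph01 _ _ _ _ _ _).1
  have hA0 : 0 ≤ A := by rw [hA]; positivity
  have hK0r : (0 : ℝ) < KK C0 := by exact_mod_cast hK1
  have hl0r : (0 : ℝ) < l := by exact_mod_cast hl0
  have hAle : A ≤ 2 * N / (l : ℝ) := by
    rw [hA, hQ0]
    push_cast
    rw [div_le_div_iff₀ (by positivity) hl0r]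
    have h := sum_Ph C0 d d' a a' hd1 hd1'
    rw [← hl, ← hQ0] at h
    have h3 := mul_le_mul_of_nonneg_left h (by positivity : (0 : ℝ) ≤ 2 * N * l)
    linarith
  have hper : ∀ T ⊆ P, ∏ p ∈ T, p ≤ Y → PerF (Q0 * ∏ p ∈ T, p) (fun n => Ph C0 d d' a a' n * ∏ p ∈ T, h1 a a' p n) ∧
      ∑ x ∈ range (Q0 * ∏ p ∈ T, p), Ph C0 d d' a a' (x : ℤ) * ∏ p ∈ T, h1 a a' p (x : ℤ) =
      (∑ x ∈ range Q0, Ph C0 d d' a a' (x : ℤ)) * ∏ p ∈ T, (fb a a' p : ℝ) := by
    intro T hT _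
    obtain ⟨k1, k2⟩ := per_prod hQ01 (per_Ph C0 d d' a a') (h1 a a') T
      (fun p hp => ⟨hPp p (hT hp), hPn p (hT hp), per_h1 a a' p⟩)
    refine ⟨k1, k2.trans ?_⟩
    congr 1
    exact prod_congr rfl fun p _ => sum_h1 a a' p
  have hPhi : ∀ (T : Finset ℕ) (n : ℤ), 0 ≤ Ph C0 d d' a a' n * ∏ p ∈ T, h1 a a' p n ∧
      Ph C0 d d' a a' n * ∏ p ∈ T, h1 a a' p n ≤ 1 := by
    intro T n
    obtain ⟨p1, p2⟩ := prod01 T (fun p => h1 a a' p n) fun p => ⟨h1_nonneg _ _ _ _, h1_le_one _ _ _ _⟩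
    obtain ⟨q1, q2⟩ := Ph01 C0 d d' a a' n
    exact ⟨mul_nonneg q1 p1, mul_le_one₀ q2 p1 p2⟩
  have hlogN : 0 ≤ Real.log ((2 * N : ℕ) : ℝ) := Real.log_natCast_nonneg _
  have key := FL b J C0 P (fun p => (fb a a' p : ℝ) / p) hb le_rfl (fun p hp => by
      obtain ⟨⟨k1, k2⟩, k3, k4⟩ := mem_PO.1 hp
      exact ⟨k3, k1, k2.trans hyJ⟩) (fun p _ => by
      refine ⟨by positivity, ?_⟩
      apply div_le_div_of_nonneg_right _ (Nat.cast_nonneg _)
      exact_mod_cast fb_le a a' p) (Iw N)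
    (fun n => Wt (2 * N) n * Ph C0 d d' a a' n) (Sc D0 X c c' a a') (hit a a') A B Qm
    (Qm * (C * (N : ℝ) ^ (1 - η))) Y (fun n _ => mul_nonneg (Wt_pos _ _).le (Ph01 _ _ _ _ _ _).1) hA0 hB
    (Nat.cast_nonneg _) (by positivity) hJY (fun n hn hw => by
      refine hSc n hn ?_ ?_
      · intro h0'
        apply hw
        have : Ph C0 d d' a a' n = 0 := by
          unfold Ph
          rw [prod_eq_zero (i := 3) (mem_PO.2 ⟨⟨by norm_num, hC03⟩, by norm_num, by norm_num⟩), zero_mul]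
          unfold h0 hit
          rw [if_pos]
          left
          rw [h0']
          exact dvd_zero _
        rw [this, mul_zero]
      · intro h0'
        apply hw
        have : Ph C0 d d' a a' n = 0 := by
          unfold Ph
          rw [prod_eq_zero (i := 3) (mem_PO.2 ⟨⟨by norm_num, hC03⟩, by norm_num, by norm_num⟩), zero_mul]
          unfold h0 hit
          rw [if_pos]
          right
          rw [h0']
          exact dvd_zero _
        rw [this, mul_zero]) (fun T hT hTY => by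
      obtain ⟨m1, m2, m3, m4, m5⟩ := hmod T hT hTY
      obtain ⟨k1, k2⟩ := hper T hT hTY
      have m4r : ((Q0 * ∏ p ∈ T, p : ℕ) : ℝ) ≤ Qm := by exact_mod_cast m4
      have hQr1 : ((Q0 * ∏ p ∈ T, p : ℕ) : ℝ) * Real.log ((2 * N : ℕ) : ℝ) ≤ ((2 * N : ℕ) : ℝ) :=
        (mul_le_mul_of_nonneg_right m4r hlogN).trans hQ2
      have hQr2 : ((Q0 * ∏ p ∈ T, p : ℕ) : ℝ) ≤ ((2 * N : ℕ) : ℝ) ^ ε₀ := m4r.trans hQ1
      set Q := Q0 * ∏ p ∈ T, p with hQd
      have hQ0' : (0 : ℝ) < Q := by exact_mod_cast m1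
      constructor
      · have e1 : ∑ n ∈ Iw N, Wt (2 * N) n * Ph C0 d d' a a' n *
            (∏ p ∈ T, (if hit a a' p n then (1 : ℝ) else 0)) =
            ∑ n ∈ Iw N, (Ph C0 d d' a a' n * ∏ p ∈ T, h1 a a' p n) * Wt (2 * N) n := by
          refine sum_congr rfl fun n _ => ?_
          unfold h1
          ring
        have e1' := e1.trans (per_sum m1 k1 (Iw N) (fun n => Wt (2 * N) n))
        have e2 : A * ∏ p ∈ T, ((fb a a' p : ℝ) / p) = ∑ x ∈ range Q,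
            (Ph C0 d d' a a' (x : ℤ) * ∏ p ∈ T, h1 a a' p (x : ℤ)) * (2 * N / Q) := by
          rw [← sum_mul, k2, hA, hQd, prod_div_distrib]
          have hT0 : (∏ p ∈ T, (p : ℝ)) ≠ 0 := prod_ne_zero_iff.2 fun p hp => by
            have := (hPp p (hT hp)).pos
            positivity
          have hQ0r : (Q0 : ℝ) ≠ 0 := by positivity
          push_cast
          field_simp
        refine le_trans (le_of_eq ?_) (?_ : |∑ x ∈ range Q,
            (Ph C0 d d' a a' (x : ℤ) * ∏ p ∈ T, h1 a a' p (x : ℤ)) *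
            ((∑ n ∈ Iw N, if (Q : ℤ) ∣ n - (x : ℤ) then Wt (2 * N) n else 0) - 2 * N / Q)| ≤ Qm)
        · rw [e2]
          refine congrArg abs ?_
          rw [e1', ← sum_sub_distrib]
          refine sum_congr rfl fun x _ => ?_
          ring
        · calc _ ≤ ∑ x ∈ range Q, (1 : ℝ) := by
                refine (abs_sum_le_sum_abs _ _).trans (sum_le_sum fun x _ => ?_)
                rw [abs_mul]
                obtain ⟨p1, p2⟩ := hPhi T (x : ℤ)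
                refine mul_le_one₀ ?_ (abs_nonneg _) (hf1 N hNN₁ Q m1 hQr1 x)
                rw [abs_of_nonneg p1]
                exact p2
            _ = Q := by simp
            _ ≤ Qm := m4r
      · have e1 : ∑ n ∈ Iw N, Wt (2 * N) n * Ph C0 d d' a a' n *
            (∏ p ∈ T, (if hit a a' p n then (1 : ℝ) else 0)) * Sc D0 X c c' a a' n =
            ∑ n ∈ Iw N, (Ph C0 d d' a a' n * ∏ p ∈ T, h1 a a' p n) * (Wt (2 * N) n * Sc D0 X c c' a a' n) := by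
          refine sum_congr rfl fun n _ => ?_
          unfold h1
          ring
        have e1' := e1.trans (per_sum m1 k1 (Iw N) (fun n => Wt (2 * N) n * Sc D0 X c c' a a' n))
        refine le_trans (le_of_eq (congrArg abs e1')) ?_
        calc _ ≤ ∑ x ∈ range Q, C * (N : ℝ) ^ (1 - η) := by
              refine (abs_sum_le_sum_abs _ _).trans (sum_le_sum fun x hx => ?_)
              rw [abs_mul]
              obtain ⟨p1, p2⟩ := hPhi T (x : ℤ)
              have hxQ : |((x : ℤ) : ℝ)| ≤ Q := by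
                rw [mem_range] at hx
                push_cast
                rw [abs_of_nonneg (Nat.cast_nonneg _)]
                exact_mod_cast hx.le
              have t1 := TW N hNN₂ Q D0 X m1 m2 m3 hQr2 hX hD0 hXD x a a' hxQ ha ha' haa c c'
                ⟨hc, fun e he => m5 e (hcs e he)⟩ ⟨hc', fun e he => m5 e (hcs' e he)⟩ hcR hcR' hF
              have t2 : ∑ n ∈ Iw N, (if (Q : ℤ) ∣ n - (x : ℤ) then Wt (2 * N) n * Sc D0 X c c' a a' n else 0) =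
                  ∑ n ∈ Iw N, (if (Q : ℤ) ∣ n - (x : ℤ) then Wt (2 * N) n else 0) * Sc D0 X c c' a a' n := by
                refine sum_congr rfl fun n _ => ?_
                split_ifs <;> ring
              rw [t2]
              calc _ ≤ 1 * (C * (N : ℝ) ^ (1 - η)) := by
                    refine mul_le_mul ?_ t1 (abs_nonneg _) zero_le_one
                    rw [abs_of_nonneg p1]
                    exact p2
                _ = _ := one_mul _
          _ = Q * (C * (N : ℝ) ^ (1 - η)) := by rw [sum_const, card_range, nsmul_eq_mul]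
          _ ≤ Qm * (C * (N : ℝ) ^ (1 - η)) := mul_le_mul_of_nonneg_right m4r (by positivity))
  have e3 : ∑ n ∈ Iw N, Wt (2 * N) n * ((rz y (n + a) * rz y (n + a')) * (i1 d (n + a) * i1 d' (n + a')) *
      Sc D0 X c c' a a' n) = ∑ n ∈ Iw N, Wt (2 * N) n * Ph C0 d d' a a' n *
        (∏ p ∈ P, (if hit a a' p n then (0 : ℝ) else 1)) * Sc D0 X c c' a a' n := by
    refine sum_congr rfl fun n _ => ?_
    rw [rz_mul, PO_split (Nat.zero_le C0) hy]
    unfold Ph h0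
    ring
  rw [e3]
  refine le_trans key ?_
  have f1 : (1 / 2 : ℝ) ^ b * (B * A) ≤ (1 / 2) ^ b * (B * (2 * N / (l : ℝ))) := by gcongr
  have f2 : B * (Qm : ℝ) + Qm * (C * (N : ℝ) ^ (1 - η)) = Qm * (B + C * (N : ℝ) ^ (1 - η)) := by ring
  rw [f2]
  linarith

end Pool.Agent.Y822.Cop
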