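import Mathlib
import Pool.Agent.Y822.Cop

/-! Off-diagonal and diagonal sums. -/

set_option autoImplicit false

namespace Pool.Agent.Y822.Nc

open Finset Filter
open Pool.Agent.H442R2
open Pool.Agent.H442R2.KF (Wt)
open Pool.Agent.Y822.Per Pool.Agent.Y822.Win Pool.Agent.Y822.Cop

/-- coefficients supported on rough squarefree numbers in `(D0, X]` -/
structure CC (z D0 X : ℕ) (c : ℕ → ℝ) : Prop where
  bd : ∀ e, |c e| ≤ 1
  supp : ∀ e, c e ≠ 0 → D0 < e ∧ e ≤ X ∧ Squarefree e ∧ Ro z e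

/-- the divisor sum at `m` -/
noncomputable def Rd (D0 X : ℕ) (c : ℕ → ℝ) (m : ℤ) : ℝ := ∑ e ∈ Ioc D0 X, c e * BX.dl e m

/-- the full divisor sum -/
noncomputable def Gz (y D0 X : ℕ) (SS : Finset ℕ) (c : ℕ → ℕ → ℝ) (m : ℤ) : ℝ :=
  rz y m * ∑ d ∈ SS, i1 d m * Rd D0 X (c d) m

/-- the part of the product of two divisor sums coming from pairs with a common factor -/
noncomputable def Mc (D0 X : ℕ) (c c' : ℕ → ℝ) (a a' : ℕ) (n : ℤ) : ℝ :=
  ∑ e ∈ Ioc D0 X, ∑ e' ∈ (Ioc D0 X).filter (fun e' => ¬ Nat.Coprime e e'),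
    c e * c' e' * (BX.dl e (n + a) * BX.dl e' (n + a'))

lemma CC.co {z D0 X : ℕ} {c : ℕ → ℝ} (h : CC z D0 X c) : Co z c :=
  ⟨fun d => (h.bd d).trans (one_le_pow₀ (by norm_num)), fun d hd => (h.supp d hd).2.2⟩

lemma dl_cen (e : ℕ) (m : ℤ) : BX.dl e m = cen e m.natAbs := by
  unfold BX.dl cen
  simp only [Int.natCast_dvd]

lemma i1_nat (d : ℕ) (m : ℤ) : i1 d m = if d ∣ m.natAbs then 1 else 0 := by
  unfold i1
  simp only [Int.natCast_dvd]

lemma sum_Ioc {z D0 X : ℕ} {c : ℕ → ℝ} (h : CC z D0 X c) (f : ℕ → ℝ)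
    (hf : ∀ e, c e = 0 → f e = 0) : ∑ e ∈ Ioc D0 X, f e = ∑ e ∈ SD z X, f e := by
  classical
  have h1 : ∑ e ∈ Ioc D0 X, f e = ∑ e ∈ (Ioc D0 X).filter (fun e => c e ≠ 0), f e := by
    rw [sum_filter]
    refine sum_congr rfl fun e _ => ?_
    by_cases hc : c e = 0
    · rw [if_neg (by simpa using hc), hf e hc]
    · rw [if_pos hc]
  have h2 : ∑ e ∈ SD z X, f e = ∑ e ∈ (SD z X).filter (fun e => c e ≠ 0), f e := by
    rw [sum_filter]
    refine sum_congr rfl fun e _ => ?_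
    by_cases hc : c e = 0
    · rw [if_neg (by simpa using hc), hf e hc]
    · rw [if_pos hc]
  rw [h1, h2]
  congr 1
  ext e
  rw [mem_filter, mem_filter, mem_Ioc, mem_SD]
  constructor
  · rintro ⟨_, h4⟩
    obtain ⟨k1, k2, k3, k4⟩ := h.supp e h4
    exact ⟨⟨⟨by omega, k2⟩, k3, k4⟩, h4⟩
  · rintro ⟨_, h4⟩
    obtain ⟨k1, k2, k3, k4⟩ := h.supp e h4
    exact ⟨⟨k1, k2⟩, h4⟩

/-- the sup bound -/
noncomputable def B1 (z X M : ℕ) : ℝ := 4 ^ Nat.log z M + EE z X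

lemma B1_pos (z X M : ℕ) : 0 < B1 z X M := by
  unfold B1
  have := EE_pos z X
  positivity

lemma abs_sum_le {z D0 X : ℕ} {c : ℕ → ℝ} (h : CC z D0 X c) (hz : 2 ≤ z) {m : ℤ} {M : ℕ}
    (hm : m ≠ 0) (hM : m.natAbs ≤ M) : ∑ e ∈ Ioc D0 X, |c e| * |BX.dl e m| ≤ B1 z X M := by
  rw [sum_Ioc h (fun e => |c e| * |BX.dl e m|) (fun e he => by rw [he]; simp)]
  calc ∑ e ∈ SD z X, |c e| * |BX.dl e m| ≤
      ∑ e ∈ SD z X, (|c e| * (if e ∣ m.natAbs then 1 else 0) + |c e| / e) := by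
        refine sum_le_sum fun d _ => ?_
        rw [dl_cen]
        calc |c d| * |cen d m.natAbs| ≤ |c d| * acen d m.natAbs :=
              mul_le_mul_of_nonneg_left (abs_cen_le d _) (abs_nonneg _)
          _ = _ := by unfold acen; ring
    _ ≤ _ := by
        rw [sum_add_distrib]
        exact add_le_add (abs_ds_le h.co hz (Int.natAbs_pos.2 hm) hM) (sum_c_div h.co)

lemma abs_Rd_le {z D0 X : ℕ} {c : ℕ → ℝ} (h : CC z D0 X c) (hz : 2 ≤ z) {m : ℤ} {M : ℕ}
    (hm : m ≠ 0) (hM : m.natAbs ≤ M) : |Rd D0 X c m| ≤ B1 z X M := by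
  refine le_trans ?_ (abs_sum_le h hz hm hM)
  unfold Rd
  refine (abs_sum_le_sum_abs _ _).trans (sum_le_sum fun e _ => ?_)
  rw [abs_mul]

lemma abs_Sc_le {z D0 X : ℕ} {c c' : ℕ → ℝ} (h : CC z D0 X c) (h' : CC z D0 X c') (hz : 2 ≤ z)
    {a a' : ℕ} {n : ℤ} {M : ℕ} (hm : n + a ≠ 0) (hm' : n + a' ≠ 0) (hM : (n + a).natAbs ≤ M)
    (hM' : (n + a').natAbs ≤ M) : |Sc D0 X c c' a a' n| ≤ B1 z X M ^ 2 := by
  classical
  have h1 := abs_sum_le h hz hm hM
  have h2 := abs_sum_le h' hz hm' hM'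
  rw [sq]
  refine le_trans ?_ (mul_le_mul h1 h2 (sum_nonneg fun e _ => by positivity) (B1_pos _ _ _).le)
  rw [sum_mul_sum]
  unfold Sc
  refine (abs_sum_le_sum_abs _ _).trans (sum_le_sum fun e _ => ?_)
  refine (abs_sum_le_sum_abs _ _).trans ?_
  refine le_trans (sum_le_sum_of_subset_of_nonneg (filter_subset _ _) fun i _ _ => abs_nonneg _) ?_
  refine sum_le_sum fun e' _ => ?_
  rw [sub_neg_eq_add, sub_neg_eq_add, abs_mul, abs_mul, abs_mul]
  apply le_of_eq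
  ring

lemma rough_sum {y D M : ℕ} {SS : Finset ℕ} (hSS : SS ⊆ SD y D) (hy : 2 ≤ y) {m : ℤ}
    (hm : m ≠ 0) (hM : m.natAbs ≤ M) : ∑ d ∈ SS, i1 d m ≤ 4 ^ Nat.log y M := by
  classical
  calc ∑ d ∈ SS, i1 d m ≤ ∑ d ∈ SD y D, i1 d m :=
        sum_le_sum_of_subset_of_nonneg hSS fun d _ _ => i1_nonneg _ _
    _ ≤ ∑ d ∈ (SD y D).filter (fun d => d ∣ m.natAbs), (3 : ℝ) ^ d.primeFactors.card := by
        rw [sum_filter]
        refine sum_le_sum fun d _ => ?_
        rw [i1_nat]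
        split_ifs
        · exact one_le_pow₀ (by norm_num)
        · exact le_rfl
    _ ≤ _ := sum_dvd_le y D m.natAbs M hy (Int.natAbs_pos.2 hm) hM

/-- pointwise bound for the full divisor sum -/
lemma abs_Gz_le {y z D D0 X M : ℕ} {SS : Finset ℕ} {c : ℕ → ℕ → ℝ} (hSS : SS ⊆ SD y D) (hy : 3 ≤ y)
    (hz : 2 ≤ z) (h : ∀ d, CC z D0 X (c d)) {m : ℤ} (hM : m.natAbs ≤ M) :
    |Gz y D0 X SS c m| ≤ 4 ^ Nat.log y M * B1 z X M := by
  by_cases hm : m = 0
  · unfold Gz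
    rw [hm, rz_zero hy, zero_mul, abs_zero]
    have := B1_pos z X M
    positivity
  · unfold Gz
    rw [abs_mul, abs_of_nonneg (rz_nonneg _ _)]
    calc rz y m * |∑ d ∈ SS, i1 d m * Rd D0 X (c d) m| ≤ 1 * |∑ d ∈ SS, i1 d m * Rd D0 X (c d) m| :=
          mul_le_mul_of_nonneg_right (rz_le_one _ _) (abs_nonneg _)
      _ = |∑ d ∈ SS, i1 d m * Rd D0 X (c d) m| := one_mul _
      _ ≤ ∑ d ∈ SS, i1 d m * B1 z X M := by
          refine (abs_sum_le_sum_abs _ _).trans (sum_le_sum fun d _ => ?_)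
          rw [abs_mul, abs_of_nonneg (i1_nonneg _ _)]
          exact mul_le_mul_of_nonneg_left (abs_Rd_le (h d) hz hm hM) (i1_nonneg _ _)
      _ = (∑ d ∈ SS, i1 d m) * B1 z X M := by rw [sum_mul]
      _ ≤ _ := mul_le_mul_of_nonneg_right (rough_sum hSS (by omega) hm hM) (B1_pos _ _ _).le

lemma mem_Iw_abs {N : ℕ} (hN : 1 ≤ N) {a : ℕ} (ha : a ≤ N) {n : ℤ} (hn : n ∈ Iw N) :
    (n + a).natAbs ≤ 2 * N ^ 2 := by
  unfold Iw at hn
  rw [mem_Icc] at hn
  have h1 : (a : ℤ) ≤ (N : ℤ) ^ 2 := by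
    have h2 : a ≤ N ^ 2 := by nlinarith
    exact_mod_cast h2
  have h3 : (((n + a).natAbs : ℕ) : ℤ) ≤ ((2 * N ^ 2 : ℕ) : ℤ) := by
    rw [Int.natCast_natAbs, abs_le]
    push_cast
    constructor <;> linarith [hn.1, hn.2, (Int.natCast_nonneg a)]
  exact_mod_cast h3

/-- total weight of the window -/
lemma Iw_weight {N : ℕ} (hf1 : ∀ q : ℕ, 1 ≤ q → (q : ℝ) * Real.log ((2 * N : ℕ) : ℝ) ≤ ((2 * N : ℕ) : ℝ) →
    ∀ b : ℤ, |∑ n ∈ Iw N, (if (q : ℤ) ∣ n - b then Wt (2 * N) n else 0) - 2 * (N : ℝ) / q| ≤ 1)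
    {q : ℕ} (hq : 1 ≤ q) (hql : (q : ℝ) * Real.log ((2 * N : ℕ) : ℝ) ≤ ((2 * N : ℕ) : ℝ)) (a : ℕ) :
    ∑ n ∈ Iw N, Wt (2 * N) n * i1 q (n + a) ≤ 2 * (N : ℝ) / q + 1 := by
  have h := (abs_le.1 (hf1 q hq hql (-(a : ℤ)))).2
  have e : ∑ n ∈ Iw N, Wt (2 * N) n * i1 q (n + a) =
      ∑ n ∈ Iw N, (if (q : ℤ) ∣ n - (-(a : ℤ)) then Wt (2 * N) n else 0) := by
    refine sum_congr rfl fun n _ => ?_
    unfold i1
    rw [sub_neg_eq_add]
    split_ifs <;> ring
  rw [e]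
  linarith

/-- the prime sum -/
lemma prime_sum {N z X a a' : ℕ} (hN : 1 ≤ N) (hz : 2 ≤ z) (hX : X ≤ N)
    (hXl : (X : ℝ) * Real.log ((2 * N : ℕ) : ℝ) ≤ ((2 * N : ℕ) : ℝ))
    (hNl : Real.log ((2 * N : ℕ) : ℝ) ≤ ((2 * N : ℕ) : ℝ))
    (hf1 : ∀ q : ℕ, 1 ≤ q → (q : ℝ) * Real.log ((2 * N : ℕ) : ℝ) ≤ ((2 * N : ℕ) : ℝ) →
    ∀ b : ℤ, |∑ n ∈ Iw N, (if (q : ℤ) ∣ n - b then Wt (2 * N) n else 0) - 2 * (N : ℝ) / q| ≤ 1)
    (ha : a ≤ N) (ha' : a' ≤ N) (haa : a ≠ a') :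
    ∑ p ∈ PP z X, ∑ n ∈ Iw N, Wt (2 * N) n * (acen p (n + a).natAbs * acen p (n + a').natAbs) ≤
      Nat.log z N * (2 * (N : ℝ) / z + 1) + 9 * (N : ℝ) / z := by
  classical
  have hlog0 : 0 ≤ Real.log ((2 * N : ℕ) : ℝ) := Real.log_natCast_nonneg _
  have hz0 : (0 : ℝ) < z := by exact_mod_cast (by omega : 0 < z)
  have hN0 : (1 : ℝ) ≤ N := by exact_mod_cast hN
  have h1 : ∀ p ∈ PP z X, ∑ n ∈ Iw N, Wt (2 * N) n * (acen p (n + a).natAbs * acen p (n + a').natAbs) ≤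
      (if p ∣ max a a' - min a a' then 2 * (N : ℝ) / z + 1 else 0) +
        ((6 * N + 1) * (1 / (p : ℝ) ^ 2) + 2 * (1 / (p : ℝ))) := by
    intro p hp
    rw [mem_PP] at hp
    obtain ⟨⟨hzp, hpX⟩, hpp⟩ := hp
    have hp0 : (0 : ℝ) < p := by exact_mod_cast hpp.pos
    have hpl : (p : ℝ) * Real.log ((2 * N : ℕ) : ℝ) ≤ ((2 * N : ℕ) : ℝ) :=
      (mul_le_mul_of_nonneg_right (by exact_mod_cast hpX) hlog0).trans hXl
    have w1 := Iw_weight hf1 hpp.one_lt.le hpl a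
    have w2 := Iw_weight hf1 hpp.one_lt.le hpl a'
    have w0 := Iw_weight hf1 le_rfl (by rw [Nat.cast_one, one_mul]; exact hNl) a
    have e0 : ∑ n ∈ Iw N, Wt (2 * N) n ≤ 2 * N + 1 := by
      refine le_trans (le_of_eq (sum_congr rfl fun n _ => ?_)) (w0.trans (by simp))
      unfold i1
      simp
    have e1 : ∀ n ∈ Iw N, Wt (2 * N) n * (acen p (n + a).natAbs * acen p (n + a').natAbs) =
        Wt (2 * N) n * (i1 p (n + a) * i1 p (n + a')) + 1 / (p : ℝ) * (Wt (2 * N) n * i1 p (n + a)) +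
        1 / (p : ℝ) * (Wt (2 * N) n * i1 p (n + a')) + 1 / (p : ℝ) ^ 2 * Wt (2 * N) n := by
      intro n _
      unfold acen
      rw [← i1_nat, ← i1_nat]
      field_simp
      ring
    rw [sum_congr rfl e1, sum_add_distrib, sum_add_distrib, sum_add_distrib, ← mul_sum, ← mul_sum, ← mul_sum]
    have hip : 0 ≤ 1 / (p : ℝ) := by positivity
    have f1 := mul_le_mul_of_nonneg_left w1 hip
    have f2 := mul_le_mul_of_nonneg_left w2 hip
    have f3 := mul_le_mul_of_nonneg_left e0 (by positivity : 0 ≤ 1 / (p : ℝ) ^ 2)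
    have e3 : 1 / (p : ℝ) * (2 * N / p + 1) = 2 * N * (1 / (p : ℝ) ^ 2) + 1 / p := by field_simp
    rw [e3] at f1 f2
    have h5 : ∑ n ∈ Iw N, Wt (2 * N) n * (i1 p (n + a) * i1 p (n + a')) ≤
        (if p ∣ max a a' - min a a' then 2 * (N : ℝ) / z + 1 else 0) := by
      split_ifs with hdv
      · calc _ ≤ ∑ n ∈ Iw N, Wt (2 * N) n * i1 p (n + a) := by
              refine sum_le_sum fun n _ => ?_
              refine mul_le_mul_of_nonneg_left ?_ (Wt_pos _ _).le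
              exact mul_le_of_le_one_right (i1_nonneg _ _) (i1_le_one _ _)
          _ ≤ 2 * N / p + 1 := w1
          _ ≤ 2 * N / z + 1 := by
              have : 2 * (N : ℝ) / p ≤ 2 * N / z := by
                apply div_le_div_of_nonneg_left (by positivity) hz0
                exact_mod_cast hzp.le
              linarith
      · refine (sum_eq_zero fun n _ => ?_).le
        by_cases g1 : (p : ℤ) ∣ n + a
        · by_cases g2 : (p : ℤ) ∣ n + a'
          · exfalso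
            apply hdv
            rcases le_total a a' with h | h
            · rw [max_eq_right h, min_eq_left h]
              have h6 := dvd_sub g2 g1
              have h7 : n + (a' : ℤ) - (n + a) = ((a' - a : ℕ) : ℤ) := by
                rw [Nat.cast_sub h]; ring
              rw [h7] at h6
              exact_mod_cast h6
            · rw [max_eq_left h, min_eq_right h]
              have h6 := dvd_sub g1 g2
              have h7 : n + (a : ℤ) - (n + a') = ((a - a' : ℕ) : ℤ) := by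
                rw [Nat.cast_sub h]; ring
              rw [h7] at h6
              exact_mod_cast h6
          · unfold i1
            rw [if_neg g2]
            ring
        · unfold i1
          rw [if_neg g1]
          ring
    have e4 : (6 * (N : ℝ) + 1) * (1 / (p : ℝ) ^ 2) = 2 * N * (1 / (p : ℝ) ^ 2) + 2 * N * (1 / (p : ℝ) ^ 2) +
      1 / (p : ℝ) ^ 2 * (2 * N + 1) := by ring
    rw [e4]
    linarith
  refine (sum_le_sum h1).trans ?_
  rw [sum_add_distrib, sum_add_distrib, ← mul_sum, ← mul_sum]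
  have hmm : 1 ≤ max a a' - min a a' := by
    rcases lt_or_gt_of_ne haa with h | h
    · rw [max_eq_right h.le, min_eq_left h.le]; omega
    · rw [max_eq_left h.le, min_eq_right h.le]; omega
  have hmN : max a a' - min a a' ≤ N := (Nat.sub_le _ _).trans (max_le ha ha')
  have u1 := sum_big_dvd z X (max a a' - min a a') N hz hmm hmN
    (x := 2 * (N : ℝ) / z + 1) (by positivity)
  have u2 : ∑ p ∈ PP z X, 1 / (p : ℝ) ^ 2 ≤ 1 / (z : ℝ) :=
    inv_sq_gt (by omega) (PP z X) (fun p hp => (mem_PP.1 hp).1.1)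
  have u3 : ∑ p ∈ PP z X, 1 / (p : ℝ) ≤ N / z := by
    calc ∑ p ∈ PP z X, 1 / (p : ℝ) ≤ ∑ _p ∈ PP z X, 1 / (z : ℝ) := by
          refine sum_le_sum fun p hp => ?_
          have : (z : ℝ) < p := by exact_mod_cast (mem_PP.1 hp).1.1
          exact one_div_le_one_div_of_le hz0 this.le
      _ = (PP z X).card * (1 / (z : ℝ)) := by rw [sum_const, nsmul_eq_mul]
      _ ≤ N * (1 / (z : ℝ)) := by
          refine mul_le_mul_of_nonneg_right ?_ (by positivity)
          have : (PP z X).card ≤ N := by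
            unfold PP
            refine (card_filter_le _ _).trans ?_
            rw [Nat.card_Ioc]
            omega
          exact_mod_cast this
      _ = N / z := by ring
  have u4 := mul_le_mul_of_nonneg_left u2 (by positivity : (0 : ℝ) ≤ 6 * N + 1)
  have u5 := mul_le_mul_of_nonneg_left u3 (by norm_num : (0 : ℝ) ≤ 2)
  have e1 : (6 * (N : ℝ) + 1) * (1 / z) = 6 * N / z + 1 / z := by ring
  have e2 : 1 / (z : ℝ) ≤ N / z := div_le_div_of_nonneg_right hN0 hz0.le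
  have e3 : 9 * (N : ℝ) / z = 6 * N / z + N / z + 2 * (N / z) := by ring
  rw [e1] at u4
  rw [e3]
  linarith

/-- the constant in the local majorant -/
noncomputable def B2 (z X M : ℕ) : ℝ := 4 ^ Nat.log z M + 3 * EE z X

lemma B2_pos (z X M : ℕ) : 0 < B2 z X M := by
  unfold B2
  have := EE_pos z X
  positivity

lemma abs_Mc_le {z D0 X : ℕ} {c c' : ℕ → ℝ} (h : CC z D0 X c) (h' : CC z D0 X c') (hz : 2 ≤ z)
    {a a' : ℕ} {n : ℤ} {M : ℕ} (hm : n + a ≠ 0) (hm' : n + a' ≠ 0) (hM : (n + a).natAbs ≤ M)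
    (hM' : (n + a').natAbs ≤ M) : |Mc D0 X c c' a a' n| ≤
      B2 z X M ^ 2 * ∑ p ∈ PP z X, acen p (n + a).natAbs * acen p (n + a').natAbs := by
  classical
  set m := (n + a).natAbs with hmd
  set m' := (n + a').natAbs with hmd'
  have hm1 : 1 ≤ m := Int.natAbs_pos.2 hm
  have hm1' : 1 ≤ m' := Int.natAbs_pos.2 hm'
  have h0 : ∀ e ∈ Ioc D0 X, ∀ e' ∈ Ioc D0 X, (if ¬ Nat.Coprime e e' then
      |c e * c' e' * (BX.dl e (n + a) * BX.dl e' (n + a'))| else 0) ≤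
      ∑ p ∈ PP z X, (|c e| * (if p ∣ e then acen e m else 0)) * (|c' e'| * (if p ∣ e' then acen e' m' else 0)) := by
    intro e _ e' _
    have hnn : ∀ p, 0 ≤ (|c e| * (if p ∣ e then acen e m else 0)) * (|c' e'| * (if p ∣ e' then acen e' m' else 0)) := by
      intro p
      have k1 : 0 ≤ (if p ∣ e then acen e m else 0) := by
        split_ifs
        · exact acen_nonneg _ _
        · exact le_rfl
      have k2 : 0 ≤ (if p ∣ e' then acen e' m' else 0) := by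
        split_ifs
        · exact acen_nonneg _ _
        · exact le_rfl
      positivity
    by_cases hcop : ¬ Nat.Coprime e e'
    · rw [if_pos hcop]
      by_cases hce : c e = 0
      · rw [hce]
        simp
      by_cases hce' : c' e' = 0
      · rw [hce']
        simp
      obtain ⟨p, hp, hpe, hpe'⟩ := Nat.Prime.not_coprime_iff_dvd.1 hcop
      obtain ⟨k1, k2, k3, k4⟩ := h.supp e hce
      have hpP : p ∈ PP z X := by
        rw [mem_PP]
        refine ⟨⟨?_, (Nat.le_of_dvd (by omega) hpe).trans k2⟩, hp⟩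
        by_contra hle
        exact k4 p hp (by omega) hpe
      refine le_trans ?_ (single_le_sum (f := fun p => (|c e| * (if p ∣ e then acen e m else 0)) *
        (|c' e'| * (if p ∣ e' then acen e' m' else 0))) (fun p _ => hnn p) hpP)
      rw [if_pos hpe, if_pos hpe', abs_mul, abs_mul, abs_mul, dl_cen, dl_cen]
      have g1 := abs_cen_le e m
      have g2 := abs_cen_le e' m'
      have g3 : |cen e m| * |cen e' m'| ≤ acen e m * acen e' m' :=
        mul_le_mul g1 g2 (abs_nonneg _) (acen_nonneg _ _)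
      calc _ ≤ |c e| * |c' e'| * (acen e m * acen e' m') :=
            mul_le_mul_of_nonneg_left g3 (by positivity)
        _ = _ := by ring
    · rw [if_neg hcop]
      exact sum_nonneg fun p _ => hnn p
  have h1 : |Mc D0 X c c' a a' n| ≤ ∑ p ∈ PP z X, (∑ e ∈ Ioc D0 X, |c e| * (if p ∣ e then acen e m else 0)) *
      ∑ e' ∈ Ioc D0 X, (|c' e'| * (if p ∣ e' then acen e' m' else 0)) := by
    unfold Mc
    calc _ ≤ ∑ e ∈ Ioc D0 X, ∑ e' ∈ Ioc D0 X, (if ¬ Nat.Coprime e e' then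
          |c e * c' e' * (BX.dl e (n + a) * BX.dl e' (n + a'))| else 0) := by
          refine (abs_sum_le_sum_abs _ _).trans (sum_le_sum fun e _ => ?_)
          refine (abs_sum_le_sum_abs _ _).trans (le_of_eq ?_)
          rw [sum_filter]
      _ ≤ ∑ e ∈ Ioc D0 X, ∑ e' ∈ Ioc D0 X, ∑ p ∈ PP z X,
          (|c e| * (if p ∣ e then acen e m else 0)) * (|c' e'| * (if p ∣ e' then acen e' m' else 0)) :=
          sum_le_sum fun e he => sum_le_sum fun e' he' => h0 e he e' he'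
      _ = _ := by
          rw [sum_congr rfl fun e _ => sum_comm, sum_comm]
          refine sum_congr rfl fun p _ => ?_
          rw [sum_mul_sum]
  refine h1.trans ?_
  rw [mul_sum]
  refine sum_le_sum fun p hp => ?_
  rw [mem_PP] at hp
  have t1 : ∑ e ∈ Ioc D0 X, |c e| * (if p ∣ e then acen e m else 0) ≤ B2 z X M * acen p m := by
    rw [sum_Ioc h (fun e => |c e| * (if p ∣ e then acen e m else 0)) (fun e he => by rw [he]; simp)]
    exact Tp_le h.co hz hp.2 hm1 hM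
  have t2 : ∑ e ∈ Ioc D0 X, |c' e| * (if p ∣ e then acen e m' else 0) ≤ B2 z X M * acen p m' := by
    rw [sum_Ioc h' (fun e => |c' e| * (if p ∣ e then acen e m' else 0)) (fun e he => by rw [he]; simp)]
    exact Tp_le h'.co hz hp.2 hm1' hM'
  have t3 : 0 ≤ ∑ e ∈ Ioc D0 X, |c' e| * (if p ∣ e then acen e m' else 0) := by
    refine sum_nonneg fun e _ => mul_nonneg (abs_nonneg _) ?_
    split_ifs
    · exact acen_nonneg _ _
    · exact le_rfl
  calc _ ≤ (B2 z X M * acen p m) * (B2 z X M * acen p m') :=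
        mul_le_mul t1 t2 t3 (mul_nonneg (B2_pos _ _ _).le (acen_nonneg _ _))
    _ = _ := by ring

/-- the sum over the reciprocals of least common multiples -/
lemma lcm_sum {y D : ℕ} {SS : Finset ℕ} (hSS : SS ⊆ SD y D) :
    ∑ d ∈ SS, ∑ d' ∈ SS, 1 / (Nat.lcm d d' : ℝ) ≤ EE y (D ^ 2) := by
  classical
  rw [← sum_product' SS SS (fun d d' => 1 / (Nat.lcm d d' : ℝ))]
  have hmap : ∀ x ∈ SS ×ˢ SS, Nat.lcm x.1 x.2 ∈ SD y (D ^ 2) := by
    intro x hx
    rw [mem_product] at hx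
    have h1 := mem_SD.1 (hSS hx.1)
    have h2 := mem_SD.1 (hSS hx.2)
    rw [mem_SD]
    refine ⟨⟨Nat.lcm_pos h1.1.1 h2.1.1, ?_⟩, Pool.Agent.W366.DC.sqf_lcm h1.2.1 h2.2.1, ?_⟩
    · calc Nat.lcm x.1 x.2 ≤ x.1 * x.2 := Nat.le_of_dvd (Nat.mul_pos h1.1.1 h2.1.1)
            (Nat.lcm_dvd (Dvd.intro _ rfl) (Dvd.intro_left _ rfl))
        _ ≤ D * D := Nat.mul_le_mul h1.1.2 h2.1.2
        _ = D ^ 2 := by ring
    · intro p hp hpy hpl
      have : p ∣ x.1 * x.2 := hpl.trans (Nat.lcm_dvd (Dvd.intro _ rfl) (Dvd.intro_left _ rfl))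
      rcases hp.dvd_mul.1 this with h | h
      · exact h1.2.2 p hp hpy h
      · exact h2.2.2 p hp hpy h
  rw [← sum_fiberwise_of_maps_to hmap]
  refine le_trans (sum_le_sum fun l hl => ?_) (sum_div_le y (D ^ 2))
  have hl' := mem_SD.1 hl
  have h1 : ∑ x ∈ (SS ×ˢ SS).filter (fun x => Nat.lcm x.1 x.2 = l), 1 / (Nat.lcm x.1 x.2 : ℝ) =
      ((SS ×ˢ SS).filter (fun x => Nat.lcm x.1 x.2 = l)).card * (1 / (l : ℝ)) := by
    rw [← nsmul_eq_mul, ← sum_const]
    refine sum_congr rfl fun x hx => ?_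
    rw [(mem_filter.1 hx).2]
  rw [h1]
  have h2 : ((SS ×ˢ SS).filter (fun x => Nat.lcm x.1 x.2 = l)).card ≤ 3 ^ l.primeFactors.card := by
    have h3 := Nat.card_pair_lcm_eq hl'.2.1
    have h4 : ArithmeticFunction.cardDistinctFactors l = l.primeFactors.card := rfl
    rw [h4] at h3
    rw [← h3]
    refine card_le_card ?_
    intro x hx
    rw [mem_filter, mem_product] at hx
    have hl0 : l ≠ 0 := by omega
    rw [mem_filter, mem_product, Nat.mem_divisors, Nat.mem_divisors]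
    refine ⟨⟨⟨?_, hl0⟩, ⟨?_, hl0⟩⟩, hx.2⟩
    · rw [← hx.2]; exact Nat.dvd_lcm_left _ _
    · rw [← hx.2]; exact Nat.dvd_lcm_right _ _
  have h5 : (((SS ×ˢ SS).filter (fun x => Nat.lcm x.1 x.2 = l)).card : ℝ) ≤ (3 : ℝ) ^ l.primeFactors.card := by
    exact_mod_cast h2
  calc _ ≤ (3 : ℝ) ^ l.primeFactors.card * (1 / (l : ℝ)) :=
        mul_le_mul_of_nonneg_right h5 (by positivity)
    _ = _ := by ring

end Pool.Agent.Y822.Nc
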