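import Mathlib
import Pool.Agent.Y822.Nc

/-! Off-diagonal and diagonal sums: the theorems. -/

set_option autoImplicit false

namespace Pool.Agent.Y822.Nc

open Finset Filter
open Pool.Agent.H442R2
open Pool.Agent.H442R2.KF (Wt)
open Pool.Agent.Y822.Per Pool.Agent.Y822.Win Pool.Agent.Y822.Cop

lemma Rd_mul {D0 X : ℕ} (c c' : ℕ → ℝ) (a a' : ℕ) (n : ℤ) :
    Rd D0 X c (n + a) * Rd D0 X c' (n + a') = Sc D0 X c c' a a' n + Mc D0 X c c' a a' n := by
  classical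
  unfold Rd Sc Mc
  rw [sum_mul_sum, ← sum_add_distrib]
  refine sum_congr rfl fun e _ => ?_
  rw [← sum_filter_add_sum_filter_not (Ioc D0 X) (fun e' => Nat.Coprime e e')]
  simp only [sub_neg_eq_add]
  congr 1
  · refine sum_congr rfl fun e' _ => ?_
    ring
  · refine sum_congr rfl fun e' _ => ?_
    ring

/-- **the off-diagonal sum** -/
theorem offd : ∃ C0 : ℕ, 3 ≤ C0 ∧ ∀ θ δ : ℝ, 0 < θ → θ < 5 / 9 → 0 < δ → ∃ ε₀ η : ℝ, 0 < ε₀ ∧ 0 < η ∧
    ∀ ε : ℝ, 0 < ε → ∃ C : ℝ, 0 < C ∧ ∃ N₀ : ℕ, ∀ N : ℕ, N₀ ≤ N →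
    ∀ (b J Y y z D : ℕ), C0 ≤ b → C0 ≤ y → y ≤ z → y ≤ 2 ^ 2 ^ J → (2 ^ 2 ^ J) ^ (C0 * b) ≤ Y →
    ((2 * N : ℕ) : ℝ) ^ ε ≤ z →
    ∀ SS : Finset ℕ, SS ⊆ SD y D → (∀ d ∈ SS, ∀ p : ℕ, p.Prime → p ∣ d → p ≤ z) →
    ((KK C0 * D ^ 2 * Y : ℕ) : ℝ) ≤ ((2 * N : ℕ) : ℝ) ^ ε₀ →
    ((KK C0 * D ^ 2 * Y : ℕ) : ℝ) * Real.log ((2 * N : ℕ) : ℝ) ≤ ((2 * N : ℕ) : ℝ) →
    ∀ D0 X : ℕ, (X : ℝ) ≤ ((2 * N : ℕ) : ℝ) ^ θ → X ≤ N →
    (X : ℝ) * Real.log ((2 * N : ℕ) : ℝ) ≤ ((2 * N : ℕ) : ℝ) →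
    1 ≤ D0 → (X : ℝ) ≤ ((2 * N : ℕ) : ℝ) ^ ε₀ * D0 →
    ∀ (a a' : ℕ), a ≤ N → a' ≤ N → a ≠ a' →
    ∀ c c' : ℕ → ℕ → ℝ, (∀ d, CC z D0 X (c d)) → (∀ d, CC z D0 X (c' d)) →
    (∀ d d', Pool.Agent.W23.PL.Fc (2 * N) θ δ (c d) (c' d')) →
    |∑ n ∈ Iw N, Wt (2 * N) n * (Gz y D0 X SS c (n + a) * Gz y D0 X SS c' (n + a'))| ≤
      (1 / 2) ^ b * (B1 z X (2 * N ^ 2) ^ 2 * (2 * N * EE y (D ^ 2))) +
      (D : ℝ) ^ 2 * (((J : ℝ) + 2) * (Y * ((KK C0 * D ^ 2 * Y : ℕ) *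
        (B1 z X (2 * N ^ 2) ^ 2 + C * (N : ℝ) ^ (1 - η))))) +
      (4 ^ Nat.log y (2 * N ^ 2)) ^ 2 * (B2 z X (2 * N ^ 2) ^ 2 *
        (Nat.log z N * (2 * (N : ℝ) / z + 1) + 9 * (N : ℝ) / z)) := by
  classical
  obtain ⟨C0, hC03, H⟩ := cop
  refine ⟨C0, hC03, fun θ δ hθ hθ2 hδ => ?_⟩
  obtain ⟨ε₀, η, hε₀, hη, H⟩ := H θ δ hθ hθ2 hδ
  refine ⟨ε₀, η, hε₀, hη, fun ε hε => ?_⟩
  obtain ⟨C, hC, N₁, H⟩ := H ε hε
  obtain ⟨N₂, hf1⟩ := f1w
  refine ⟨C, hC, max (max N₁ N₂) 3, ?_⟩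
  intro N hN b J Y y z D hb hy hyz hyJ hJY hεz SS hSS hSSz hQ1 hQ2 D0 X hX hXN hXl hD0 hXD a a' ha ha' haa
    c c' hc hc' hF
  have hNN₁ : N₁ ≤ N := ((le_max_left _ _).trans (le_max_left _ _)).trans hN
  have hNN₂ : N₂ ≤ N := ((le_max_right _ _).trans (le_max_left _ _)).trans hN
  have hN3 : 3 ≤ N := (le_max_right _ _).trans hN
  have hN1 : 1 ≤ N := by omega
  have hy3 : 3 ≤ y := hC03.trans hy
  have hz2 : 2 ≤ z := by omega
  set M := 2 * N ^ 2 with hM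
  set B := B1 z X M with hB
  have hB0 : 0 < B := B1_pos _ _ _
  have hlogN : 0 ≤ Real.log ((2 * N : ℕ) : ℝ) := Real.log_natCast_nonneg _
  set Qm : ℕ := KK C0 * D ^ 2 * Y with hQm
  have hNl : Real.log ((2 * N : ℕ) : ℝ) ≤ ((2 * N : ℕ) : ℝ) :=
    Real.log_le_self (Nat.cast_nonneg _)
  -- decomposition
  have hdec : ∑ n ∈ Iw N, Wt (2 * N) n * (Gz y D0 X SS c (n + a) * Gz y D0 X SS c' (n + a')) =
      ∑ d ∈ SS, ∑ d' ∈ SS, ∑ n ∈ Iw N, Wt (2 * N) n * ((rz y (n + a) * rz y (n + a')) *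
        (i1 d (n + a) * i1 d' (n + a')) * Sc D0 X (c d) (c' d') a a' n) +
      ∑ n ∈ Iw N, ∑ d ∈ SS, ∑ d' ∈ SS, Wt (2 * N) n * ((rz y (n + a) * rz y (n + a')) *
        (i1 d (n + a) * i1 d' (n + a')) * Mc D0 X (c d) (c' d') a a' n) := by
    rw [sum_congr rfl fun d _ => sum_comm, sum_comm, ← sum_add_distrib]
    refine sum_congr rfl fun n _ => ?_
    rw [← sum_add_distrib]
    unfold Gz
    calc _ = Wt (2 * N) n * (rz y (n + a) * rz y (n + a')) * ((∑ d ∈ SS, i1 d (n + a) * Rd D0 X (c d) (n + a)) *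
          ∑ d' ∈ SS, i1 d' (n + a') * Rd D0 X (c' d') (n + a')) := by ring
      _ = _ := by
        rw [sum_mul_sum, mul_sum]
        refine sum_congr rfl fun d _ => ?_
        rw [mul_sum, ← sum_add_distrib]
        refine sum_congr rfl fun d' _ => ?_
        have := Rd_mul (D0 := D0) (X := X) (c d) (c' d') a a' n
        calc _ = Wt (2 * N) n * (rz y (n + a) * rz y (n + a')) * (i1 d (n + a) * i1 d' (n + a')) *
              (Rd D0 X (c d) (n + a) * Rd D0 X (c' d') (n + a')) := by ring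
          _ = _ := by rw [this]; ring
  rw [hdec]
  refine (abs_add_le _ _).trans (add_le_add ?_ ?_)
  · -- the coprime part
    have hterm : ∀ d ∈ SS, ∀ d' ∈ SS, |∑ n ∈ Iw N, Wt (2 * N) n * ((rz y (n + a) * rz y (n + a')) *
        (i1 d (n + a) * i1 d' (n + a')) * Sc D0 X (c d) (c' d') a a' n)| ≤
        (1 / 2) ^ b * (B ^ 2 * (2 * N)) * (1 / (Nat.lcm d d' : ℝ)) +
        ((J : ℝ) + 2) * (Y * (Qm * (B ^ 2 + C * (N : ℝ) ^ (1 - η)))) := by
      intro d hd d' hd'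
      have m1 := mem_SD.1 (hSS hd)
      have m2 := mem_SD.1 (hSS hd')
      have p1 : ∀ p : ℕ, p.Prime → p ∣ d → y < p := fun p hp hpd => by
        by_contra hle
        exact m1.2.2 p hp (by omega) hpd
      have p2 : ∀ p : ℕ, p.Prime → p ∣ d' → y < p := fun p hp hpd => by
        by_contra hle
        exact m2.2.2 p hp (by omega) hpd
      have hdd : KK C0 * (d * d') * Y ≤ Qm := by
        rw [hQm, sq]
        exact Nat.mul_le_mul_right _ (Nat.mul_le_mul_left _ (Nat.mul_le_mul m1.1.2 m2.1.2))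
      have hddr : ((KK C0 * (d * d') * Y : ℕ) : ℝ) ≤ Qm := by exact_mod_cast hdd
      have hcs : ∀ (c₁ : ℕ → ℕ → ℝ), (∀ d, CC z D0 X (c₁ d)) → ∀ d₁, ∀ e, c₁ d₁ e ≠ 0 → ∀ p : ℕ, p.Prime →
          p ∣ e → y < p ∧ ¬ p ∣ d ∧ ¬ p ∣ d' := by
        intro c₁ hc₁ d₁ e he p hp hpe
        obtain ⟨k1, k2, k3, k4⟩ := (hc₁ d₁).supp e he
        have hzp : z < p := by
          by_contra hle
          exact k4 p hp (by omega) hpe
        refine ⟨by omega, fun h => ?_, fun h => ?_⟩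
        · have := hSSz d hd p hp h; omega
        · have := hSSz d' hd' p hp h; omega
      have hcr : ∀ (c₁ : ℕ → ℕ → ℝ), (∀ d, CC z D0 X (c₁ d)) → ∀ d₁, BX.CofR (((2 * N : ℕ) : ℝ) ^ ε) X (c₁ d₁) := by
        intro c₁ hc₁ d₁
        refine ⟨(hc₁ d₁).bd, fun e he => ?_⟩
        obtain ⟨k1, k2, k3, k4⟩ := (hc₁ d₁).supp e he
        refine ⟨k2, by omega, fun p hp hpe => ?_⟩
        have hzp : z < p := by
          by_contra hle
          exact k4 p hp (by omega) hpe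
        exact lt_of_le_of_lt hεz (by exact_mod_cast hzp)
      have key := H N hNN₁ b J Y y hb hy hyJ hJY d d' m1.2.1 m2.2.1 p1 p2 (hddr.trans hQ1)
        ((mul_le_mul_of_nonneg_right hddr hlogN).trans hQ2) D0 X hX hD0 hXD a a' ha ha' haa (c d) (c' d')
        (hc d).bd (hc' d').bd (hcs c hc d) (hcs c' hc' d') (hcr c hc d) (hcr c' hc' d') (hF d d') (B ^ 2)
        (by positivity) (fun n hn h1 h2 => abs_Sc_le (hc d) (hc' d') hz2 h1 h2
          (mem_Iw_abs hN1 ha hn) (mem_Iw_abs hN1 ha' hn))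
      refine key.trans (add_le_add (le_of_eq (by ring)) ?_)
      have : (0 : ℝ) ≤ B ^ 2 + C * (N : ℝ) ^ (1 - η) := by positivity
      gcongr
    calc _ ≤ ∑ d ∈ SS, ∑ d' ∈ SS, ((1 / 2) ^ b * (B ^ 2 * (2 * N)) * (1 / (Nat.lcm d d' : ℝ)) +
        ((J : ℝ) + 2) * (Y * (Qm * (B ^ 2 + C * (N : ℝ) ^ (1 - η))))) := by
          refine (abs_sum_le_sum_abs _ _).trans (sum_le_sum fun d hd => ?_)
          exact (abs_sum_le_sum_abs _ _).trans (sum_le_sum fun d' hd' => hterm d hd d' hd')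
      _ = (1 / 2) ^ b * (B ^ 2 * (2 * N)) * (∑ d ∈ SS, ∑ d' ∈ SS, 1 / (Nat.lcm d d' : ℝ)) +
          (SS.card : ℝ) * (SS.card * (((J : ℝ) + 2) * (Y * (Qm * (B ^ 2 + C * (N : ℝ) ^ (1 - η)))))) := by
          simp only [sum_add_distrib, sum_const, nsmul_eq_mul, ← mul_sum]
      _ ≤ _ := by
          have hcard : (SS.card : ℝ) ≤ D := by
            have h1 : SS.card ≤ (Icc 1 D).card := card_le_card fun d hd => by
              have := (mem_SD.1 (hSS hd)).1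
              rw [mem_Icc]
              exact this
            rw [Nat.card_Icc, Nat.add_sub_cancel] at h1
            exact_mod_cast h1
          have hl := lcm_sum hSS
          have t1 : (1 / 2 : ℝ) ^ b * (B ^ 2 * (2 * N)) * (∑ d ∈ SS, ∑ d' ∈ SS, 1 / (Nat.lcm d d' : ℝ)) ≤
              (1 / 2) ^ b * (B ^ 2 * (2 * N)) * EE y (D ^ 2) := mul_le_mul_of_nonneg_left hl (by positivity)
          have t0 : 0 ≤ ((J : ℝ) + 2) * (Y * (Qm * (B ^ 2 + C * (N : ℝ) ^ (1 - η)))) := by positivity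
          have t2 : (SS.card : ℝ) * (SS.card * (((J : ℝ) + 2) * (Y * (Qm * (B ^ 2 + C * (N : ℝ) ^ (1 - η)))))) ≤
              D * (D * (((J : ℝ) + 2) * (Y * (Qm * (B ^ 2 + C * (N : ℝ) ^ (1 - η)))))) := by
            apply mul_le_mul hcard (mul_le_mul_of_nonneg_right hcard t0) (by positivity) (Nat.cast_nonneg _)
          refine add_le_add (t1.trans (le_of_eq (by ring))) (t2.trans (le_of_eq (by ring)))
  · -- common factors
    set S4 : ℝ := 4 ^ Nat.log y M with hS4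
    have hpt : ∀ n ∈ Iw N, |∑ d ∈ SS, ∑ d' ∈ SS, Wt (2 * N) n * ((rz y (n + a) * rz y (n + a')) *
        (i1 d (n + a) * i1 d' (n + a')) * Mc D0 X (c d) (c' d') a a' n)| ≤
        S4 ^ 2 * (B2 z X M ^ 2 * ∑ p ∈ PP z X, Wt (2 * N) n *
          (acen p (n + a).natAbs * acen p (n + a').natAbs)) := by
      intro n hn
      have hW := (Wt_pos (2 * N) n).le
      have hR : 0 ≤ ∑ p ∈ PP z X, Wt (2 * N) n * (acen p (n + a).natAbs * acen p (n + a').natAbs) :=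
        sum_nonneg fun p _ => mul_nonneg hW (mul_nonneg (acen_nonneg _ _) (acen_nonneg _ _))
      have hfin : 0 ≤ S4 ^ 2 * (B2 z X M ^ 2 * ∑ p ∈ PP z X, Wt (2 * N) n *
          (acen p (n + a).natAbs * acen p (n + a').natAbs)) := by positivity
      by_cases h1 : n + a = 0
      · refine le_trans (le_of_eq ?_) hfin
        rw [h1, rz_zero hy3]
        simp only [zero_mul, mul_zero, sum_const_zero, abs_zero]
      by_cases h2 : n + a' = 0
      · refine le_trans (le_of_eq ?_) hfin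
        rw [h2, rz_zero hy3]
        simp only [zero_mul, mul_zero, sum_const_zero, abs_zero]
      set RR := B2 z X M ^ 2 * ∑ p ∈ PP z X, acen p (n + a).natAbs * acen p (n + a').natAbs with hRR
      have hRR0 : 0 ≤ RR := by
        rw [hRR]
        exact mul_nonneg (by positivity) (sum_nonneg fun p _ => mul_nonneg (acen_nonneg _ _) (acen_nonneg _ _))
      have hMn := mem_Iw_abs hN1 ha hn
      have hMn' := mem_Iw_abs hN1 ha' hn
      calc _ ≤ ∑ d ∈ SS, ∑ d' ∈ SS, Wt (2 * N) n * RR * (i1 d (n + a) * i1 d' (n + a')) := by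
            refine (abs_sum_le_sum_abs _ _).trans (sum_le_sum fun d hd => ?_)
            refine (abs_sum_le_sum_abs _ _).trans (sum_le_sum fun d' hd' => ?_)
            have hm := abs_Mc_le (hc d) (hc' d') hz2 h1 h2 hMn hMn'
            have g1 := i1_nonneg d (n + a)
            have g2 := i1_nonneg d' (n + a')
            have g3 := rz_nonneg y (n + a)
            have g4 := rz_nonneg y (n + a')
            have g5 : rz y (n + a) * rz y (n + a') ≤ 1 := mul_le_one₀ (rz_le_one _ _) g4 (rz_le_one _ _)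
            rw [abs_mul, abs_mul, abs_mul, abs_of_nonneg hW, abs_of_nonneg (mul_nonneg g3 g4),
              abs_of_nonneg (mul_nonneg g1 g2)]
            calc Wt (2 * N) n * (rz y (n + a) * rz y (n + a') * (i1 d (n + a) * i1 d' (n + a')) *
                |Mc D0 X (c d) (c' d') a a' n|) ≤ Wt (2 * N) n * (1 * (i1 d (n + a) * i1 d' (n + a')) * RR) := by
                  refine mul_le_mul_of_nonneg_left ?_ hW
                  exact mul_le_mul (mul_le_mul_of_nonneg_right g5 (mul_nonneg g1 g2)) hm (abs_nonneg _)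
                    (by positivity)
              _ = _ := by ring
        _ = Wt (2 * N) n * RR * ((∑ d ∈ SS, i1 d (n + a)) * ∑ d' ∈ SS, i1 d' (n + a')) := by
            rw [sum_mul_sum, mul_sum]
            refine sum_congr rfl fun d _ => ?_
            rw [mul_sum]
        _ ≤ Wt (2 * N) n * RR * (S4 * S4) := by
            refine mul_le_mul_of_nonneg_left ?_ (mul_nonneg hW hRR0)
            exact mul_le_mul (rough_sum hSS (by omega) h1 hMn) (rough_sum hSS (by omega) h2 hMn')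
              (sum_nonneg fun d _ => i1_nonneg _ _) (by positivity)
        _ = _ := by
            rw [hRR, ← mul_sum]
            ring
    calc _ ≤ ∑ n ∈ Iw N, S4 ^ 2 * (B2 z X M ^ 2 * ∑ p ∈ PP z X, Wt (2 * N) n *
          (acen p (n + a).natAbs * acen p (n + a').natAbs)) :=
          (abs_sum_le_sum_abs _ _).trans (sum_le_sum hpt)
      _ = S4 ^ 2 * (B2 z X M ^ 2 * ∑ p ∈ PP z X, ∑ n ∈ Iw N, Wt (2 * N) n *
          (acen p (n + a).natAbs * acen p (n + a').natAbs)) := by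
          rw [← mul_sum, ← mul_sum, sum_comm]
      _ ≤ _ := by
          refine mul_le_mul_of_nonneg_left ?_ (by positivity)
          refine mul_le_mul_of_nonneg_left ?_ (by positivity)
          exact prime_sum hN1 hz2 hXN hXl hNl (fun q hq hql b => hf1 N hNN₂ q hq hql b) ha ha' haa

/-- **the diagonal sum** -/
theorem diagd : ∃ N₀ : ℕ, ∀ N : ℕ, N₀ ≤ N → ∀ (y z D D0 X : ℕ) (SS : Finset ℕ), SS ⊆ SD y D → 3 ≤ y →
    2 ≤ z → ∀ c : ℕ → ℕ → ℝ, (∀ d, CC z D0 X (c d)) → ∀ a ≤ N,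
    ∑ n ∈ Iw N, Wt (2 * N) n * Gz y D0 X SS c (n + a) ^ 2 ≤
      (2 * N + 1) * (4 ^ Nat.log y (2 * N ^ 2) * B1 z X (2 * N ^ 2)) ^ 2 := by
  obtain ⟨N₂, hf1⟩ := f1w
  refine ⟨max N₂ 1, ?_⟩
  intro N hN y z D D0 X SS hSS hy hz c hc a ha
  have hNN₂ : N₂ ≤ N := (le_max_left _ _).trans hN
  have hN1 : 1 ≤ N := (le_max_right _ _).trans hN
  have w0 := Iw_weight (fun q hq hql b => hf1 N hNN₂ q hq hql b) le_rfl
    (by rw [Nat.cast_one, one_mul]; exact Real.log_le_self (Nat.cast_nonneg _)) a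
  have e0 : ∑ n ∈ Iw N, Wt (2 * N) n ≤ 2 * N + 1 := by
    refine le_trans (le_of_eq (sum_congr rfl fun n _ => ?_)) (w0.trans (by simp))
    unfold i1
    simp
  calc _ ≤ ∑ n ∈ Iw N, Wt (2 * N) n * (4 ^ Nat.log y (2 * N ^ 2) * B1 z X (2 * N ^ 2)) ^ 2 := by
        refine sum_le_sum fun n hn => ?_
        refine mul_le_mul_of_nonneg_left ?_ (Wt_pos _ _).le
        rw [← sq_abs]
        exact pow_le_pow_left₀ (abs_nonneg _) (abs_Gz_le hSS hy hz hc (mem_Iw_abs hN1 ha hn)) 2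
    _ = (∑ n ∈ Iw N, Wt (2 * N) n) * (4 ^ Nat.log y (2 * N ^ 2) * B1 z X (2 * N ^ 2)) ^ 2 := by
        rw [sum_mul]
    _ ≤ _ := mul_le_mul_of_nonneg_right e0 (by positivity)

/-- if the functions `G a` are almost orthogonal with respect to the smooth weight, few of them
correlate with `f` -/
theorem dualW {N : ℕ} (hN : 1 ≤ N) {G : ℕ → ℤ → ℝ} {DG OG η : ℝ} (hη : 0 < η) (hDG : 0 ≤ DG)
    (hOG0 : 0 ≤ OG) (S : Finset ℕ) (f : ℕ → ℝ)
    (hf : ∀ n ∈ Icc 1 N, |f n| ≤ 1)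
    (hdiag : ∀ a ∈ S, ∑ n ∈ Iw N, Wt (2 * N) n * G a n ^ 2 ≤ DG)
    (hoff : ∀ a ∈ S, ∀ a' ∈ S, a ≠ a' → |∑ n ∈ Iw N, Wt (2 * N) n * (G a n * G a' n)| ≤ OG)
    (hbig : ∀ a ∈ S, η * N < |∑ n ∈ Icc 1 N, f n * G a n|) (hOG : 3 * OG ≤ η ^ 2 * N / 2) :
    (S.card : ℝ) ≤ 6 * DG / (η ^ 2 * N) := by
  classical
  have hN0 : (0 : ℝ) < N := by exact_mod_cast hN
  rcases S.eq_empty_or_nonempty with rfl | hne
  · rw [card_empty, Nat.cast_zero]; positivity
  set X : ℕ → ℝ := fun a => ∑ n ∈ Icc 1 N, f n * G a n with hX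
  set s : ℕ → ℝ := fun a => if 0 ≤ X a then 1 else -1 with hs
  have hsX : ∀ a, s a * X a = |X a| := by
    intro a
    rw [hs]
    simp only
    split_ifs with h
    · rw [one_mul, abs_of_nonneg h]
    · rw [abs_of_neg (not_le.1 h)]; ring
  have hsabs : ∀ a, |s a| = 1 := by
    intro a
    rw [hs]
    simp only
    split_ifs <;> norm_num
  have hssq : ∀ a, s a * s a = 1 := by
    intro a
    rw [hs]
    simp only
    split_ifs <;> norm_num
  set H : ℤ → ℝ := fun n => ∑ a ∈ S, s a * G a n with hH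
  have e1 : ∑ a ∈ S, |X a| = ∑ n ∈ Icc 1 N, f n * H n := by
    rw [← sum_congr rfl fun a _ => hsX a]
    rw [hX, hH]
    simp only [mul_sum]
    rw [sum_comm]
    refine sum_congr rfl fun n _ => sum_congr rfl fun a _ => ?_
    ring
  have e2 : (∑ n ∈ Icc 1 N, f n * H n) ^ 2 ≤ N * ∑ n ∈ Icc 1 N, H n ^ 2 := by
    refine (sum_mul_sq_le_sq_mul_sq _ _ _).trans ?_
    refine mul_le_mul_of_nonneg_right ?_ (sum_nonneg fun n _ => sq_nonneg _)
    calc ∑ n ∈ Icc 1 N, f n ^ 2 ≤ ∑ _n ∈ Icc 1 N, (1 : ℝ) := by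
          refine sum_le_sum fun n hn => ?_
          rw [← sq_abs]
          exact pow_le_one₀ (abs_nonneg _) (hf n hn)
      _ = N := by simp
  have e2' : ∑ n ∈ Icc 1 N, H n ^ 2 ≤ 3 * ∑ n ∈ Iw N, Wt (2 * N) n * H n ^ 2 := by
    have hinj : Set.InjOn (fun n : ℕ => (n : ℤ)) (Icc 1 N : Finset ℕ) := fun x _ x' _ h => by
      have h' : (x : ℤ) = x' := h
      exact_mod_cast h'
    have h1 : ∑ n ∈ Icc 1 N, H n ^ 2 ≤ ∑ n ∈ Icc 1 N, 3 * (Wt (2 * N) n * H n ^ 2) := by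
      refine sum_le_sum fun n hn => ?_
      rw [mem_Icc] at hn
      have hw : 1 / 3 ≤ Wt (2 * N) (n : ℤ) := by
        unfold Wt
        have h2 : ((((n : ℤ) : ℝ)) / ((2 * N : ℕ) : ℝ)) ^ 2 ≤ 1 / 4 := by
          push_cast
          have hn1 : (n : ℝ) ≤ N := by exact_mod_cast hn.2
          rw [div_pow, div_le_div_iff₀ (by positivity) (by norm_num)]
          have : (n : ℝ) ^ 2 ≤ N ^ 2 := pow_le_pow_left₀ (Nat.cast_nonneg _) hn1 2
          nlinarith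
        have h3 := Real.pi_lt_d2
        have h5 := Real.pi_pos
        have h4 : -1 ≤ -Real.pi * ((((n : ℤ) : ℝ)) / ((2 * N : ℕ) : ℝ)) ^ 2 := by
          nlinarith
        have h6 : Real.exp (-1) ≤ Real.exp (-Real.pi * ((((n : ℤ) : ℝ)) / ((2 * N : ℕ) : ℝ)) ^ 2) :=
          Real.exp_le_exp.2 h4
        have h7 : 1 / 3 ≤ Real.exp (-1) := by
          rw [Real.exp_neg, ← one_div]
          exact one_div_le_one_div_of_le (Real.exp_pos _) (by have := Real.exp_one_lt_d9; linarith)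
        exact h7.trans h6
      have := sq_nonneg (H n)
      nlinarith
    refine h1.trans ?_
    rw [← mul_sum]
    refine mul_le_mul_of_nonneg_left ?_ (by norm_num)
    rw [← sum_image (f := fun n : ℤ => Wt (2 * N) n * H n ^ 2) hinj]
    refine sum_le_sum_of_subset_of_nonneg ?_ (fun n _ _ => mul_nonneg (Wt_pos _ _).le (sq_nonneg _))
    intro n hn
    rw [mem_image] at hn
    obtain ⟨m, hm, rfl⟩ := hn
    rw [mem_Icc] at hm
    unfold Iw
    rw [mem_Icc]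
    have h1 : (m : ℤ) ≤ N := by exact_mod_cast hm.2
    have h2 : (1 : ℤ) ≤ N := by exact_mod_cast hN
    have h3 : (0 : ℤ) ≤ m := Int.natCast_nonneg _
    constructor <;> nlinarith
  have e3 : ∑ n ∈ Iw N, Wt (2 * N) n * H n ^ 2 =
      ∑ a ∈ S, ∑ a' ∈ S, (s a * s a') * ∑ n ∈ Iw N, Wt (2 * N) n * (G a n * G a' n) := by
    have : ∀ n ∈ Iw N, Wt (2 * N) n * H n ^ 2 =
        ∑ a ∈ S, ∑ a' ∈ S, (s a * s a') * (Wt (2 * N) n * (G a n * G a' n)) := by
      intro n _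
      rw [hH]
      simp only
      rw [sq, sum_mul_sum, mul_sum]
      refine sum_congr rfl fun a _ => ?_
      rw [mul_sum]
      refine sum_congr rfl fun a' _ => ?_
      ring
    rw [sum_congr rfl this, sum_comm]
    refine sum_congr rfl fun a _ => ?_
    rw [sum_comm]
    refine sum_congr rfl fun a' _ => ?_
    rw [mul_sum]
  have e4 : ∑ n ∈ Iw N, Wt (2 * N) n * H n ^ 2 ≤ S.card * DG + S.card ^ 2 * OG := by
    rw [e3]
    calc _ ≤ ∑ a ∈ S, ∑ a' ∈ S, ((if a = a' then DG else 0) + OG) := by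
          refine sum_le_sum fun a ha => sum_le_sum fun a' ha' => ?_
          by_cases h : a = a'
          · subst h
            rw [hssq, one_mul, if_pos rfl]
            have := hdiag a ha
            simp only [← sq]
            linarith
          · rw [if_neg h, zero_add]
            calc _ ≤ |s a * s a' * ∑ n ∈ Iw N, Wt (2 * N) n * (G a n * G a' n)| := le_abs_self _
              _ = |∑ n ∈ Iw N, Wt (2 * N) n * (G a n * G a' n)| := by
                  rw [abs_mul, abs_mul, hsabs, hsabs, one_mul, one_mul]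
              _ ≤ OG := hoff a ha a' ha' h
      _ = S.card * DG + S.card ^ 2 * OG := by
          simp only [sum_add_distrib, sum_const, nsmul_eq_mul]
          rw [sum_congr rfl fun a ha => by rw [sum_ite_eq, if_pos ha], sum_const, nsmul_eq_mul]
          ring
  have hc : (0 : ℝ) < S.card := by exact_mod_cast card_pos.2 hne
  have e5 : (S.card : ℝ) * (η * N) ≤ ∑ a ∈ S, |X a| := by
    rw [← nsmul_eq_mul]
    exact card_nsmul_le_sum _ _ _ fun a ha => (hbig a ha).le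
  have e6 : ((S.card : ℝ) * (η * N)) ^ 2 ≤ N * (3 * (S.card * DG + S.card ^ 2 * OG)) := by
    calc ((S.card : ℝ) * (η * N)) ^ 2 ≤ (∑ a ∈ S, |X a|) ^ 2 :=
          pow_le_pow_left₀ (by positivity) e5 2
      _ ≤ N * ∑ n ∈ Icc 1 N, H n ^ 2 := by rw [e1]; exact e2
      _ ≤ _ := mul_le_mul_of_nonneg_left (e2'.trans (mul_le_mul_of_nonneg_left e4 (by norm_num))) hN0.le
  have e7 : (S.card : ℝ) * (η ^ 2 * N) ≤ 3 * (DG + S.card * OG) := by
    have h1 : (N : ℝ) * S.card * (S.card * (η ^ 2 * N)) ≤ N * S.card * (3 * (DG + S.card * OG)) := by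
      nlinarith [e6]
    exact le_of_mul_le_mul_left h1 (by positivity)
  have e8 : (S.card : ℝ) * (3 * OG) ≤ S.card * (η ^ 2 * N / 2) := mul_le_mul_of_nonneg_left hOG hc.le
  rw [le_div_iff₀ (by positivity)]
  linarith

end Pool.Agent.Y822.Nc
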