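import Mathlib
import Pool.Agent.Y822.Nc2
import Pool.Agent.Y822.Par

/-! Parameters in the off-diagonal and diagonal sums. -/

set_option autoImplicit false

namespace Pool.Agent.Y822.Par3

open Finset Filter
open Pool.Agent.H442R2
open Pool.Agent.H442R2.KF (Wt)
open Pool.Agent.Y822.Win Pool.Agent.Y822.Cop Pool.Agent.Y822.Nc
open Pool.Agent.W41 (JJ JJ_lt JJ_le JJ_small)

/-- the limit between the smooth and the rough moduli -/
noncomputable def zN (ε₁ : ℝ) (N : ℕ) : ℕ := ⌈(N : ℝ) ^ ε₁⌉₊ - 1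

/-- smooth moduli -/
noncomputable def SSm (N y : ℕ) (ε₁ δ' : ℝ) : Finset ℕ := by
  classical
  exact (SD y ⌊(N : ℝ) ^ δ'⌋₊).filter (fun d => ∀ p : ℕ, p.Prime → p ∣ d → p ≤ zN ε₁ N)

lemma mem_SSm {N y d : ℕ} {ε₁ δ' : ℝ} : d ∈ SSm N y ε₁ δ' ↔ d ∈ SD y ⌊(N : ℝ) ^ δ'⌋₊ ∧
    ∀ p : ℕ, p.Prime → p ∣ d → p ≤ zN ε₁ N := by
  classical
  unfold SSm; rw [mem_filter]

lemma four_pow {y M : ℕ} {v : ℝ} (hv : 0 < v) (hy : v ≤ Real.log y) (hM : 1 ≤ M) :
    (4 : ℝ) ^ Nat.log y M ≤ Real.exp (2 * Real.log M / v) := by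
  have hM0 : 0 ≤ Real.log M := Real.log_natCast_nonneg _
  have g1 : (Nat.log y M : ℝ) ≤ Real.logb y (M : ℝ) := Real.natLog_le_logb _ _
  have g4 : Real.logb y (M : ℝ) ≤ Real.log M / v := by
    rw [Real.logb]
    exact div_le_div_of_nonneg_left hM0 hv hy
  have g2 : Real.log 4 ≤ 2 := by
    have : (4 : ℝ) = 2 ^ 2 := by norm_num
    rw [this, Real.log_pow]
    have := Real.log_two_lt_d9
    push_cast
    linarith
  have g3 : (4 : ℝ) ^ Nat.log y M = Real.exp (Real.log 4 * Nat.log y M) := by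
    rw [Real.exp_mul, Real.exp_log (by norm_num), Real.rpow_natCast]
  rw [g3]
  apply Real.exp_le_exp.2
  have g5 : (0 : ℝ) ≤ Nat.log y M := Nat.cast_nonneg _
  calc Real.log 4 * Nat.log y M ≤ 2 * (Real.log M / v) := mul_le_mul g2 (g1.trans g4) g5 (by norm_num)
    _ = _ := by ring

lemma log_2sq {N : ℕ} (hN : 1 ≤ N) (hL : 1 ≤ Real.log N) : Real.log ((2 * N ^ 2 : ℕ) : ℝ) ≤ 3 * Real.log N := by
  have hN0 : (0 : ℝ) < N := by exact_mod_cast hN
  push_cast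
  rw [Real.log_mul (by norm_num) (by positivity), Real.log_pow]
  have := Real.log_two_lt_d9
  push_cast
  linarith

lemma log_2N {N : ℕ} (hN : 1 ≤ N) (hL : 1 ≤ Real.log N) : Real.log ((2 * N : ℕ) : ℝ) ≤ 2 * Real.log N := by
  have hN0 : (0 : ℝ) < N := by exact_mod_cast hN
  push_cast
  rw [Real.log_mul (by norm_num) (by positivity)]
  have := Real.log_two_lt_d9
  linarith

lemma zN_lt {ε₁ : ℝ} {N : ℕ} (hN : 1 ≤ N) : (zN ε₁ N : ℝ) < (N : ℝ) ^ ε₁ := by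
  have hN0 : (0 : ℝ) < N := by exact_mod_cast hN
  have h0 : 0 < (N : ℝ) ^ ε₁ := Real.rpow_pos_of_pos hN0 _
  have h1 := Nat.ceil_lt_add_one h0.le
  have h2 : 1 ≤ ⌈(N : ℝ) ^ ε₁⌉₊ := Nat.ceil_pos.2 h0
  have h3 : ((zN ε₁ N : ℕ) : ℝ) = (⌈(N : ℝ) ^ ε₁⌉₊ : ℝ) - 1 := by
    unfold zN
    rw [Nat.cast_sub h2, Nat.cast_one]
  rw [h3]
  linarith

lemma le_zN {ε₁ : ℝ} {N p : ℕ} (h : (p : ℝ) < (N : ℝ) ^ ε₁) : p ≤ zN ε₁ N := by
  unfold zN
  have h1 : p < ⌈(N : ℝ) ^ ε₁⌉₊ := Nat.lt_ceil.2 h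
  omega

lemma zN_lt' {ε₁ : ℝ} {N p : ℕ} (hN : 1 ≤ N) (h : (N : ℝ) ^ ε₁ ≤ p) : zN ε₁ N < p := by
  have := zN_lt (ε₁ := ε₁) hN
  exact_mod_cast lt_of_lt_of_le this h

lemma zN_facts (ε₁ : ℝ) (hε : 0 < ε₁) (hε1 : ε₁ ≤ 1) (M : ℕ) : ∀ᶠ N : ℕ in atTop,
    Real.exp (ε₁ * Real.log N) / 2 ≤ zN ε₁ N ∧ M ≤ zN ε₁ N ∧ ((2 * N : ℕ) : ℝ) ^ (ε₁ / 2) ≤ zN ε₁ N ∧
    ε₁ / 2 * Real.log N ≤ Real.log (zN ε₁ N) ∧ zN ε₁ N ≤ N := by
  have e1 := ev_logN (ev_pow_exp 0 (ε₁ / 2) 4 (by positivity))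
  have e2 := ev_logN (ev_pow_exp 0 ε₁ (2 * M + 2) hε)
  filter_upwards [e1, e2, eventually_ge_atTop 1] with N h1 h2 hN
  have hN0 : (0 : ℝ) < N := by exact_mod_cast hN
  have hN1 : (1 : ℝ) ≤ N := by exact_mod_cast hN
  set L := Real.log N with hL
  rw [pow_zero, mul_one] at h1 h2
  have hM0 : (0 : ℝ) ≤ M := Nat.cast_nonneg _
  have hrp : ∀ x : ℝ, (N : ℝ) ^ x = Real.exp (x * L) := by
    intro x
    rw [Real.rpow_def_of_pos hN0, ← hL]
    congr 1
    ring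
  have hE : Real.exp (ε₁ * L) = Real.exp (ε₁ / 2 * L) * Real.exp (ε₁ / 2 * L) := by
    rw [← Real.exp_add]; congr 1; ring
  have h3 : Real.exp (ε₁ * L) - 1 ≤ zN ε₁ N := by
    have h4 : 1 ≤ ⌈(N : ℝ) ^ ε₁⌉₊ := Nat.ceil_pos.2 (Real.rpow_pos_of_pos hN0 _)
    have h5 : ((zN ε₁ N : ℕ) : ℝ) = (⌈(N : ℝ) ^ ε₁⌉₊ : ℝ) - 1 := by
      unfold zN
      rw [Nat.cast_sub h4, Nat.cast_one]
    rw [h5, ← hrp]
    linarith [Nat.le_ceil ((N : ℝ) ^ ε₁)]
  have h6 : Real.exp (ε₁ * L) / 2 ≤ zN ε₁ N := by linarith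
  have h7 : 2 * Real.exp (ε₁ / 2 * L) ≤ zN ε₁ N := by
    have : 4 * Real.exp (ε₁ / 2 * L) ≤ Real.exp (ε₁ * L) := by
      rw [hE]
      exact mul_le_mul_of_nonneg_right h1 (Real.exp_pos _).le
    linarith
  refine ⟨h6, ?_, ?_, ?_, ?_⟩
  · have : (M : ℝ) ≤ zN ε₁ N := by linarith
    exact_mod_cast this
  · push_cast
    rw [Real.mul_rpow (by norm_num) hN0.le, hrp]
    have : (2 : ℝ) ^ (ε₁ / 2) ≤ 2 := by
      calc (2 : ℝ) ^ (ε₁ / 2) ≤ (2 : ℝ) ^ (1 : ℝ) :=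
            Real.rpow_le_rpow_of_exponent_le (by norm_num) (by linarith)
        _ = 2 := Real.rpow_one _
    refine le_trans ?_ h7
    exact mul_le_mul_of_nonneg_right this (Real.exp_pos _).le
  · have hz : (0 : ℝ) < zN ε₁ N := by
      have := Real.exp_pos (ε₁ / 2 * L)
      linarith
    rw [Real.le_log_iff_exp_le hz]
    have := Real.exp_pos (ε₁ / 2 * L)
    linarith
  · have h8 := zN_lt (ε₁ := ε₁) hN
    have h9 : (N : ℝ) ^ ε₁ ≤ N := by
      calc (N : ℝ) ^ ε₁ ≤ (N : ℝ) ^ (1 : ℝ) := Real.rpow_le_rpow_of_exponent_le hN1 hε1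
        _ = N := Real.rpow_one _
    exact_mod_cast (h8.le.trans h9)

lemma logz_pow (ε₁ : ℝ) (hε : 0 < ε₁) (hε1 : ε₁ ≤ 1) : ∀ᶠ N : ℕ in atTop,
    (4 : ℝ) ^ Nat.log (zN ε₁ N) (2 * N ^ 2) ≤ Real.log N := by
  filter_upwards [zN_facts ε₁ hε hε1 1, ev_logN (eventually_ge_atTop (1 : ℝ)),
    ev_logN (eventually_ge_atTop (Real.exp (12 / ε₁))), eventually_ge_atTop 1] with N h1 h2 h3 hN
  have hL0 : 0 < Real.log N := by linarith
  have h4 := four_pow (v := ε₁ / 2 * Real.log N) (by positivity) h1.2.2.2.1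
    (M := 2 * N ^ 2) (Nat.one_le_iff_ne_zero.2 (by positivity))
  refine h4.trans (le_trans ?_ h3)
  apply Real.exp_le_exp.2
  have h5 := log_2sq hN h2
  rw [div_le_div_iff₀ (by positivity) hε]
  nlinarith

lemma logy_pow (κ : ℝ) (hκ : 0 < κ) (hκ1 : κ ≤ 1) : ∀ᶠ N : ℕ in atTop,
    (4 : ℝ) ^ Nat.log (yN κ N) (2 * N ^ 2) ≤ Real.log N ^ ⌈12 / κ⌉₊ := by
  filter_upwards [yN_facts κ hκ hκ1 1 1, ev_logN (eventually_ge_atTop (1 : ℝ)),
    ev_logN (Real.tendsto_log_atTop.eventually (eventually_ge_atTop (1 : ℝ))), eventually_ge_atTop 1]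
    with N h1 h2 h3 hN
  set L := Real.log N with hL
  set l := Real.log L with hl
  have hL0 : 0 < L := by linarith
  have hy0 : (0 : ℝ) < yN κ N := lt_of_lt_of_le (Real.exp_pos _) h1.2.1
  have hly : κ * L / (2 * l) ≤ Real.log (yN κ N) := by
    rw [Real.le_log_iff_exp_le hy0]; exact h1.2.1
  have h4 := four_pow (v := κ * L / (2 * l)) (by positivity) hly
    (M := 2 * N ^ 2) (Nat.one_le_iff_ne_zero.2 (by positivity))
  refine h4.trans ?_
  have hLpow : L ^ ⌈12 / κ⌉₊ = Real.exp ((⌈12 / κ⌉₊ : ℝ) * l) := by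
    rw [hl, mul_comm, Real.exp_mul, Real.exp_log hL0, Real.rpow_natCast]
  rw [hLpow]
  apply Real.exp_le_exp.2
  have h5 := log_2sq hN h2
  calc 2 * Real.log ((2 * N ^ 2 : ℕ) : ℝ) / (κ * L / (2 * l)) ≤ 2 * (3 * L) / (κ * L / (2 * l)) := by gcongr
    _ = 12 / κ * l := by field_simp; ring
    _ ≤ (⌈12 / κ⌉₊ : ℝ) * l := mul_le_mul_of_nonneg_right (Nat.le_ceil _) (by linarith)

lemma N_le_2sq (N : ℕ) : N ≤ 2 * N ^ 2 := by nlinarith [Nat.zero_le N]

/-- **correlations with parameters** -/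
theorem OFF (θ δ : ℝ) (hθ : 0 < θ) (hθ2 : θ < 5 / 9) (hδ : 0 < δ) : ∃ ε₀ δ₀ : ℝ, 0 < ε₀ ∧ 0 < δ₀ ∧
    ∀ δ' : ℝ, 0 < δ' → δ' ≤ δ₀ → ∀ ε₁ : ℝ, 0 < ε₁ → ε₁ ≤ 1 / 2 → ∀ A : ℕ, ∃ κ₀ : ℝ, 0 < κ₀ ∧ κ₀ ≤ 1 ∧
    ∀ κ : ℝ, 0 < κ → κ ≤ κ₀ → ∃ C : ℕ, ∀ᶠ N : ℕ in atTop, ∀ D0 X : ℕ, 1 ≤ D0 → (X : ℝ) ≤ (N : ℝ) ^ θ →
    (X : ℝ) ≤ (N : ℝ) ^ ε₀ * D0 →
    (∀ c c' : ℕ → ℕ → ℝ, (∀ d, CC (zN ε₁ N) D0 X (c d)) → (∀ d, CC (zN ε₁ N) D0 X (c' d)) →
      (∀ d d', Pool.Agent.W23.PL.Fc (2 * N) θ δ (c d) (c' d')) → ∀ a ≤ N, ∀ a' ≤ N, a ≠ a' →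
      |∑ n ∈ Iw N, Wt (2 * N) n * (Gz (yN κ N) D0 X (SSm N (yN κ N) ε₁ δ') c (n + a) *
        Gz (yN κ N) D0 X (SSm N (yN κ N) ε₁ δ') c' (n + a'))| ≤ N / Real.log N ^ A) ∧
    (∀ c : ℕ → ℕ → ℝ, (∀ d, CC (zN ε₁ N) D0 X (c d)) → ∀ a ≤ N,
      ∑ n ∈ Iw N, Wt (2 * N) n * Gz (yN κ N) D0 X (SSm N (yN κ N) ε₁ δ') c (n + a) ^ 2 ≤
        N * Real.log N ^ C) := by
  obtain ⟨C0, hC03, H⟩ := offd
  obtain ⟨ε₀, η', hε₀, hη', H⟩ := H θ δ hθ hθ2 hδ
  obtain ⟨N₁, HD⟩ := diagd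
  obtain ⟨C1, hEE⟩ := EE_bound
  obtain ⟨η, hηd⟩ : ∃ η : ℝ, η = min η' (1 / 2) := ⟨_, rfl⟩
  have hη : 0 < η := by rw [hηd]; exact lt_min hη' (by norm_num)
  have hη1 : η ≤ 1 / 2 := by rw [hηd]; exact min_le_right _ _
  have hη2 : η ≤ η' := by rw [hηd]; exact min_le_left _ _
  obtain ⟨δ₀, hδ₀d⟩ : ∃ δ₀ : ℝ, δ₀ = min ε₀ η / 32 := ⟨_, rfl⟩
  have hδ₀ : 0 < δ₀ := by rw [hδ₀d]; have := lt_min hε₀ hη; positivity
  have hδ₀1 : 32 * δ₀ ≤ ε₀ := by rw [hδ₀d]; have := min_le_left ε₀ η; linarith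
  have hδ₀2 : 32 * δ₀ ≤ η := by rw [hδ₀d]; have := min_le_right ε₀ η; linarith
  refine ⟨ε₀, δ₀, hε₀, hδ₀, ?_⟩
  intro δ' hδ' hδ'2 ε₁ hε₁ hε₁2 A
  obtain ⟨Cc, hCc, N₂, H⟩ := H (ε₁ / 2) (by positivity)
  obtain ⟨β, hβ⟩ : ∃ β : ℕ, β = 2 * (A + 3 * C1 + 8) := ⟨_, rfl⟩
  obtain ⟨w, hw⟩ : ∃ w : ℝ, w = 2 * C0 * (β + 1) + 1 := ⟨_, rfl⟩
  have hC0r : (3 : ℝ) ≤ C0 := by exact_mod_cast hC03
  have hw1 : 1 ≤ w := by
    rw [hw]
    have : (0 : ℝ) ≤ 2 * C0 * (β + 1) := by positivity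
    linarith
  refine ⟨min 1 (δ₀ / w), lt_min one_pos (by positivity), min_le_left _ _, ?_⟩
  intro κ hκ hκκ
  have hκ1 : κ ≤ 1 := hκκ.trans (min_le_left _ _)
  have hκw : κ * w ≤ δ₀ := by
    have := hκκ.trans (min_le_right _ _)
    rwa [le_div_iff₀ (by linarith)] at this
  obtain ⟨C3, hC3⟩ : ∃ C3 : ℕ, C3 = ⌈12 / κ⌉₊ := ⟨_, rfl⟩
  refine ⟨2 * C3 + 2 * C1 + 5, ?_⟩
  have hKK0 : (1 : ℝ) ≤ KK C0 := by exact_mod_cast KK_pos C0
  -- asymptotic facts
  have a1 := ev_logN (ev_pow_exp 0 δ₀ (KK C0) hδ₀)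
  have a2 := ev_logN (ev_pow_exp 1 (1 / 3) 2 (by norm_num))
  have a3 := ev_logN (ev_pow_exp (2 * (C1 + 2)) (1 / 2) 1 (by norm_num))
  have a4 := ev_logN (ev_pow_exp A (η / 2) (8 * (1 + Cc)) (by positivity))
  have a5 := ev_logN (ev_pow_exp (2 * C3 + 2 * (C1 + 2) + 1 + A) ε₁ 96 hε₁)
  have a6 := ev_logN (eventually_ge_atTop (8 : ℝ))
  have a7 := ev_logN (Real.tendsto_log_atTop.eventually (eventually_ge_atTop ((C0 : ℝ) + 1)))
  have a8 := ev_logN (Real.tendsto_log_atTop.eventually (eventually_ge_atTop (1 / ε₁ + 1)))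
  have a9 := ev_logN (ev_log_pow 1 (1 / ε₁))
  filter_upwards [hEE, yN_facts κ hκ hκ1 C0 1, zN_facts ε₁ hε₁ (by linarith) 2, logz_pow ε₁ hε₁ (by linarith),
    logy_pow κ hκ hκ1, zN_facts (ε₁ / 2) (by positivity) (by linarith) 2, a1, a2, a3, a4, a5, a6, a7, a8, a9,
    eventually_ge_atTop (max (max N₁ N₂) 3)]
    with N hE hyf hzf hz4 hy4 hzf2 b1 b2 b3 b4 b5 b6 b7 b8 b9 hN
  intro D0 X hD0 hXθ hXD
  have hNN₁ : N₁ ≤ N := ((le_max_left _ _).trans (le_max_left _ _)).trans hN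
  have hNN₂ : N₂ ≤ N := ((le_max_right _ _).trans (le_max_left _ _)).trans hN
  have hN3 : 3 ≤ N := (le_max_right _ _).trans hN
  have hN1 : 1 ≤ N := by omega
  obtain ⟨y1, y2, y3, y4, y5⟩ := hyf
  obtain ⟨z1, z2, z3, z4, z5⟩ := hzf
  set y := yN κ N with hyd
  set z := zN ε₁ N with hzd
  set L := Real.log N with hL
  set l := Real.log L with hl
  set M := 2 * N ^ 2 with hM
  rw [pow_zero, mul_one] at b1
  rw [pow_one] at b2
  rw [one_mul] at b3
  rw [← hC3] at hy4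
  have hL0 : 0 < L := by linarith
  have hL1 : 1 ≤ L := by linarith
  have hl1 : 1 ≤ l := by linarith
  have hl0 : 0 < l := by linarith
  have hN0 : (0 : ℝ) < N := by positivity
  have hN1r : (1 : ℝ) ≤ N := by exact_mod_cast hN1
  have hNe : (N : ℝ) = Real.exp L := by rw [hL, Real.exp_log hN0]
  have hrp : ∀ x : ℝ, (N : ℝ) ^ x = Real.exp (x * L) := by
    intro x
    rw [Real.rpow_def_of_pos hN0, ← hL]
    congr 1
    ring
  have hLpow : ∀ j : ℕ, L ^ j = Real.exp (j * l) := by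
    intro j
    rw [hl, mul_comm, Real.exp_mul, Real.exp_log hL0, Real.rpow_natCast]
  have hLC : ∀ i j : ℕ, i ≤ j → L ^ i ≤ L ^ j := fun i j h => pow_le_pow_right₀ hL1 h
  have hy3 : 3 ≤ y := hC03.trans y5
  have hyz : y ≤ z := by
    have h1 : (y : ℝ) ≤ z := by
      refine y1.trans (le_trans ?_ z1)
      have h2 : κ * L / l ≤ ε₁ * L - 1 := by
        rw [div_le_iff₀ hl0]
        have h3 : 1 ≤ ε₁ * l - ε₁ := by
          have := mul_le_mul_of_nonneg_left b8 hε₁.le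
          rw [mul_add, mul_one_div, div_self hε₁.ne'] at this
          linarith
        have h5 : l ≤ ε₁ * L := by
          rw [pow_one, one_div, inv_mul_le_iff₀ hε₁] at b9
          exact b9
        have h6 := mul_le_mul_of_nonneg_right h3 hL0.le
        have h7 := mul_le_mul_of_nonneg_right hκ1 hL0.le
        have h4 : (ε₁ * L - 1) * l = (ε₁ * l - ε₁) * L + ε₁ * L - l := by ring
        rw [h4]
        linarith
      calc Real.exp (κ * L / l) ≤ Real.exp (ε₁ * L - 1) := Real.exp_le_exp.2 h2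
        _ = Real.exp (ε₁ * L) / Real.exp 1 := Real.exp_sub _ _
        _ ≤ Real.exp (ε₁ * L) / 2 := by
            apply div_le_div_of_nonneg_left (Real.exp_pos _).le (by norm_num)
            have := Real.add_one_le_exp (1 : ℝ)
            linarith
    exact_mod_cast h1
  set D : ℕ := ⌊(N : ℝ) ^ δ'⌋₊ with hD
  have hDle : (D : ℝ) ≤ Real.exp (δ₀ * L) := by
    refine (Nat.floor_le (by positivity)).trans ?_
    rw [hrp]
    exact Real.exp_le_exp.2 (mul_le_mul_of_nonneg_right hδ'2 hL0.le)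
  set SS := SSm N y ε₁ δ' with hSS
  have hSS1 : SS ⊆ SD y D := by
    intro d hd
    exact (mem_SSm.1 hd).1
  have hSS2 : ∀ d ∈ SS, ∀ p : ℕ, p.Prime → p ∣ d → p ≤ z := fun d hd => (mem_SSm.1 hd).2
  have hX2 : (X : ℝ) ≤ Real.exp (5 / 9 * L) := by
    refine hXθ.trans ?_
    rw [hrp]
    exact Real.exp_le_exp.2 (mul_le_mul_of_nonneg_right hθ2.le hL0.le)
  have hXN : X ≤ N := by
    have : (X : ℝ) ≤ N := by
      refine hX2.trans ?_
      rw [hNe]
      apply Real.exp_le_exp.2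
      linarith
    exact_mod_cast this
  have hlog2 := log_2N hN1 hL1
  rw [← hL] at hlog2
  have hlog20 : 0 ≤ Real.log ((2 * N : ℕ) : ℝ) := Real.log_natCast_nonneg _
  have hXl : (X : ℝ) * Real.log ((2 * N : ℕ) : ℝ) ≤ ((2 * N : ℕ) : ℝ) := by
    calc (X : ℝ) * Real.log ((2 * N : ℕ) : ℝ) ≤ Real.exp (5 / 9 * L) * Real.exp (1 / 3 * L) := by
          apply mul_le_mul hX2 (hlog2.trans b2) hlog20 (Real.exp_pos _).le
      _ = Real.exp (8 / 9 * L) := by rw [← Real.exp_add]; congr 1; ring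
      _ ≤ N := by rw [hNe]; apply Real.exp_le_exp.2; linarith
      _ ≤ _ := by push_cast; linarith
  -- sup bounds
  have hEX := hE z X hXN
  have hB1 : B1 z X M ≤ L ^ (C1 + 2) := by
    unfold B1
    have t1 : L ≤ L ^ (C1 + 1) := by
      calc L = L ^ 1 := (pow_one _).symm
        _ ≤ _ := hLC _ _ (by omega)
    have t2 : L ^ C1 ≤ L ^ (C1 + 1) := hLC _ _ (by omega)
    have t3 : L ^ (C1 + 2) = L * L ^ (C1 + 1) := by ring
    have t4 : 0 < L ^ (C1 + 1) := by positivity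
    rw [t3]
    have t5 := mul_le_mul_of_nonneg_right (by linarith : (2 : ℝ) ≤ L) t4.le
    linarith
  have hB2 : B2 z X M ≤ L ^ (C1 + 2) := by
    unfold B2
    have t1 : L ≤ L ^ (C1 + 1) := by
      calc L = L ^ 1 := (pow_one _).symm
        _ ≤ _ := hLC _ _ (by omega)
    have t2 : L ^ C1 ≤ L ^ (C1 + 1) := hLC _ _ (by omega)
    have t3 : L ^ (C1 + 2) = L * L ^ (C1 + 1) := by ring
    have t4 : 0 < L ^ (C1 + 1) := by positivity
    rw [t3]
    have t5 := mul_le_mul_of_nonneg_right (by linarith : (4 : ℝ) ≤ L) t4.le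
    linarith
  have hB10 := B1_pos z X M
  have hB20 := B2_pos z X M
  constructor
  · intro c c' hc hc' hF a ha a' ha' haa
    set b := ⌈(β : ℝ) * l⌉₊ with hb
    have hb1 : (β : ℝ) * l ≤ b := Nat.le_ceil _
    have hb2 : (b : ℝ) ≤ (β + 1) * l := by
      have := (Nat.ceil_lt_add_one (by positivity : (0 : ℝ) ≤ β * l)).le
      linarith
    have hβ1 : (1 : ℝ) ≤ β := by
      have : 1 ≤ β := by omega
      exact_mod_cast this
    have hbC : C0 ≤ b := by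
      have : (C0 : ℝ) ≤ b := by
        have h1 : l ≤ β * l := le_mul_of_one_le_left hl0.le hβ1
        linarith
      exact_mod_cast this
    set J := JJ y with hJ
    set Y : ℕ := (2 ^ 2 ^ J) ^ (C0 * b) with hY
    have hYle : (Y : ℝ) ≤ Real.exp (δ₀ * L) := by
      have h1 : Y ≤ (y ^ 2) ^ (C0 * b) := Nat.pow_le_pow_left (JJ_le y (by omega)) _
      have h2 : (Y : ℝ) ≤ (y : ℝ) ^ (2 * (C0 * b)) := by
        rw [pow_mul]
        exact_mod_cast h1
      refine h2.trans ?_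
      calc (y : ℝ) ^ (2 * (C0 * b)) ≤ Real.exp (κ * L / l) ^ (2 * (C0 * b)) :=
            pow_le_pow_left₀ (Nat.cast_nonneg _) y1 _
        _ = Real.exp (((2 * (C0 * b) : ℕ) : ℝ) * (κ * L / l)) := by rw [← Real.exp_nat_mul]
        _ ≤ Real.exp (δ₀ * L) := by
            apply Real.exp_le_exp.2
            rw [mul_div_assoc', div_le_iff₀ hl0]
            have g3 : ((2 * (C0 * b) : ℕ) : ℝ) ≤ w * l := by
              push_cast
              rw [hw]
              have g4 := mul_le_mul_of_nonneg_left hb2 (by positivity : (0 : ℝ) ≤ 2 * C0)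
              have g5 : (2 * (C0 : ℝ) * (β + 1) + 1) * l = 2 * C0 * ((β + 1) * l) + l := by ring
              rw [g5]
              linarith
            calc ((2 * (C0 * b) : ℕ) : ℝ) * (κ * L) ≤ w * l * (κ * L) :=
                  mul_le_mul_of_nonneg_right g3 (by positivity)
              _ = κ * w * (L * l) := by ring
              _ ≤ δ₀ * (L * l) := mul_le_mul_of_nonneg_right hκw (by positivity)
              _ = δ₀ * L * l := by ring
    have hyle : (y : ℝ) ≤ Real.exp (δ₀ * L) := by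
      refine y1.trans ?_
      apply Real.exp_le_exp.2
      have h1 : κ ≤ δ₀ := (le_mul_of_one_le_right hκ.le hw1).trans hκw
      calc κ * L / l ≤ κ * L := div_le_self (by positivity) hl1
        _ ≤ δ₀ * L := mul_le_mul_of_nonneg_right h1 hL0.le
    set Qm : ℕ := KK C0 * D ^ 2 * Y with hQm
    have hQle : (Qm : ℝ) ≤ Real.exp (4 * δ₀ * L) := by
      rw [hQm]
      push_cast
      calc (KK C0 : ℝ) * (D : ℝ) ^ 2 * (Y : ℝ) ≤ Real.exp (δ₀ * L) * Real.exp (δ₀ * L) ^ 2 * Real.exp (δ₀ * L) := by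
            gcongr
        _ = Real.exp (4 * δ₀ * L) := by
            rw [← Real.exp_nat_mul, ← Real.exp_add, ← Real.exp_add]
            congr 1
            push_cast
            ring
    have hQ1 : (Qm : ℝ) ≤ ((2 * N : ℕ) : ℝ) ^ ε₀ := by
      refine hQle.trans ?_
      calc Real.exp (4 * δ₀ * L) ≤ Real.exp (ε₀ * L) :=
            Real.exp_le_exp.2 (mul_le_mul_of_nonneg_right (by linarith) hL0.le)
        _ = (N : ℝ) ^ ε₀ := (hrp _).symm
        _ ≤ _ := by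
            apply Real.rpow_le_rpow hN0.le _ hε₀.le
            push_cast
            linarith
    have hQ2 : (Qm : ℝ) * Real.log ((2 * N : ℕ) : ℝ) ≤ ((2 * N : ℕ) : ℝ) := by
      calc (Qm : ℝ) * Real.log ((2 * N : ℕ) : ℝ) ≤ Real.exp (4 * δ₀ * L) * Real.exp (1 / 3 * L) := by
            apply mul_le_mul hQle (hlog2.trans b2) hlog20 (Real.exp_pos _).le
        _ = Real.exp ((4 * δ₀ + 1 / 3) * L) := by rw [← Real.exp_add]; congr 1; ring
        _ ≤ N := by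
            rw [hNe]; apply Real.exp_le_exp.2
            have := mul_le_mul_of_nonneg_right (by linarith : 4 * δ₀ + 1 / 3 ≤ 1) hL0.le
            linarith
        _ ≤ _ := by push_cast; linarith
    have hXD' : (X : ℝ) ≤ ((2 * N : ℕ) : ℝ) ^ ε₀ * D0 := by
      refine hXD.trans ?_
      apply mul_le_mul_of_nonneg_right _ (Nat.cast_nonneg _)
      apply Real.rpow_le_rpow hN0.le _ hε₀.le
      push_cast
      linarith
    have hXθ' : (X : ℝ) ≤ ((2 * N : ℕ) : ℝ) ^ θ := by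
      refine hXθ.trans ?_
      apply Real.rpow_le_rpow hN0.le _ hθ.le
      push_cast
      linarith
    have key := H N hNN₂ b J Y y z D hbC y5 hyz (JJ_lt y).le le_rfl z3 SS hSS1 hSS2 hQ1 hQ2 D0 X hXθ' hXN hXl
      hD0 hXD' a a' ha ha' haa c c' hc hc' hF
    refine key.trans ?_
    -- the three terms
    have hhalf : (1 / 2 : ℝ) ^ b ≤ 1 / L ^ (A + 3 * C1 + 8) := by
      have g0 : 1 / L ^ (A + 3 * C1 + 8) = Real.exp (-(((A + 3 * C1 + 8 : ℕ) : ℝ) * l)) := by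
        rw [hLpow, Real.exp_neg, one_div]
      have g1 : (1 / 2 : ℝ) ^ b = Real.exp (-(Real.log 2 * b)) := by
        rw [Real.exp_neg, Real.exp_mul, Real.exp_log (by norm_num), Real.rpow_natCast, one_div,
          inv_pow]
      rw [g0, g1]
      apply Real.exp_le_exp.2
      have g2 : 1 / 2 ≤ Real.log 2 := by have := Real.log_two_gt_d9; linarith
      have g3 : (1 / 2 : ℝ) * b ≤ Real.log 2 * b := mul_le_mul_of_nonneg_right g2 (Nat.cast_nonneg _)
      have g4 : ((A + 3 * C1 + 8 : ℕ) : ℝ) * l = 1 / 2 * (β * l) := by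
        rw [hβ]; push_cast; ring
      rw [g4]
      linarith
    have hD2N : D ^ 2 ≤ N := by
      have : (D : ℝ) ^ 2 ≤ N := by
        calc (D : ℝ) ^ 2 ≤ Real.exp (δ₀ * L) ^ 2 := pow_le_pow_left₀ (Nat.cast_nonneg _) hDle 2
          _ = Real.exp (2 * δ₀ * L) := by
              rw [← Real.exp_nat_mul]; congr 1; push_cast; ring
          _ ≤ N := by
              rw [hNe]; apply Real.exp_le_exp.2
              have := mul_le_mul_of_nonneg_right (by linarith : 2 * δ₀ ≤ 1) hL0.le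
              linarith
      exact_mod_cast this
    have hED := hE y (D ^ 2) hD2N
    have hE0 := (EE_pos y (D ^ 2)).le
    have hBsq : B1 z X M ^ 2 ≤ L ^ (2 * (C1 + 2)) := by
      calc B1 z X M ^ 2 ≤ (L ^ (C1 + 2)) ^ 2 := pow_le_pow_left₀ hB10.le hB1 2
        _ = _ := by rw [← pow_mul, mul_comm]
    have hB2sq : B2 z X M ^ 2 ≤ L ^ (2 * (C1 + 2)) := by
      calc B2 z X M ^ 2 ≤ (L ^ (C1 + 2)) ^ 2 := pow_le_pow_left₀ hB20.le hB2 2
        _ = _ := by rw [← pow_mul, mul_comm]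
    have T1 : (1 / 2 : ℝ) ^ b * (B1 z X M ^ 2 * (2 * N * EE y (D ^ 2))) ≤ N / (4 * L ^ A) := by
      calc (1 / 2 : ℝ) ^ b * (B1 z X M ^ 2 * (2 * N * EE y (D ^ 2)))
          ≤ 1 / L ^ (A + 3 * C1 + 8) * (L ^ (2 * (C1 + 2)) * (2 * N * L ^ C1)) := by
            gcongr
        _ = (2 / L ^ 4) * (N / L ^ A) := by
            have e1 : L ^ (A + 3 * C1 + 8) = L ^ (2 * (C1 + 2)) * L ^ C1 * L ^ 4 * L ^ A := by ring
            rw [e1]
            field_simp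
        _ ≤ (1 / 4) * (N / L ^ A) := by
            apply mul_le_mul_of_nonneg_right _ (by positivity)
            rw [div_le_div_iff₀ (by positivity) (by norm_num)]
            have : L ^ 1 ≤ L ^ 4 := hLC 1 4 (by norm_num)
            rw [pow_one] at this
            linarith
        _ = N / (4 * L ^ A) := by field_simp
    have T2 : (D : ℝ) ^ 2 * (((J : ℝ) + 2) * (Y * ((Qm : ℝ) * (B1 z X M ^ 2 + Cc * (N : ℝ) ^ (1 - η'))))) ≤
        N / (4 * L ^ A) := by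
      have g1 : ((J : ℝ) + 2) ≤ 2 * y := by exact_mod_cast JJ_small y hy3
      have g2 : B1 z X M ^ 2 ≤ Real.exp ((1 - η) * L) := by
        refine hBsq.trans (b3.trans ?_)
        exact Real.exp_le_exp.2 (mul_le_mul_of_nonneg_right (by linarith) hL0.le)
      have g3 : (N : ℝ) ^ (1 - η') ≤ Real.exp ((1 - η) * L) := by
        rw [hrp]
        exact Real.exp_le_exp.2 (mul_le_mul_of_nonneg_right (by linarith) hL0.le)
      have g4 : B1 z X M ^ 2 + Cc * (N : ℝ) ^ (1 - η') ≤ (1 + Cc) * Real.exp ((1 - η) * L) := by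
        have := mul_le_mul_of_nonneg_left g3 hCc.le
        linarith
      have g5 : 0 ≤ B1 z X M ^ 2 + Cc * (N : ℝ) ^ (1 - η') := by positivity
      calc (D : ℝ) ^ 2 * (((J : ℝ) + 2) * (Y * ((Qm : ℝ) * (B1 z X M ^ 2 + Cc * (N : ℝ) ^ (1 - η')))))
          ≤ Real.exp (δ₀ * L) ^ 2 * ((2 * Real.exp (δ₀ * L)) * (Real.exp (δ₀ * L) * (Real.exp (4 * δ₀ * L) *
              ((1 + Cc) * Real.exp ((1 - η) * L))))) := by
            gcongr
            linarith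
        _ = 2 * (1 + Cc) * Real.exp ((8 * δ₀ + (1 - η)) * L) := by
            have e1 : Real.exp ((8 * δ₀ + (1 - η)) * L) = Real.exp (δ₀ * L) ^ 2 * Real.exp (δ₀ * L) *
                Real.exp (δ₀ * L) * Real.exp (4 * δ₀ * L) * Real.exp ((1 - η) * L) := by
              rw [← Real.exp_nat_mul, ← Real.exp_add, ← Real.exp_add, ← Real.exp_add, ← Real.exp_add]
              congr 1
              push_cast
              ring
            rw [e1]
            ring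
        _ ≤ 2 * (1 + Cc) * (N / Real.exp (η / 2 * L)) := by
            apply mul_le_mul_of_nonneg_left _ (by positivity)
            rw [hNe, ← Real.exp_sub]
            apply Real.exp_le_exp.2
            have := mul_le_mul_of_nonneg_right (by linarith : 8 * δ₀ ≤ η / 4) hL0.le
            have h9 : 0 ≤ η * L := by positivity
            linarith
        _ = (8 * (1 + Cc) * L ^ A) / Real.exp (η / 2 * L) * (N / (4 * L ^ A)) := by
            field_simp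
            ring
        _ ≤ 1 * (N / (4 * L ^ A)) := by
            apply mul_le_mul_of_nonneg_right _ (by positivity)
            rw [div_le_one (Real.exp_pos _)]
            exact b4
        _ = _ := one_mul _
    have T3 : (4 ^ Nat.log y M) ^ 2 * (B2 z X M ^ 2 * (Nat.log z N * (2 * (N : ℝ) / z + 1) + 9 * (N : ℝ) / z)) ≤
        N / (4 * L ^ A) := by
      have hz0 : (0 : ℝ) < z := lt_of_lt_of_le (by have := Real.exp_pos (ε₁ * L); positivity) z1
      have g1 : (1 : ℝ) ≤ N / z := by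
        rw [le_div_iff₀ hz0, one_mul]
        exact_mod_cast z5
      have g2 : (Nat.log z N : ℝ) ≤ L := by
        have h1 : (Nat.log z N : ℝ) ≤ 4 ^ Nat.log z N := by
          have : Nat.log z N < 4 ^ Nat.log z N := Nat.lt_pow_self (by norm_num)
          exact_mod_cast this.le
        have h2 : (4 : ℝ) ^ Nat.log z N ≤ 4 ^ Nat.log z M := by
          apply pow_le_pow_right₀ (by norm_num)
          apply Nat.log_mono_right
          exact N_le_2sq N
        linarith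
      have g3 : Nat.log z N * (2 * (N : ℝ) / z + 1) + 9 * (N : ℝ) / z ≤ 12 * L * (N / z) := by
        have a1 : Nat.log z N * (2 * (N : ℝ) / z + 1) ≤ L * (3 * (N / z)) := by
          apply mul_le_mul g2 _ (by positivity) hL0.le
          have : 2 * (N : ℝ) / z = 2 * (N / z) := by ring
          rw [this]
          linarith
        have a3 : 9 * (N : ℝ) / z = 9 * (N / z) := by ring
        rw [a3]
        have a4 := mul_le_mul_of_nonneg_right hL1 (by positivity : (0 : ℝ) ≤ 9 * (N / z))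
        linarith
      have g4 : (N : ℝ) / z ≤ 2 * N / Real.exp (ε₁ * L) := by
        rw [div_le_div_iff₀ hz0 (Real.exp_pos _)]
        have := mul_le_mul_of_nonneg_left z1 hN0.le
        linarith
      have g5 : ((4 : ℝ) ^ Nat.log y M) ^ 2 ≤ L ^ (2 * C3) := by
        calc ((4 : ℝ) ^ Nat.log y M) ^ 2 ≤ (L ^ C3) ^ 2 := pow_le_pow_left₀ (by positivity) hy4 2
          _ = _ := by rw [← pow_mul, mul_comm]
      calc _ ≤ L ^ (2 * C3) * (L ^ (2 * (C1 + 2)) * (12 * L * (2 * N / Real.exp (ε₁ * L)))) := by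
            gcongr
            exact g3.trans (mul_le_mul_of_nonneg_left g4 (by positivity))
        _ = (96 * L ^ (2 * C3 + 2 * (C1 + 2) + 1 + A)) / Real.exp (ε₁ * L) * (N / (4 * L ^ A)) := by
            rw [pow_add, pow_add, pow_add, pow_one]
            field_simp
            ring
        _ ≤ 1 * (N / (4 * L ^ A)) := by
            apply mul_le_mul_of_nonneg_right _ (by positivity)
            rw [div_le_one (Real.exp_pos _)]
            exact b5
        _ = _ := one_mul _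
    have e' : (N : ℝ) / L ^ A = N / (4 * L ^ A) + N / (4 * L ^ A) + N / (4 * L ^ A) + N / (4 * L ^ A) := by
      field_simp; ring
    rw [e']
    have hpos : 0 ≤ (N : ℝ) / (4 * L ^ A) := by positivity
    linarith
  · intro c hc a ha
    refine (HD N hNN₁ y z D D0 X SS hSS1 hy3 z2 c hc a ha).trans ?_
    have h1 : (4 : ℝ) ^ Nat.log y M * B1 z X M ≤ L ^ C3 * L ^ (C1 + 2) :=
      mul_le_mul hy4 hB1 hB10.le (by positivity)
    calc (2 * (N : ℝ) + 1) * (4 ^ Nat.log y M * B1 z X M) ^ 2 ≤ (3 * N) * (L ^ C3 * L ^ (C1 + 2)) ^ 2 := by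
          have := B1_pos z X M
          gcongr
          linarith
      _ = N * (3 * L ^ (2 * C3 + 2 * C1 + 4)) := by ring
      _ ≤ N * (L * L ^ (2 * C3 + 2 * C1 + 4)) := by
          apply mul_le_mul_of_nonneg_left _ hN0.le
          apply mul_le_mul_of_nonneg_right _ (by positivity)
          linarith
      _ = _ := by ring

end Pool.Agent.Y822.Par3
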