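import Mathlib
import Pool.Agent.Y822.Par3

/-! Few shifts have a large discrepancy over the rough factorable moduli times the smooth moduli. -/

set_option autoImplicit false

namespace Pool.Agent.Y822.QF

open Finset Filter
open Pool.Agent.H442R2
open Pool.Agent.H442R2.KF (Wt)
open Pool.Agent.W23.DC (FacO facR tt)
open Pool.Agent.Y822.Win Pool.Agent.Y822.Cop Pool.Agent.Y822.Nc Pool.Agent.Y822.Par3

/-- the discrepancy over the smooth moduli and the moduli `TT` -/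
noncomputable def ZZ (y N : ℕ) (SS TT : Finset ℕ) (f : ℕ → ℝ) (a : ℕ) : ℝ :=
  ∑ d ∈ SS, ∑ e ∈ TT, |∑ n ∈ Icc 1 N, f n * (rz y ((n : ℤ) + a) * (i1 d ((n : ℤ) + a) * BX.dl e ((n : ℤ) + a)))|

lemma ZZ_nonneg (y N : ℕ) (SS TT : Finset ℕ) (f : ℕ → ℝ) (a : ℕ) : 0 ≤ ZZ y N SS TT f a :=
  sum_nonneg fun _ _ => sum_nonneg fun _ _ => abs_nonneg _

/-- one block -/
theorem QB (θ δ : ℝ) (hθ : 0 < θ) (hθ2 : θ < 5 / 9) (hδ : 0 < δ) : ∃ ε₀ δ₀ : ℝ, 0 < ε₀ ∧ 0 < δ₀ ∧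
    ∀ δ' : ℝ, 0 < δ' → δ' ≤ δ₀ → ∀ ε₁ : ℝ, 0 < ε₁ → ε₁ ≤ 1 / 2 → ∀ U : ℕ, ∃ κ₀ : ℝ, 0 < κ₀ ∧ κ₀ ≤ 1 ∧
    ∀ κ : ℝ, 0 < κ → κ ≤ κ₀ → ∃ C : ℕ, ∀ᶠ N : ℕ in atTop, ∀ D0 X : ℕ, 1 ≤ D0 → (X : ℝ) ≤ (N : ℝ) ^ θ →
    (X : ℝ) ≤ (N : ℝ) ^ ε₀ * D0 → ∀ f : ℕ → ℝ, (∀ n, |f n| ≤ 1) → ∀ TT : Finset ℕ,
    (∀ e ∈ TT, D0 < e ∧ e ≤ X ∧ Squarefree e ∧ Ro (zN ε₁ N) e ∧ (θ ≤ 51 / 100 ∨ FX.FacD (2 * N) θ δ e)) →
    ∀ S : Finset ℕ, (∀ a ∈ S, a ≤ N ∧
      (N : ℝ) / Real.log N ^ U < ZZ (yN κ N) N (SSm N (yN κ N) ε₁ δ') TT f a) →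
    (S.card : ℝ) ≤ Real.log N ^ C := by
  classical
  obtain ⟨ε₀, δ₀, hε₀, hδ₀, H⟩ := OFF θ δ hθ hθ2 hδ
  refine ⟨ε₀, δ₀, hε₀, hδ₀, ?_⟩
  intro δ' hδ' hδ'2 ε₁ hε₁ hε₁2 U
  obtain ⟨κ₀, hκ₀, hκ₀1, H⟩ := H δ' hδ' hδ'2 ε₁ hε₁ hε₁2 (2 * U + 2)
  refine ⟨κ₀, hκ₀, hκ₀1, ?_⟩
  intro κ hκ hκκ
  obtain ⟨C, H⟩ := H κ hκ hκκ
  refine ⟨C + 2 * U + 1, ?_⟩
  filter_upwards [H, ev_logN (eventually_ge_atTop (6 : ℝ)), eventually_ge_atTop 1] with N H hL hN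
  intro D0 X hD0 hX hXD f hf TT hTT S hS
  obtain ⟨Hoff, Hdiag⟩ := H D0 X hD0 hX hXD
  set y := yN κ N
  set L := Real.log N
  set SS := SSm N y ε₁ δ'
  have hL0 : 0 < L := by linarith
  have hN0 : (0 : ℝ) < N := by exact_mod_cast hN
  -- the coefficients
  set Xe : ℕ → ℕ → ℕ → ℝ := fun a d e => ∑ n ∈ Icc 1 N, f n *
    (rz y ((n : ℤ) + a) * (i1 d ((n : ℤ) + a) * BX.dl e ((n : ℤ) + a))) with hXe
  set c : ℕ → ℕ → ℕ → ℝ := fun a d e => if e ∈ TT then (if 0 ≤ Xe a d e then 1 else -1) else 0 with hc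
  have hcX : ∀ a d, ∀ e ∈ TT, c a d e * Xe a d e = |Xe a d e| := by
    intro a d e he
    rw [hc]
    simp only [if_pos he]
    split_ifs with h
    · rw [one_mul, abs_of_nonneg h]
    · rw [abs_of_neg (not_le.1 h)]; ring
  have hcne : ∀ a d e, c a d e ≠ 0 → e ∈ TT := by
    intro a d e h
    by_contra h2
    apply h
    rw [hc]
    simp only [if_neg h2]
  have hCC : ∀ a d, CC (zN ε₁ N) D0 X (c a d) := by
    intro a d
    constructor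
    · intro e
      rw [hc]
      simp only
      split_ifs <;> norm_num
    · intro e he
      obtain ⟨h1, h2, h3, h4, _⟩ := hTT e (hcne a d e he)
      exact ⟨h1, h2, h3, h4⟩
  have hFc : ∀ a a' d d', Pool.Agent.W23.PL.Fc (2 * N) θ δ (c a d) (c a' d') := by
    intro a a' d d'
    unfold Pool.Agent.W23.PL.Fc
    by_cases h : θ ≤ 51 / 100
    · exact Or.inl h
    · refine Or.inr ⟨fun e he => ?_, fun e he => ?_⟩
      · exact (hTT e (hcne a d e he)).2.2.2.2.resolve_left h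
      · exact (hTT e (hcne a' d' e he)).2.2.2.2.resolve_left h
  have hsum : ∀ a, ∑ n ∈ Icc 1 N, f n * Gz y D0 X SS (c a) ((n : ℤ) + a) = ZZ y N SS TT f a := by
    intro a
    unfold ZZ
    have e1 : ∀ n ∈ Icc 1 N, f n * Gz y D0 X SS (c a) ((n : ℤ) + a) = ∑ d ∈ SS, ∑ e ∈ TT, c a d e *
        (f n * (rz y ((n : ℤ) + a) * (i1 d ((n : ℤ) + a) * BX.dl e ((n : ℤ) + a)))) := by
      intro n _
      unfold Gz Rd
      rw [← mul_assoc, mul_sum]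
      refine sum_congr rfl fun d _ => ?_
      have e2 : ∑ e ∈ Ioc D0 X, c a d e * BX.dl e ((n : ℤ) + a) = ∑ e ∈ TT, c a d e * BX.dl e ((n : ℤ) + a) := by
        symm
        refine sum_subset ?_ ?_
        · intro e he
          obtain ⟨h1, h2, _⟩ := hTT e he
          rw [mem_Ioc]
          exact ⟨h1, h2⟩
        · intro e _ he
          have : c a d e = 0 := by
            by_contra h
            exact he (hcne a d e h)
          rw [this, zero_mul]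
      rw [e2, mul_sum, mul_sum]
      refine sum_congr rfl fun e _ => ?_
      ring
    rw [sum_congr rfl e1, sum_comm]
    refine sum_congr rfl fun d _ => ?_
    rw [sum_comm]
    refine sum_congr rfl fun e he => ?_
    rw [← mul_sum]
    exact hcX a d e he
  have hη0 : (0 : ℝ) < 1 / L ^ U := by positivity
  have key := dualW (G := fun a n => Gz y D0 X SS (c a) (n + a)) (DG := N * L ^ C)
    (OG := N / L ^ (2 * U + 2)) (η := 1 / L ^ U) hN hη0 (by positivity) (by positivity) S f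
    (fun n _ => hf n) (fun a ha => Hdiag (c a) (hCC a) a (hS a ha).1)
    (fun a ha a' ha' haa => Hoff (c a) (c a') (hCC a) (hCC a') (hFc a a') a (hS a ha).1 a' (hS a' ha').1 haa)
    (fun a ha => by
      rw [hsum a, abs_of_nonneg (ZZ_nonneg _ _ _ _ _ _)]
      refine lt_of_eq_of_lt ?_ (hS a ha).2
      ring) (by
      have e1 : L ^ (2 * U + 2) = L ^ U * L ^ U * (L * L) := by ring
      rw [e1, one_div, inv_pow]
      have h1 : 6 ≤ L * L := by nlinarith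
      have h2 : (0 : ℝ) < L ^ U := by positivity
      rw [mul_div_assoc', inv_mul_eq_div, div_div, div_le_div_iff₀ (by positivity) (by positivity)]
      have h3 : (0 : ℝ) < N * (L ^ U * L ^ U) := by positivity
      nlinarith)
  refine key.trans ?_
  have e2 : 6 * (N * L ^ C) / ((1 / L ^ U) ^ 2 * N) = 6 * (L ^ (C + 2 * U)) := by
    have h2 : (L ^ U) ≠ 0 := by positivity
    rw [pow_add, pow_mul']
    field_simp
  rw [e2, pow_succ (L) (C + 2 * U), mul_comm]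
  exact mul_le_mul_of_nonneg_left hL (by positivity)

/-- few shifts have a large discrepancy, for the moduli with the property `P` -/
def QF (P : ℕ → ℕ → Prop) : Prop := ∃ δ₀ : ℝ, 0 < δ₀ ∧ ∀ δ' : ℝ, 0 < δ' → δ' ≤ δ₀ → ∀ ε₁ : ℝ,
    0 < ε₁ → ε₁ ≤ 1 / 2 → ∀ U : ℕ, ∃ κ₀ : ℝ, 0 < κ₀ ∧ κ₀ ≤ 1 ∧ ∀ κ : ℝ, 0 < κ → κ ≤ κ₀ → ∃ C : ℕ,
    ∀ᶠ N : ℕ in atTop, ∀ f : ℕ → ℝ, (∀ n, |f n| ≤ 1) → ∀ TT : Finset ℕ,
    (∀ e ∈ TT, P N e ∧ 1 < e ∧ Squarefree e ∧ Ro (zN ε₁ N) e) → ∀ S : Finset ℕ, (∀ a ∈ S, a ≤ N ∧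
      (N : ℝ) / Real.log N ^ U < ZZ (yN κ N) N (SSm N (yN κ N) ε₁ δ') TT f a) →
    (S.card : ℝ) ≤ Real.log N ^ C

theorem QF_mono {P P' : ℕ → ℕ → Prop} (h : ∀ᶠ N : ℕ in atTop, ∀ d, P' N d → P N d) (hP : QF P) : QF P' := by
  obtain ⟨δ₀, hδ₀, H⟩ := hP
  refine ⟨δ₀, hδ₀, fun δ' hδ' hδ'2 ε₁ hε₁ hε₁2 U => ?_⟩
  obtain ⟨κ₀, hκ₀, hκ₀1, H⟩ := H δ' hδ' hδ'2 ε₁ hε₁ hε₁2 U
  refine ⟨κ₀, hκ₀, hκ₀1, fun κ hκ hκκ => ?_⟩
  obtain ⟨C, H⟩ := H κ hκ hκκ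
  refine ⟨C, ?_⟩
  filter_upwards [H, h] with N H h f hf TT hTT
  exact H f hf TT fun e he => ⟨h e (hTT e he).1, (hTT e he).2⟩

theorem QF_or {P P' : ℕ → ℕ → Prop} (hP : QF P) (hP' : QF P') : QF (fun N d => P N d ∨ P' N d) := by
  classical
  obtain ⟨δ₀, hδ₀, H⟩ := hP
  obtain ⟨δ₁, hδ₁, H'⟩ := hP'
  refine ⟨min δ₀ δ₁, lt_min hδ₀ hδ₁, fun δ' hδ' hδ'2 ε₁ hε₁ hε₁2 U => ?_⟩
  obtain ⟨κ₀, hκ₀, hκ₀1, H⟩ := H δ' hδ' (hδ'2.trans (min_le_left _ _)) ε₁ hε₁ hε₁2 (U + 1)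
  obtain ⟨κ₁, hκ₁, hκ₁1, H'⟩ := H' δ' hδ' (hδ'2.trans (min_le_right _ _)) ε₁ hε₁ hε₁2 (U + 1)
  refine ⟨min κ₀ κ₁, lt_min hκ₀ hκ₁, (min_le_left _ _).trans hκ₀1, fun κ hκ hκκ => ?_⟩
  obtain ⟨C, H⟩ := H κ hκ (hκκ.trans (min_le_left _ _))
  obtain ⟨C', H'⟩ := H' κ hκ (hκκ.trans (min_le_right _ _))
  refine ⟨max C C' + 1, ?_⟩
  filter_upwards [H, H', ev_logN (eventually_ge_atTop (2 : ℝ)), eventually_ge_atTop 1] with N H H' hL hN f hf TT hTT S hS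
  set y := yN κ N
  set L := Real.log N
  set SS := SSm N y ε₁ δ'
  have hL0 : 0 < L := by linarith
  have hL1 : 1 ≤ L := by linarith
  have hN0 : (0 : ℝ) < N := by exact_mod_cast hN
  set T1 := TT.filter (fun e => P N e)
  set T2 := TT.filter (fun e => ¬ P N e)
  set S1 := S.filter (fun a => (N : ℝ) / L ^ (U + 1) < ZZ y N SS T1 f a)
  set S2 := S.filter (fun a => (N : ℝ) / L ^ (U + 1) < ZZ y N SS T2 f a)
  have h1 := H f hf T1 (fun e he => by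
    rw [mem_filter] at he
    exact ⟨he.2, (hTT e he.1).2⟩) S1 (fun a ha => by
    rw [mem_filter] at ha
    exact ⟨(hS a ha.1).1, ha.2⟩)
  have h2 := H' f hf T2 (fun e he => by
    rw [mem_filter] at he
    exact ⟨(hTT e he.1).1.resolve_left he.2, (hTT e he.1).2⟩) S2 (fun a ha => by
    rw [mem_filter] at ha
    exact ⟨(hS a ha.1).1, ha.2⟩)
  have hcov : S ⊆ S1 ∪ S2 := by
    intro a ha
    rw [mem_union, mem_filter, mem_filter]
    by_contra hn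
    push Not at hn
    have g1 := hn.1 ha
    have g2 := hn.2 ha
    have g3 := (hS a ha).2
    have g4 : ZZ y N SS TT f a = ZZ y N SS T1 f a + ZZ y N SS T2 f a := by
      unfold ZZ
      rw [← sum_add_distrib]
      refine sum_congr rfl fun d _ => ?_
      exact (sum_filter_add_sum_filter_not TT (fun e => P N e) _).symm
    have g5 : (N : ℝ) / L ^ (U + 1) + N / L ^ (U + 1) ≤ N / L ^ U := by
      rw [pow_succ, ← add_div, div_le_div_iff₀ (by positivity) (by positivity)]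
      have : 0 < (N : ℝ) * L ^ U := by positivity
      nlinarith
    linarith
  have h3 : (S.card : ℝ) ≤ S1.card + S2.card := by
    exact_mod_cast (card_le_card hcov).trans (card_union_le _ _)
  have h4 : L ^ C ≤ L ^ max C C' := pow_le_pow_right₀ hL1 (le_max_left _ _)
  have h5 : L ^ C' ≤ L ^ max C C' := pow_le_pow_right₀ hL1 (le_max_right _ _)
  have h6 : 0 < L ^ max C C' := by positivity
  rw [pow_succ]
  nlinarith

/-- one window -/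
theorem QF_fac (θ δ : ℝ) (hθ : 0 < θ) (hθ2 : θ < 5 / 9) (hδ : 0 < δ) :
    QF (fun N e => (e : ℝ) ≤ (N : ℝ) ^ θ ∧ (θ ≤ 51 / 100 ∨ FX.FacD (2 * N) θ δ e)) := by
  classical
  obtain ⟨ε₀, δ₀, hε₀, hδ₀, H⟩ := QB θ δ hθ hθ2 hδ
  obtain ⟨εb, hεbd⟩ : ∃ εb : ℝ, εb = ε₀ / 2 := ⟨_, rfl⟩
  have hεb : 0 < εb := by rw [hεbd]; positivity
  obtain ⟨I, hId⟩ : ∃ I : ℕ, I = ⌈θ / εb⌉₊ := ⟨_, rfl⟩
  have hI : θ ≤ (I : ℝ) * εb := by
    have h : θ / εb ≤ (I : ℝ) := by rw [hId]; exact Nat.le_ceil _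
    rwa [div_le_iff₀ hεb] at h
  refine ⟨δ₀, hδ₀, fun δ' hδ' hδ'2 ε₁ hε₁ hε₁2 U => ?_⟩
  obtain ⟨κ₀, hκ₀, hκ₀1, H⟩ := H δ' hδ' hδ'2 ε₁ hε₁ hε₁2 (U + 1)
  refine ⟨κ₀, hκ₀, hκ₀1, fun κ hκ hκκ => ?_⟩
  obtain ⟨C, H⟩ := H κ hκ hκκ
  refine ⟨C + 1, ?_⟩
  filter_upwards [H, ev_logN (eventually_ge_atTop (max (I : ℝ) 2)), ev_logN (ev_pow_exp 0 εb 2 hεb),
    eventually_ge_atTop 1] with N H hL hexp hN f hf TT hTT S hS
  have hLI : (I : ℝ) ≤ Real.log N := (le_max_left _ _).trans hL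
  have hL2 : (2 : ℝ) ≤ Real.log N := (le_max_right _ _).trans hL
  set y := yN κ N
  set L := Real.log N with hLd
  set SS := SSm N y ε₁ δ'
  have hL0 : 0 < L := by linarith
  have hL1 : 1 ≤ L := by linarith
  have hN0 : (0 : ℝ) < N := by exact_mod_cast hN
  have hN1 : (1 : ℝ) ≤ N := by exact_mod_cast hN
  have hN2' : 2 ≤ (N : ℝ) ^ εb := by
    rw [pow_zero, mul_one] at hexp
    rw [Real.rpow_def_of_pos hN0, mul_comm, ← hLd]
    exact hexp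
  obtain ⟨D, hD⟩ : ∃ D : ℕ → ℕ, ∀ i, D i = ⌊(N : ℝ) ^ ((i : ℝ) * εb)⌋₊ := ⟨_, fun _ => rfl⟩
  have hD1 : ∀ i, 1 ≤ D i := by
    intro i
    rw [hD]
    apply Nat.le_floor
    rw [Nat.cast_one]
    exact Real.one_le_rpow hN1 (by positivity)
  have hD0 : D 0 = 1 := by
    rw [hD]; simp
  have hDI : ∀ e ∈ TT, e ≤ D I := by
    intro e he
    rw [hD]
    apply Nat.le_floor
    calc (e : ℝ) ≤ (N : ℝ) ^ θ := (hTT e he).1.1
      _ ≤ (N : ℝ) ^ ((I : ℝ) * εb) := Real.rpow_le_rpow_of_exponent_le hN1 hI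
  have hratio : ∀ i, (D (i + 1) : ℝ) ≤ (N : ℝ) ^ ε₀ * D i := by
    intro i
    have h1 : (D (i + 1) : ℝ) ≤ (N : ℝ) ^ (((i + 1 : ℕ) : ℝ) * εb) := by
      rw [hD]; exact Nat.floor_le (by positivity)
    have h2 : (N : ℝ) ^ ((i : ℝ) * εb) ≤ 2 * D i := by
      have h3 : (N : ℝ) ^ ((i : ℝ) * εb) < (D i : ℝ) + 1 := by
        rw [hD]; exact Nat.lt_floor_add_one _
      have h4 : (1 : ℝ) ≤ D i := by exact_mod_cast hD1 i
      linarith
    calc (D (i + 1) : ℝ) ≤ (N : ℝ) ^ (((i + 1 : ℕ) : ℝ) * εb) := h1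
      _ = (N : ℝ) ^ εb * (N : ℝ) ^ ((i : ℝ) * εb) := by
          rw [← Real.rpow_add hN0]; congr 1; push_cast; ring
      _ ≤ (N : ℝ) ^ εb * (2 * D i) := mul_le_mul_of_nonneg_left h2 (by positivity)
      _ = ((N : ℝ) ^ εb * 2) * D i := by ring
      _ ≤ ((N : ℝ) ^ εb * (N : ℝ) ^ εb) * D i := by
          apply mul_le_mul_of_nonneg_right _ (Nat.cast_nonneg _)
          exact mul_le_mul_of_nonneg_left hN2' (by positivity)
      _ = (N : ℝ) ^ ε₀ * D i := by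
          rw [← Real.rpow_add hN0]; congr 2; rw [hεbd]; ring
  obtain ⟨Tb, hTb⟩ : ∃ Tb : ℕ → Finset ℕ, ∀ i,
      Tb i = TT.filter (fun d => D i < d ∧ d ≤ D (i + 1)) := ⟨_, fun _ => rfl⟩
  obtain ⟨Sb, hSb⟩ : ∃ Sb : ℕ → Finset ℕ, ∀ i,
      Sb i = S.filter (fun a => (N : ℝ) / L ^ (U + 1) < ZZ y N SS (Tb i) f a) := ⟨_, fun _ => rfl⟩
  have hblock : ∀ i, ((Sb i).card : ℝ) ≤ L ^ C := by
    intro i
    refine H (D i) (min (D (i + 1)) ⌊(N : ℝ) ^ θ⌋₊) (hD1 i) ?_ ?_ f hf (Tb i) ?_ (Sb i) ?_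
    · calc ((min (D (i + 1)) ⌊(N : ℝ) ^ θ⌋₊ : ℕ) : ℝ) ≤ (⌊(N : ℝ) ^ θ⌋₊ : ℝ) := by
            exact_mod_cast min_le_right _ _
        _ ≤ (N : ℝ) ^ θ := Nat.floor_le (by positivity)
    · calc ((min (D (i + 1)) ⌊(N : ℝ) ^ θ⌋₊ : ℕ) : ℝ) ≤ (D (i + 1) : ℝ) := by
            exact_mod_cast min_le_left _ _
        _ ≤ _ := hratio i
    · intro e he
      rw [hTb, mem_filter] at he
      obtain ⟨⟨h1, h2⟩, h3, h4, h5⟩ := hTT e he.1
      exact ⟨he.2.1, le_min he.2.2 (Nat.le_floor h1), h4, h5, h2⟩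
    · intro a ha
      rw [hSb, mem_filter] at ha
      exact ⟨(hS a ha.1).1, ha.2⟩
  have hsplit : ∀ a, ZZ y N SS TT f a ≤ ∑ i ∈ range I, ZZ y N SS (Tb i) f a := by
    intro a
    unfold ZZ
    rw [sum_comm (s := range I) (t := SS)]
    refine sum_le_sum (fun d _ => ?_)
    set w : ℕ → ℝ := fun e => |∑ n ∈ Icc 1 N, f n * (rz y ((n : ℤ) + a) * (i1 d ((n : ℤ) + a) *
      BX.dl e ((n : ℤ) + a)))| with hw
    have hrw : ∑ i ∈ range I, ∑ e ∈ Tb i, w e =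
        ∑ e ∈ TT, ∑ i ∈ range I, (if D i < e ∧ e ≤ D (i + 1) then w e else 0) := by
      rw [sum_comm]
      refine sum_congr rfl fun i _ => ?_
      rw [hTb, sum_filter]
    rw [hrw]
    refine sum_le_sum fun e he => ?_
    obtain ⟨i, hi, h1, h2⟩ := BX.TaskFI.block D I e (by
      rw [hD0]; exact (hTT e he).2.1) (hDI e he)
    have h3 : (if D i < e ∧ e ≤ D (i + 1) then w e else 0) ≤
        ∑ i ∈ range I, (if D i < e ∧ e ≤ D (i + 1) then w e else 0) :=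
      Finset.single_le_sum (f := fun i : ℕ => (if D i < e ∧ e ≤ D (i + 1) then w e else (0 : ℝ)))
      (fun j _ => by
        show (0 : ℝ) ≤ (if D j < e ∧ e ≤ D (j + 1) then w e else 0)
        split_ifs
        · exact abs_nonneg _
        · exact le_refl _) hi
    have h4 : (if D i < e ∧ e ≤ D (i + 1) then w e else 0) = w e := if_pos ⟨h1, h2⟩
    calc w e = (if D i < e ∧ e ≤ D (i + 1) then w e else 0) := h4.symm
      _ ≤ _ := h3
  have hcov : S ⊆ (range I).biUnion Sb := by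
    intro a ha
    rw [mem_biUnion]
    by_contra hn
    push Not at hn
    have h1 : ∑ i ∈ range I, ZZ y N SS (Tb i) f a ≤ ∑ _i ∈ range I, (N : ℝ) / L ^ (U + 1) := by
      refine sum_le_sum fun i hi => ?_
      by_contra hlt
      push Not at hlt
      apply hn i hi
      rw [hSb, mem_filter]
      exact ⟨ha, hlt⟩
    rw [sum_const, card_range, nsmul_eq_mul] at h1
    have h2 := (hS a ha).2
    have h3 := hsplit a
    have h4 : (I : ℝ) * (N / L ^ (U + 1)) ≤ N / L ^ U := by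
      rw [pow_succ, mul_div_assoc', div_le_div_iff₀ (by positivity) (by positivity)]
      have h5 : 0 < (N : ℝ) * L ^ U := by positivity
      have h6 := mul_le_mul_of_nonneg_right hLI h5.le
      linarith
    linarith
  calc (S.card : ℝ) ≤ (((range I).biUnion Sb).card : ℝ) := by exact_mod_cast card_le_card hcov
    _ ≤ ((∑ i ∈ range I, (Sb i).card : ℕ) : ℝ) := by exact_mod_cast card_biUnion_le
    _ = ∑ i ∈ range I, ((Sb i).card : ℝ) := by push_cast; rfl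
    _ ≤ ∑ _i ∈ range I, L ^ C := sum_le_sum fun i _ => hblock i
    _ = I * L ^ C := by rw [sum_const, card_range, nsmul_eq_mul]
    _ ≤ L * L ^ C := mul_le_mul_of_nonneg_right hLI (by positivity)
    _ = L ^ (C + 1) := by rw [pow_succ]; ring

/-- change of scale -/
lemma facD_scale (θ δ : ℝ) (hθ2 : θ < 5 / 9) (hδ : 0 < δ) (hδ2 : δ ≤ 1 / 9) :
    ∀ᶠ N : ℕ in atTop, ∀ d, FX.FacD N θ δ d → FX.FacD (2 * N) θ (δ / 2) d := by
  have e1 := ev_logN (ev_pow_exp 0 (δ / 2) 2 (by positivity))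
  filter_upwards [e1, eventually_ge_atTop 1] with N h1 hN d hd
  obtain ⟨hsq, s, hs, hlo, hup⟩ := hd
  have hN0 : (0 : ℝ) < N := by exact_mod_cast hN
  have hN1 : (1 : ℝ) ≤ N := by exact_mod_cast hN
  rw [pow_zero, mul_one] at h1
  have hN2 : 2 ≤ (N : ℝ) ^ (δ / 2) := by
    rw [Real.rpow_def_of_pos hN0, mul_comm]
    exact h1
  have hM1 : (1 : ℝ) ≤ ((2 * N : ℕ) : ℝ) := by push_cast; linarith
  refine ⟨hsq, s, hs, ?_, ?_⟩
  · refine le_trans ?_ hlo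
    rcases le_or_gt (2 * θ - 1 + δ / 2) 0 with h0 | h0
    · calc ((2 * N : ℕ) : ℝ) ^ (2 * θ - 1 + δ / 2) ≤ (N : ℝ) ^ (2 * θ - 1 + δ / 2) :=
            Real.rpow_le_rpow_of_nonpos hN0 (by push_cast; linarith) h0
        _ ≤ (N : ℝ) ^ (2 * θ - 1 + δ) := Real.rpow_le_rpow_of_exponent_le hN1 (by linarith)
    · have h2 : (2 : ℝ) ^ (2 * θ - 1 + δ / 2) ≤ 2 := by
        calc (2 : ℝ) ^ (2 * θ - 1 + δ / 2) ≤ (2 : ℝ) ^ (1 : ℝ) :=
              Real.rpow_le_rpow_of_exponent_le (by norm_num) (by linarith)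
          _ = 2 := Real.rpow_one _
      push_cast
      rw [Real.mul_rpow (by norm_num) hN0.le]
      calc (2 : ℝ) ^ (2 * θ - 1 + δ / 2) * (N : ℝ) ^ (2 * θ - 1 + δ / 2)
          ≤ (N : ℝ) ^ (δ / 2) * (N : ℝ) ^ (2 * θ - 1 + δ / 2) :=
            mul_le_mul_of_nonneg_right (h2.trans hN2) (by positivity)
        _ = (N : ℝ) ^ (2 * θ - 1 + δ) := by
            rw [← Real.rpow_add hN0]; congr 1; ring
  · refine hup.trans ?_
    calc (N : ℝ) ^ (4 - 7 * θ - δ) ≤ (N : ℝ) ^ (4 - 7 * θ - δ / 2) :=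
          Real.rpow_le_rpow_of_exponent_le hN1 (by linarith)
      _ ≤ ((2 * N : ℕ) : ℝ) ^ (4 - 7 * θ - δ / 2) := by
          apply Real.rpow_le_rpow hN0.le
          · push_cast; linarith
          · linarith

/-- **the moduli of the weighted sieve** -/
theorem QF_fin (δ : ℝ) (hδ : 0 < δ) (hδ2 : δ ≤ 1 / 9) : QF (fun N e => (e : ℝ) ≤ (N : ℝ) ^ (111 / 200 : ℝ) ∧
    ((e : ℝ) ≤ (N : ℝ) ^ (51 / 100 : ℝ) ∨ FacO N δ e)) := by
  classical
  obtain ⟨κ, hκdef⟩ : ∃ κ : ℝ, κ = min (δ / 14) ((5 / 9 - 111 / 200) / 2) := ⟨_, rfl⟩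
  have hκ0 : 0 < κ := by rw [hκdef]; exact lt_min (by linarith) (by norm_num)
  have hκ1 : κ ≤ δ / 14 := by rw [hκdef]; exact min_le_left _ _
  have hκ2 : κ ≤ (5 / 9 - 111 / 200) / 2 := by rw [hκdef]; exact min_le_right _ _
  have key : ∀ j : ℕ, (51 / 100 : ℝ) + j * κ < 5 / 9 → QF (fun N d =>
      (d : ℝ) ≤ (N : ℝ) ^ ((51 / 100 : ℝ) + j * κ) ∧
        ((d : ℝ) ≤ (N : ℝ) ^ (51 / 100 : ℝ) ∨ FacO N δ d)) := by
    intro j
    induction j with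
    | zero =>
      intro _
      refine QF_mono (Eventually.of_forall fun N d h => ?_) (QF_fac (51 / 100) 1 (by norm_num) (by norm_num) one_pos)
      refine ⟨?_, Or.inl le_rfl⟩
      have h1 := h.1
      simpa using h1
    | succ j ih =>
      intro hj
      have hκj : (51 / 100 : ℝ) + j * κ < 5 / 9 := by
        have : (51 / 100 : ℝ) + j * κ ≤ 51 / 100 + ((j + 1 : ℕ) : ℝ) * κ := by
          push_cast; nlinarith
        linarith
      have hj0 : (0 : ℝ) ≤ j * κ := by positivity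
      have hw := QF_fac (51 / 100 + ((j + 1 : ℕ) : ℝ) * κ) (δ / 2 / 2) (by positivity) hj (by linarith)
      refine QF_mono ?_ (QF_or (ih hκj) hw)
      filter_upwards [facD_scale (51 / 100 + ((j + 1 : ℕ) : ℝ) * κ) (δ / 2) hj (by linarith) (by linarith),
        eventually_ge_atTop 1] with N hsc hN d h
      have hN1 : (1 : ℝ) ≤ N := by exact_mod_cast hN
      rcases le_or_gt (d : ℝ) ((N : ℝ) ^ ((51 / 100 : ℝ) + j * κ)) with hd | hd
      · exact Or.inl ⟨hd, h.2⟩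
      · refine Or.inr ⟨h.1, Or.inr ?_⟩
        have hFO : FacO N δ d := by
          rcases h.2 with h3 | h3
          · exfalso
            have : (N : ℝ) ^ (51 / 100 : ℝ) ≤ (N : ℝ) ^ ((51 / 100 : ℝ) + j * κ) :=
              Real.rpow_le_rpow_of_exponent_le hN1 (by linarith)
            linarith
          · exact h3
        apply hsc
        apply Pool.Agent.W583.DC.facD_of_facO N hN _ δ κ hκ0 hκ1 d _ hFO
        have e : (51 / 100 : ℝ) + ((j + 1 : ℕ) : ℝ) * κ - κ = 51 / 100 + j * κ := by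
          push_cast; ring
        rw [e]
        exact hd
  obtain ⟨j, hjdef⟩ : ∃ j : ℕ, j = ⌈(111 / 200 - 51 / 100) / κ⌉₊ := ⟨_, rfl⟩
  have hj1 : (111 / 200 : ℝ) ≤ 51 / 100 + j * κ := by
    have h : (111 / 200 - 51 / 100) / κ ≤ (j : ℝ) := by rw [hjdef]; exact Nat.le_ceil _
    rw [div_le_iff₀ hκ0] at h
    linarith
  have hj2 : (51 / 100 : ℝ) + j * κ < 5 / 9 := by
    have h2 : (j : ℝ) < (111 / 200 - 51 / 100) / κ + 1 := by
      rw [hjdef]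
      exact Nat.ceil_lt_add_one (div_nonneg (by norm_num) hκ0.le)
    have h3 : (j : ℝ) * κ < ((111 / 200 - 51 / 100) / κ + 1) * κ := mul_lt_mul_of_pos_right h2 hκ0
    have h4 : ((111 / 200 - 51 / 100) / κ + 1) * κ = 111 / 200 - 51 / 100 + κ := by
      field_simp
    rw [h4] at h3
    linarith
  refine QF_mono ?_ (key j hj2)
  filter_upwards [eventually_ge_atTop 1] with N hN d hd
  have hN1 : (1 : ℝ) ≤ N := by exact_mod_cast hN
  exact ⟨hd.1.trans (Real.rpow_le_rpow_of_exponent_le hN1 hj1), hd.2⟩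

end Pool.Agent.Y822.QF
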