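import Mathlib
import Pool.Agent.Y822.QF
import Pool.Agent.Y822.Stp

/-! The error terms of the sieve in terms of the discrepancies. -/

set_option autoImplicit false

namespace Pool.Agent.Y822.Err

open Finset Filter
open Pool.Agent.H442R2
open Pool.Agent.W23.DC (FacO facR tt)
open Pool.Agent.Y822.Cop Pool.Agent.Y822.Nc Pool.Agent.Y822.Par3 Pool.Agent.Y822.QF Pool.Agent.Y822.Lin
  Pool.Agent.Y822.Stp

lemma rz_eq_ro (y m : ℕ) (hm : Odd m) : rz y (m : ℤ) = ro y m := by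
  unfold rz ro Ro
  congr 1
  apply propext
  constructor
  · intro h p hp hpy hd
    by_cases h2 : p = 2
    · rw [h2] at hd
      exact (Nat.not_even_iff_odd.2 hm) (even_iff_two_dvd.2 hd)
    · exact h p hp h2 hpy (Int.natCast_dvd_natCast.2 hd)
  · intro h p hp _ hpy hd
    exact h p hp hpy (Int.natCast_dvd_natCast.1 hd)

lemma FF_facts {N : ℕ} {ε₁ : ℝ} (hN : 2 ≤ N) {d : ℕ} (hd : d ∈ FF N ε₁) :
    (d : ℝ) ≤ (N : ℝ) ^ (111 / 200 : ℝ) ∧ ((d : ℝ) ≤ (N : ℝ) ^ (51 / 100 : ℝ) ∨ FacO N (1 / 500) d) ∧ 1 < d ∧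
    Squarefree d ∧ Ro (zN ε₁ N) d := by
  classical
  have h1 := mem_FF.1 hd
  have h2 := h1.1
  rw [facR, mem_filter, BX.roughs, mem_filter] at h2
  refine ⟨(FF_le hN hd).2, h2.2, h2.1.2.1, h1.2.1, ?_⟩
  intro p hp hpz hpd
  have h3 := h1.2.2 p (Nat.mem_primeFactors.2 ⟨hp, hpd, by have := h2.1.2.1; omega⟩)
  have h4 := (Pool.Agent.W23.DC.le_tt_iff hN hp.pos ε₁).1 h3
  have h5 := zN_lt' (ε₁ := ε₁) (p := p) (by omega) h4
  omega

lemma cen_mul {d s : ℕ} (hcop : Nat.Coprime d s) (hd : 1 ≤ d) (hs : 1 ≤ s) (m : ℕ) :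
    cen (d * s) m = i1 s (m : ℤ) * BX.dl d (m : ℤ) + 1 / (d : ℝ) * cen s m := by
  have hd0 : (d : ℝ) ≠ 0 := by positivity
  have hs0 : (s : ℝ) ≠ 0 := by positivity
  unfold cen i1 BX.dl
  simp only [Int.natCast_dvd_natCast]
  by_cases h1 : s ∣ m
  · by_cases h2 : d ∣ m
    · rw [if_pos (hcop.mul_dvd_of_dvd_of_dvd h2 h1), if_pos h1, if_pos h2]
      push_cast
      field_simp
      ring
    · rw [if_neg (fun h => h2 ((Dvd.intro _ rfl).trans h)), if_pos h1, if_neg h2]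
      push_cast
      field_simp
      ring
  · rw [if_neg (fun h => h1 ((Dvd.intro_left _ rfl).trans h)), if_neg h1]
    push_cast
    field_simp
    ring

/-- one modulus -/
lemma rr_mul {N y t : ℕ} {f : ℕ → ℝ} (hf : ∀ n, f n ≠ 0 → Odd n) (ht : Even t) {d s : ℕ}
    (hcop : Nat.Coprime d s) (hd : 1 ≤ d) (hs : 1 ≤ s) :
    |rr y N f t (d * s)| ≤ |∑ n ∈ Icc 1 N, f n * (rz y ((n : ℤ) + t) * (i1 s ((n : ℤ) + t) *
      BX.dl d ((n : ℤ) + t)))| + 1 / (d : ℝ) * |rr y N f t s| := by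
  have h1 : rr y N f t (d * s) = ∑ n ∈ Icc 1 N, f n * (rz y ((n : ℤ) + t) * (i1 s ((n : ℤ) + t) *
      BX.dl d ((n : ℤ) + t))) + 1 / (d : ℝ) * rr y N f t s := by
    unfold rr
    rw [mul_sum, ← sum_add_distrib]
    refine sum_congr rfl fun n _ => ?_
    by_cases h0 : f n = 0
    · rw [h0]; ring
    · have hodd : Odd (n + t) := (hf n h0).add_even ht
      have e1 : ((n : ℤ) + t) = ((n + t : ℕ) : ℤ) := by push_cast; ring
      rw [cen_mul hcop hd hs, e1, rz_eq_ro y _ hodd]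
      ring
  rw [h1]
  refine (abs_add_le _ _).trans ?_
  rw [abs_mul (1 / (d : ℝ)), abs_of_nonneg (by positivity : (0 : ℝ) ≤ 1 / (d : ℝ))]

/-- **passing to the smooth and the rough parts of the moduli** -/
theorem err_le {N y : ℕ} {ε₁ δ' : ℝ} (hN : 2 ≤ N) (f : ℕ → ℝ) (hf : ∀ n, f n ≠ 0 → Odd n)
    (t : ℕ) (ht : Even t) :
    ∑ d ∈ insert 1 (FF N ε₁), ∑ T ∈ (Pin N y ε₁).powerset.filter
      (fun T : Finset ℕ => ((∏ p ∈ T, p : ℕ) : ℝ) ≤ (N : ℝ) ^ δ'), |rr y N f t (d * ∏ p ∈ T, p)| ≤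
      ZZ y N (SSm N y ε₁ δ') (FF N ε₁) f t +
        (∑ d ∈ insert 1 (FF N ε₁), 1 / (d : ℝ)) * LD y ⌊(N : ℝ) ^ δ'⌋₊ N f t := by
  classical
  set Q := (Pin N y ε₁).powerset.filter (fun T : Finset ℕ => ((∏ p ∈ T, p : ℕ) : ℝ) ≤ (N : ℝ) ^ δ') with hQ
  set SS := SSm N y ε₁ δ' with hSS
  have hQp : ∀ T ∈ Q, ∀ p ∈ T, p.Prime ∧ y < p ∧ p ≤ zN ε₁ N := by
    intro T hT p hp
    rw [hQ, mem_filter, mem_powerset] at hT
    have h1 := mem_Pin.1 (hT.1 hp)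
    refine ⟨h1.2.1, h1.1.1, ?_⟩
    apply le_zN
    by_contra hlt
    push Not at hlt
    have := (Pool.Agent.W23.DC.le_tt_iff hN h1.2.1.pos ε₁).2 hlt
    linarith [h1.2.2]
  have hmem : ∀ T ∈ Q, ∏ p ∈ T, p ∈ SS := by
    intro T hT
    have hT2 : ((∏ p ∈ T, p : ℕ) : ℝ) ≤ (N : ℝ) ^ δ' := by
      rw [hQ, mem_filter] at hT
      exact hT.2
    rw [hSS, mem_SSm, mem_SD]
    refine ⟨⟨⟨Finset.prod_pos fun p hp => (hQp T hT p hp).1.pos, Nat.le_floor hT2⟩,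
      sqf_prod fun p hp => (hQp T hT p hp).1, ?_⟩, ?_⟩
    · intro p hp hpy hpd
      have := (hQp T hT p (prime_dvd_prod (fun q hq => (hQp T hT q hq).1) hp hpd)).2.1
      omega
    · intro p hp hpd
      exact (hQp T hT p (prime_dvd_prod (fun q hq => (hQp T hT q hq).1) hp hpd)).2.2
  have hinj : Set.InjOn (fun T : Finset ℕ => ∏ p ∈ T, p) (Q : Set (Finset ℕ)) := by
    intro T hT T' hT' h
    rw [mem_coe] at hT hT'
    simp only at h
    rw [← Nat.primeFactors_prod (fun p hp => (hQp T hT p hp).1),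
      ← Nat.primeFactors_prod (fun p hp => (hQp T' hT' p hp).1), h]
  have hsum : ∀ F : ℕ → ℝ, (∀ s, 0 ≤ F s) → ∑ T ∈ Q, F (∏ p ∈ T, p) ≤ ∑ s ∈ SS, F s := by
    intro F hF
    rw [← sum_image (f := F) hinj]
    refine sum_le_sum_of_subset_of_nonneg ?_ (fun s _ _ => hF s)
    intro s hs
    rw [mem_image] at hs
    obtain ⟨T, hT, rfl⟩ := hs
    exact hmem T hT
  have h1FF : 1 ∉ FF N ε₁ := fun h => by
    have := (FF_facts hN h).2.2.1
    omega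
  set RS := ∑ s ∈ SS, |rr y N f t s| with hRS
  have hRS0 : 0 ≤ RS := sum_nonneg fun s _ => abs_nonneg _
  have hRSle : RS ≤ LD y ⌊(N : ℝ) ^ δ'⌋₊ N f t := by
    rw [hRS]
    unfold LD
    calc ∑ s ∈ SS, |rr y N f t s| ≤ ∑ s ∈ SD y ⌊(N : ℝ) ^ δ'⌋₊, |rr y N f t s| :=
          sum_le_sum_of_subset_of_nonneg (fun s hs => (mem_SSm.1 hs).1) fun s _ _ => abs_nonneg _
      _ ≤ _ := by
          refine sum_le_sum fun s _ => ?_
          exact le_mul_of_one_le_left (abs_nonneg _) (one_le_pow₀ (by norm_num))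
  have hd : ∀ d ∈ FF N ε₁, ∑ T ∈ Q, |rr y N f t (d * ∏ p ∈ T, p)| ≤
      ∑ s ∈ SS, |∑ n ∈ Icc 1 N, f n * (rz y ((n : ℤ) + t) * (i1 s ((n : ℤ) + t) *
      BX.dl d ((n : ℤ) + t)))| + 1 / (d : ℝ) * RS := by
    intro d hd
    obtain ⟨_, _, f3, f4, f5⟩ := FF_facts hN hd
    refine (hsum (fun s => |rr y N f t (d * s)|) fun s => abs_nonneg _).trans ?_
    rw [hRS, mul_sum, ← sum_add_distrib]
    refine sum_le_sum fun s hs => ?_
    obtain ⟨g1, g2⟩ := mem_SSm.1 hs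
    refine rr_mul hf ht ?_ (by omega) (mem_SD.1 g1).1.1
    refine Nat.coprime_of_dvd ?_
    intro p hp hpd hps
    exact f5 p hp (g2 p hp hps) hpd
  rw [sum_insert h1FF, sum_insert h1FF, Nat.cast_one, div_one]
  have t1 : ∑ T ∈ Q, |rr y N f t (1 * ∏ p ∈ T, p)| ≤ RS := by
    simp only [one_mul]
    exact hsum (fun s => |rr y N f t s|) fun s => abs_nonneg _
  have t2 : ∑ d ∈ FF N ε₁, ∑ T ∈ Q, |rr y N f t (d * ∏ p ∈ T, p)| ≤
      ZZ y N SS (FF N ε₁) f t + (∑ d ∈ FF N ε₁, 1 / (d : ℝ)) * RS := by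
    refine (sum_le_sum hd).trans (le_of_eq ?_)
    rw [sum_add_distrib, ← sum_mul]
    congr 1
    unfold ZZ
    rw [sum_comm]
  have h0 : 0 ≤ ∑ d ∈ FF N ε₁, 1 / (d : ℝ) := sum_nonneg fun d _ => by positivity
  have t3 := mul_le_mul_of_nonneg_left hRSle h0
  calc _ ≤ RS + (ZZ y N SS (FF N ε₁) f t + (∑ d ∈ FF N ε₁, 1 / (d : ℝ)) * RS) := add_le_add t1 t2
    _ ≤ _ := by
      rw [add_mul, one_mul]
      linarith

end Pool.Agent.Y822.Err
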