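import Mathlib
import Pool.Agent.Y822.Err
import Pool.Agent.Y822.CTu
import Pool.Agent.Y822.Par2
import Pool.Agent.Y822.Main0

/-! Lower bounds for almost prime patterns, for all but few sets of shifts. -/

set_option autoImplicit false

namespace Pool.Agent.Y822.Low

open Finset Filter
open Pool.Agent.H442R2
open Pool.Agent.H373R2.T7 (pz Vz mem_pz)
open Pool.Agent.H387R2.Uni (nuT Adm locT CT)
open Pool.Agent.W23.DC (FacO facR tt)
open Pool.Agent.Y822.Cop Pool.Agent.Y822.Nc Pool.Agent.Y822.Par3 Pool.Agent.Y822.QF Pool.Agent.Y822.Lin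
  Pool.Agent.Y822.Stp Pool.Agent.Y822.Err

/-- the final computation -/
lemma low_calc {k : ℕ} {cs cp L n u V PTy W xN CTy P : ℝ} (hcs : 0 < cs) (hcp : 0 < cp) (hL : 1 ≤ L)
    (hn : 0 < n) (hLb : 8 * (k + 3) / (cs ^ (k + 1) * cp) ≤ L) (hu0 : 0 ≤ u) (hu1 : u ≤ 1) (hV : 0 ≤ V)
    (huV : cs / L ≤ u * V) (hPT0 : 0 ≤ PTy) (hc : cp ≤ CTy) (hPT : CTy ≤ 2 * PTy)
    (hW : 1 / 2 * (n / L * (PTy * V ^ (k + 1))) - xN - 1 ≤ W) (hxN : xN = n / L ^ (k + 4)) (h1 : 1 ≤ xN)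
    (hP : u ^ (k + 1) * W - (k + 1) * xN ≤ P) :
    (cs / 8) ^ (k + 1) * CTy * (n / L ^ (k + 2)) ≤ P := by
  have hL0 : 0 < L := by linarith
  have hCT0 : 0 < CTy := by linarith
  have hcsp : 0 < cs ^ (k + 1) := by positivity
  set X := n / L ^ (k + 2) with hX
  have hX0 : 0 < X := by positivity
  have g1 : u ^ (k + 1) * (1 / 2 * (n / L * (PTy * V ^ (k + 1))) - xN - 1) ≤ u ^ (k + 1) * W :=
    mul_le_mul_of_nonneg_left hW (pow_nonneg hu0 _)
  have g2 : u ^ (k + 1) * (xN + 1) ≤ 2 * xN := by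
    have : u ^ (k + 1) ≤ 1 := pow_le_one₀ hu0 hu1
    calc u ^ (k + 1) * (xN + 1) ≤ 1 * (xN + 1) := mul_le_mul_of_nonneg_right this (by linarith)
      _ ≤ 2 * xN := by linarith
  have g4 : (cs / L) ^ (k + 1) ≤ (u * V) ^ (k + 1) := pow_le_pow_left₀ (by positivity) huV _
  have g3 : 1 / 2 * cs ^ (k + 1) * PTy * X ≤ u ^ (k + 1) * (1 / 2 * (n / L * (PTy * V ^ (k + 1)))) := by
    calc 1 / 2 * cs ^ (k + 1) * PTy * X = 1 / 2 * (n / L) * PTy * (cs / L) ^ (k + 1) := by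
          rw [hX, div_pow, pow_succ L (k + 1)]
          field_simp
      _ ≤ 1 / 2 * (n / L) * PTy * (u * V) ^ (k + 1) := mul_le_mul_of_nonneg_left g4 (by positivity)
      _ = _ := by rw [mul_pow]; ring
  have g5 : 1 / 4 * cs ^ (k + 1) * CTy * X ≤ 1 / 2 * cs ^ (k + 1) * PTy * X := by
    have h3 := mul_le_mul_of_nonneg_left hPT (by positivity : 0 ≤ 1 / 4 * cs ^ (k + 1) * X)
    linarith
  have g6 : (k + 3) * xN ≤ 1 / 8 * cs ^ (k + 1) * CTy * X := by
    have e : xN * L ^ 2 = X := by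
      rw [hxN, hX, show k + 4 = (k + 2) + 2 by ring, pow_add L (k + 2) 2]
      field_simp
    have h3 : 8 * ((k : ℝ) + 3) ≤ cs ^ (k + 1) * cp * L ^ 2 := by
      have h4 : 8 * ((k : ℝ) + 3) ≤ L * (cs ^ (k + 1) * cp) := by
        rwa [div_le_iff₀ (by positivity)] at hLb
      have h5 : L * (cs ^ (k + 1) * cp) ≤ cs ^ (k + 1) * cp * L ^ 2 := by
        have : L ≤ L ^ 2 := by nlinarith
        calc L * (cs ^ (k + 1) * cp) ≤ L ^ 2 * (cs ^ (k + 1) * cp) :=
              mul_le_mul_of_nonneg_right this (by positivity)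
          _ = _ := by ring
      linarith
    have hx0 : 0 ≤ xN := by linarith
    calc (k + 3) * xN = 1 / 8 * (8 * (k + 3)) * xN := by ring
      _ ≤ 1 / 8 * (cs ^ (k + 1) * cp * L ^ 2) * xN := by gcongr
      _ = 1 / 8 * cs ^ (k + 1) * cp * (xN * L ^ 2) := by ring
      _ = 1 / 8 * cs ^ (k + 1) * cp * X := by rw [e]
      _ ≤ 1 / 8 * cs ^ (k + 1) * CTy * X := by gcongr
  have g7 : (cs / 8) ^ (k + 1) * CTy * X ≤ 1 / 8 * cs ^ (k + 1) * CTy * X := by
    have h3 : (cs / 8) ^ (k + 1) ≤ 1 / 8 * cs ^ (k + 1) := by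
      rw [div_pow]
      have h4 : (8 : ℝ) ≤ 8 ^ (k + 1) := by
        calc (8 : ℝ) = 8 ^ 1 := by norm_num
          _ ≤ 8 ^ (k + 1) := pow_le_pow_right₀ (by norm_num) (by omega)
      calc cs ^ (k + 1) / 8 ^ (k + 1) ≤ cs ^ (k + 1) / 8 := div_le_div_of_nonneg_left hcsp.le (by norm_num) h4
        _ = _ := by ring
    gcongr
  have e2 : u ^ (k + 1) * (1 / 2 * (n / L * (PTy * V ^ (k + 1))) - xN - 1) =
      u ^ (k + 1) * (1 / 2 * (n / L * (PTy * V ^ (k + 1)))) - u ^ (k + 1) * (xN + 1) := by ring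
  rw [e2] at g1
  have e3 : ((k : ℝ) + 3) * xN = (k + 1) * xN + 2 * xN := by ring
  rw [e3] at g6
  linarith

/-- a version of `step_lower` with the hypothesis only where it is needed -/
theorem step_lower' {e g r : ℕ → ℝ} {N : ℕ} {x u : ℝ} (hx : 0 ≤ x)
    (hu : 0 ≤ u) (hu1 : u ≤ 1) {H : Finset ℕ}
    (hZ : ∀ t ∈ H, ∀ S1 ⊆ H.erase t,
      u * ∑ n ∈ Icc 1 N, WH e g r (H.erase t) S1 n * r (n + t) - x ≤
        ∑ n ∈ Icc 1 N, WH e g r (H.erase t) S1 n * g (n + t)) :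
    ∀ S1 ⊆ H, u ^ S1.card * ∑ n ∈ Icc 1 N, WH e g r H ∅ n - S1.card * x ≤
      ∑ n ∈ Icc 1 N, WH e g r H S1 n := by
  classical
  intro S1
  induction S1 using Finset.induction_on with
  | empty => intro _; simp
  | insert t S1 htS ih =>
    intro hS
    have htH : t ∈ H := hS (mem_insert_self _ _)
    have hS1 : S1 ⊆ H := (subset_insert _ _).trans hS
    have ih' := ih hS1
    have hsub : S1 ⊆ H.erase t := fun s hs => mem_erase.2 ⟨fun h => htS (h ▸ hs), hS1 hs⟩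
    have h1 := hZ t htH S1 hsub
    have h2 : ∑ n ∈ Icc 1 N, WH e g r H (insert t S1) n =
        ∑ n ∈ Icc 1 N, WH e g r (H.erase t) S1 n * g (n + t) :=
      sum_congr rfl fun n _ => (WH_insert htH htS n).1
    have h3 : ∑ n ∈ Icc 1 N, WH e g r H S1 n =
        ∑ n ∈ Icc 1 N, WH e g r (H.erase t) S1 n * r (n + t) :=
      sum_congr rfl fun n _ => (WH_insert htH htS n).2
    rw [h2]
    rw [h3] at ih'
    rw [card_insert_of_notMem htS]
    have h4 := mul_le_mul_of_nonneg_left ih' hu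
    have h5 : u * (S1.card * x) ≤ S1.card * x := by
      have : 0 ≤ (S1.card : ℝ) * x := by positivity
      nlinarith
    push_cast
    rw [pow_succ]
    nlinarith

open Classical in
/-- indicator of the odd primes -/
noncomputable def eO (n : ℕ) : ℝ := if n.Prime ∧ Odd n then 1 else 0

lemma eO_bd (n : ℕ) : 0 ≤ eO n ∧ eO n ≤ 1 := by
  unfold eO; split_ifs <;> norm_num

lemma eO_odd {n : ℕ} (h : eO n ≠ 0) : Odd n := by
  unfold eO at h
  by_contra hn
  apply h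
  rw [if_neg (fun h => hn h.2)]

open Classical in
/-- the number of primes `p ≤ N` such that all `p + h`, `h ∈ H`, have at most two prime factors, all of
them at least `N ^ (1/7)` -/
noncomputable def pi2 (H : Finset ℕ) (N : ℕ) : ℕ :=
  ((Icc 1 N).filter (fun p => p.Prime ∧ ∀ h ∈ H, (p + h).primeFactorsList.length ≤ 2 ∧
    ∀ q ∈ (p + h).primeFactors, (N : ℝ) ^ (1 / 7 : ℝ) ≤ q)).card

/-- restriction to the odd numbers -/
noncomputable def fo (f : ℕ → ℝ) (n : ℕ) : ℝ := by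
  classical
  exact if Odd n then f n else 0

/-- the error functional -/
noncomputable def Zf (N y : ℕ) (ε₁ δ' : ℝ) (f : ℕ → ℝ) (t : ℕ) : ℝ := by
  classical
  exact if Even t then 3 * (Real.log N + 3) * (ZZ y N (SSm N y ε₁ δ') (FF N ε₁) (fo f) t +
    Real.exp 1 / ε₁ * LD y ⌊(N : ℝ) ^ δ'⌋₊ N (fo f) t) + 12 * (N : ℝ) ^ (6 / 7 : ℝ) else 0

lemma fo_eq {f : ℕ → ℝ} (hf : ∀ n, f n ≠ 0 → Odd n) : fo f = f := by
  classical
  funext n
  unfold fo
  split_ifs with h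
  · rfl
  · by_contra hn
    exact h (hf n (fun h0 => hn h0.symm))

lemma WH_eP_eO (g : ℕ → ℝ) (y N : ℕ) (H : Finset ℕ) :
    ∑ n ∈ Icc 1 N, WH eP g (ro y) H ∅ n - 1 ≤ ∑ n ∈ Icc 1 N, WH eO g (ro y) H ∅ n := by
  classical
  have h1 : ∀ n ∈ Icc 1 N, WH eP g (ro y) H ∅ n ≤ WH eO g (ro y) H ∅ n + (if n = 2 then 1 else 0) := by
    intro n _
    unfold WH
    rw [prod_empty, one_mul, sdiff_empty]
    have p0 : 0 ≤ ∏ s ∈ H, ro y (n + s) := prod_nonneg fun s _ => ro_nonneg _ _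
    have p1 : ∏ s ∈ H, ro y (n + s) ≤ 1 := prod_le_one (fun s _ => ro_nonneg _ _) fun s _ => ro_le_one _ _
    by_cases hp : n.Prime
    · by_cases h2 : n = 2
      · rw [if_pos h2]
        have := eP_bd n
        have h3 := eO_bd n
        have h4 : eP n * ∏ s ∈ H, ro y (n + s) ≤ 1 := mul_le_one₀ this.2 p0 p1
        have h5 : 0 ≤ eO n * ∏ s ∈ H, ro y (n + s) := mul_nonneg h3.1 p0
        linarith
      · rw [if_neg h2, add_zero]
        have h3 : eP n = eO n := by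
          unfold eP eO
          rw [if_pos hp, if_pos ⟨hp, hp.odd_of_ne_two h2⟩]
        rw [h3]
    · have h3 : eP n = 0 := by unfold eP; rw [if_neg hp]
      have h4 : eO n = 0 := by unfold eO; rw [if_neg (fun h => hp h.1)]
      rw [h3, h4]
      simp only [zero_mul, zero_add]
      split_ifs <;> norm_num
  have h2 := sum_le_sum h1
  rw [sum_add_distrib] at h2
  have h3 : ∑ n ∈ Icc 1 N, (if n = 2 then (1 : ℝ) else 0) ≤ 1 := by
    rw [sum_ite_eq']
    split_ifs <;> norm_num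
  linarith

lemma WH_full_le (N y : ℕ) (H : Finset ℕ) :
    ∑ n ∈ Icc 1 N, WH eO (g2 N) (ro y) H H n ≤ pi2 H N := by
  classical
  unfold pi2
  rw [card_filter]
  push_cast
  refine sum_le_sum fun n _ => ?_
  unfold WH
  rw [sdiff_self, bot_eq_empty, prod_empty, mul_one]
  have p0 : 0 ≤ ∏ s ∈ H, g2 N (n + s) := prod_nonneg fun s _ => (g2_bd _ _).1
  have p1 : ∏ s ∈ H, g2 N (n + s) ≤ 1 := prod_le_one (fun s _ => (g2_bd _ _).1) fun s _ => (g2_bd _ _).2
  by_cases h : n.Prime ∧ ∀ h ∈ H, (n + h).primeFactorsList.length ≤ 2 ∧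
      ∀ q ∈ (n + h).primeFactors, (N : ℝ) ^ (1 / 7 : ℝ) ≤ q
  · rw [if_pos h]
    exact mul_le_one₀ (eO_bd n).2 p0 p1
  · rw [if_neg h]
    apply le_of_eq
    by_cases hp : n.Prime
    · have h2 : ¬ ∀ h ∈ H, (n + h).primeFactorsList.length ≤ 2 ∧
        ∀ q ∈ (n + h).primeFactors, (N : ℝ) ^ (1 / 7 : ℝ) ≤ q := fun h3 => h ⟨hp, h3⟩
      rw [not_forall] at h2
      obtain ⟨s, hs⟩ := h2
      rw [Classical.not_imp] at hs
      rw [prod_eq_zero hs.1, mul_zero]
      unfold g2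
      rw [if_neg]
      intro h4
      exact hs.2 h4.2
    · have h4 : eO n = 0 := by unfold eO; rw [if_neg (fun h => hp h.1)]
      rw [h4, zero_mul]

lemma adm_even {H : Finset ℕ} (hA : Adm (pat H)) {h : ℕ} (hh : h ∈ H) : Even h := by
  by_contra hn
  have h2 := hA 2 Nat.prime_two
  unfold nuT pat at h2
  have h0 : (0 : ℕ) ∈ (insert 0 H).image (· % 2) := mem_image.2 ⟨0, mem_insert_self _ _, rfl⟩
  have h1 : (1 : ℕ) ∈ (insert 0 H).image (· % 2) := by
    refine mem_image.2 ⟨h, mem_insert_of_mem hh, ?_⟩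
    exact Nat.odd_iff.1 (Nat.not_even_iff_odd.1 hn)
  have h3 : ({0, 1} : Finset ℕ).card ≤ ((insert 0 H).image (· % 2)).card := by
    apply card_le_card
    intro x hx
    rw [mem_insert, mem_singleton] at hx
    rcases hx with rfl | rfl
    · exact h0
    · exact h1
  have h4 : ({0, 1} : Finset ℕ).card = 2 := by decide
  omega

/-- the product over all small primes -/
lemma VP_Vz {N y : ℕ} {ε₁ : ℝ} (hN : 2 ≤ N) (hy : y ≤ zN ε₁ N) (hz : zN ε₁ N ≤ N) :
    VP (Pin N y ε₁) * Vz y = Vz (zN ε₁ N) := by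
  classical
  unfold VP Vz
  rw [← prod_union]
  · congr 1
    ext p
    rw [mem_union, mem_Pin, mem_pz, mem_pz]
    constructor
    · rintro (⟨⟨h1, h2⟩, h3, h4⟩ | ⟨h1, h2⟩)
      · refine ⟨?_, h3⟩
        apply le_zN
        by_contra hlt
        push Not at hlt
        have := (Pool.Agent.W23.DC.le_tt_iff hN h3.pos ε₁).2 hlt
        linarith
      · exact ⟨h1.trans hy, h2⟩
    · rintro ⟨h1, h2⟩
      by_cases h3 : p ≤ y
      · exact Or.inr ⟨h3, h2⟩
      · refine Or.inl ⟨⟨by omega, h1.trans hz⟩, h2, ?_⟩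
        by_contra hlt
        push Not at hlt
        have h4 := (Pool.Agent.W23.DC.le_tt_iff hN h2.pos ε₁).1 hlt
        have h5 := zN_lt' (ε₁ := ε₁) (by omega) h4
        omega
  · rw [disjoint_left]
    intro p hp hp'
    rw [mem_Pin] at hp
    rw [mem_pz] at hp'
    omega

/-- the sifting parameter is smaller than the limit of the smooth moduli -/
lemma yN_le_zN (κ ε₁ : ℝ) (hκ : 0 < κ) (hκ1 : κ ≤ 1) (hε₁ : 0 < ε₁) (hε₁1 : ε₁ ≤ 1) :
    ∀ᶠ N : ℕ in atTop, yN κ N ≤ zN ε₁ N := by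
  filter_upwards [yN_facts κ hκ hκ1 1 1, zN_facts ε₁ hε₁ hε₁1 2,
    ev_logN (Real.tendsto_log_atTop.eventually (eventually_ge_atTop (1 / ε₁ + 1))),
    ev_logN (ev_log_pow 1 (1 / ε₁)), ev_logN (eventually_ge_atTop (1 : ℝ))] with N hyf hzf b8 b9 hL
  obtain ⟨y1, _⟩ := hyf
  obtain ⟨z1, _⟩ := hzf
  set L := Real.log N
  set l := Real.log L
  have hL0 : 0 < L := by linarith
  have hl1 : 1 ≤ l := by
    have : 0 < 1 / ε₁ := by positivity
    linarith
  have hl0 : 0 < l := by linarith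
  have h1 : (yN κ N : ℝ) ≤ zN ε₁ N := by
    refine y1.trans (le_trans ?_ z1)
    have h2 : κ * L / l ≤ ε₁ * L - 1 := by
      rw [div_le_iff₀ hl0]
      have h3 : 1 ≤ ε₁ * l - ε₁ := by
        have := mul_le_mul_of_nonneg_left b8 hε₁.le
        rw [mul_add, mul_one_div, div_self hε₁.ne'] at this
        linarith
      have h5 : l ≤ ε₁ * L := by
        rw [pow_one, one_div, inv_mul_le_iff₀ hε₁] at b9
        exact b9
      have h6 := mul_le_mul_of_nonneg_right h3 hL0.le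
      have h7 := mul_le_mul_of_nonneg_right hκ1 hL0.le
      have h4 : (ε₁ * L - 1) * l = (ε₁ * l - ε₁) * L + ε₁ * L - l := by ring
      rw [h4]
      linarith
    calc Real.exp (κ * L / l) ≤ Real.exp (ε₁ * L - 1) := Real.exp_le_exp.2 h2
      _ = Real.exp (ε₁ * L) / Real.exp 1 := Real.exp_sub _ _
      _ ≤ Real.exp (ε₁ * L) / 2 := by
          apply div_le_div_of_nonneg_left (Real.exp_pos _).le (by norm_num)
          have := Real.add_one_le_exp (1 : ℝ)
          linarith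
  exact_mod_cast h1

end Pool.Agent.Y822.Low
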