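import Mathlib
import Pool.Agent.Y822.Low

/-! Lower bounds for almost prime patterns, for all but few sets of shifts: the theorem. -/

set_option autoImplicit false

namespace Pool.Agent.Y822.Low

open Finset Filter
open Pool.Agent.H442R2
open Pool.Agent.H373R2.T7 (pz Vz mem_pz)
open Pool.Agent.H387R2.Uni (nuT Adm locT CT)
open Pool.Agent.W23.DC (FacO facR tt)
open Pool.Agent.Y822.Cop Pool.Agent.Y822.Nc Pool.Agent.Y822.Par3 Pool.Agent.Y822.QF Pool.Agent.Y822.Lin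
  Pool.Agent.Y822.Stp Pool.Agent.Y822.Err

lemma fo_abs {f : ℕ → ℝ} (hf : ∀ n, |f n| ≤ 1) (n : ℕ) : |fo f n| ≤ 1 := by
  classical
  unfold fo
  split_ifs
  · exact hf n
  · simp

/-- few shifts have a large error -/
theorem few_Z (V : ℕ) {N y : ℕ} {ε₁ δ' q : ℝ} {C C' : ℕ} (hε₁ : 0 < ε₁) (hq : q = 1 + Real.exp 1 / ε₁)
    (hN : 2 ≤ N) (hL : 3 ≤ Real.log N) (hLq : 12 * q ≤ Real.log N)
    (hexp : 24 * Real.log N ^ V ≤ Real.exp (1 / 7 * Real.log N))
    (hQ : ∀ f : ℕ → ℝ, (∀ n, |f n| ≤ 1) → ∀ S : Finset ℕ, (∀ a ∈ S, a ≤ N ∧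
      (N : ℝ) / Real.log N ^ (V + 3) < ZZ y N (SSm N y ε₁ δ') (FF N ε₁) f a) → (S.card : ℝ) ≤ Real.log N ^ C)
    (hF : ∀ f : ℕ → ℝ, (∀ n, |f n| ≤ 1) → ∀ S : Finset ℕ, (∀ a ∈ S, a ≤ N ∧
      (N : ℝ) / Real.log N ^ (V + 3) < LD y ⌊(N : ℝ) ^ δ'⌋₊ N f a) → (S.card : ℝ) ≤ Real.log N ^ C')
    (f : ℕ → ℝ) (hf : ∀ n, |f n| ≤ 1) (S : Finset ℕ)
    (hS : ∀ a ∈ S, a ≤ N ∧ (N : ℝ) / Real.log N ^ V < Zf N y ε₁ δ' f a) :
    (S.card : ℝ) ≤ Real.log N ^ C + Real.log N ^ C' := by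
  classical
  set L := Real.log N with hLd
  have hL0 : 0 < L := by linarith
  have hN0 : (0 : ℝ) < N := by exact_mod_cast (by omega : 0 < N)
  have hfo := fo_abs hf
  set S1 := S.filter (fun a => (N : ℝ) / L ^ (V + 3) < ZZ y N (SSm N y ε₁ δ') (FF N ε₁) (fo f) a)
  set S2 := S.filter (fun a => (N : ℝ) / L ^ (V + 3) < LD y ⌊(N : ℝ) ^ δ'⌋₊ N (fo f) a)
  have h1 := hQ (fo f) hfo S1 (fun a ha => by
    rw [mem_filter] at ha
    exact ⟨(hS a ha.1).1, ha.2⟩)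
  have h2 := hF (fo f) hfo S2 (fun a ha => by
    rw [mem_filter] at ha
    exact ⟨(hS a ha.1).1, ha.2⟩)
  have hcov : S ⊆ S1 ∪ S2 := by
    intro a ha
    rw [mem_union, mem_filter, mem_filter]
    by_contra hn
    push Not at hn
    have g1 := hn.1 ha
    have g2 := hn.2 ha
    have g3 := (hS a ha).2
    unfold Zf at g3
    split_ifs at g3 with hev
    · set A1 := ZZ y N (SSm N y ε₁ δ') (FF N ε₁) (fo f) a
      set A2 := LD y ⌊(N : ℝ) ^ δ'⌋₊ N (fo f) a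
      have hE : 0 < Real.exp 1 / ε₁ := by positivity
      have t1 : A1 + Real.exp 1 / ε₁ * A2 ≤ q * (N / L ^ (V + 3)) := by
        have := mul_le_mul_of_nonneg_left g2 hE.le
        rw [hq]
        linarith
      have t2 : 3 * (L + 3) * (A1 + Real.exp 1 / ε₁ * A2) ≤ 6 * L * (q * (N / L ^ (V + 3))) := by
        have hA : 0 ≤ q * (N / L ^ (V + 3)) := by
          rw [hq]
          positivity
        calc 3 * (L + 3) * (A1 + Real.exp 1 / ε₁ * A2) ≤ 3 * (L + 3) * (q * (N / L ^ (V + 3))) :=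
              mul_le_mul_of_nonneg_left t1 (by positivity)
          _ ≤ 6 * L * (q * (N / L ^ (V + 3))) := mul_le_mul_of_nonneg_right (by linarith) hA
      have t3 : 6 * L * (q * (N / L ^ (V + 3))) ≤ N / L ^ V / 2 := by
        have e : L ^ (V + 3) = L ^ V * L ^ 3 := pow_add L V 3
        have e2 : 6 * L * (q * (N / L ^ (V + 3))) = (12 * q / L ^ 2) * (N / L ^ V / 2) := by
          rw [e]
          field_simp
          ring
        rw [e2]
        have h5 : 12 * q / L ^ 2 ≤ 1 := by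
          rw [div_le_one (by positivity)]
          nlinarith
        calc 12 * q / L ^ 2 * (N / L ^ V / 2) ≤ 1 * (N / L ^ V / 2) :=
              mul_le_mul_of_nonneg_right h5 (by positivity)
          _ = _ := one_mul _
      have t4 : 12 * (N : ℝ) ^ (6 / 7 : ℝ) ≤ N / L ^ V / 2 := by
        have e1 : (N : ℝ) ^ (6 / 7 : ℝ) * Real.exp (1 / 7 * L) = N := by
          rw [Real.rpow_def_of_pos hN0, ← Real.exp_add, ← hLd]
          have : L * (6 / 7) + 1 / 7 * L = L := by ring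
          rw [this, hLd, Real.exp_log hN0]
        rw [div_div, le_div_iff₀ (by positivity)]
        calc 12 * (N : ℝ) ^ (6 / 7 : ℝ) * (L ^ V * 2) = (N : ℝ) ^ (6 / 7 : ℝ) * (24 * L ^ V) := by ring
          _ ≤ (N : ℝ) ^ (6 / 7 : ℝ) * Real.exp (1 / 7 * L) := mul_le_mul_of_nonneg_left hexp (by positivity)
          _ = N := e1
      linarith
    · have : 0 < (N : ℝ) / L ^ V := by positivity
      linarith
  have h3 : (S.card : ℝ) ≤ S1.card + S2.card := by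
    exact_mod_cast (card_le_card hcov).trans (card_union_le _ _)
  linarith

/-- **the lower bound** -/
theorem low_main : ∃ c : ℝ, 0 < c ∧ ∀ k : ℕ, ∃ B : ℕ, ∀ᶠ N : ℕ in atTop,
    ∀ A : Finset ℕ, (∀ a ∈ A, 1 ≤ a ∧ a ≤ N) → ∀ Bad : Finset (Finset ℕ),
    (∀ H ∈ Bad, H ∈ A.powersetCard (k + 1) ∧ Adm (pat H) ∧
      (pi2 H N : ℝ) < c ^ (k + 1) * CT (pat H) * (N / Real.log N ^ (k + 2))) →
    (Bad.card : ℝ) ≤ A.card.choose k * Real.log N ^ B := by
  classical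
  obtain ⟨c₀', hc₀', C0, hC0, STEP⟩ := step
  obtain ⟨δ₀, hδ₀, HQ⟩ := QF_fin (1 / 500) (by norm_num) (by norm_num)
  obtain ⟨cz, hcz, VZ⟩ := Vz_sharp
  obtain ⟨c₀, hc₀d⟩ : ∃ c₀ : ℝ, c₀ = min c₀' 1 := ⟨_, rfl⟩
  have hc₀ : 0 < c₀ := by rw [hc₀d]; exact lt_min hc₀' one_pos
  have hc₀1 : c₀ ≤ 1 := by rw [hc₀d]; exact min_le_right _ _
  have hc₀2 : c₀ ≤ c₀' := by rw [hc₀d]; exact min_le_left _ _
  obtain ⟨δ', hδ'd⟩ : ∃ δ' : ℝ, δ' = min δ₀ (1 / 4) := ⟨_, rfl⟩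
  have hδ' : 0 < δ' := by rw [hδ'd]; exact lt_min hδ₀ (by norm_num)
  have hδ'1 : δ' ≤ δ₀ := by rw [hδ'd]; exact min_le_left _ _
  have hδ'2 : δ' ≤ 1 / 4 := by rw [hδ'd]; exact min_le_right _ _
  obtain ⟨ε₁, hε₁, hε₁25, _, N₁, STEP⟩ := STEP δ' hδ'
  have hε₁2 : ε₁ ≤ 1 / 2 := by linarith
  have hε₁1 : ε₁ ≤ 1 := by linarith
  obtain ⟨N₂, hinv⟩ := sum_inv_FF ε₁ hε₁ hε₁1
  refine ⟨c₀ * cz / 8, by positivity, fun k => ?_⟩
  obtain ⟨κ₁, hκ₁, hκ₁1, HQ⟩ := HQ δ' hδ' hδ'1 ε₁ hε₁ hε₁2 (k + 4 + 3)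
  obtain ⟨κ₂, hκ₂, hκ₂1, HF⟩ := few_par' (k + 4 + 3) (1 / 4) (by norm_num) (by norm_num)
  obtain ⟨κ, hκd⟩ : ∃ κ : ℝ, κ = min κ₁ κ₂ := ⟨_, rfl⟩
  have hκ : 0 < κ := by rw [hκd]; exact lt_min hκ₁ hκ₂
  have hκ1 : κ ≤ κ₁ := by rw [hκd]; exact min_le_left _ _
  have hκ2 : κ ≤ κ₂ := by rw [hκd]; exact min_le_right _ _
  have hκ01 : κ ≤ 1 := hκ1.trans hκ₁1
  obtain ⟨C, HQ⟩ := HQ κ hκ hκ1
  obtain ⟨C', HF⟩ := HF κ hκ hκ2
  obtain ⟨cp, hcp, hlow⟩ := Pool.Agent.Y822.PT_low (k + 1)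
  have hm0 := main0 κ hκ hκ01 (k + 1) (k + 4) (1 / 2) (by norm_num) (by norm_num)
  refine ⟨max C C' + 2, ?_⟩
  obtain ⟨q, hq⟩ : ∃ q : ℝ, q = 1 + Real.exp 1 / ε₁ := ⟨_, rfl⟩
  have e1 := ev_logN (eventually_ge_atTop (max (max 3 (12 * q)) (max ((2 : ℝ) ^ (k + 1))
    (max (8 * (k + 3) / ((c₀ * cz) ^ (k + 1) * cp)) (4 * ((k : ℝ) + 2) ^ 3)))))
  have e2 := ev_logN (ev_pow_exp (k + 4) (1 / 7) 24 (by norm_num))
  have e3 := ev_logN (ev_pow_exp (k + 4) 1 1 (by norm_num))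
  filter_upwards [HQ, HF, hm0, yN_facts κ hκ hκ01 (max C0 3) 1, zN_facts ε₁ hε₁ hε₁1 3,
    yN_le_zN κ ε₁ hκ hκ01 hε₁ hε₁1, e1, e2, e3, eventually_ge_atTop (max (max N₁ N₂) 3)]
    with N HQ HF hm hyf hzf hyz h1 h2 h3 hN
  intro A hA Bad hBad
  have hNN₁ : N₁ ≤ N := ((le_max_left _ _).trans (le_max_left _ _)).trans hN
  have hNN₂ : N₂ ≤ N := ((le_max_right _ _).trans (le_max_left _ _)).trans hN
  have hN3 : 3 ≤ N := (le_max_right _ _).trans hN
  have hN2 : 2 ≤ N := by omega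
  obtain ⟨y1, y2, y3, y4, y5⟩ := hyf
  obtain ⟨z1, z2, z3, z4, z5⟩ := hzf
  set y := yN κ N with hy
  set z := zN ε₁ N with hz
  set L := Real.log N with hLd
  have hN0 : (0 : ℝ) < N := by positivity
  have hL3 : 3 ≤ L := ((le_max_left _ _).trans (le_max_left _ _)).trans h1
  have hLq : 12 * q ≤ L := ((le_max_right _ _).trans (le_max_left _ _)).trans h1
  have hL2k : (2 : ℝ) ^ (k + 1) ≤ L := ((le_max_left _ _).trans (le_max_right _ _)).trans h1
  have hLb : 8 * (k + 3) / ((c₀ * cz) ^ (k + 1) * cp) ≤ L :=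
    ((le_max_left _ _).trans ((le_max_right _ _).trans (le_max_right _ _))).trans h1
  have hLk : 4 * ((k : ℝ) + 2) ^ 3 ≤ L :=
    ((le_max_right _ _).trans ((le_max_right _ _).trans (le_max_right _ _))).trans h1
  have hL0 : 0 < L := by linarith
  have hL1 : 1 ≤ L := by linarith
  have hyC0 : C0 ≤ y := (le_max_left _ _).trans y5
  have hy3 : 3 ≤ y := (le_max_right _ _).trans y5
  have hz3 : 3 ≤ z := z2
  set x : ℝ := N / L ^ (k + 4) with hx
  have hx0 : 0 ≤ x := by positivity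
  have hx1 : 1 ≤ x := by
    rw [hx, le_div_iff₀ (by positivity), one_mul]
    rw [one_mul, one_mul] at h3
    rwa [hLd, Real.exp_log hN0] at h3
  -- the factor of one step
  set u : ℝ := c₀ * ε₁ * VP (Pin N y ε₁) with hu
  have hVP : 0 ≤ VP (Pin N y ε₁) ∧ VP (Pin N y ε₁) ≤ 1 := by
    unfold VP
    have hb : ∀ p ∈ Pin N y ε₁, 0 ≤ 1 - 1 / (p : ℝ) ∧ 1 - 1 / (p : ℝ) ≤ 1 := by
      intro p hp
      have hp1 : (1 : ℝ) ≤ p := by exact_mod_cast (mem_Pin.1 hp).2.1.one_lt.le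
      have : 1 / (p : ℝ) ≤ 1 := by rw [div_le_one (by linarith)]; exact hp1
      have h0 : 0 ≤ 1 / (p : ℝ) := by positivity
      constructor <;> linarith
    exact ⟨prod_nonneg fun p hp => (hb p hp).1, prod_le_one (fun p hp => (hb p hp).1) fun p hp => (hb p hp).2⟩
  have hu0 : 0 ≤ u := by rw [hu]; exact mul_nonneg (by positivity) hVP.1
  have hu1 : u ≤ 1 := by
    rw [hu]
    have : c₀ * ε₁ ≤ 1 := mul_le_one₀ hc₀1 hε₁.le hε₁1
    exact mul_le_one₀ this hVP.1 hVP.2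
  have hVz0 : 0 ≤ Vz y := by
    unfold Vz
    refine prod_nonneg fun p hp => ?_
    have hp1 : (1 : ℝ) ≤ p := by exact_mod_cast (mem_pz.1 hp).2.one_lt.le
    have : 1 / (p : ℝ) ≤ 1 := by rw [div_le_one (by linarith)]; exact hp1
    linarith
  have huV : c₀ * cz / L ≤ u * Vz y := by
    have t1 : u * Vz y = c₀ * ε₁ * Vz z := by
      rw [hu, mul_assoc, VP_Vz hN2 hyz z5]
    rw [t1]
    have t2 := VZ z hz3
    have hz0 : (0 : ℝ) < z := by positivity
    have t3 : Real.log z ≤ ε₁ * L := by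
      have h5 := (zN_lt (ε₁ := ε₁) (N := N) (by omega)).le
      rw [← hz] at h5
      calc Real.log z ≤ Real.log ((N : ℝ) ^ ε₁) := Real.log_le_log hz0 h5
        _ = ε₁ * L := Real.log_rpow hN0 _
    have t4 : 0 < Real.log z := Real.log_pos (by exact_mod_cast (by omega : 1 < z))
    have t5 : cz / (ε₁ * L) ≤ Vz z := (div_le_div_of_nonneg_left hcz.le t4 t3).trans t2
    calc c₀ * cz / L = c₀ * ε₁ * (cz / (ε₁ * L)) := by field_simp
      _ ≤ c₀ * ε₁ * Vz z := mul_le_mul_of_nonneg_left t5 (by positivity)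
  -- the sets which are not good
  have hbad : ∀ H ∈ Bad, H ∈ A.powersetCard (k + 1) ∧
      ¬ Good eO (g2 N) (ro y) (Zf N y ε₁ δ') x H := by
    intro H hH
    obtain ⟨b1, b2, b3⟩ := hBad H hH
    refine ⟨b1, fun hg => ?_⟩
    rw [mem_powersetCard] at b1
    have h0 : 0 ∉ H := fun h => by
      have := (hA 0 (b1.1 h)).1
      omega
    have hHN : ∀ h ∈ H, h ≤ N := fun h hh => (hA h (b1.1 hh)).2
    obtain ⟨c1, c2⟩ := hlow (pat H) (by rw [card_pat h0, b1.2]) b2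
    -- the constants
    have hCP : CT (pat H) ≤ 2 * PT (pat H) y := by
      have g1 := CT_up (pat H) N y (fun t ht => by
        unfold pat at ht
        rw [mem_insert] at ht
        rcases ht with rfl | ht
        · omega
        · exact hHN t ht) (by omega)
      rw [card_pat h0, b1.2] at g1
      refine g1.trans (mul_le_mul_of_nonneg_right ?_ (PT_nonneg _ _))
      have hy0 : (0 : ℝ) < y := by positivity
      have g2 : (Nat.log y N : ℝ) ≤ L := by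
        have g3 : (Nat.log y N : ℝ) ≤ Real.logb y (N : ℝ) := Real.natLog_le_logb _ _
        have g4 : 1 ≤ Real.log y := by
          rw [Real.le_log_iff_exp_le hy0]
          have h5 : (3 : ℝ) ≤ y := by exact_mod_cast hy3
          have := Real.exp_one_lt_d9
          linarith
        refine g3.trans ?_
        rw [Real.logb]
        exact div_le_self hL0.le g4
      have g5 : L ^ 3 ≤ y := (pow_le_pow_right₀ hL1 (le_max_right _ _)).trans y3
      have g6 : 2 * (((k + 1 + 1 : ℕ) : ℝ)) ^ 3 * (Nat.log y N) / y ≤ 1 / 2 := by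
        rw [div_le_div_iff₀ hy0 (by norm_num)]
        have g7 : (((k + 1 + 1 : ℕ) : ℝ)) ^ 3 = ((k : ℝ) + 2) ^ 3 := by push_cast; ring
        rw [g7]
        calc 2 * ((k : ℝ) + 2) ^ 3 * (Nat.log y N) * 2 = 4 * ((k : ℝ) + 2) ^ 3 * (Nat.log y N) := by ring
          _ ≤ L * L := mul_le_mul hLk g2 (Nat.cast_nonneg _) hL0.le
          _ ≤ L ^ 3 := by
              rw [pow_succ, sq]
              exact le_mul_of_one_le_right (by positivity) hL1
          _ ≤ 1 * y := by rw [one_mul]; exact g5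
      calc Real.exp (2 * (((k + 1 + 1 : ℕ) : ℝ)) ^ 3 * (Nat.log y N) / y) ≤ Real.exp (1 / 2) :=
            Real.exp_le_exp.2 g6
        _ ≤ 2 := by
            have h5 := one_sub_ge_exp (t := 1 / 4) (by norm_num) (by norm_num)
            have h6 : Real.exp (1 / 2) * Real.exp (-(2 * (1 / 4))) = 1 := by
              rw [← Real.exp_add]; norm_num
            have h7 := Real.exp_pos (1 / 2)
            have h8 : 1 / 2 ≤ Real.exp (-(2 * (1 / 4))) := by
              have := Real.add_one_le_exp (-(2 * (1 / 4) : ℝ))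
              linarith
            nlinarith
    -- one step
    have hZ : ∀ t ∈ H, ∀ S1 ⊆ H.erase t,
        u * ∑ n ∈ Icc 1 N, WH eO (g2 N) (ro y) (H.erase t) S1 n * ro y (n + t) - x ≤
          ∑ n ∈ Icc 1 N, WH eO (g2 N) (ro y) (H.erase t) S1 n * g2 N (n + t) := by
      intro t ht S1 hS1
      set f := WH eO (g2 N) (ro y) (H.erase t) S1 with hf
      have hf01 : ∀ n, 0 ≤ f n ∧ f n ≤ 1 := WH_bd eO_bd (g2_bd N) (ro_bd y) _ _
      have hfodd : ∀ n, f n ≠ 0 → Odd n := by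
        intro n hn
        apply eO_odd
        intro h0'
        apply hn
        rw [hf]
        unfold WH
        rw [h0', zero_mul]
      have hev := adm_even b2 ht
      have hgood := hg t ht S1 hS1
      rw [← hf] at hgood
      unfold Zf at hgood
      rw [if_pos hev, fo_eq hfodd] at hgood
      have hs := STEP N hNN₁ y hyC0 f hf01 t (hHN t ht)
      have he := err_le (y := y) (ε₁ := ε₁) (δ' := δ') hN2 f hfodd t hev
      have hi := mul_le_mul_of_nonneg_right (hinv N hNN₂) (LD_nonneg y ⌊(N : ℝ) ^ δ'⌋₊ N f t)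
      have hW0 : 0 ≤ W0 y N f t := sum_nonneg fun n _ => mul_nonneg (hf01 n).1 (ro_nonneg _ _)
      have h5 : u * ∑ n ∈ Icc 1 N, f n * ro y (n + t) ≤ c₀' * ε₁ * (W0 y N f t * VP (Pin N y ε₁)) := by
        have e : u * ∑ n ∈ Icc 1 N, f n * ro y (n + t) = c₀ * (ε₁ * (W0 y N f t * VP (Pin N y ε₁))) := by
          rw [hu]; unfold W0; ring
        rw [e, mul_assoc c₀']
        exact mul_le_mul_of_nonneg_right hc₀2 (mul_nonneg hε₁.le (mul_nonneg hW0 hVP.1))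
      have h6 : 3 * (L + 3) * (∑ d ∈ insert 1 (FF N ε₁), ∑ T ∈ (Pin N y ε₁).powerset.filter
          (fun T : Finset ℕ => ((∏ p ∈ T, p : ℕ) : ℝ) ≤ (N : ℝ) ^ δ'), |rr y N f t (d * ∏ p ∈ T, p)|) ≤
          3 * (L + 3) * (ZZ y N (SSm N y ε₁ δ') (FF N ε₁) f t +
            Real.exp 1 / ε₁ * LD y ⌊(N : ℝ) ^ δ'⌋₊ N f t) :=
        mul_le_mul_of_nonneg_left (by linarith) (by positivity)
      linarith
    have hlower := step_lower' (H := H) hx0 hu0 hu1 hZ H (subset_refl _)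
    rw [b1.2] at hlower
    have hmain := (abs_le.1 (hm (g2 N) H h0 b1.2)).1
    have hPO := WH_eP_eO (g2 N) y N H
    have hfull := WH_full_le N y H
    have hfin := low_calc (k := k) (cs := c₀ * cz) (cp := cp) (L := L) (n := N) (u := u) (V := Vz y)
      (PTy := PT (pat H) y) (W := ∑ n ∈ Icc 1 N, WH eO (g2 N) (ro y) H ∅ n) (xN := x) (CTy := CT (pat H))
      (P := pi2 H N) (by positivity) hcp hL1 hN0 hLb hu0 hu1 hVz0 huV (PT_nonneg _ _) c2 hCP
      (by linarith) rfl hx1 (by push_cast at hlower; linarith)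
    linarith
  have hfew := few_Z (k + 4) (C := C) (C' := C') hε₁ hq hN2 hL3 hLq h2
    (fun f hf S hS => HQ f hf (FF N ε₁) (fun e he => by
      obtain ⟨g1, g2, g3, g4, g5⟩ := FF_facts hN2 he
      exact ⟨⟨g1, g2⟩, g3, g4, g5⟩) S hS)
    (fun f hf S hS => HF ⌊(N : ℝ) ^ δ'⌋₊ (by
      refine (Nat.floor_le (by positivity)).trans ?_
      apply Real.rpow_le_rpow_of_exponent_le (by exact_mod_cast (by omega : 1 ≤ N))
      linarith) f hf S hS)
  have hfinal := few_bad (K := L ^ C + L ^ C') (by positivity) eO_bd (g2_bd N) (ro_bd y)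
    hfew k A (fun a ha => (hA a ha).2) Bad hbad
  refine hfinal.trans (mul_le_mul_of_nonneg_left ?_ (Nat.cast_nonneg _))
  have g1 : (2 : ℝ) ^ k ≤ L := by
    have : (2 : ℝ) ^ k ≤ 2 ^ (k + 1) := pow_le_pow_right₀ (by norm_num) (by omega)
    linarith
  have g2 : L ^ C ≤ L ^ max C C' := pow_le_pow_right₀ hL1 (le_max_left _ _)
  have g3 : L ^ C' ≤ L ^ max C C' := pow_le_pow_right₀ hL1 (le_max_right _ _)
  calc (2 : ℝ) ^ k * (L ^ C + L ^ C') ≤ L * (L ^ max C C' + L ^ max C C') := by gcongr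
    _ = 2 * L ^ (max C C' + 1) := by ring
    _ ≤ L * L ^ (max C C' + 1) := mul_le_mul_of_nonneg_right (by linarith) (by positivity)
    _ = L ^ (max C C' + 2) := by ring

end Pool.Agent.Y822.Low
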