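import Mathlib
import Pool.Agent.Y822.Dual
import Pool.Agent.Y822.Par
import Pool.Agent.W356.UBSel
import Pool.Agent.H343R2.PhiSum

/-! Selberg's upper bound sieve on the primes above `y`. -/

set_option autoImplicit false

namespace Pool.Agent.Y822

open Finset Filter
open Pool.Agent.H373R2.T7 (pz Vz mem_pz)
open Pool.Agent.W25.UB (ds sq GG)

/-- comparison of the two sieves -/
lemma GG_low (y z : ℕ) (hz : 1 ≤ z) : Real.log z * Vz y ≤ GG (PP y z) z := by
  classical
  have h1 := H343.PhiSum.totient_lower z hz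
  have hV : 0 < Vz y := by
    unfold Vz
    refine prod_pos fun p hp => ?_
    have : (2 : ℝ) ≤ p := by exact_mod_cast (mem_pz.1 hp).2.two_le
    rw [sub_pos, div_lt_one (by linarith)]
    linarith
  -- the product over the small primes
  have hprod : ∑ S ∈ (pz y).powerset, ∏ p ∈ S, (1 / ((p : ℝ) - 1)) = 1 / Vz y := by
    rw [← prod_one_add]
    unfold Vz
    rw [one_div, ← prod_inv_distrib]
    refine prod_congr rfl fun p hp => ?_
    have : (2 : ℝ) ≤ p := by exact_mod_cast (mem_pz.1 hp).2.two_le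
    have h2 : (p : ℝ) - 1 ≠ 0 := by
      have : 0 < (p : ℝ) - 1 := by linarith
      exact this.ne'
    have h3 : (p : ℝ) ≠ 0 := by positivity
    have h4 : 1 - 1 / (p : ℝ) = ((p : ℝ) - 1) / p := by field_simp
    rw [h4, inv_div]
    field_simp
    ring
  have htot : ∀ q : ℕ, Squarefree q → (1 : ℝ) / Nat.totient q = ∏ p ∈ q.primeFactors, (1 / ((p : ℝ) - 1)) := by
    intro q hq
    have hq0 : q ≠ 0 := hq.ne_zero
    have h3 : Nat.totient q = ∏ p ∈ q.primeFactors, (p - 1) := by
      have h4 := Nat.totient_mul_prod_primeFactors q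
      have h5 := Nat.prod_primeFactors_of_squarefree hq
      rw [h5] at h4
      rw [mul_comm] at h4
      exact Nat.eq_of_mul_eq_mul_left (Nat.pos_of_ne_zero hq0) h4
    rw [h3, prod_div_distrib, prod_const_one]
    congr 1
    push_cast
    refine prod_congr rfl fun p hp => ?_
    have := (Nat.prime_of_mem_primeFactors hp).one_lt.le
    push_cast [Nat.cast_sub this]
    ring
  have hle : H343.LL 0 z ≤ (∑ S ∈ (pz y).powerset, ∏ p ∈ S, (1 / ((p : ℝ) - 1))) *
      GG (PP y z) z := by
    unfold H343.LL GG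
    rw [sum_mul_sum, ← sum_product']
    have hinj : Set.InjOn (fun q : ℕ => (q.primeFactors.filter (fun p => p ≤ y),
        ∏ p ∈ q.primeFactors.filter (fun p => ¬ p ≤ y), p)) (H343.Mod 0 z : Set ℕ) := by
      intro q hq q' hq' h
      simp only [Prod.mk.injEq] at h
      rw [mem_coe, H343.Mod, mem_filter] at hq hq'
      have e : ∀ q : ℕ, Squarefree q → q = (∏ p ∈ q.primeFactors.filter (fun p => p ≤ y), p) *
          ∏ p ∈ q.primeFactors.filter (fun p => ¬ p ≤ y), p := by
        intro q hq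
        rw [prod_filter_mul_prod_filter_not]
        exact (Nat.prod_primeFactors_of_squarefree hq).symm
      rw [e q hq.2, e q' hq'.2, h.1, h.2]
    have hterm : ∀ q ∈ H343.Mod 0 z, (1 : ℝ) / Nat.totient q =
        (∏ p ∈ q.primeFactors.filter (fun p => p ≤ y), (1 / ((p : ℝ) - 1))) *
          (1 / (Nat.totient (∏ p ∈ q.primeFactors.filter (fun p => ¬ p ≤ y), p) : ℝ)) := by
      intro q hq
      rw [H343.Mod, mem_filter] at hq
      have hpf : (∏ p ∈ q.primeFactors.filter (fun p => ¬ p ≤ y), p).primeFactors =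
          q.primeFactors.filter (fun p => ¬ p ≤ y) :=
        Nat.primeFactors_prod fun p hp => Nat.prime_of_mem_primeFactors (mem_filter.1 hp).1
      have hsq : Squarefree (∏ p ∈ q.primeFactors.filter (fun p => ¬ p ≤ y), p) := by
        refine hq.2.squarefree_of_dvd ?_
        refine (prod_dvd_prod_of_subset _ _ _ (filter_subset _ _)).trans ?_
        exact Nat.prod_primeFactors_dvd q
      rw [htot q hq.2, htot _ hsq, hpf, prod_filter_mul_prod_filter_not]
    rw [sum_congr rfl hterm]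
    rw [← sum_image (f := fun x : Finset ℕ × ℕ => (∏ p ∈ x.1, (1 / ((p : ℝ) - 1))) *
      (1 / (Nat.totient x.2 : ℝ))) hinj]
    refine sum_le_sum_of_subset_of_nonneg ?_ ?_
    · intro x hx
      rw [mem_image] at hx
      obtain ⟨q, hq, rfl⟩ := hx
      rw [H343.Mod, mem_filter, mem_Ioc] at hq
      rw [mem_product]
      have hdvd : (∏ p ∈ q.primeFactors.filter (fun p => ¬ p ≤ y), p) ∣ q :=
        (prod_dvd_prod_of_subset _ _ _ (filter_subset _ _)).trans (Nat.prod_primeFactors_dvd q)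
      have hpf : (∏ p ∈ q.primeFactors.filter (fun p => ¬ p ≤ y), p).primeFactors =
          q.primeFactors.filter (fun p => ¬ p ≤ y) :=
        Nat.primeFactors_prod fun p hp => Nat.prime_of_mem_primeFactors (mem_filter.1 hp).1
      have hle := Nat.le_of_dvd (by omega) hdvd
      have hpos : 0 < ∏ p ∈ q.primeFactors.filter (fun p => ¬ p ≤ y), p :=
        Nat.pos_of_dvd_of_pos hdvd (by omega)
      constructor
      · rw [mem_powerset]
        intro p hp
        simp only [mem_filter] at hp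
        exact mem_pz.2 ⟨hp.2, Nat.prime_of_mem_primeFactors hp.1⟩
      · simp only [Pool.Agent.W25.UB.sq, mem_filter, mem_Icc]
        refine ⟨⟨hpos, hle.trans hq.1.2⟩, hq.2.squarefree_of_dvd hdvd, ?_⟩
        intro p hp hpd
        have h5 : p ∈ (∏ p ∈ q.primeFactors.filter (fun p => ¬ p ≤ y), p).primeFactors :=
          Nat.mem_primeFactors.2 ⟨hp, hpd, hpos.ne'⟩
        rw [hpf, mem_filter] at h5
        rw [mem_PP]
        refine ⟨⟨not_le.1 h5.2, ?_⟩, hp⟩
        exact (Nat.le_of_dvd hpos hpd).trans (hle.trans hq.1.2)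
    · intro x hx _
      rw [mem_product, mem_powerset] at hx
      refine mul_nonneg (prod_nonneg fun p hp => ?_) (by positivity)
      have : (2 : ℝ) ≤ p := by exact_mod_cast (mem_pz.1 (hx.1 hp)).2.two_le
      have h6 : 0 < (p : ℝ) - 1 := by linarith
      positivity
  rw [hprod] at hle
  have h2 : Real.log z ≤ 1 / Vz y * GG (PP y z) z := h1.trans hle
  rw [one_div, inv_mul_eq_div, le_div_iff₀ hV] at h2
  exact h2

/-- the Selberg weights: coefficients -/
theorem sel (y z : ℕ) (hz : 1 ≤ z) : ∃ c : ℕ → ℝ, Co y c ∧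
    (∀ m : ℕ, 0 ≤ ∑ d ∈ Icc 1 (z ^ 2), c d * (if d ∣ m then 1 else 0)) ∧
    (∀ m : ℕ, (∀ p ∈ PP y z, ¬ p ∣ m) → ∑ d ∈ Icc 1 (z ^ 2), c d * (if d ∣ m then 1 else 0) = 1) ∧
    ∑ d ∈ Icc 1 (z ^ 2), c d / d = 1 / GG (PP y z) z := by
  classical
  obtain ⟨c, h1, h2, h3, h4, h5, h6⟩ := Pool.Agent.W356.UBSel.main (PP y z) z hz
    (fun p hp => (mem_PP.1 hp).2)
  have hds : ∀ m : ℕ, ds c (z ^ 2) (m : ℤ) = ∑ d ∈ Icc 1 (z ^ 2), c d * (if d ∣ m then 1 else 0) := by
    intro m
    unfold ds
    refine sum_congr rfl fun d _ => ?_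
    by_cases h : d ∣ m
    · rw [if_pos h, if_pos (Int.natCast_dvd_natCast.2 h)]
    · rw [if_neg h, if_neg (fun h' => h (Int.natCast_dvd_natCast.1 h'))]
  refine ⟨c, ⟨h4, ?_⟩, ?_, ?_, h6⟩
  · intro d hd
    have := h5 d hd
    simp only [Pool.Agent.W25.UB.sq, mem_filter, mem_Icc] at this
    refine ⟨this.2.1, fun p hp hpy hpd => ?_⟩
    have h7 := mem_PP.1 (this.2.2 p hp hpd)
    omega
  · intro m
    rw [← hds]
    exact h1 m
  · intro m hm
    rw [← hds]
    exact h2 m fun p hp h => hm p hp (Int.natCast_dvd_natCast.1 h)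

end Pool.Agent.Y822
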