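import Mathlib
import Pool.Agent.Y822.Main0
import Pool.Agent.Y822.Sel

/-! The upper bound for almost all patterns, with a constant that is exponential in the length. -/

set_option autoImplicit false

namespace Pool.Agent.Y822

open Finset Filter
open Pool.Agent.H373R2.T7 (pz Vz mem_pz)
open Pool.Agent.H387R2.Uni (nuT Adm locT CT)

/-- the number of primes `p ≤ N` such that all `p + h`, `h ∈ H`, are prime -/
def piH (H : Finset ℕ) (N : ℕ) : ℕ :=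
  ((Icc 1 N).filter (fun p => p.Prime ∧ ∀ h ∈ H, (p + h).Prime)).card

/-- few shifts, with parameters -/
theorem few_par (U : ℕ) (η : ℝ) (hη : 0 < η) (hη1 : η ≤ 1 / 4) : ∃ κ : ℝ, 0 < κ ∧ κ ≤ 1 ∧
    ∃ C : ℕ, ∀ᶠ N : ℕ in atTop, ∀ D : ℕ, (D : ℝ) ≤ (N : ℝ) ^ (1 / 2 - η) →
    ∀ f : ℕ → ℝ, (∀ n, |f n| ≤ 1) → ∀ S : Finset ℕ,
      (∀ a ∈ S, a ≤ N ∧ N / Real.log N ^ U < LD (yN κ N) D N f a) →
      (S.card : ℝ) ≤ Real.log N ^ C := by
  obtain ⟨κ, hκ, hκ1, C, hkl⟩ := kl_par (2 * U + 1) η hη hη1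
  refine ⟨κ, hκ, hκ1, C + 2 * U + 1, ?_⟩
  filter_upwards [hkl, ev_logN (eventually_ge_atTop (2 : ℝ)), eventually_ge_atTop 3] with N h1 h2 hN D
    hD f hf S hS
  obtain ⟨hoff, hdiag⟩ := h1 D hD
  set L := Real.log N with hL
  have hL0 : 0 < L := by linarith
  have hN0 : (0 : ℝ) < N := by positivity
  have hx : (1 : ℝ) / L ^ U * N = N / L ^ U := by ring
  have h3 := few_shifts (y := yN κ N) (D := D) (N := N) (by omega) (DG := N * L ^ C)
    (OG := N / L ^ (2 * U + 1)) (η := 1 / L ^ U) (by positivity) (by positivity) (by positivity)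
    hdiag hoff ?_ f (fun n _ => hf n) S ?_
  · refine h3.trans (le_of_eq_of_le ?_ (?_ : 2 * L ^ (C + 2 * U) ≤ L ^ (C + 2 * U + 1)))
    · have e : L ^ (2 * U) = L ^ U * L ^ U := by rw [two_mul, pow_add]
      rw [pow_add, e]
      field_simp
    · rw [pow_succ, mul_comm]
      exact mul_le_mul_of_nonneg_left h2 (by positivity)
  · have e : (1 / L ^ U) ^ 2 * N / 2 = N / (L ^ (2 * U) * 2) := by
      rw [mul_comm 2 U, pow_mul]
      field_simp
    rw [e, pow_succ]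
    exact div_le_div_of_nonneg_left hN0.le (by positivity)
      (mul_le_mul_of_nonneg_left h2 (by positivity))
  · intro a ha
    rw [hx]
    exact hS a ha

lemma one_le_GG (y z : ℕ) (hz : 1 ≤ z) : 1 ≤ Pool.Agent.W25.UB.GG (PP y z) z := by
  classical
  unfold Pool.Agent.W25.UB.GG
  have h1 : 1 ∈ Pool.Agent.W25.UB.sq (PP y z) z := by
    simp only [Pool.Agent.W25.UB.sq, mem_filter, mem_Icc]
    refine ⟨⟨le_rfl, hz⟩, squarefree_one, fun p hp h => ?_⟩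
    exact absurd (Nat.dvd_one.1 h) hp.one_lt.ne'
  have h2 := single_le_sum (f := fun d : ℕ => 1 / (Nat.totient d : ℝ))
    (s := Pool.Agent.W25.UB.sq (PP y z) z) (fun d _ => by positivity) h1
  simpa using h2

/-- the sieve step -/
lemma sieve_step {y z N : ℕ} (hyz : y ≤ z) {c : ℕ → ℝ} (hc : Co y c)
    (h1 : ∀ m : ℕ, 0 ≤ ∑ d ∈ Icc 1 (z ^ 2), c d * (if d ∣ m then 1 else 0))
    (h2 : ∀ m : ℕ, (∀ p ∈ PP y z, ¬ p ∣ m) →
      ∑ d ∈ Icc 1 (z ^ 2), c d * (if d ∣ m then 1 else 0) = 1)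
    (f : ℕ → ℝ) (hf : ∀ n, 0 ≤ f n ∧ f n ≤ 1) (h : ℕ) :
    ∑ n ∈ Icc 1 N, f n * ro z (n + h) ≤ (∑ d ∈ Icc 1 (z ^ 2), c d / d) *
      ∑ n ∈ Icc 1 N, f n * ro y (n + h) + LD y (z ^ 2) N f h := by
  have hpt : ∀ m : ℕ, ro z m ≤ (∑ d ∈ Icc 1 (z ^ 2), c d / d) * ro y m + GF y (z ^ 2) c m := by
    intro m
    have e : (∑ d ∈ Icc 1 (z ^ 2), c d / d) * ro y m + GF y (z ^ 2) c m =
        ro y m * ∑ d ∈ Icc 1 (z ^ 2), c d * (if d ∣ m then 1 else 0) := by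
      unfold GF cen
      simp only [mul_sub, sum_sub_distrib]
      have : ∑ d ∈ Icc 1 (z ^ 2), c d * (1 / (d : ℝ)) = ∑ d ∈ Icc 1 (z ^ 2), c d / d :=
        sum_congr rfl fun d _ => by ring
      rw [this]
      ring
    rw [e]
    by_cases hm : Ro z m
    · have hy : Ro y m := fun p hp hpy => hm p hp (hpy.trans hyz)
      have hPP : ∀ p ∈ PP y z, ¬ p ∣ m := fun p hp => hm p (mem_PP.1 hp).2 (mem_PP.1 hp).1.2
      rw [h2 m hPP, mul_one]
      unfold ro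
      rw [if_pos hm, if_pos hy]
    · have : ro z m = 0 := by unfold ro; rw [if_neg hm]
      rw [this]
      exact mul_nonneg (ro_nonneg y m) (h1 m)
  calc ∑ n ∈ Icc 1 N, f n * ro z (n + h)
      ≤ ∑ n ∈ Icc 1 N, f n * ((∑ d ∈ Icc 1 (z ^ 2), c d / d) * ro y (n + h) +
          GF y (z ^ 2) c (n + h)) :=
        sum_le_sum fun n _ => mul_le_mul_of_nonneg_left (hpt _) (hf n).1
    _ = (∑ d ∈ Icc 1 (z ^ 2), c d / d) * ∑ n ∈ Icc 1 N, f n * ro y (n + h) +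
          ∑ n ∈ Icc 1 N, f n * GF y (z ^ 2) c (n + h) := by
        rw [mul_sum, ← sum_add_distrib]
        refine sum_congr rfl fun n _ => ?_
        ring
    _ ≤ _ := by
        have := (le_abs_self _).trans (sum_GF_le (D := z ^ 2) (N := N) (f := f) (h := h) hc)
        linarith

/-- from the pattern count to the rough count -/
lemma piH_le (H : Finset ℕ) (N z : ℕ) (r : ℕ → ℝ) :
    (piH H N : ℝ) ≤ ∑ n ∈ Icc 1 N, WH eP (ro z) r H H n + z := by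
  classical
  have h1 : (Icc 1 N).filter (fun p => p.Prime ∧ ∀ h ∈ H, (p + h).Prime) ⊆
      ((Icc 1 N).filter (fun p => p.Prime ∧ ∀ h ∈ H, Ro z (p + h))) ∪ Icc 1 z := by
    intro p hp
    rw [mem_filter] at hp
    rw [mem_union, mem_filter]
    rcases Nat.lt_or_ge z p with hzp | hzp
    · refine Or.inl ⟨hp.1, hp.2.1, fun h hh q hq hqz hqd => ?_⟩
      have h2 := (Nat.prime_dvd_prime_iff_eq hq (hp.2.2 h hh)).1 hqd
      omega
    · exact Or.inr (mem_Icc.2 ⟨(mem_Icc.1 hp.1).1, hzp⟩)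
  have h2 := (card_le_card h1).trans (card_union_le _ _)
  rw [Nat.card_Icc, Nat.add_sub_cancel] at h2
  have h3 : ∑ n ∈ Icc 1 N, WH eP (ro z) r H H n =
      (((Icc 1 N).filter (fun p => p.Prime ∧ ∀ h ∈ H, Ro z (p + h))).card : ℝ) := by
    have h : ∀ n ∈ Icc 1 N, WH eP (ro z) r H H n =
        if (n.Prime ∧ ∀ h ∈ H, Ro z (n + h)) then (1 : ℝ) else 0 := by
      intro n _
      unfold WH eP
      rw [Finset.sdiff_self, prod_empty, mul_one]
      by_cases h1 : n.Prime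
      · rw [if_pos h1, one_mul]
        by_cases h2 : ∀ h ∈ H, Ro z (n + h)
        · rw [if_pos ⟨h1, h2⟩]
          refine prod_eq_one fun s hs => ?_
          unfold ro
          rw [if_pos (h2 s hs)]
        · rw [if_neg (fun h => h2 h.2)]
          push Not at h2
          obtain ⟨s, hs, hns⟩ := h2
          refine prod_eq_zero hs ?_
          unfold ro
          rw [if_neg hns]
      · rw [if_neg h1, if_neg (fun h => h1 h.1), zero_mul]
    rw [sum_congr rfl h, ← sum_filter, sum_const, nsmul_eq_mul, mul_one]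
  rw [h3]
  unfold piH
  exact_mod_cast h2

open Topology in
lemma exists_small (m : ℕ) (ε : ℝ) (hε : 0 < ε) : ∃ x : ℝ, 0 < x ∧ x ≤ 1 / 8 ∧
    (1 + x) ^ 2 * (4 / (1 - 4 * x)) ^ m ≤ 4 ^ m + ε := by
  have hc : ContinuousAt (fun x : ℝ => (1 + x) ^ 2 * (4 / (1 - 4 * x)) ^ m) 0 := by
    refine ContinuousAt.mul (by fun_prop) (ContinuousAt.pow ?_ m)
    refine ContinuousAt.div (by fun_prop) (by fun_prop) (by norm_num)
  have h0 : (1 + (0 : ℝ)) ^ 2 * (4 / (1 - 4 * 0)) ^ m = 4 ^ m := by norm_num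
  have h1 : ∀ᶠ x in 𝓝 (0 : ℝ), (1 + x) ^ 2 * (4 / (1 - 4 * x)) ^ m < 4 ^ m + ε := by
    refine hc.eventually_lt continuousAt_const ?_
    rw [h0]
    linarith
  obtain ⟨δ, hδ, h2⟩ := Metric.eventually_nhds_iff.1 h1
  refine ⟨min (δ / 2) (1 / 8), by positivity, min_le_right _ _, ?_⟩
  refine (h2 ?_).le
  rw [Real.dist_eq, sub_zero, abs_of_pos (by positivity)]
  exact (min_le_left _ _).trans_lt (by linarith)

/-- the sieve level -/
lemma z_facts (x : ℝ) (hx : 0 < x) (hx8 : x ≤ 1 / 8) (N y : ℕ) (hN : 3 ≤ N) (y4 : y ^ 8 ≤ N)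
    (h3 : 8 / x ≤ Real.log N) : ∃ z : ℕ, 1 ≤ z ∧ (1 / 4 - x) * Real.log N ≤ Real.log z ∧ y ≤ z ∧
      ((z ^ 2 : ℕ) : ℝ) ≤ (N : ℝ) ^ (1 / 2 - x) ∧ (z : ℝ) ≤ Real.exp (Real.log N / 2) := by
  have hN0 : (0 : ℝ) < N := by positivity
  have hN1 : (1 : ℝ) ≤ N := by exact_mod_cast (by omega : 1 ≤ N)
  have hL0 : 0 ≤ Real.log N := Real.log_nonneg hN1
  obtain ⟨z, hz⟩ : ∃ z : ℕ, z = ⌊(N : ℝ) ^ (1 / 4 - x / 2)⌋₊ := ⟨_, rfl⟩
  have hz1 : (z : ℝ) ≤ (N : ℝ) ^ (1 / 4 - x / 2) := by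
    rw [hz]; exact Nat.floor_le (by positivity)
  have hz2 : (N : ℝ) ^ (1 / 4 - x) ≤ z := by
    have g1 : (N : ℝ) ^ (1 / 4 - x / 2) < z + 1 := by rw [hz]; exact Nat.lt_floor_add_one _
    have g2 : (N : ℝ) ^ (1 / 4 - x / 2) = (N : ℝ) ^ (1 / 4 - x) * (N : ℝ) ^ (x / 2) := by
      rw [← Real.rpow_add hN0]; congr 1; ring
    have g3 : 2 ≤ (N : ℝ) ^ (x / 2) := by
      rw [Real.rpow_def_of_pos hN0]
      have g4 : 4 ≤ Real.log N * (x / 2) := by
        rw [div_le_iff₀ hx] at h3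
        linarith
      have := Real.add_one_le_exp (Real.log N * (x / 2))
      linarith
    have g4 : 1 ≤ (N : ℝ) ^ (1 / 4 - x) := Real.one_le_rpow hN1 (by linarith)
    rw [g2] at g1
    nlinarith
  have hz0 : (1 : ℝ) ≤ z := le_trans (Real.one_le_rpow hN1 (by linarith)) hz2
  refine ⟨z, by exact_mod_cast hz0, ?_, ?_, ?_, ?_⟩
  · rw [← Real.log_rpow hN0]
    exact Real.log_le_log (by positivity) hz2
  · have g1 : (y : ℝ) ^ 8 ≤ N := by exact_mod_cast y4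
    have g2 : (y : ℝ) ≤ (N : ℝ) ^ ((1 : ℝ) / 8) := by
      have : (y : ℝ) = ((y : ℝ) ^ 8) ^ ((1 : ℝ) / 8) := by
        rw [← Real.rpow_natCast, ← Real.rpow_mul (Nat.cast_nonneg _)]
        norm_num
      rw [this]
      exact Real.rpow_le_rpow (by positivity) g1 (by norm_num)
    have g3 : (y : ℝ) ≤ z := by
      refine g2.trans (le_trans ?_ hz2)
      exact Real.rpow_le_rpow_of_exponent_le hN1 (by linarith)
    exact_mod_cast g3
  · push_cast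
    calc (z : ℝ) ^ 2 ≤ ((N : ℝ) ^ (1 / 4 - x / 2)) ^ 2 := pow_le_pow_left₀ (by positivity) hz1 2
      _ = (N : ℝ) ^ (1 / 2 - x) := by
          rw [← Real.rpow_natCast, ← Real.rpow_mul hN0.le]
          congr 1
          push_cast
          ring
  · refine hz1.trans ?_
    rw [Real.rpow_def_of_pos hN0]
    apply Real.exp_le_exp.2
    have : Real.log N * (1 / 4 - x / 2) ≤ Real.log N * (1 / 2) :=
      mul_le_mul_of_nonneg_left (by linarith) hL0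
    linarith

/-- the final computation -/
lemma up_calc {k : ℕ} {x ε c0 L n u V PTy W xN zr CTy P : ℝ} (hx : 0 < x) (hx8 : x ≤ 1 / 8)
    (hε : 0 < ε) (hc0 : 0 < c0) (hL : 1 ≤ L) (hn : 0 < n)
    (hx4 : (1 + x) ^ 2 * (4 / (1 - 4 * x)) ^ (k + 1) ≤ 4 ^ (k + 1) + ε / 2)
    (hLb : 2 * (k + 4) / (ε * c0) ≤ L) (hu0 : 0 ≤ u) (hu1 : u ≤ 1) (hV : 0 ≤ V)
    (huV : u * V ≤ 4 / (1 - 4 * x) / L) (hPT0 : 0 ≤ PTy) (hc : c0 ≤ CTy)
    (hPT : PTy ≤ (1 + x) * CTy)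
    (hW : W ≤ (1 + x) * (n / L * (PTy * V ^ (k + 1))) + xN) (hxN : xN = n / L ^ (k + 4))
    (hz : zr ≤ xN) (hP : P ≤ u ^ (k + 1) * W + (k + 1) * xN + zr) :
    P ≤ (4 ^ (k + 1) + ε) * CTy * (n / L ^ (k + 2)) := by
  have hL0 : 0 < L := by linarith
  have hxN0 : 0 ≤ xN := by rw [hxN]; positivity
  have hCT0 : 0 < CTy := by linarith
  have h14 : 0 < 1 - 4 * x := by linarith
  have g1 : u ^ (k + 1) * W ≤ u ^ (k + 1) * ((1 + x) * (n / L * (PTy * V ^ (k + 1))) + xN) :=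
    mul_le_mul_of_nonneg_left hW (pow_nonneg hu0 _)
  have g2 : u ^ (k + 1) * xN ≤ xN := by
    have : u ^ (k + 1) ≤ 1 := pow_le_one₀ hu0 hu1
    calc u ^ (k + 1) * xN ≤ 1 * xN := mul_le_mul_of_nonneg_right this hxN0
      _ = xN := one_mul _
  have g3 : u ^ (k + 1) * ((1 + x) * (n / L * (PTy * V ^ (k + 1)))) =
      (1 + x) * (n / L) * PTy * (u * V) ^ (k + 1) := by
    rw [mul_pow]; ring
  have g4 : (u * V) ^ (k + 1) ≤ (4 / (1 - 4 * x) / L) ^ (k + 1) :=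
    pow_le_pow_left₀ (mul_nonneg hu0 hV) huV _
  have hnL : 0 ≤ n / L := by positivity
  have g5 : (1 + x) * (n / L) * PTy * (u * V) ^ (k + 1) ≤
      (1 + x) * (n / L) * ((1 + x) * CTy) * (4 / (1 - 4 * x) / L) ^ (k + 1) := by
    refine mul_le_mul ?_ g4 (pow_nonneg (mul_nonneg hu0 hV) _) ?_
    · exact mul_le_mul_of_nonneg_left hPT (mul_nonneg (by linarith) hnL)
    · exact mul_nonneg (mul_nonneg (by linarith) hnL) (mul_nonneg (by linarith) hCT0.le)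
  have g6 : (1 + x) * (n / L) * ((1 + x) * CTy) * (4 / (1 - 4 * x) / L) ^ (k + 1) =
      ((1 + x) ^ 2 * (4 / (1 - 4 * x)) ^ (k + 1)) * (CTy * (n / L ^ (k + 2))) := by
    rw [div_pow _ L, show k + 2 = k + 1 + 1 by ring, pow_succ L (k + 1)]
    field_simp
  have g7 : ((1 + x) ^ 2 * (4 / (1 - 4 * x)) ^ (k + 1)) * (CTy * (n / L ^ (k + 2))) ≤
      (4 ^ (k + 1) + ε / 2) * (CTy * (n / L ^ (k + 2))) :=
    mul_le_mul_of_nonneg_right hx4 (by positivity)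
  rw [mul_add, g3] at g1
  rw [g6] at g5
  have herr : ((k : ℝ) + 4) * xN ≤ ε / 2 * (CTy * (n / L ^ (k + 2))) := by
    have f1 : xN = n / L ^ (k + 2) / L ^ 2 := by
      rw [hxN, show k + 4 = (k + 2) + 2 by ring, pow_add]
      field_simp
    have f2 : 2 * (k + 4) / (ε * c0) ≤ L ^ 2 := by
      have : L ≤ L ^ 2 := by nlinarith
      linarith
    have f4 : ((k : ℝ) + 4) / L ^ 2 ≤ ε / 2 * CTy := by
      rw [div_le_iff₀ (by positivity)]
      rw [div_le_iff₀ (by positivity)] at f2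
      have f5 : c0 * L ^ 2 ≤ CTy * L ^ 2 := mul_le_mul_of_nonneg_right hc (by positivity)
      have f6 : ε * (c0 * L ^ 2) ≤ ε * (CTy * L ^ 2) := mul_le_mul_of_nonneg_left f5 hε.le
      linarith
    rw [f1]
    calc ((k : ℝ) + 4) * (n / L ^ (k + 2) / L ^ 2) = ((k : ℝ) + 4) / L ^ 2 * (n / L ^ (k + 2)) := by
          ring
      _ ≤ ε / 2 * CTy * (n / L ^ (k + 2)) := mul_le_mul_of_nonneg_right f4 (by positivity)
      _ = _ := by ring
  have e : (4 ^ (k + 1) + ε) * CTy * (n / L ^ (k + 2)) =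
    (4 ^ (k + 1) + ε / 2) * (CTy * (n / L ^ (k + 2))) + ε / 2 * (CTy * (n / L ^ (k + 2))) := by ring
  rw [e]
  linarith

/-- the tail of the constant -/
lemma PT_le_CT (T : Finset ℕ) (x : ℝ) (hx : 0 < x) (hx1 : x ≤ 1) (y : ℕ)
    (hy : (T.card : ℝ) ^ 2 * (2 / x) ≤ y) (hy1 : 1 ≤ y) :
    PT T y ≤ (1 + x) * CT T := by
  have hy0 : (0 : ℝ) < y := by exact_mod_cast hy1
  have hPT0 := PT_nonneg T y
  have hT2 : (T.card : ℝ) ^ 2 ≤ y := by
    have h1 : 1 ≤ 2 / x := by rw [le_div_iff₀ hx]; linarith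
    have h2 : (0 : ℝ) ≤ (T.card : ℝ) ^ 2 := by positivity
    nlinarith
  have g1 := CT_tail T y hy1 (by exact_mod_cast hT2)
  have g2 : (T.card : ℝ) ^ 2 / y ≤ x / 2 := by
    rw [div_le_iff₀ hy0]
    rw [mul_div_assoc', div_le_iff₀ hx] at hy
    linarith
  have g3 : (1 - x / 2) * PT T y ≤ CT T :=
    le_trans (mul_le_mul_of_nonneg_right (by linarith) hPT0) g1
  have g4 : (1 + x) * ((1 - x / 2) * PT T y) ≤ (1 + x) * CT T :=
    mul_le_mul_of_nonneg_left g3 (by linarith)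
  refine le_trans ?_ g4
  have : 1 ≤ (1 + x) * (1 - x / 2) := by nlinarith
  calc PT T y = 1 * PT T y := (one_mul _).symm
    _ ≤ (1 + x) * (1 - x / 2) * PT T y := mul_le_mul_of_nonneg_right this hPT0
    _ = _ := by ring

lemma Vz_nonneg (y : ℕ) : 0 ≤ Vz y := by
  unfold Vz
  refine prod_nonneg fun p hp => ?_
  have : (1 : ℝ) ≤ p := by exact_mod_cast (mem_pz.1 hp).2.one_lt.le
  rw [sub_nonneg, div_le_one (by linarith)]
  exact this

/-- one good set of shifts -/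
lemma good_bound {k : ℕ} {x ε c0 : ℝ} (hx : 0 < x) (hx8 : x ≤ 1 / 8) (hε : 0 < ε) (hc0 : 0 < c0)
    (hx4 : (1 + x) ^ 2 * (4 / (1 - 4 * x)) ^ (k + 1) ≤ 4 ^ (k + 1) + ε / 2) {N y z : ℕ}
    (hN : 3 ≤ N) (hL : 1 ≤ Real.log N) (hLb : 2 * (k + 4) / (ε * c0) ≤ Real.log N)
    (hz1 : 1 ≤ z) (hlz : (1 / 4 - x) * Real.log N ≤ Real.log z) (hyz : y ≤ z)
    (hzx : (z : ℝ) ≤ N / Real.log N ^ (k + 4))
    {c : ℕ → ℝ} (hc : Co y c)
    (s1 : ∀ m : ℕ, 0 ≤ ∑ d ∈ Icc 1 (z ^ 2), c d * (if d ∣ m then 1 else 0))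
    (s2 : ∀ m : ℕ, (∀ p ∈ PP y z, ¬ p ∣ m) →
      ∑ d ∈ Icc 1 (z ^ 2), c d * (if d ∣ m then 1 else 0) = 1)
    (s3 : ∑ d ∈ Icc 1 (z ^ 2), c d / d = 1 / Pool.Agent.W25.UB.GG (PP y z) z)
    {H : Finset ℕ} (hH : H.card = k + 1) (h0 : 0 ∉ H)
    (hgood : Good eP (ro z) (ro y) (LD y (z ^ 2) N) (N / Real.log N ^ (k + 4)) H)
    (hm0 : |∑ n ∈ Icc 1 N, WH eP (ro z) (ro y) H ∅ n -
        N / Real.log N * (PT (pat H) y * Vz y ^ (k + 1))| ≤
      x * (N / Real.log N * (PT (pat H) y * Vz y ^ (k + 1))) + N / Real.log N ^ (k + 4))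
    (hct : c0 ≤ CT (pat H)) (hpt : PT (pat H) y ≤ (1 + x) * CT (pat H)) :
    (piH H N : ℝ) ≤ (4 ^ (k + 1) + ε) * CT (pat H) * (N / Real.log N ^ (k + 2)) := by
  have hN0 : (0 : ℝ) < N := by positivity
  have hGG := one_le_GG y z hz1
  have hL0 : 0 < Real.log N := by linarith
  have hu0 : 0 ≤ ∑ d ∈ Icc 1 (z ^ 2), c d / d := by
    rw [s3]; exact div_nonneg zero_le_one (by linarith)
  have hu1 : ∑ d ∈ Icc 1 (z ^ 2), c d / d ≤ 1 := by
    rw [s3]; exact div_le_one_of_le₀ hGG (by linarith)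
  have hxN0 : 0 ≤ (N : ℝ) / Real.log N ^ (k + 4) := by positivity
  have t1 := step_upper hxN0 hu0 hu1 eP_bd (ro_bd z) (ro_bd y) (N := N)
    (fun f hf h hfh => (sieve_step hyz hc s1 s2 f hf h).trans (by linarith)) hgood H (subset_refl H)
  rw [hH] at t1
  have t3 := piH_le H N z (ro y)
  refine up_calc (u := ∑ d ∈ Icc 1 (z ^ 2), c d / d) (V := Vz y) (PTy := PT (pat H) y)
    (W := ∑ n ∈ Icc 1 N, WH eP (ro z) (ro y) H ∅ n) (zr := z) hx hx8 hε hc0 hL hN0 hx4 hLb hu0 hu1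
    (Vz_nonneg y) ?_ (PT_nonneg _ _) hct hpt ?_ rfl hzx ?_
  · have g1 := GG_low y z hz1
    have h14 : 0 < 1 / 4 - x := by linarith
    have g2 : 0 < Real.log z := lt_of_lt_of_le (mul_pos h14 hL0) hlz
    have g3 : (∑ d ∈ Icc 1 (z ^ 2), c d / d) * Vz y ≤ 1 / Real.log z := by
      rw [s3, one_div_mul_eq_div, div_le_div_iff₀ (by linarith) g2]
      linarith
    refine g3.trans ?_
    have g4 : 4 / (1 - 4 * x) / Real.log N = 1 / ((1 / 4 - x) * Real.log N) := by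
      have h1 : 1 - 4 * x = 4 * (1 / 4 - x) := by ring
      rw [h1]
      have h2 := h14.ne'
      field_simp
    rw [g4]
    exact one_div_le_one_div_of_le (mul_pos h14 hL0) hlz
  · have := (abs_le.1 hm0).2
    linarith
  · push_cast at t1
    linarith

/-- **the upper bound for almost all sets of shifts** -/
theorem upper_main (k : ℕ) (ε : ℝ) (hε : 0 < ε) : ∃ B : ℕ, ∀ᶠ N : ℕ in atTop,
    ∀ A : Finset ℕ, (∀ a ∈ A, 1 ≤ a ∧ a ≤ N) → ∀ Bad : Finset (Finset ℕ),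
    (∀ H ∈ Bad, H ∈ A.powersetCard (k + 1) ∧ Adm (pat H) ∧
      (4 ^ (k + 1) + ε) * CT (pat H) * (N / Real.log N ^ (k + 2)) < piH H N) →
    (Bad.card : ℝ) ≤ A.card.choose k * Real.log N ^ B := by
  classical
  obtain ⟨x, hx, hx8, hx4⟩ := exists_small (k + 1) (ε / 2) (by positivity)
  obtain ⟨κ, hκ, hκ1, C, hfew⟩ := few_par (k + 4) x hx (by linarith)
  obtain ⟨c0, hc0, hlow⟩ := PT_low (k + 1)
  have hm0 := main0 κ hκ hκ1 (k + 1) (k + 4) x hx (by linarith)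
  obtain ⟨M, hM⟩ : ∃ M : ℕ, M = ⌈((k : ℝ) + 2) ^ 2 * (2 / x)⌉₊ + 1 := ⟨_, rfl⟩
  refine ⟨C + 1, ?_⟩
  have e1 := ev_logN (eventually_ge_atTop ((2 : ℝ) ^ (k + 1)))
  have e1' := ev_logN (eventually_ge_atTop (2 * (k + 4) / (ε * c0)))
  have e1'' := ev_logN (eventually_ge_atTop (8 / x))
  have e2 := ev_logN (ev_pow_exp (k + 4) (1 / 2) 1 (by norm_num))
  filter_upwards [hfew, hm0, yN_facts κ hκ hκ1 M 8, e1, e1', e1'', e2, eventually_ge_atTop 3] with N h1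
    h2 hyf h3 h3' h3'' h4 hN A hA Bad hBad
  obtain ⟨y1, y2, y3, y4, y5⟩ := hyf
  have hL1 : 1 ≤ Real.log N := le_trans (one_le_pow₀ (by norm_num)) h3
  have hN0 : (0 : ℝ) < N := by positivity
  obtain ⟨z, hz1, hz2, hz3, hz4, hz5⟩ := z_facts x hx hx8 N (yN κ N) hN y4 h3''
  obtain ⟨c, hc, s1, s2, s3⟩ := sel (yN κ N) z hz1
  have hzx : (z : ℝ) ≤ N / Real.log N ^ (k + 4) := by
    refine hz5.trans ?_
    rw [le_div_iff₀ (by positivity)]
    have g2 : Real.log N ^ (k + 4) ≤ Real.exp (Real.log N / 2) := by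
      have := h4
      rw [one_mul] at this
      calc Real.log N ^ (k + 4) ≤ Real.exp (1 / 2 * Real.log N) := this
        _ = Real.exp (Real.log N / 2) := by congr 1; ring
    calc Real.exp (Real.log N / 2) * Real.log N ^ (k + 4) ≤
          Real.exp (Real.log N / 2) * Real.exp (Real.log N / 2) :=
          mul_le_mul_of_nonneg_left g2 (Real.exp_pos _).le
      _ = N := by
          rw [← Real.exp_add, add_halves, Real.exp_log hN0]
  have hbad : ∀ H ∈ Bad, H ∈ A.powersetCard (k + 1) ∧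
      ¬ Good eP (ro z) (ro (yN κ N)) (LD (yN κ N) (z ^ 2) N) (N / Real.log N ^ (k + 4)) H := by
    intro H hH
    obtain ⟨b1, b2, b3⟩ := hBad H hH
    refine ⟨b1, fun hg => ?_⟩
    rw [mem_powersetCard] at b1
    have h0 : 0 ∉ H := fun h => by
      have := (hA 0 (b1.1 h)).1
      omega
    obtain ⟨c1, c2⟩ := hlow (pat H) (by rw [card_pat h0, b1.2]) b2
    have hpt : PT (pat H) (yN κ N) ≤ (1 + x) * CT (pat H) := by
      have hy1 : 1 ≤ M := by omega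
      refine PT_le_CT (pat H) x hx (by linarith) (yN κ N) ?_ (by omega)
      rw [card_pat h0, b1.2]
      have g1 : ((k : ℝ) + 2) ^ 2 * (2 / x) ≤ M := by
        rw [hM]
        push_cast
        have := Nat.le_ceil (((k : ℝ) + 2) ^ 2 * (2 / x))
        linarith
      have g2 : (M : ℝ) ≤ yN κ N := by exact_mod_cast y5
      have e : (((k + 1 + 1 : ℕ) : ℝ)) ^ 2 = ((k : ℝ) + 2) ^ 2 := by push_cast; ring
      rw [e]
      linarith
    have := good_bound hx hx8 hε hc0 hx4 hN hL1 h3' hz1 hz2 hz3 hzx hc s1 s2 s3 b1.2 h0 hg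
      (h2 (ro z) H h0 b1.2) c2 hpt
    linarith
  have hfinal := few_bad (K := Real.log N ^ C) (by positivity) eP_bd (ro_bd z) (ro_bd (yN κ N))
    (h1 (z ^ 2) hz4) k A (fun a ha => (hA a ha).2) Bad hbad
  refine hfinal.trans (mul_le_mul_of_nonneg_left ?_ (Nat.cast_nonneg _))
  have g1 : (2 : ℝ) ^ k ≤ Real.log N := by
    have : (2 : ℝ) ^ k ≤ 2 ^ (k + 1) := pow_le_pow_right₀ (by norm_num) (by omega)
    linarith
  calc (2 : ℝ) ^ k * Real.log N ^ C ≤ Real.log N * Real.log N ^ C :=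
        mul_le_mul_of_nonneg_right g1 (by positivity)
    _ = Real.log N ^ (C + 1) := by rw [pow_succ]; ring

end Pool.Agent.Y822
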